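import Pool.Agent.LibEis68.ADefs

open Complex Polynomial Matrix
open scoped ComplexConjugate MatrixGroups UpperHalfPlane

namespace Pool.Agent.LibEis68

/-- Absolute convergence of the lattice sums. -/
theorem lat_summable {a b : ℕ} (hab : 3 ≤ a + b) {τ : ℂ} (hτ : 0 < τ.im) :
    Summable fun v : Fin 2 → ℤ =>
      (((v 0 : ℂ) * τ + v 1) ^ a * ((v 0 : ℂ) * conj τ + v 1) ^ b)⁻¹ := by
  have h := EisensteinSeries.summable_norm_eisSummand (k := ((a + b : ℕ) : ℤ))
    (by exact_mod_cast hab) ⟨τ, hτ⟩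
  apply Summable.of_norm
  refine h.congr fun v => ?_
  have h1 : ‖(v 0 : ℂ) * conj τ + v 1‖ = ‖(v 0 : ℂ) * τ + v 1‖ := by
    rw [← Complex.norm_conj ((v 0 : ℂ) * τ + v 1)]
    simp
  rw [norm_inv, norm_mul, norm_pow, norm_pow, h1, ← pow_add]
  unfold EisensteinSeries.eisSummand
  rw [norm_zpow, _root_.zpow_neg, zpow_natCast]

end Pool.Agent.LibEis68
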