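import Pool.Agent.LibEis68.ADefs

open Complex Polynomial Matrix
open scoped ComplexConjugate MatrixGroups UpperHalfPlane

namespace Pool.Agent.LibEis68

/-- right multiplication by `γ` -/
private def a02_equiv (γ : SL(2, ℤ)) : (Fin 2 → ℤ) ≃ (Fin 2 → ℤ) where
  toFun v := ![v 0 * γ 0 0 + v 1 * γ 1 0, v 0 * γ 0 1 + v 1 * γ 1 1]
  invFun v := ![v 0 * γ 1 1 - v 1 * γ 1 0, -(v 0 * γ 0 1) + v 1 * γ 0 0]
  left_inv v := by
    have hd := γ.det_coe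
    rw [Matrix.det_fin_two] at hd
    ext i
    fin_cases i
    · simp
      linear_combination v 0 * hd
    · simp
      linear_combination v 1 * hd
  right_inv v := by
    have hd := γ.det_coe
    rw [Matrix.det_fin_two] at hd
    ext i
    fin_cases i
    · simp
      linear_combination v 0 * hd
    · simp
      linear_combination v 1 * hd

/-- Equivariance of the lattice sums. -/
theorem lat_smul (a b : ℕ) (γ : SL(2, ℤ)) (τ : ℍ) :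
    lat a b ((γ • τ : ℍ) : ℂ) = ((γ 1 0 : ℂ) * τ + γ 1 1) ^ a *
      ((γ 1 0 : ℂ) * conj (τ : ℂ) + γ 1 1) ^ b * lat a b τ := by
  have h0 : (γ 1 0 : ℂ) * τ + γ 1 1 ≠ 0 := by
    have := UpperHalfPlane.denom_ne_zero γ τ
    simpa [UpperHalfPlane.denom] using this
  have h1 : (γ 1 0 : ℂ) * conj (τ : ℂ) + γ 1 1 ≠ 0 := by
    intro h
    apply h0
    have := congrArg conj h
    simpa using this
  have h2 : ((γ • τ : ℍ) : ℂ) = ((γ 0 0 : ℂ) * τ + γ 0 1) / ((γ 1 0 : ℂ) * τ + γ 1 1) := by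
    rw [UpperHalfPlane.specialLinearGroup_apply]
    simp
  have h3 : conj ((γ • τ : ℍ) : ℂ) =
      ((γ 0 0 : ℂ) * conj (τ : ℂ) + γ 0 1) / ((γ 1 0 : ℂ) * conj (τ : ℂ) + γ 1 1) := by
    rw [h2]; simp
  unfold lat
  rw [← tsum_mul_left, ← (a02_equiv γ).tsum_eq (fun v => ((γ 1 0 : ℂ) * τ + γ 1 1) ^ a *
      ((γ 1 0 : ℂ) * conj (τ : ℂ) + γ 1 1) ^ b *
      (((v 0 : ℂ) * τ + v 1) ^ a * ((v 0 : ℂ) * conj (τ : ℂ) + v 1) ^ b)⁻¹)]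
  congr 1
  ext v
  rw [h3, h2]
  have e0 : ((a02_equiv γ v) 0 : ℂ) = v 0 * γ 0 0 + v 1 * γ 1 0 := by simp [a02_equiv]
  have e1 : ((a02_equiv γ v) 1 : ℂ) = v 0 * γ 0 1 + v 1 * γ 1 1 := by simp [a02_equiv]
  rw [e0, e1]
  have e2 : (v 0 : ℂ) * (((γ 0 0 : ℂ) * τ + γ 0 1) / ((γ 1 0 : ℂ) * τ + γ 1 1)) + v 1 =
      (((v 0 : ℂ) * γ 0 0 + v 1 * γ 1 0) * τ + (v 0 * γ 0 1 + v 1 * γ 1 1)) /
        ((γ 1 0 : ℂ) * τ + γ 1 1) := by
    rw [mul_div_assoc', div_add' _ _ _ h0]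
    congr 1
    ring
  have e3 : (v 0 : ℂ) * (((γ 0 0 : ℂ) * conj (τ : ℂ) + γ 0 1) /
        ((γ 1 0 : ℂ) * conj (τ : ℂ) + γ 1 1)) + v 1 =
      (((v 0 : ℂ) * γ 0 0 + v 1 * γ 1 0) * conj (τ : ℂ) + (v 0 * γ 0 1 + v 1 * γ 1 1)) /
        ((γ 1 0 : ℂ) * conj (τ : ℂ) + γ 1 1) := by
    rw [mul_div_assoc', div_add' _ _ _ h1]
    congr 1
    ring
  rw [e2, e3, div_pow, div_pow, div_mul_div_comm, inv_div, div_eq_mul_inv]

end Pool.Agent.LibEis68
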