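import Pool.Agent.LibEis68.ADefs

open Complex Polynomial Matrix
open scoped ComplexConjugate MatrixGroups UpperHalfPlane

namespace Pool.Agent.LibEis68

theorem lat_conj (a b : ℕ) (τ : ℂ) : lat b a τ = conj (lat a b τ) := by
  unfold lat
  rw [Complex.conj_tsum]
  congr 1
  ext v
  simp [mul_comm]

theorem lat_neg_conj (a b : ℕ) (τ : ℂ) : lat a b (-conj τ) = conj (lat a b τ) := by
  unfold lat
  rw [Complex.conj_tsum]
  rw [← (({ toFun := fun v => ![-v 0, v 1]
            invFun := fun v => ![-v 0, v 1]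
            left_inv := fun v => by ext i; fin_cases i <;> simp
            right_inv := fun v => by ext i; fin_cases i <;> simp } :
            (Fin 2 → ℤ) ≃ (Fin 2 → ℤ))).tsum_eq
    (fun v => (((v 0 : ℂ) * -conj τ + v 1) ^ a * ((v 0 : ℂ) * conj (-conj τ) + v 1) ^ b)⁻¹)]
  congr 1
  ext v
  simp

end Pool.Agent.LibEis68
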