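import Pool.Agent.LibEis68.A01

open Complex Polynomial Matrix
open scoped ComplexConjugate MatrixGroups UpperHalfPlane

namespace Pool.Agent.LibEis68

private theorem a04_term (s : ℕ) (τ : ℂ) (v : Fin 2 → ℤ) :
    (((v 0 : ℂ) * τ + v 1) ^ s * ((v 0 : ℂ) * conj τ + v 1) ^ s)⁻¹ =
      (((Complex.normSq ((v 0 : ℂ) * τ + v 1) ^ s)⁻¹ : ℝ) : ℂ) := by
  have h : ((v 0 : ℂ) * conj τ + v 1) = conj ((v 0 : ℂ) * τ + v 1) := by
    simp
  rw [h, ← mul_pow, Complex.mul_conj]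
  push_cast
  rfl

/-- The sum with equal exponents is positive. -/
theorem lat_self_ne_zero {s : ℕ} (hs : 2 ≤ s) {τ : ℂ} (hτ : 0 < τ.im) : lat s s τ ≠ 0 := by
  have hsum := lat_summable (a := s) (b := s) (by omega) hτ
  unfold lat
  simp_rw [a04_term] at hsum ⊢
  have hsum' : Summable fun v : Fin 2 → ℤ => (Complex.normSq ((v 0 : ℂ) * τ + v 1) ^ s)⁻¹ := by
    exact_mod_cast hsum
  rw [← Complex.ofReal_tsum]
  rw [Complex.ofReal_ne_zero]
  apply ne_of_gt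
  refine hsum'.tsum_pos (fun v => ?_) ![0, 1] ?_
  · exact inv_nonneg.2 (pow_nonneg (Complex.normSq_nonneg _) _)
  · simp

end Pool.Agent.LibEis68
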