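import Pool.Agent.LibEis68.A01

open Complex Polynomial Matrix
open scoped ComplexConjugate MatrixGroups UpperHalfPlane

namespace Pool.Agent.LibEis68

open EisensteinSeries in
/-- Grouping the pairs `(m, n) ≠ 0` by their greatest common divisor. -/
theorem lat_eq_latc {a b : ℕ} (hab : 3 ≤ a + b) {τ : ℂ} (hτ : 0 < τ.im) :
    lat a b τ = (∑' r : ℕ, ((r : ℂ) ^ (a + b))⁻¹) * latc a b τ := by
  classical
  set f : (Fin 2 → ℤ) → ℂ := fun v =>
    (((v 0 : ℂ) * τ + v 1) ^ a * ((v 0 : ℂ) * conj τ + v 1) ^ b)⁻¹ with hf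
  have hfs : Summable f := lat_summable hab hτ
  have hfn : Summable (fun v => ‖f v‖) := hfs.norm
  have hk1 : 1 < a + b := by omega
  have hhom : ∀ (r : ℕ) (v : Fin 2 → ℤ), f (r • v) = ((r : ℂ) ^ (a + b))⁻¹ * f v := by
    intro r v
    have e : ∀ i, (((r • v) i : ℤ) : ℂ) = (r : ℂ) * (v i : ℂ) := by
      intro i
      rw [Pi.smul_apply, nsmul_eq_mul, Int.cast_mul, Int.cast_natCast]
    simp only [hf, e]
    rw [← mul_inv]
    congr 1
    rw [show (r : ℂ) * (v 0 : ℂ) * τ + (r : ℂ) * (v 1 : ℂ) = r * ((v 0 : ℂ) * τ + v 1) by ring,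
      show (r : ℂ) * (v 0 : ℂ) * conj τ + (r : ℂ) * (v 1 : ℂ) =
        r * ((v 0 : ℂ) * conj τ + v 1) by ring, mul_pow, mul_pow, pow_add]
    ring
  have hzs : Summable fun r : ℕ => ‖((r : ℂ) ^ (a + b))⁻¹‖ := by
    simp only [norm_inv, norm_pow, Complex.norm_natCast]
    exact Real.summable_nat_pow_inv.mpr hk1
  have h2 : latc a b τ = ∑' v : gammaSet 1 1 0, f v := by
    unfold latc
    exact (Equiv.tsum_eq (Equiv.subtypeEquivProp (funext fun v =>
      propext (mem_gammaSet_one v).symm)) (fun v : gammaSet 1 1 0 => f v))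
  have h1 : lat a b τ = ∑' v : Fin 2 → ℤ, f v := rfl
  have hsub : Summable fun v : gammaSet 1 1 0 => f v := hfs.subtype _
  have hsubn : Summable fun v : gammaSet 1 1 0 => ‖f v‖ := hfn.subtype _
  have hmul : Summable fun x : ℕ × gammaSet 1 1 0 => ((x.1 : ℂ) ^ (a + b))⁻¹ * f x.2 :=
    summable_mul_of_summable_norm (f := fun (n : ℕ) ↦ ((n : ℂ) ^ (a + b))⁻¹)
      (g := fun (v : gammaSet 1 1 0) ↦ f v) hzs hsubn
  rw [h2, h1, ← gammaSetDivGcdSigmaEquiv.symm.tsum_eq, tsum_mul_tsum_of_summable_norm hzs hsubn,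
    hmul.tsum_prod, Summable.tsum_sigma]
  · refine tsum_congr fun r => ?_
    simp only [gammaSetDivGcdSigmaEquiv_symm_eq]
    have hr : ∀ v : gammaSet 1 r 0, f v = ((r : ℂ) ^ (a + b))⁻¹ * f (divIntMap r v) := by
      intro v
      conv_lhs => rw [gammaSet_eq_gcd_mul_divIntMap v.2]
      exact hhom r _
    rcases eq_or_ne r 0 with rfl | hb
    · have h0 : (((0 : ℕ) : ℂ) ^ (a + b))⁻¹ = 0 := by
        rw [Nat.cast_zero, zero_pow (by omega : a + b ≠ 0), _root_.inv_zero]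
      rw [tsum_congr hr]
      simp only [h0, zero_mul, tsum_zero]
    · have : NeZero r := ⟨hb⟩
      rw [tsum_congr hr, tsum_mul_left, tsum_mul_left]
      congr 1
      exact (gammaSetDivGcdEquiv r).tsum_eq (fun v : gammaSet 1 1 0 => f v)
  · exact gammaSetDivGcdSigmaEquiv.symm.summable_iff.mpr hfs

theorem lat_ne_zero_of_latc {a b : ℕ} (hab : 3 ≤ a + b) {τ : ℂ} (hτ : 0 < τ.im)
    (h : latc a b τ ≠ 0) : lat a b τ ≠ 0 := by
  rw [lat_eq_latc hab hτ]
  refine mul_ne_zero ?_ h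
  have h1 : (∑' r : ℕ, ((r : ℂ) ^ (a + b))⁻¹) = riemannZeta ((a + b : ℕ) : ℂ) := by
    rw [zeta_nat_eq_tsum_of_gt_one (by omega)]
    simp
  rw [h1]
  apply riemannZeta_ne_zero_of_one_lt_re
  have : ((1 : ℕ) : ℝ) < ((a + b : ℕ) : ℝ) := by exact_mod_cast (by omega : 1 < a + b)
  simpa using this

end Pool.Agent.LibEis68
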