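import Pool.Agent.LibEis68.A01

open Complex Polynomial Matrix
open scoped ComplexConjugate MatrixGroups UpperHalfPlane

namespace Pool.Agent.LibEis68

private lemma a06_E {ρ : ℝ} {E : ℂ} (h : Pos ρ E) : E * conj E = 1 := by
  rw [mul_conj, normSq_apply]
  have := h.norm_one
  have h2 : E.re * E.re + E.im * E.im = 1 := by linarith [h.norm_one, sq E.re, sq E.im]
  rw [h2]; simp

private lemma a06_ne {ρ : ℝ} {E : ℂ} (h : Pos ρ E) : (ρ : ℂ) ≠ 0 ∧ E ≠ 0 ∧ conj E ≠ 0 := by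
  have h1 := h.one_lt
  have h2 := a06_E h
  refine ⟨?_, left_ne_zero_of_mul_eq_one h2, right_ne_zero_of_mul_eq_one h2⟩
  have : ρ ≠ 0 := by linarith
  exact_mod_cast this

private lemma a06_im {ρ : ℝ} {E : ℂ} (h : Pos ρ E) : 0 < (((ρ : ℂ) * E) ^ 2).im := by
  have h1 := h.im_pos
  have h2 := h.one_lt
  have h3 : (((ρ : ℂ) * E) ^ 2).im = 2 * ρ ^ 2 * (E.re * E.im) := by
    rw [sq]
    simp only [mul_im, mul_re, ofReal_re, ofReal_im]
    ring
  rw [h3]
  positivity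

private lemma a06_term {s l : ℕ} {ρ : ℝ} {E : ℂ} (h : Pos ρ E) (m n : ℤ) :
    ((ρ : ℂ) * E) ^ (s + l) * ((ρ : ℂ) * conj E) ^ (s - l) *
      ((((m : ℂ) * ((ρ : ℂ) * E) ^ 2 + n) ^ (s + l) *
        ((m : ℂ) * conj (((ρ : ℂ) * E) ^ 2) + n) ^ (s - l))⁻¹) = tt s l ρ E m n := by
  obtain ⟨h1, h2, h3⟩ := a06_ne h
  have hE := a06_E h
  have e1 : (m : ℂ) * ((ρ : ℂ) * E) ^ 2 + n = ((ρ : ℂ) * E) * vv ρ E m n := by
    unfold vv
    have : (ρ : ℂ) * E * (m * (ρ * E) + n * ((ρ : ℂ)⁻¹ * conj E)) =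
      m * ((ρ : ℂ) * E) ^ 2 + n * ((ρ : ℂ) * (ρ : ℂ)⁻¹) * (E * conj E) := by ring
    rw [this, hE, mul_inv_cancel₀ h1]
    ring
  have e2 : (m : ℂ) * conj (((ρ : ℂ) * E) ^ 2) + n = ((ρ : ℂ) * conj E) * conj (vv ρ E m n) := by
    have := congrArg conj e1
    simpa using this
  rw [e1, e2, mul_pow ((ρ : ℂ) * E), mul_pow ((ρ : ℂ) * conj E)]
  unfold tt
  have n1 : ((ρ : ℂ) * E) ^ (s + l) ≠ 0 := pow_ne_zero _ (mul_ne_zero h1 h2)
  have n2 : ((ρ : ℂ) * conj E) ^ (s - l) ≠ 0 := pow_ne_zero _ (mul_ne_zero h1 h3)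
  rw [mul_mul_mul_comm, mul_inv, ← mul_assoc, mul_inv_cancel₀ (mul_ne_zero n1 n2), one_mul]

/-- Summability of the normalised terms over all pairs. -/
theorem tt_summable {s l : ℕ} (hs : 2 ≤ s) (hl : l ≤ s) {ρ : ℝ} {E : ℂ} (h : Pos ρ E) :
    Summable fun v : ℤ × ℤ => tt s l ρ E v.1 v.2 := by
  have h1 := (lat_summable (a := s + l) (b := s - l) (by omega) (a06_im h)).mul_left
    (((ρ : ℂ) * E) ^ (s + l) * ((ρ : ℂ) * conj E) ^ (s - l))
  simp only [a06_term h] at h1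
  exact (h1.comp_injective (finTwoArrowEquiv ℤ).symm.injective).congr fun v => rfl

private lemma a06_neg {s l : ℕ} (hl : l ≤ s) (ρ : ℝ) (E : ℂ) (m n : ℤ) :
    tt s l ρ E (-m) (-n) = tt s l ρ E m n := by
  have h1 : vv ρ E (-m) (-n) = -vv ρ E m n := by
    unfold vv; push_cast; ring
  unfold tt
  rw [h1, map_neg, neg_pow, neg_pow (conj (vv ρ E m n))]
  have h2 : (-1 : ℂ) ^ (s + l) * (-1) ^ (s - l) = 1 := by
    rw [← pow_add, show s + l + (s - l) = 2 * s by omega, pow_mul]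
    simp
  rw [mul_mul_mul_comm, h2, one_mul]

private def a06_F : Finset (ℤ × ℤ) := {(1, 0), (-1, 0), (0, 1), (0, -1), (1, 1), (-1, -1), (1, -1), (-1, 1)}

private lemma a06_split (v : ℤ × ℤ) : IsCoprime v.1 v.2 ↔ v ∈ a06_F ∨ v ∈ Rest := by
  constructor
  · intro hv
    by_cases h3 : 3 ≤ v.1 ^ 2 + v.2 ^ 2
    · exact Or.inr ⟨hv, h3⟩
    · left
      obtain ⟨m, n⟩ := v
      simp only at hv h3
      have hm : -1 ≤ m ∧ m ≤ 1 := by constructor <;> nlinarith [sq_nonneg n]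
      have hn : -1 ≤ n ∧ n ≤ 1 := by constructor <;> nlinarith [sq_nonneg m]
      obtain ⟨hm1, hm2⟩ := hm
      obtain ⟨hn1, hn2⟩ := hn
      unfold a06_F
      interval_cases m <;> interval_cases n <;> first | decide | (exfalso; revert hv; decide)
  · rintro (hv | hv)
    · unfold a06_F at hv
      simp only [Finset.mem_insert, Finset.mem_singleton] at hv
      rcases hv with rfl | rfl | rfl | rfl | rfl | rfl | rfl | rfl <;>
        · rw [Int.isCoprime_iff_gcd_eq_one]; decide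
    · exact hv.1

private lemma a06_disj (v : ℤ × ℤ) (hv : v ∈ a06_F) : v ∉ Rest := by
  intro h
  have h3 := h.2
  unfold a06_F at hv
  simp only [Finset.mem_insert, Finset.mem_singleton] at hv
  rcases hv with rfl | rfl | rfl | rfl | rfl | rfl | rfl | rfl <;> norm_num at h3

/-- Change of variables `τ = (ρE)²` and splitting off the eight shortest coprime pairs. -/
theorem latc_eq {s l : ℕ} (hs : 2 ≤ s) (hl : l ≤ s) {ρ : ℝ} {E : ℂ} (h : Pos ρ E) :
    ((ρ : ℂ) * E) ^ (s + l) * ((ρ : ℂ) * conj E) ^ (s - l) *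
        latc (s + l) (s - l) (((ρ : ℂ) * E) ^ 2) =
      2 * (tt s l ρ E 1 0 + tt s l ρ E 0 1 + tt s l ρ E 1 1 + tt s l ρ E 1 (-1)) +
        ∑' v : Rest, tt s l ρ E v.1.1 v.1.2 := by
  classical
  have hsum := tt_summable hs hl h
  set f : ℤ × ℤ → ℂ := fun v => tt s l ρ E v.1 v.2 with hf
  unfold latc
  rw [← tsum_mul_left]
  simp only [a06_term h]
  -- pass to pairs
  let e : {v : Fin 2 → ℤ // IsCoprime (v 0) (v 1)} ≃ {v : ℤ × ℤ | IsCoprime v.1 v.2} :=
    (finTwoArrowEquiv ℤ).subtypeEquiv (fun v => by simp)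
  have h1 : ∑' v : {v : Fin 2 → ℤ // IsCoprime (v 0) (v 1)}, tt s l ρ E (v.1 0) (v.1 1) =
      ∑' v : {v : ℤ × ℤ | IsCoprime v.1 v.2}, f v := by
    rw [← e.tsum_eq]
    rfl
  rw [h1, tsum_subtype, tsum_subtype (s := Rest) (f := f)]
  have h2 : Set.indicator {v : ℤ × ℤ | IsCoprime v.1 v.2} f =
      fun v => Set.indicator (a06_F : Set (ℤ × ℤ)) f v + Set.indicator Rest f v := by
    funext v
    by_cases h3 : v ∈ a06_F
    · rw [Set.indicator_of_mem (show v ∈ {v : ℤ × ℤ | IsCoprime v.1 v.2} from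
        (a06_split v).2 (Or.inl h3)), Set.indicator_of_mem (Finset.mem_coe.2 h3),
        Set.indicator_of_notMem (a06_disj v h3), add_zero]
    · rw [Set.indicator_of_notMem (fun h4 => h3 (Finset.mem_coe.1 h4)), zero_add]
      by_cases h4 : v ∈ Rest
      · rw [Set.indicator_of_mem (show v ∈ {v : ℤ × ℤ | IsCoprime v.1 v.2} from
          (a06_split v).2 (Or.inr h4)), Set.indicator_of_mem h4]
      · rw [Set.indicator_of_notMem, Set.indicator_of_notMem h4]
        intro h5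
        rcases (a06_split v).1 h5 with h6 | h6
        · exact h3 h6
        · exact h4 h6
  rw [h2, (hsum.indicator _).tsum_add (hsum.indicator _)]
  congr 1
  rw [← tsum_subtype, Finset.tsum_subtype']
  unfold a06_F
  rw [Finset.sum_insert (by decide), Finset.sum_insert (by decide), Finset.sum_insert (by decide),
    Finset.sum_insert (by decide), Finset.sum_insert (by decide), Finset.sum_insert (by decide),
    Finset.sum_insert (by decide), Finset.sum_singleton]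
  have n1 := a06_neg hl ρ E 1 0
  have n2 := a06_neg hl ρ E 0 1
  have n3 := a06_neg hl ρ E 1 1
  have n4 := a06_neg hl ρ E 1 (-1)
  simp only [neg_zero, neg_neg] at n1 n2 n3 n4
  simp only [hf]
  rw [n1, n2, n3, n4]
  ring

end Pool.Agent.LibEis68
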