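import Pool.Agent.LibEis68.A06

open Complex Polynomial Matrix
open scoped ComplexConjugate MatrixGroups UpperHalfPlane

namespace Pool.Agent.LibEis68

/-- The swap on `Rest`. -/
private def swapRest : Rest ≃ Rest where
  toFun v := ⟨(v.1.2, v.1.1), v.2.1.symm, by have := v.2.2; simp only; linarith⟩
  invFun v := ⟨(v.1.2, v.1.1), v.2.1.symm, by have := v.2.2; simp only; linarith⟩
  left_inv _ := rfl
  right_inv _ := rfl

/-- Symmetrising the tail under `(m, n) ↦ (n, m)`. -/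
theorem tail_symm {s l : ℕ} (hs : 2 ≤ s) (hl : l ≤ s) {ρ : ℝ} {E : ℂ} (h : Pos ρ E) :
    2 * ∑' v : Rest, tt s l ρ E v.1.1 v.1.2 =
      ∑' v : Rest, (tt s l ρ E v.1.1 v.1.2 + tt s l ρ E v.1.2 v.1.1) := by
  have h1 : Summable fun v : Rest => tt s l ρ E v.1.1 v.1.2 := (tt_summable hs hl h).subtype Rest
  have h2 : Summable fun v : Rest => tt s l ρ E v.1.2 v.1.1 :=
    (swapRest.summable_iff (f := fun v : Rest => tt s l ρ E v.1.1 v.1.2)).mpr h1
  rw [h1.tsum_add h2, two_mul]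
  congr 1
  exact (swapRest.tsum_eq (fun v : Rest => tt s l ρ E v.1.1 v.1.2)).symm

end Pool.Agent.LibEis68
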