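import Pool.Agent.LibEis68.ADefs

open Complex Polynomial Matrix
open scoped ComplexConjugate MatrixGroups UpperHalfPlane

namespace Pool.Agent.LibEis68

theorem qf_pos {m n : ℤ} (h : (m, n) ≠ (0, 0)) : 1 ≤ qf m n := by
  have h' : m ≠ 0 ∨ n ≠ 0 := by
    by_contra hc
    push Not at hc
    exact h (by rw [hc.1, hc.2])
  have hp : 1 ≤ m ^ 2 + n ^ 2 := by
    rcases h' with h1 | h1
    · have : 0 < m ^ 2 := by positivity
      nlinarith [sq_nonneg n]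
    · have : 0 < n ^ 2 := by positivity
      nlinarith [sq_nonneg m]
  unfold qf
  rcases le_total 0 (m * n) with h0 | h0
  · rw [min_eq_right h0]; linarith
  · rw [min_eq_left h0]
    nlinarith [sq_nonneg (m + n)]

theorem qf_swap (m n : ℤ) : qf n m = qf m n := by
  unfold qf
  rw [mul_comm n m]
  ring

theorem three_le_qf {m n : ℤ} (h : (m, n) ∈ Rest) : 3 ≤ qf m n := by
  obtain ⟨hc, h3⟩ := h
  simp only at hc h3
  unfold qf
  rcases le_total 0 (m * n) with h0 | h0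
  · rw [min_eq_right h0]; linarith
  · rw [min_eq_left h0]
    by_cases hs : m + n = 0
    · have hn : n = -m := by linarith
      subst hn
      have h1 : 3 ≤ 2 * m ^ 2 := by nlinarith
      have h2 : 2 ≤ m ^ 2 := by omega
      have h4 : 2 ≤ |m| := by
        by_contra hlt
        have : |m| ≤ 1 := by omega
        have := sq_abs m
        nlinarith [abs_nonneg m]
      have h5 : 4 ≤ m ^ 2 := by
        rw [← sq_abs m]; nlinarith
      nlinarith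
    · have h1 : 1 ≤ (m + n) ^ 2 := by
        have : 0 < (m + n) ^ 2 := by positivity
        omega
      rcases eq_or_lt_of_le h0 with h4 | h4
      · rw [h4]; linarith
      · have h5 : m * n ≤ -1 := by omega
        -- m² + n² + mn = (m+n)² - mn
        by_cases h6 : m * n = -1
        · have h7 : m ^ 2 + n ^ 2 = (m + n) ^ 2 + 2 := by nlinarith
          -- m n = -1 forces m + n = 0
          exfalso
          have h8 : m = 1 ∨ m = -1 := by
            have : IsUnit m := IsUnit.of_mul_eq_one (-n) (by linarith)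
            exact Int.isUnit_iff.mp this
          rcases h8 with rfl | rfl
          · apply hs; linarith
          · apply hs; linarith
        · have h7 : m * n ≤ -2 := by omega
          nlinarith

theorem qf_lower (m n : ℤ) : 3 * m ^ 2 ≤ 4 * qf m n ∧ 3 * n ^ 2 ≤ 4 * qf m n := by
  unfold qf
  rcases le_total 0 (m * n) with h0 | h0
  · rw [min_eq_right h0]
    constructor <;> nlinarith [sq_nonneg m, sq_nonneg n]
  · rw [min_eq_left h0]
    constructor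
    · nlinarith [sq_nonneg (m + 2 * n)]
    · nlinarith [sq_nonneg (2 * m + n)]

private theorem vv_re (ρ : ℝ) (E : ℂ) (m n : ℤ) :
    (vv ρ E m n).re = (m * ρ + n * ρ⁻¹) * E.re := by
  unfold vv
  simp only [add_re, mul_re, intCast_re, intCast_im, ofReal_re, ofReal_im, ← ofReal_inv, conj_re,
    conj_im]
  ring

private theorem vv_im (ρ : ℝ) (E : ℂ) (m n : ℤ) :
    (vv ρ E m n).im = (m * ρ - n * ρ⁻¹) * E.im := by
  unfold vv
  simp only [add_im, mul_re, mul_im, intCast_re, intCast_im, ofReal_re, ofReal_im, ← ofReal_inv,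
    conj_re, conj_im]
  ring

theorem normSq_vv {ρ : ℝ} (hρ : ρ ≠ 0) (E : ℂ) (hE : E.re ^ 2 + E.im ^ 2 = 1) (m n : ℤ) :
    normSq (vv ρ E m n) =
      m ^ 2 * ρ ^ 2 + n ^ 2 * (ρ ^ 2)⁻¹ + 2 * m * n * (E.re ^ 2 - E.im ^ 2) := by
  rw [normSq_apply, vv_re, vv_im]
  have h1 : ρ * ρ⁻¹ = 1 := mul_inv_cancel₀ hρ
  have h2 : (ρ ^ 2)⁻¹ = ρ⁻¹ ^ 2 := by rw [inv_pow]
  rw [h2]
  linear_combination (m ^ 2 * ρ ^ 2 + n ^ 2 * ρ⁻¹ ^ 2) * hE + 2 * m * n * (E.re ^ 2 - E.im ^ 2) * h1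

theorem im_vv_sq {ρ : ℝ} (hρ : ρ ≠ 0) (E : ℂ) (m n : ℤ) :
    (vv ρ E m n ^ 2).im = (m ^ 2 * ρ ^ 2 - n ^ 2 * (ρ ^ 2)⁻¹) * (2 * E.re * E.im) := by
  rw [sq, mul_im, vv_re, vv_im, ← inv_pow]
  ring

private theorem scaled {ρ : ℝ} {E : ℂ} (h : Pos ρ E) (m n : ℤ) :
    ρ ^ 2 * normSq (vv ρ E m n) =
      m ^ 2 * (ρ ^ 2) ^ 2 + n ^ 2 + 2 * m * n * (ρ ^ 2 * (E.re ^ 2 - E.im ^ 2)) := by
  have hρ : ρ ≠ 0 := by have := h.one_lt; linarith
  rw [normSq_vv hρ E h.norm_one]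
  field_simp

private theorem lower {ρ : ℝ} {E : ℂ} (h : Pos ρ E) (m n : ℤ) :
    (m : ℝ) ^ 2 + n ^ 2 + 2 * m * n * (ρ ^ 2 * (E.re ^ 2 - E.im ^ 2)) ≤
      ρ ^ 2 * normSq (vv ρ E m n) := by
  rw [scaled h]
  have h1 : 1 ≤ ρ ^ 2 := by have := h.one_lt; nlinarith
  have h2 : 1 ≤ (ρ ^ 2) ^ 2 := by nlinarith
  nlinarith [sq_nonneg (m : ℝ)]

theorem qf_le {ρ : ℝ} {E : ℂ} (h : Pos ρ E) (m n : ℤ) :
    (qf m n : ℝ) ≤ ρ ^ 2 * normSq (vv ρ E m n) := by
  refine le_trans ?_ (lower h m n)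
  have h1 : 1 ≤ ρ ^ 2 := by have := h.one_lt; nlinarith
  have h2 := h.re_le
  have h3 : 0 ≤ ρ ^ 2 * (E.re ^ 2 - E.im ^ 2) := mul_nonneg (by positivity) h.re_nonneg
  set c := ρ ^ 2 * (E.re ^ 2 - E.im ^ 2)
  unfold qf
  rcases le_total 0 (m * n) with h0 | h0
  · rw [min_eq_right h0]
    have h0' : (0:ℝ) ≤ (m:ℝ) * n := by exact_mod_cast h0
    push_cast
    nlinarith [mul_nonneg h0' h3]
  · rw [min_eq_left h0]
    have h0' : (m:ℝ) * n ≤ 0 := by exact_mod_cast h0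
    push_cast
    nlinarith [mul_nonneg (neg_nonneg.mpr h0') (sub_nonneg.mpr h2)]

theorem aux_le {ρ : ℝ} {E : ℂ} (h : Pos ρ E) (m n : ℤ) :
    (m : ℝ) ^ 2 + n ^ 2 - 2 * m * n * (E.re ^ 2 - E.im ^ 2) ≤
      3 * (ρ ^ 2 * normSq (vv ρ E m n)) := by
  refine le_trans ?_ (mul_le_mul_of_nonneg_left (lower h m n) (by norm_num))
  have h1 : 1 ≤ ρ ^ 2 := by have := h.one_lt; nlinarith
  have h2 := h.re_le
  have h3 : 0 ≤ ρ ^ 2 * (E.re ^ 2 - E.im ^ 2) := mul_nonneg (by positivity) h.re_nonneg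
  have h4 := h.re_nonneg
  have h5 : E.re ^ 2 - E.im ^ 2 ≤ ρ ^ 2 * (E.re ^ 2 - E.im ^ 2) := le_mul_of_one_le_left h4 h1
  set c' := ρ ^ 2 * (E.re ^ 2 - E.im ^ 2)
  set c := E.re ^ 2 - E.im ^ 2
  rcases le_total 0 ((m:ℝ) * n) with h0 | h0
  · nlinarith [mul_nonneg h0 h3, mul_nonneg h0 h4, sq_nonneg (m:ℝ), sq_nonneg (n:ℝ)]
  · have h6 := neg_nonneg.mpr h0
    nlinarith [mul_nonneg h6 (sub_nonneg.mpr h2), mul_nonneg h6 (sub_nonneg.mpr (h5.trans h2)),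
      sq_nonneg ((m:ℝ) + n)]

end Pool.Agent.LibEis68
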