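import Pool.Agent.LibEis68.A08

open Complex Polynomial Matrix
open scoped ComplexConjugate MatrixGroups UpperHalfPlane

namespace Pool.Agent.LibEis68

theorem norm_tt_eq {s l : ℕ} (hl : l ≤ s) {ρ : ℝ} {E : ℂ} (h : Pos ρ E) (m n : ℤ) :
    ‖tt s l ρ E m n‖ = (normSq (vv ρ E m n) ^ s)⁻¹ := by
  have _ := h
  rw [tt, norm_inv, norm_mul, norm_pow, norm_pow, RCLike.norm_conj, ← pow_add,
    show s + l + (s - l) = 2 * s by omega, pow_mul, Complex.sq_norm]

/-- The crude bound for a single term. -/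
theorem norm_tt_le {s l : ℕ} (hl : l ≤ s) {ρ : ℝ} {E : ℂ} (h : Pos ρ E) {m n : ℤ}
    (hmn : (m, n) ≠ (0, 0)) : ‖tt s l ρ E m n‖ ≤ ρ ^ (2 * s) / (qf m n : ℝ) ^ s := by
  rw [norm_tt_eq hl h]
  have h1 : (1 : ℝ) ≤ (qf m n : ℝ) := by exact_mod_cast qf_pos hmn
  have h2 := qf_le h m n
  have h0 : 0 < ρ := lt_trans zero_lt_one h.one_lt
  have h3 : 0 < normSq (vv ρ E m n) := by
    by_contra h4
    have h5 : normSq (vv ρ E m n) = 0 := le_antisymm (not_lt.1 h4) (normSq_nonneg _)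
    rw [h5, mul_zero] at h2
    linarith
  rw [pow_mul, ← one_div, div_le_div_iff₀ (by positivity) (by positivity), one_mul, ← mul_pow]
  exact pow_le_pow_left₀ (by linarith) h2 s

end Pool.Agent.LibEis68
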