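import Pool.Agent.LibEis68.A08

open Complex Polynomial Matrix
open scoped ComplexConjugate MatrixGroups UpperHalfPlane

namespace Pool.Agent.LibEis68

private theorem a10_pow_sub {a b : ℂ} {r : ℝ} (ha : ‖a‖ ≤ r) (hb : ‖b‖ ≤ r) (p : ℕ) :
    ‖a ^ p - b ^ p‖ * r ≤ p * r ^ p * ‖a - b‖ := by
  have hr : 0 ≤ r := (norm_nonneg a).trans ha
  induction p with
  | zero => simp
  | succ p ih =>
    have e : a ^ (p + 1) - b ^ (p + 1) = a ^ p * (a - b) + (a ^ p - b ^ p) * b := by ring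
    have h1 : ‖a ^ (p + 1) - b ^ (p + 1)‖ ≤ r ^ p * ‖a - b‖ + ‖a ^ p - b ^ p‖ * r := by
      rw [e]
      refine (norm_add_le _ _).trans ?_
      rw [norm_mul, norm_mul, norm_pow]
      gcongr
    calc ‖a ^ (p + 1) - b ^ (p + 1)‖ * r ≤ (r ^ p * ‖a - b‖ + ‖a ^ p - b ^ p‖ * r) * r := by
          gcongr
      _ ≤ (r ^ p * ‖a - b‖ + p * r ^ p * ‖a - b‖) * r := by gcongr
      _ = ((p + 1 : ℕ) : ℝ) * r ^ (p + 1) * ‖a - b‖ := by push_cast; ring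

private theorem a10_mul_sub {a b : ℂ} {r : ℝ} (ha : ‖a‖ ≤ r) (hb : ‖b‖ ≤ r) (p q : ℕ) :
    ‖a ^ p * conj a ^ q - b ^ p * conj b ^ q‖ * r ≤ (p + q : ℕ) * r ^ (p + q) * ‖a - b‖ := by
  have hr : 0 ≤ r := (norm_nonneg a).trans ha
  have ha' : ‖conj a‖ ≤ r := by rwa [RCLike.norm_conj]
  have hb' : ‖conj b‖ ≤ r := by rwa [RCLike.norm_conj]
  have h1 := a10_pow_sub ha hb p
  have h2 := a10_pow_sub ha' hb' q
  rw [← map_sub, RCLike.norm_conj] at h2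
  have e : a ^ p * conj a ^ q - b ^ p * conj b ^ q =
      (a ^ p - b ^ p) * conj a ^ q + b ^ p * (conj a ^ q - conj b ^ q) := by ring
  have h3 : ‖a ^ p * conj a ^ q - b ^ p * conj b ^ q‖ ≤
      ‖a ^ p - b ^ p‖ * r ^ q + r ^ p * ‖conj a ^ q - conj b ^ q‖ := by
    rw [e]
    refine (norm_add_le _ _).trans ?_
    rw [norm_mul, norm_mul, norm_pow, norm_pow]
    gcongr
  calc ‖a ^ p * conj a ^ q - b ^ p * conj b ^ q‖ * r ≤
        (‖a ^ p - b ^ p‖ * r ^ q + r ^ p * ‖conj a ^ q - conj b ^ q‖) * r := by gcongr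
    _ = (‖a ^ p - b ^ p‖ * r) * r ^ q + r ^ p * (‖conj a ^ q - conj b ^ q‖ * r) := by ring
    _ ≤ (p * r ^ p * ‖a - b‖) * r ^ q + r ^ p * (q * r ^ q * ‖a - b‖) := by gcongr
    _ = (p + q : ℕ) * r ^ (p + q) * ‖a - b‖ := by push_cast; rw [pow_add]; ring

/-- Cancellation in the imaginary part of a pair of terms. -/
theorem im_pair_le {s l : ℕ} (hs : 1 ≤ s) (hl : l ≤ s) {ρ : ℝ} {E : ℂ} (h : Pos ρ E) {m n : ℤ}
    (hmn : (m, n) ≠ (0, 0)) :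
    |(tt s l ρ E m n + tt s l ρ E n m).im| ≤
      2 * s * (ρ - ρ⁻¹) * √3 * ρ ^ (2 * s + 1) / (qf m n : ℝ) ^ s := by
  have _ := hs
  have h0 : 0 < ρ := lt_trans zero_lt_one h.one_lt
  have hq : (1 : ℝ) ≤ (qf m n : ℝ) := by exact_mod_cast qf_pos hmn
  have hq0 : (0 : ℝ) < (qf m n : ℝ) := by linarith
  have hsq : 0 < √(qf m n : ℝ) := Real.sqrt_pos.2 hq0
  set r : ℝ := ρ / √(qf m n : ℝ) with hr
  have hr0 : 0 < r := div_pos h0 hsq
  have hr2 : r ^ 2 = ρ ^ 2 / (qf m n : ℝ) := by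
    rw [hr, div_pow, Real.sq_sqrt hq0.le]
  -- bound for the inverse of a vector
  have key : ∀ V : ℂ, (qf m n : ℝ) ≤ ρ ^ 2 * normSq V → V ≠ 0 ∧ ‖V⁻¹‖ ≤ r := by
    intro V hV
    have hV0 : V ≠ 0 := by
      rintro rfl
      rw [map_zero, mul_zero] at hV
      linarith
    refine ⟨hV0, ?_⟩
    have hn : 0 < ‖V‖ := norm_pos_iff.2 hV0
    rw [norm_inv]
    apply abs_le_of_sq_le_sq' _ hr0.le |>.2
    rw [hr2, inv_pow, Complex.sq_norm, ← one_div, div_le_div_iff₀ _ hq0]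
    · linarith
    · rw [← Complex.sq_norm]; positivity
  have hV1 := key (vv ρ E m n) (qf_le h m n)
  have hV2 : conj (vv ρ E n m) ≠ 0 ∧ ‖(conj (vv ρ E n m))⁻¹‖ ≤ r := by
    apply key
    rw [normSq_conj, ← qf_swap m n]
    exact qf_le h n m
  have e1 : tt s l ρ E m n = (vv ρ E m n)⁻¹ ^ (s + l) * conj (vv ρ E m n)⁻¹ ^ (s - l) := by
    rw [tt, mul_inv, map_inv₀, inv_pow, inv_pow]
  have e2 : tt s l ρ E n m =
      conj ((conj (vv ρ E n m))⁻¹ ^ (s + l) * conj (conj (vv ρ E n m))⁻¹ ^ (s - l)) := by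
    simp only [tt, map_mul, map_pow, map_inv₀, Complex.conj_conj, mul_inv, inv_pow]
  have e3 : (tt s l ρ E m n + tt s l ρ E n m).im =
      ((vv ρ E m n)⁻¹ ^ (s + l) * conj (vv ρ E m n)⁻¹ ^ (s - l) -
        (conj (vv ρ E n m))⁻¹ ^ (s + l) * conj (conj (vv ρ E n m))⁻¹ ^ (s - l)).im := by
    rw [add_im, sub_im, e1, e2, conj_im]; ring
  have h4 : |(tt s l ρ E m n + tt s l ρ E n m).im| * r ≤
      (2 * s) * r ^ (2 * s) * ‖(vv ρ E m n)⁻¹ - (conj (vv ρ E n m))⁻¹‖ := by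
    rw [e3]
    refine (mul_le_mul_of_nonneg_right (Complex.abs_im_le_norm _) hr0.le).trans ?_
    refine (a10_mul_sub hV1.2 hV2.2 (s + l) (s - l)).trans (le_of_eq ?_)
    rw [show s + l + (s - l) = 2 * s by omega]
    push_cast
    ring
  -- the difference
  have e5 : (vv ρ E m n)⁻¹ - (conj (vv ρ E n m))⁻¹ =
      -(((ρ - ρ⁻¹ : ℝ) : ℂ) * (m * E - n * conj E) * (vv ρ E m n)⁻¹ *
        (conj (vv ρ E n m))⁻¹) := by
    have e6 : vv ρ E m n - conj (vv ρ E n m) = ((ρ - ρ⁻¹ : ℝ) : ℂ) * (m * E - n * conj E) := by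
      simp only [vv, map_add, map_mul, map_intCast, conj_ofReal, map_inv₀, Complex.conj_conj]
      push_cast
      ring
    rw [← e6]
    field_simp [hV1.1, hV2.1]
    ring
  have hE : normSq (m * E - n * conj E) =
      (m : ℝ) ^ 2 + n ^ 2 - 2 * m * n * (E.re ^ 2 - E.im ^ 2) := by
    have := h.norm_one
    rw [normSq_apply]
    simp only [sub_re, sub_im, mul_re, mul_im, intCast_re, intCast_im, conj_re, conj_im]
    linear_combination ((m : ℝ) ^ 2 + n ^ 2) * this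
  have h6 : ‖(m * E - n * conj E : ℂ)‖ ≤ √3 * (ρ * ‖vv ρ E m n‖) := by
    apply abs_le_of_sq_le_sq' _ (by positivity) |>.2
    rw [Complex.sq_norm, hE, mul_pow, Real.sq_sqrt (by norm_num), mul_pow, Complex.sq_norm]
    exact aux_le h m n
  have hinv : 0 ≤ ρ - ρ⁻¹ := by
    have : ρ⁻¹ ≤ 1 := inv_le_one_of_one_le₀ h.one_lt.le
    have := h.one_lt
    linarith
  have h7 : ‖(vv ρ E m n)⁻¹ - (conj (vv ρ E n m))⁻¹‖ ≤ (ρ - ρ⁻¹) * √3 * ρ * r := by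
    rw [e5, norm_neg, norm_mul, norm_mul, norm_mul, Complex.norm_real, Real.norm_eq_abs,
      abs_of_nonneg hinv]
    have hn : 0 < ‖vv ρ E m n‖ := norm_pos_iff.2 hV1.1
    calc (ρ - ρ⁻¹) * ‖(m * E - n * conj E : ℂ)‖ * ‖(vv ρ E m n)⁻¹‖ *
          ‖(conj (vv ρ E n m))⁻¹‖ ≤
          (ρ - ρ⁻¹) * (√3 * (ρ * ‖vv ρ E m n‖)) * ‖(vv ρ E m n)⁻¹‖ * r := by
            gcongr
            exact hV2.2
      _ = (ρ - ρ⁻¹) * √3 * ρ * r := by
            rw [norm_inv]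
            field_simp
  have h8 : |(tt s l ρ E m n + tt s l ρ E n m).im| * r ≤
      (2 * s) * r ^ (2 * s) * ((ρ - ρ⁻¹) * √3 * ρ * r) :=
    h4.trans (by gcongr)
  have h9 : |(tt s l ρ E m n + tt s l ρ E n m).im| ≤
      (2 * s) * r ^ (2 * s) * ((ρ - ρ⁻¹) * √3 * ρ) := by
    apply le_of_mul_le_mul_right _ hr0
    linarith
  refine h9.trans (le_of_eq ?_)
  rw [pow_mul, hr2, div_pow, ← pow_mul, pow_succ]
  ring

end Pool.Agent.LibEis68
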