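import Pool.Agent.LibEis68.A08

open Complex Polynomial Matrix
open scoped ComplexConjugate MatrixGroups UpperHalfPlane

namespace Pool.Agent.LibEis68

private theorem a11_conj_mul {ρ : ℝ} {E : ℂ} (h : Pos ρ E) : conj E * E = 1 := by
  rw [← normSq_eq_conj_mul_self, normSq_apply]
  have := h.norm_one
  norm_cast
  linarith

theorem tt_zero_one {s l : ℕ} (hl : l ≤ s) {ρ : ℝ} {E : ℂ} (h : Pos ρ E) :
    tt s l ρ E 0 1 = (ρ : ℂ) ^ (2 * s) * E ^ (2 * l) := by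
  have hc := a11_conj_mul h
  have h0 : (ρ : ℂ) ≠ 0 := by
    exact_mod_cast (lt_trans zero_lt_one h.one_lt).ne'
  have hv : vv ρ E 0 1 = (ρ : ℂ)⁻¹ * conj E := by simp [vv]
  rw [tt, hv]
  apply inv_eq_of_mul_eq_one_right
  have e1 : conj ((ρ : ℂ)⁻¹ * conj E) = (ρ : ℂ)⁻¹ * E := by simp
  rw [e1]
  obtain ⟨j, rfl⟩ := Nat.exists_eq_add_of_le hl
  rw [show l + j + l = 2 * l + j by ring, show l + j - l = j by omega]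
  calc ((ρ : ℂ)⁻¹ * conj E) ^ (2 * l + j) * ((ρ : ℂ)⁻¹ * E) ^ j *
        ((ρ : ℂ) ^ (2 * (l + j)) * E ^ (2 * l)) =
        ((ρ : ℂ)⁻¹ * ρ) ^ (2 * (l + j)) * (conj E * E) ^ (2 * l + j) := by ring
    _ = 1 := by rw [hc, inv_mul_cancel₀ h0, one_pow, one_pow, one_mul]

theorem tt_one_zero {s l : ℕ} (hl : l ≤ s) {ρ : ℝ} {E : ℂ} (h : Pos ρ E) :
    tt s l ρ E 1 0 = ((ρ : ℂ) ^ (2 * s))⁻¹ * conj (E ^ (2 * l)) := by
  have hc := a11_conj_mul h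
  have h0 : (ρ : ℂ) ≠ 0 := by
    exact_mod_cast (lt_trans zero_lt_one h.one_lt).ne'
  have hv : vv ρ E 1 0 = (ρ : ℂ) * E := by simp [vv]
  rw [tt, hv]
  apply inv_eq_of_mul_eq_one_right
  have e1 : conj ((ρ : ℂ) * E) = (ρ : ℂ) * conj E := by simp
  rw [e1, ← inv_pow, map_pow]
  obtain ⟨j, rfl⟩ := Nat.exists_eq_add_of_le hl
  rw [show l + j + l = 2 * l + j by ring, show l + j - l = j by omega]
  calc ((ρ : ℂ) * E) ^ (2 * l + j) * ((ρ : ℂ) * conj E) ^ j *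
        ((ρ : ℂ)⁻¹ ^ (2 * (l + j)) * conj E ^ (2 * l)) =
        ((ρ : ℂ)⁻¹ * ρ) ^ (2 * (l + j)) * (conj E * E) ^ (2 * l + j) := by ring
    _ = 1 := by rw [hc, inv_mul_cancel₀ h0, one_pow, one_pow, one_mul]

private theorem a11_im_pow (w : ℂ) (l : ℕ) : |(w ^ l).im| * ‖w‖ ≤ l * |w.im| * ‖w‖ ^ l := by
  induction l with
  | zero => simp
  | succ l ih =>
    have h1 : |(w ^ (l + 1)).im| ≤ ‖w‖ ^ l * |w.im| + |(w ^ l).im| * ‖w‖ := by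
      rw [pow_succ, mul_im]
      refine (abs_add_le _ _).trans ?_
      rw [abs_mul, abs_mul]
      have h2 : |(w ^ l).re| ≤ ‖w‖ ^ l := (Complex.abs_re_le_norm _).trans (by rw [norm_pow])
      have h3 : |w.re| ≤ ‖w‖ := Complex.abs_re_le_norm _
      gcongr
    calc |(w ^ (l + 1)).im| * ‖w‖ ≤ (‖w‖ ^ l * |w.im| + |(w ^ l).im| * ‖w‖) * ‖w‖ := by gcongr
      _ ≤ (‖w‖ ^ l * |w.im| + l * |w.im| * ‖w‖ ^ l) * ‖w‖ := by gcongr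
      _ = ((l + 1 : ℕ) : ℝ) * |w.im| * ‖w‖ ^ (l + 1) := by push_cast; ring

private theorem a11_im_tt {s l : ℕ} (hl : l ≤ s) (ρ : ℝ) (E : ℂ) (m n : ℤ)
    (hV : vv ρ E m n ≠ 0) :
    |(tt s l ρ E m n).im| ≤ l * |(vv ρ E m n ^ 2).im| / normSq (vv ρ E m n) ^ (s + 1) := by
  set V := vv ρ E m n with hVd
  have hN : 0 < normSq V := normSq_pos.2 hV
  have hN' : (normSq V : ℂ) ≠ 0 := by exact_mod_cast hN.ne'
  have hc : V * conj V = (normSq V : ℂ) := mul_conj V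
  have e1 : tt s l ρ E m n = (((normSq V) ^ (s + l))⁻¹ : ℝ) * (conj V ^ 2) ^ l := by
    rw [tt, ← hVd]
    apply inv_eq_of_mul_eq_one_right
    obtain ⟨j, rfl⟩ := Nat.exists_eq_add_of_le hl
    rw [show l + j + l = 2 * l + j by ring, show l + j - l = j by omega]
    push_cast
    calc V ^ (2 * l + j) * conj V ^ j * (((normSq V : ℂ) ^ (2 * l + j))⁻¹ * (conj V ^ 2) ^ l) =
        (V * conj V) ^ (2 * l + j) * ((normSq V : ℂ) ^ (2 * l + j))⁻¹ := by ring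
      _ = 1 := by rw [hc, mul_inv_cancel₀ (pow_ne_zero _ hN')]
  have e2 : (conj V ^ 2).im = - (V ^ 2).im := by
    rw [← map_pow, conj_im]
  have e3 : ‖conj V ^ 2‖ = normSq V := by
    rw [norm_pow, RCLike.norm_conj, Complex.sq_norm]
  have h1 := a11_im_pow (conj V ^ 2) l
  rw [e2, abs_neg, e3] at h1
  rw [e1, Complex.im_ofReal_mul, abs_mul, abs_of_pos (by positivity), le_div_iff₀ (by positivity)]
  calc (normSq V ^ (s + l))⁻¹ * |((conj V ^ 2) ^ l).im| * normSq V ^ (s + 1) =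
      (normSq V ^ (s + l))⁻¹ * normSq V ^ s * (|((conj V ^ 2) ^ l).im| * normSq V) := by ring
    _ ≤ (normSq V ^ (s + l))⁻¹ * normSq V ^ s * (l * |(V ^ 2).im| * normSq V ^ l) := by gcongr
    _ = l * |(V ^ 2).im| := by
      rw [pow_add]
      field_simp

private theorem a11_pos {ρ : ℝ} {E : ℂ} (h : Pos ρ E) :
    0 < ρ ^ 2 - (ρ ^ 2)⁻¹ ∧ 0 < 2 * E.re * E.im := by
  have h1 : 1 < ρ ^ 2 := one_lt_pow₀ h.one_lt two_ne_zero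
  have h2 : (ρ ^ 2)⁻¹ < 1 := inv_lt_one_of_one_lt₀ h1
  have h3 := h.im_pos
  exact ⟨by linarith, by linarith⟩

private theorem a11_ne {ρ : ℝ} {E : ℂ} (h : Pos ρ E) {m n : ℤ} (hmn : (m, n) ≠ (0, 0)) :
    vv ρ E m n ≠ 0 := by
  intro h0
  have h1 := qf_le h m n
  have h2 : (1 : ℝ) ≤ (qf m n : ℝ) := by exact_mod_cast qf_pos hmn
  rw [h0, map_zero, mul_zero] at h1
  linarith

/-- Imaginary part of the terms `(1, ∓1)`. -/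
theorem im_tt_one_neg {s l : ℕ} (hl : l ≤ s) {ρ : ℝ} {E : ℂ} (h : Pos ρ E) :
    |(tt s l ρ E 1 (-1)).im| ≤ l * (ρ ^ 2 - (ρ ^ 2)⁻¹) * (2 * E.re * E.im) /
      (ρ ^ 2 + (ρ ^ 2)⁻¹ - 2 * (E.re ^ 2 - E.im ^ 2)) ^ (s + 1) := by
  have h0 : ρ ≠ 0 := (lt_trans zero_lt_one h.one_lt).ne'
  obtain ⟨p1, p2⟩ := a11_pos h
  have h1 := a11_im_tt hl ρ E 1 (-1) (a11_ne h (by simp))
  rw [im_vv_sq h0, normSq_vv h0 E h.norm_one] at h1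
  refine h1.trans (le_of_eq ?_)
  push_cast
  have e1 : (1 : ℝ) ^ 2 * ρ ^ 2 - (-1) ^ 2 * (ρ ^ 2)⁻¹ = ρ ^ 2 - (ρ ^ 2)⁻¹ := by ring
  have e2 : (1 : ℝ) ^ 2 * ρ ^ 2 + (-1) ^ 2 * (ρ ^ 2)⁻¹ + 2 * 1 * -1 * (E.re ^ 2 - E.im ^ 2) =
      ρ ^ 2 + (ρ ^ 2)⁻¹ - 2 * (E.re ^ 2 - E.im ^ 2) := by ring
  rw [e1, e2, abs_of_pos (mul_pos p1 p2), mul_assoc (l : ℝ)]

theorem im_tt_one_one {s l : ℕ} (hl : l ≤ s) {ρ : ℝ} {E : ℂ} (h : Pos ρ E) :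
    |(tt s l ρ E 1 1).im| ≤ l * (ρ ^ 2 - (ρ ^ 2)⁻¹) * (2 * E.re * E.im) /
      (ρ ^ 2 + (ρ ^ 2)⁻¹ + 2 * (E.re ^ 2 - E.im ^ 2)) ^ (s + 1) := by
  have h0 : ρ ≠ 0 := (lt_trans zero_lt_one h.one_lt).ne'
  obtain ⟨p1, p2⟩ := a11_pos h
  have h1 := a11_im_tt hl ρ E 1 1 (a11_ne h (by simp))
  rw [im_vv_sq h0, normSq_vv h0 E h.norm_one] at h1
  refine h1.trans (le_of_eq ?_)
  push_cast
  have e1 : (1 : ℝ) ^ 2 * ρ ^ 2 - 1 ^ 2 * (ρ ^ 2)⁻¹ = ρ ^ 2 - (ρ ^ 2)⁻¹ := by ring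
  have e2 : (1 : ℝ) ^ 2 * ρ ^ 2 + 1 ^ 2 * (ρ ^ 2)⁻¹ + 2 * 1 * 1 * (E.re ^ 2 - E.im ^ 2) =
      ρ ^ 2 + (ρ ^ 2)⁻¹ + 2 * (E.re ^ 2 - E.im ^ 2) := by ring
  rw [e1, e2, abs_of_pos (mul_pos p1 p2), mul_assoc (l : ℝ)]

end Pool.Agent.LibEis68
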