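import Pool.Agent.LibEis68.A08

open Complex Polynomial Matrix
open scoped ComplexConjugate MatrixGroups UpperHalfPlane

namespace Pool.Agent.LibEis68

private theorem a12_cube (j : ℕ) : ∑ N ∈ Finset.Ico 6 (6 + j), (1 : ℝ) / (N : ℝ) ^ 3 ≤
    (1 : ℝ) / 60 - 1 / (2 * ((5 + (j : ℝ)) * (6 + (j : ℝ)))) := by
  induction j with
  | zero => norm_num
  | succ j ih =>
    rw [show 6 + (j + 1) = (6 + j) + 1 by ring, Finset.sum_Ico_succ_top (by omega)]
    have h1 : (1 : ℝ) / ((6 + j : ℕ) : ℝ) ^ 3 ≤ 1 / (2 * ((5 + (j : ℝ)) * (6 + (j : ℝ)))) -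
        1 / (2 * ((6 + (j : ℝ)) * (7 + (j : ℝ)))) := by
      have h5 : (0 : ℝ) < 5 + j := by positivity
      have h6 : (0 : ℝ) < 6 + j := by positivity
      have h7 : (0 : ℝ) < 7 + j := by positivity
      have e : 1 / (2 * ((5 + (j : ℝ)) * (6 + j))) - 1 / (2 * ((6 + j) * (7 + j))) =
          1 / ((5 + j) * (6 + j) * (7 + j)) := by
        field_simp
        ring
      rw [e]
      push_cast
      apply one_div_le_one_div_of_le (by positivity)
      nlinarith [h5, h6, h7]
    push_cast at ih h1 ⊢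
    have e2 : (5 : ℝ) + (j + 1) = 6 + j := by ring
    have e3 : (6 : ℝ) + (j + 1) = 7 + j := by ring
    rw [e2, e3]
    linarith

private theorem a12_cube' (M : ℕ) : ∑ N ∈ Finset.Ico 6 M, (1 : ℝ) / (N : ℝ) ^ 3 ≤ (1 : ℝ) / 60 := by
  rcases le_or_gt 6 M with h | h
  · obtain ⟨j, rfl⟩ := Nat.exists_eq_add_of_le h
    refine (a12_cube j).trans ?_
    have : (0 : ℝ) ≤ 1 / (2 * ((5 + (j : ℝ)) * (6 + (j : ℝ)))) := by positivity
    linarith
  · rw [Finset.Ico_eq_empty (by omega)]
    simp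

/-- A sum over `Rest` of a function which is at most `K / max(|m|,|n|)^4` outside the box
`max(|m|,|n|) ≤ 5`: the explicit part plus `8 K ∑_{N ≥ 6} N^(-3) ≤ 8 K / 60`. -/
theorem rest_tsum_le (f : ℤ × ℤ → ℝ) (hf : ∀ v, 0 ≤ f v) (K : ℝ) (hK : 0 ≤ K)
    (hfK : ∀ v : ℤ × ℤ, 6 ≤ max |v.1| |v.2| → f v ≤ K / (max |v.1| |v.2| : ℤ) ^ 4) :
    Summable (fun v : Rest => f v) ∧ ∑' v : Rest, f v ≤
      (∑ v ∈ (Finset.Icc (-5 : ℤ) 5 ×ˢ Finset.Icc (-5 : ℤ) 5).filter
        (fun v => Int.gcd v.1 v.2 = 1 ∧ 3 ≤ v.1 ^ 2 + v.2 ^ 2), f v) + 8 * K / 60 := by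
  classical
  set B := (Finset.Icc (-5 : ℤ) 5 ×ˢ Finset.Icc (-5 : ℤ) 5).filter
        (fun v => Int.gcd v.1 v.2 = 1 ∧ 3 ≤ v.1 ^ 2 + v.2 ^ 2) with hB
  have key : ∀ t : Finset Rest, ∑ v ∈ t, f v ≤ (∑ v ∈ B, f v) + 8 * K / 60 := by
    intro t
    set u : Finset (ℤ × ℤ) := t.map (Function.Embedding.subtype _) with hu
    have hsum : ∑ v ∈ t, f v = ∑ v ∈ u, f v := by
      rw [hu, Finset.sum_map]
      rfl
    have hmem : ∀ v ∈ u, v ∈ Rest := by
      intro v hv
      rw [hu, Finset.mem_map] at hv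
      obtain ⟨w, _, rfl⟩ := hv
      exact w.2
    rw [hsum, ← Finset.sum_filter_add_sum_filter_not u (fun v => max v.1.natAbs v.2.natAbs ≤ 5)]
    apply add_le_add
    · apply Finset.sum_le_sum_of_subset_of_nonneg
      · intro v hv
        rw [Finset.mem_filter] at hv
        have h1 := hmem v hv.1
        have h2 := hv.2
        rw [max_le_iff] at h2
        rw [hB, Finset.mem_filter, Finset.mem_product, Finset.mem_Icc, Finset.mem_Icc]
        refine ⟨⟨⟨by omega, by omega⟩, ⟨by omega, by omega⟩⟩, ?_, h1.2⟩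
        exact Int.isCoprime_iff_gcd_eq_one.1 h1.1
      · intro v _ _
        exact hf v
    · set w := u.filter (fun v => ¬ max v.1.natAbs v.2.natAbs ≤ 5) with hw
      obtain ⟨M, hM⟩ : ∃ M : ℕ, ∀ v ∈ w, max v.1.natAbs v.2.natAbs < M := by
        refine ⟨(w.sup fun v => max v.1.natAbs v.2.natAbs) + 1, fun v hv => ?_⟩
        exact Nat.lt_succ_of_le (Finset.le_sup (f := fun v => max v.1.natAbs v.2.natAbs) hv)
      have hmaps : ∀ v ∈ w, max v.1.natAbs v.2.natAbs ∈ Finset.Ico 6 M := by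
        intro v hv
        rw [Finset.mem_Ico]
        refine ⟨?_, hM v hv⟩
        rw [hw, Finset.mem_filter] at hv
        omega
      rw [← Finset.sum_fiberwise_of_maps_to hmaps]
      have hin : ∀ N ∈ Finset.Ico 6 M,
          ∑ v ∈ w with max v.1.natAbs v.2.natAbs = N, f v ≤ 8 * K * (1 / (N : ℝ) ^ 3) := by
        intro N hN
        rw [Finset.mem_Ico] at hN
        have hN0 : (0 : ℝ) < N := by
          have : 0 < N := by omega
          exact_mod_cast this
        have h1 : ∀ v ∈ w.filter (fun v => max v.1.natAbs v.2.natAbs = N),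
            f v ≤ K / (N : ℝ) ^ 4 := by
          intro v hv
          rw [Finset.mem_filter] at hv
          have h2 : (max |v.1| |v.2| : ℤ) = (N : ℤ) := by
            rw [← hv.2]
            push_cast
            rw [Int.abs_eq_natAbs, Int.abs_eq_natAbs]
          have h3 := hfK v (by rw [h2]; exact_mod_cast hN.1)
          rw [h2] at h3
          exact_mod_cast h3
        have hcard : (w.filter (fun v => max v.1.natAbs v.2.natAbs = N)).card ≤ 8 * N := by
          rw [← Int.card_box (n := N) (by omega)]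
          apply Finset.card_le_card
          intro v hv
          rw [Finset.mem_filter] at hv
          rw [Int.mem_box]
          exact hv.2
        calc ∑ v ∈ w with max v.1.natAbs v.2.natAbs = N, f v ≤
              ∑ v ∈ w with max v.1.natAbs v.2.natAbs = N, K / (N : ℝ) ^ 4 :=
              Finset.sum_le_sum h1
          _ = (w.filter (fun v => max v.1.natAbs v.2.natAbs = N)).card * (K / (N : ℝ) ^ 4) := by
              rw [Finset.sum_const, nsmul_eq_mul]
          _ ≤ (8 * N : ℕ) * (K / (N : ℝ) ^ 4) := by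
              gcongr
          _ = 8 * K * (1 / (N : ℝ) ^ 3) := by
              push_cast
              field_simp
      calc ∑ N ∈ Finset.Ico 6 M, ∑ v ∈ w with max v.1.natAbs v.2.natAbs = N, f v ≤
            ∑ N ∈ Finset.Ico 6 M, 8 * K * (1 / (N : ℝ) ^ 3) := Finset.sum_le_sum hin
        _ = 8 * K * ∑ N ∈ Finset.Ico 6 M, 1 / (N : ℝ) ^ 3 := by rw [Finset.mul_sum]
        _ ≤ 8 * K * (1 / 60) := by
            apply mul_le_mul_of_nonneg_left (a12_cube' M) (by positivity)
        _ = 8 * K / 60 := by ring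
  have hs : Summable (fun v : Rest => f v) :=
    summable_of_sum_le (fun v => hf v) key
  exact ⟨hs, hs.tsum_le_of_sum_le key⟩

end Pool.Agent.LibEis68
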