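import Pool.Agent.LibEis68.A12

open Complex Polynomial Matrix
open scoped ComplexConjugate MatrixGroups UpperHalfPlane

namespace Pool.Agent.LibEis68

private lemma a13_N {v : ℤ × ℤ} (h : 6 ≤ max |v.1| |v.2|) :
    0 < (qf v.1 v.2 : ℝ) ∧ 3 * ((max |v.1| |v.2| : ℤ) : ℝ) ^ 2 ≤ 4 * (qf v.1 v.2 : ℝ) ∧
      6 ≤ ((max |v.1| |v.2| : ℤ) : ℝ) := by
  have h0 : v ≠ (0, 0) := by
    rintro rfl
    simp at h
  have h1 := qf_pos (m := v.1) (n := v.2) (by simpa using h0)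
  have h2 := qf_lower v.1 v.2
  have h3 : 3 * (max |v.1| |v.2|) ^ 2 ≤ 4 * qf v.1 v.2 := by
    rcases max_choice |v.1| |v.2| with h4 | h4
    · rw [h4, sq_abs]; exact h2.1
    · rw [h4, sq_abs]; exact h2.2
  exact ⟨by exact_mod_cast h1, by exact_mod_cast h3, by exact_mod_cast h⟩

private lemma a13_inv {q N : ℝ} (hq : 0 < q) (hN : 6 ≤ N) (h : 3 * N ^ 2 ≤ 4 * q) :
    (q ^ 3)⁻¹ ≤ (64 / 972) / N ^ 4 := by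
  have hN0 : 0 < N := by linarith
  rw [le_div_iff₀ (by positivity), inv_mul_le_iff₀ (by positivity)]
  have h1 : 0 ≤ 3 * N ^ 2 := by positivity
  have h2 : (3 * N ^ 2) ^ 3 ≤ (4 * q) ^ 3 := by gcongr
  have h3 : (36 : ℝ) ≤ N ^ 2 := by nlinarith
  have h4 : 36 * N ^ 4 ≤ N ^ 6 := by
    have : N ^ 6 = N ^ 2 * N ^ 4 := by ring
    rw [this]
    exact mul_le_mul_of_nonneg_right h3 (by positivity)
  nlinarith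

private lemma a13_fin : (∑ v ∈ (Finset.Icc (-5 : ℤ) 5 ×ˢ Finset.Icc (-5 : ℤ) 5).filter
    (fun v => Int.gcd v.1 v.2 = 1 ∧ 3 ≤ v.1 ^ 2 + v.2 ^ 2),
    ((((qf v.1 v.2 : ℤ) : ℚ)) ^ 3)⁻¹) ≤ 2166 / 10000 := by
  decide +kernel

private lemma a13_three :
    Summable (fun v : Rest => ((qf v.1.1 v.1.2 : ℝ) ^ 3)⁻¹) ∧
    ∑' v : Rest, ((qf v.1.1 v.1.2 : ℝ) ^ 3)⁻¹ ≤ 226 / 1000 := by
  have hqf0 : ∀ v : ℤ × ℤ, 0 ≤ (qf v.1 v.2 : ℝ) := by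
    intro v
    by_cases h0 : v = (0, 0)
    · subst h0; simp [qf]
    · have := qf_pos (m := v.1) (n := v.2) (by simpa using h0)
      have h1 : (0 : ℤ) ≤ qf v.1 v.2 := by omega
      exact_mod_cast h1
  obtain ⟨h1, h2⟩ := rest_tsum_le (fun v => ((qf v.1 v.2 : ℝ) ^ 3)⁻¹)
    (fun v => inv_nonneg.mpr (pow_nonneg (hqf0 v) 3)) (64 / 972) (by norm_num)
    (fun v hv => by
      obtain ⟨h1, h2, h3⟩ := a13_N hv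
      exact a13_inv h1 h3 h2)
  refine ⟨h1, h2.trans ?_⟩
  have h3 : ∑ v ∈ (Finset.Icc (-5 : ℤ) 5 ×ˢ Finset.Icc (-5 : ℤ) 5).filter
      (fun v => Int.gcd v.1 v.2 = 1 ∧ 3 ≤ v.1 ^ 2 + v.2 ^ 2),
      ((qf v.1 v.2 : ℝ) ^ 3)⁻¹ ≤ 2166 / 10000 := by
    have h4 := a13_fin
    have h5 : ((∑ v ∈ (Finset.Icc (-5 : ℤ) 5 ×ˢ Finset.Icc (-5 : ℤ) 5).filter
      (fun v => Int.gcd v.1 v.2 = 1 ∧ 3 ≤ v.1 ^ 2 + v.2 ^ 2),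
      ((((qf v.1 v.2 : ℤ) : ℚ)) ^ 3)⁻¹ : ℚ) : ℝ) ≤ ((2166 / 10000 : ℚ) : ℝ) := by
      exact_mod_cast h4
    push_cast at h5
    exact h5
  linarith

theorem sum_qf {s : ℕ} (hs : 3 ≤ s) :
    Summable (fun v : Rest => ((qf v.1.1 v.1.2 : ℝ) ^ s)⁻¹) ∧
    ∑' v : Rest, ((qf v.1.1 v.1.2 : ℝ) ^ s)⁻¹ ≤ 226 / 1000 * (1 / 3) ^ (s - 3) := by
  obtain ⟨h1, h2⟩ := a13_three
  have hle : ∀ v : Rest, ((qf v.1.1 v.1.2 : ℝ) ^ s)⁻¹ ≤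
      ((qf v.1.1 v.1.2 : ℝ) ^ 3)⁻¹ * (1 / 3) ^ (s - 3) := by
    intro v
    have h3 : (3 : ℤ) ≤ qf v.1.1 v.1.2 := three_le_qf (m := v.1.1) (n := v.1.2) v.2
    have h4 : (3 : ℝ) ≤ (qf v.1.1 v.1.2 : ℝ) := by exact_mod_cast h3
    have h5 : s = 3 + (s - 3) := by omega
    conv_lhs => rw [h5, pow_add, mul_inv]
    have h6 : (((qf v.1.1 v.1.2 : ℝ)) ^ (s - 3))⁻¹ ≤ (1 / 3) ^ (s - 3) := by
      rw [one_div, inv_pow]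
      gcongr
    exact mul_le_mul_of_nonneg_left h6 (by positivity)
  have hnn : ∀ v : Rest, 0 ≤ ((qf v.1.1 v.1.2 : ℝ) ^ s)⁻¹ := by
    intro v
    have h3 : (3 : ℤ) ≤ qf v.1.1 v.1.2 := three_le_qf (m := v.1.1) (n := v.1.2) v.2
    have h4 : (3 : ℝ) ≤ (qf v.1.1 v.1.2 : ℝ) := by exact_mod_cast h3
    positivity
  have hsum : Summable (fun v : Rest => ((qf v.1.1 v.1.2 : ℝ) ^ 3)⁻¹ * (1 / 3) ^ (s - 3)) :=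
    h1.mul_right _
  have hS := Summable.of_nonneg_of_le hnn hle hsum
  refine ⟨hS, ?_⟩
  calc ∑' v : Rest, ((qf v.1.1 v.1.2 : ℝ) ^ s)⁻¹
      ≤ ∑' v : Rest, ((qf v.1.1 v.1.2 : ℝ) ^ 3)⁻¹ * (1 / 3) ^ (s - 3) :=
        hS.tsum_le_tsum hle hsum
    _ = (∑' v : Rest, ((qf v.1.1 v.1.2 : ℝ) ^ 3)⁻¹) * (1 / 3) ^ (s - 3) := tsum_mul_right
    _ ≤ 226 / 1000 * (1 / 3) ^ (s - 3) := mul_le_mul_of_nonneg_right h2 (by positivity)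

end Pool.Agent.LibEis68
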