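import Pool.Agent.LibEis68.A12

open Complex Polynomial Matrix
open scoped ComplexConjugate MatrixGroups UpperHalfPlane

namespace Pool.Agent.LibEis68

private lemma a14_N {v : ℤ × ℤ} (h : 6 ≤ max |v.1| |v.2|) :
    0 < (qf v.1 v.2 : ℝ) ∧ 3 * ((max |v.1| |v.2| : ℤ) : ℝ) ^ 2 ≤ 4 * (qf v.1 v.2 : ℝ) ∧
      0 < ((max |v.1| |v.2| : ℤ) : ℝ) := by
  have h0 : v ≠ (0, 0) := by
    rintro rfl
    simp at h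
  have h1 := qf_pos (m := v.1) (n := v.2) (by simpa using h0)
  have h2 := qf_lower v.1 v.2
  have h3 : 3 * (max |v.1| |v.2|) ^ 2 ≤ 4 * qf v.1 v.2 := by
    rcases max_choice |v.1| |v.2| with h4 | h4
    · rw [h4, sq_abs]; exact h2.1
    · rw [h4, sq_abs]; exact h2.2
  refine ⟨by exact_mod_cast h1, by exact_mod_cast h3, ?_⟩
  have : 0 < max |v.1| |v.2| := by omega
  exact_mod_cast this

private lemma a14_inv {q N : ℝ} (hq : 0 < q) (hN : 0 < N) (h : 3 * N ^ 2 ≤ 4 * q) :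
    (q ^ 2)⁻¹ ≤ (16 / 9) / N ^ 4 := by
  rw [le_div_iff₀ (by positivity), inv_mul_le_iff₀ (by positivity)]
  have h1 : 0 ≤ 3 * N ^ 2 := by positivity
  have h2 : (3 * N ^ 2) ^ 2 ≤ (4 * q) ^ 2 := by gcongr
  nlinarith

theorem sum_qf_two : Summable (fun v : Rest => ((qf v.1.1 v.1.2 : ℝ) ^ 2)⁻¹) := by
  refine (rest_tsum_le (fun v => ((qf v.1 v.2 : ℝ) ^ 2)⁻¹) (fun v => by positivity) (16 / 9)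
    (by norm_num) (fun v hv => ?_)).1
  obtain ⟨h1, h2, h3⟩ := a14_N hv
  exact a14_inv h1 h3 h2

private lemma a14_cube_fin : (∑ v ∈ (Finset.Icc (-5 : ℤ) 5 ×ˢ Finset.Icc (-5 : ℤ) 5).filter
    (fun v => Int.gcd v.1 v.2 = 1 ∧ 3 ≤ v.1 ^ 2 + v.2 ^ 2),
    ((v.1 ^ 2 + v.2 ^ 2 : ℤ) : ℚ) / ((qf v.1 v.2 : ℤ) : ℚ) ^ 3) ≤ 142 / 100 := by
  decide +kernel

private lemma a14_add_fin : (∑ v ∈ (Finset.Icc (-5 : ℤ) 5 ×ˢ Finset.Icc (-5 : ℤ) 5).filter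
    (fun v => Int.gcd v.1 v.2 = 1 ∧ 3 ≤ v.1 ^ 2 + v.2 ^ 2),
    ((((qf v.1 v.2 : ℤ) : ℚ) + ((v.1 : ℤ) : ℚ) ^ 2) ^ 2)⁻¹) ≤ 42 / 100 := by
  decide +kernel

theorem sum_qf_cube :
    Summable (fun v : Rest => ((v.1.1 : ℝ) ^ 2 + (v.1.2 : ℝ) ^ 2) / (qf v.1.1 v.1.2 : ℝ) ^ 3) ∧
    ∑' v : Rest, ((v.1.1 : ℝ) ^ 2 + (v.1.2 : ℝ) ^ 2) / (qf v.1.1 v.1.2 : ℝ) ^ 3 ≤ 19 / 10 := by
  have hqf0 : ∀ v : ℤ × ℤ, 0 ≤ (qf v.1 v.2 : ℝ) := by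
    intro v
    by_cases h0 : v = (0, 0)
    · subst h0; simp [qf]
    · have := qf_pos (m := v.1) (n := v.2) (by simpa using h0)
      have h1 : (0 : ℤ) ≤ qf v.1 v.2 := by omega
      exact_mod_cast h1
  obtain ⟨h1, h2⟩ := rest_tsum_le (fun v => ((v.1 : ℝ) ^ 2 + (v.2 : ℝ) ^ 2) / (qf v.1 v.2 : ℝ) ^ 3)
    (fun v => div_nonneg (by positivity) (pow_nonneg (hqf0 v) 3)) (32 / 9) (by norm_num)
    (fun v hv => by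
      obtain ⟨h1, h2, h3⟩ := a14_N hv
      have h4 : (v.1 : ℝ) ^ 2 + (v.2 : ℝ) ^ 2 ≤ 2 * (qf v.1 v.2 : ℝ) := by
        have h5 : v.1 ^ 2 + v.2 ^ 2 ≤ 2 * qf v.1 v.2 := by
          unfold qf
          rcases min_choice (v.1 * v.2) 0 with h6 | h6
          · rw [h6]; nlinarith [sq_nonneg (v.1 + v.2)]
          · rw [h6]; nlinarith [sq_nonneg v.1, sq_nonneg v.2]
        exact_mod_cast h5
      have h6 := a14_inv h1 h3 h2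
      calc ((v.1 : ℝ) ^ 2 + (v.2 : ℝ) ^ 2) / (qf v.1 v.2 : ℝ) ^ 3
          ≤ (2 * (qf v.1 v.2 : ℝ)) / (qf v.1 v.2 : ℝ) ^ 3 := by gcongr
        _ = 2 * ((qf v.1 v.2 : ℝ) ^ 2)⁻¹ := by field_simp
        _ ≤ 2 * ((16 / 9) / ((max |v.1| |v.2| : ℤ) : ℝ) ^ 4) := by gcongr
        _ = _ := by ring)
  refine ⟨h1, h2.trans ?_⟩
  have h3 : ∑ v ∈ (Finset.Icc (-5 : ℤ) 5 ×ˢ Finset.Icc (-5 : ℤ) 5).filter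
      (fun v => Int.gcd v.1 v.2 = 1 ∧ 3 ≤ v.1 ^ 2 + v.2 ^ 2),
      ((v.1 : ℝ) ^ 2 + (v.2 : ℝ) ^ 2) / (qf v.1 v.2 : ℝ) ^ 3 ≤ 142 / 100 := by
    have h4 := a14_cube_fin
    have h5 : ((∑ v ∈ (Finset.Icc (-5 : ℤ) 5 ×ˢ Finset.Icc (-5 : ℤ) 5).filter
      (fun v => Int.gcd v.1 v.2 = 1 ∧ 3 ≤ v.1 ^ 2 + v.2 ^ 2),
      ((v.1 ^ 2 + v.2 ^ 2 : ℤ) : ℚ) / ((qf v.1 v.2 : ℤ) : ℚ) ^ 3 : ℚ) : ℝ) ≤
        ((142 / 100 : ℚ) : ℝ) := by exact_mod_cast h4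
    push_cast at h5
    exact h5
  linarith

theorem sum_qf_add :
    Summable (fun v : Rest => (((qf v.1.1 v.1.2 : ℝ) + (v.1.1 : ℝ) ^ 2) ^ 2)⁻¹) ∧
    ∑' v : Rest, (((qf v.1.1 v.1.2 : ℝ) + (v.1.1 : ℝ) ^ 2) ^ 2)⁻¹ ≤ 66 / 100 := by
  obtain ⟨h1, h2⟩ := rest_tsum_le (fun v => (((qf v.1 v.2 : ℝ) + (v.1 : ℝ) ^ 2) ^ 2)⁻¹)
    (fun v => by positivity) (16 / 9) (by norm_num)
    (fun v hv => by
      obtain ⟨h1, h2, h3⟩ := a14_N hv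
      refine le_trans ?_ (a14_inv h1 h3 h2)
      have : (0 : ℝ) ≤ (v.1 : ℝ) ^ 2 := by positivity
      gcongr
      linarith)
  refine ⟨h1, h2.trans ?_⟩
  have h3 : ∑ v ∈ (Finset.Icc (-5 : ℤ) 5 ×ˢ Finset.Icc (-5 : ℤ) 5).filter
      (fun v => Int.gcd v.1 v.2 = 1 ∧ 3 ≤ v.1 ^ 2 + v.2 ^ 2),
      (((qf v.1 v.2 : ℝ) + (v.1 : ℝ) ^ 2) ^ 2)⁻¹ ≤ 42 / 100 := by
    have h4 := a14_add_fin
    have h5 : ((∑ v ∈ (Finset.Icc (-5 : ℤ) 5 ×ˢ Finset.Icc (-5 : ℤ) 5).filter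
      (fun v => Int.gcd v.1 v.2 = 1 ∧ 3 ≤ v.1 ^ 2 + v.2 ^ 2),
      ((((qf v.1 v.2 : ℤ) : ℚ) + ((v.1 : ℤ) : ℚ) ^ 2) ^ 2)⁻¹ : ℚ) : ℝ) ≤
        ((42 / 100 : ℚ) : ℝ) := by exact_mod_cast h4
    push_cast at h5
    exact h5
  linarith

end Pool.Agent.LibEis68
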