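import Pool.Agent.LibEis68.ADefs

open Complex Polynomial Matrix
open scoped ComplexConjugate MatrixGroups UpperHalfPlane

namespace Pool.Agent.LibEis68

/-- If `X z + X⁻¹ z̄ + R = 0` with `|z| = 1`, then `R` lies on an ellipse. -/
theorem ellipse {X α β : ℝ} (hX : 1 < X) {z R : ℂ} (hz : normSq z = 1)
    (hre : |R.re| ≤ α * (X + X⁻¹) / 2) (him : |R.im| ≤ β * (X - X⁻¹) / 2)
    (h : α ^ 2 + β ^ 2 < 4) : (X : ℂ) * z + (X : ℂ)⁻¹ * conj z + R ≠ 0 := by
  intro h0
  have hX0 : 0 < X := by linarith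
  have hXi : X⁻¹ < 1 := inv_lt_one_of_one_lt₀ hX
  have hXi0 : 0 < X⁻¹ := by positivity
  have hr := congrArg Complex.re h0
  have hi := congrArg Complex.im h0
  simp only [add_re, mul_re, ofReal_re, ofReal_im, ← ofReal_inv, conj_re, conj_im, zero_re] at hr
  simp only [add_im, mul_im, ofReal_re, ofReal_im, ← ofReal_inv, conj_re, conj_im, zero_im] at hi
  rw [normSq_apply] at hz
  have e1 : R.re = -((X + X⁻¹) * z.re) := by linear_combination hr
  have e2 : R.im = -((X - X⁻¹) * z.im) := by linear_combination hi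
  rw [e1, abs_neg, abs_mul, abs_of_pos (by positivity)] at hre
  rw [e2, abs_neg, abs_mul, abs_of_pos (by linarith)] at him
  have h1 : |z.re| ≤ α / 2 := by
    have hp : 0 < X + X⁻¹ := by positivity
    by_contra hc
    push Not at hc
    nlinarith
  have h2 : |z.im| ≤ β / 2 := by
    have hp : 0 < X - X⁻¹ := by linarith
    by_contra hc
    push Not at hc
    nlinarith
  have h3 := sq_abs z.re
  have h4 := sq_abs z.im
  nlinarith [abs_nonneg z.re, abs_nonneg z.im]

end Pool.Agent.LibEis68
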