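import Pool.Agent.LibEis68.ADefs

open Complex Polynomial Matrix
open scoped ComplexConjugate MatrixGroups UpperHalfPlane

namespace Pool.Agent.LibEis68

/-- `s (2/5)^(s-3) ≤ 3`. -/
private theorem a16_su (n : ℕ) : ((n + 3 : ℕ) : ℝ) * (2 / 5 : ℝ) ^ n ≤ 3 := by
  induction n with
  | zero => norm_num
  | succ n ih =>
    have h1 : (0 : ℝ) < (2 / 5 : ℝ) ^ n := by positivity
    have h2 : (0 : ℝ) ≤ n := Nat.cast_nonneg n
    push_cast at ih ⊢
    rw [pow_succ]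
    nlinarith

/-- The numerical inequality for `s ≥ 3` and `1 < ρ^(2s) ≤ 2` (`c = cos θ`, `σ = sin θ`). -/
theorem real_ineq {s l : ℕ} (hs : 3 ≤ s) (hl : l < s) {ρ c σ : ℝ} (hρ : 1 < ρ)
    (hX : ρ ^ (2 * s) ≤ 2) (hc : 0 ≤ c) (hρc : ρ ^ 2 * c ≤ 1 / 2) (hσ : 0 ≤ σ)
    (hσc : σ ^ 2 + c ^ 2 = 1) :
    (((ρ ^ 2 + (ρ ^ 2)⁻¹ - 2 * c) ^ s)⁻¹ + ((ρ ^ 2 + (ρ ^ 2)⁻¹ + 2 * c) ^ s)⁻¹ +
        ρ ^ (2 * s) * (113 / 1000 * (1 / 3) ^ (s - 3))) ^ 2 +
      (2 * (l / s) * σ * (((ρ ^ 2 + (ρ ^ 2)⁻¹ - 2 * c) ^ (s + 1))⁻¹ +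
        ((ρ ^ 2 + (ρ ^ 2)⁻¹ + 2 * c) ^ (s + 1))⁻¹) +
        √3 * ρ ^ (2 * s + 1) * (113 / 1000 * (1 / 3) ^ (s - 3))) ^ 2 < 4 := by
  have hρ0 : 0 < ρ := by linarith
  have hρ2 : 1 < ρ ^ 2 := by nlinarith
  have hρ2' : 0 < ρ ^ 2 := by linarith
  set I : ℝ := (ρ ^ 2)⁻¹ with hI
  have hI0 : 0 < I := inv_pos.2 hρ2'
  have hI1 : ρ ^ 2 * I = 1 := mul_inv_cancel₀ hρ2'.ne'
  have hh : 2 ≤ ρ ^ 2 + I := by nlinarith [sq_nonneg (ρ ^ 2 - 1)]
  have h2c : 2 * c ≤ I := by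
    have : ρ ^ 2 * (2 * c) ≤ ρ ^ 2 * I := by rw [hI1]; linarith
    exact le_of_mul_le_mul_left this hρ2'
  have hIl : I < 1 := inv_lt_one_of_one_lt₀ hρ2
  have hc2 : c ≤ 1 / 2 := by linarith
  have hσ1 : σ ≤ 1 := by nlinarith
  set X : ℝ := ρ ^ (2 * s) with hXdef
  have hX1 : 1 ≤ X := one_le_pow₀ hρ.le
  have hX0 : 0 < X := by linarith
  have hρ98 : ρ ≤ 9 / 8 := by
    by_contra hcon
    push Not at hcon
    have h1 : ρ ^ 6 ≤ X := pow_le_pow_right₀ hρ.le (by omega)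
    have h2 : (9 / 8 : ℝ) ^ 6 ≤ ρ ^ 6 := pow_le_pow_left₀ (by norm_num) hcon.le 6
    norm_num at h2
    linarith
  have hsq3 : √3 ^ 2 = 3 := Real.sq_sqrt (by norm_num)
  have hsq3n : 0 ≤ √3 := Real.sqrt_nonneg 3
  have hsq3u : √3 ≤ 1.7321 := by
    rw [Real.sqrt_le_left (by norm_num)]
    norm_num
  have hsR : (3 : ℝ) ≤ (s : ℝ) := by exact_mod_cast hs
  have hs0 : (0 : ℝ) < s := by linarith
  have hlR : (l : ℝ) ≤ s - 1 := by
    have : l + 1 ≤ s := hl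
    have : ((l + 1 : ℕ) : ℝ) ≤ s := by exact_mod_cast this
    push_cast at this
    linarith
  set t : ℝ := (l : ℝ) / s with ht
  have ht0 : 0 ≤ t := by positivity
  set is : ℝ := (s : ℝ)⁻¹ with his
  have his0 : 0 < is := inv_pos.2 hs0
  have his1 : (s : ℝ) * is = 1 := mul_inv_cancel₀ hs0.ne'
  have his3 : is ≤ 1 / 3 := by
    rw [his, inv_le_comm₀ hs0 (by norm_num)]
    norm_num
    linarith
  have ht1 : t ≤ 1 - is := by
    rw [ht, div_le_iff₀ hs0]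
    have : (1 - is) * s = s - 1 := by rw [sub_mul, one_mul, mul_comm is, his1]
    linarith
  have htσ : t * σ ≤ 1 := mul_le_one₀ (by linarith) hσ hσ1
  -- the small quantity
  obtain ⟨n, hn⟩ : ∃ n, s = n + 3 := ⟨s - 3, by omega⟩
  have hn3 : s - 3 = n := by omega
  rw [hn3]
  set u : ℝ := (2 / 5 : ℝ) ^ n with hu
  have hu0 : 0 < u := by positivity
  have hu1 : u ≤ 1 := pow_le_one₀ (by norm_num) (by norm_num)
  have hsu : (s : ℝ) * u ≤ 3 := by
    rw [hn]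
    exact a16_su n
  have h13 : (1 / 3 : ℝ) ^ n ≤ u := pow_le_pow_left₀ (by norm_num) (by norm_num) n
  have h13' : 0 < (1 / 3 : ℝ) ^ n := by positivity
  have h131 : (1 / 3 : ℝ) ^ n ≤ 1 := pow_le_one₀ (by norm_num) (by norm_num)
  set η : ℝ := 113 / 1000 * (1 / 3) ^ n with hη
  have hη0 : 0 < η := by positivity
  have hηu : η ≤ 113 / 1000 * u := by rw [hη]; linarith
  have hη1 : η ≤ 113 / 1000 := by rw [hη]; linarith
  have hpow : ρ ^ (2 * s + 1) = X * ρ := by rw [pow_succ]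
  rw [hpow]
  set P : ℝ := ρ ^ 2 + I - 2 * c with hP
  set Q : ℝ := ρ ^ 2 + I + 2 * c with hQ
  have hP1 : ρ ^ 2 ≤ P := by rw [hP]; linarith
  have hP0 : 0 < P := by linarith
  have hQ2 : 2 ≤ Q := by rw [hQ]; linarith
  have hQ0 : 0 < Q := by linarith
  have hPA : (P ^ s)⁻¹ ≤ X⁻¹ := by
    apply inv_anti₀ hX0
    rw [hXdef, pow_mul]
    exact pow_le_pow_left₀ hρ2'.le hP1 s
  have hA0 : 0 < (P ^ s)⁻¹ := by positivity
  have hB0 : 0 < (Q ^ s)⁻¹ := by positivity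
  have hA'0 : 0 < (P ^ (s + 1))⁻¹ := by positivity
  have hB'0 : 0 < (Q ^ (s + 1))⁻¹ := by positivity
  rcases le_total c (1 / 4) with hc4 | hc4
  · -- the easy case
    have hP32 : 3 / 2 ≤ P := by rw [hP]; linarith
    have hAs : ∀ m : ℕ, (P ^ m)⁻¹ ≤ (2 / 3) ^ m := by
      intro m
      rw [← inv_pow]
      apply pow_le_pow_left₀ (by positivity)
      rw [inv_le_comm₀ hP0 (by norm_num)]
      norm_num
      linarith
    have hBs : ∀ m : ℕ, (Q ^ m)⁻¹ ≤ (1 / 2) ^ m := by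
      intro m
      rw [← inv_pow]
      apply pow_le_pow_left₀ (by positivity)
      rw [inv_le_comm₀ hQ0 (by norm_num)]
      norm_num
      linarith
    have hA1 : (P ^ s)⁻¹ ≤ (2 / 3) ^ 3 := (hAs s).trans (pow_le_pow_of_le_one (by norm_num) (by norm_num) hs)
    have hB1 : (Q ^ s)⁻¹ ≤ (1 / 2) ^ 3 := (hBs s).trans (pow_le_pow_of_le_one (by norm_num) (by norm_num) hs)
    have hA2 : (P ^ (s + 1))⁻¹ ≤ (2 / 3) ^ 4 :=
      (hAs (s + 1)).trans (pow_le_pow_of_le_one (by norm_num) (by norm_num) (by omega))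
    have hB2 : (Q ^ (s + 1))⁻¹ ≤ (1 / 2) ^ 4 :=
      (hBs (s + 1)).trans (pow_le_pow_of_le_one (by norm_num) (by norm_num) (by omega))
    norm_num at hA1 hB1 hA2 hB2
    have e1 : (P ^ s)⁻¹ + (Q ^ s)⁻¹ + X * η ≤ 0.65 := by
      have : X * η ≤ 2 * (113 / 1000) := mul_le_mul hX hη1 hη0.le (by norm_num)
      linarith
    have e10 : 0 ≤ (P ^ s)⁻¹ + (Q ^ s)⁻¹ + X * η := by positivity
    have e2 : 2 * t * σ * ((P ^ (s + 1))⁻¹ + (Q ^ (s + 1))⁻¹) ≤ 2 * (16 / 81 + 1 / 16) := by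
      have h1 : t * σ ≤ 1 := htσ
      have h2 : (P ^ (s + 1))⁻¹ + (Q ^ (s + 1))⁻¹ ≤ 16 / 81 + 1 / 16 := by linarith
      have h3 : 0 ≤ t * σ := by positivity
      calc 2 * t * σ * ((P ^ (s + 1))⁻¹ + (Q ^ (s + 1))⁻¹)
          = 2 * ((t * σ) * ((P ^ (s + 1))⁻¹ + (Q ^ (s + 1))⁻¹)) := by ring
        _ ≤ 2 * (1 * (16 / 81 + 1 / 16)) := by
            apply mul_le_mul_of_nonneg_left _ (by norm_num)
            exact mul_le_mul h1 h2 (by positivity) (by norm_num)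
        _ = _ := by ring
    have e3 : √3 * (X * ρ) * η ≤ 1.7321 * (2 * (9 / 8)) * (113 / 1000) := by
      have h1 : X * ρ ≤ 2 * (9 / 8) := mul_le_mul hX hρ98 hρ0.le (by norm_num)
      exact mul_le_mul (mul_le_mul hsq3u h1 (by positivity) (by norm_num)) hη1 hη0.le (by norm_num)
    have e20 : 0 ≤ 2 * t * σ * ((P ^ (s + 1))⁻¹ + (Q ^ (s + 1))⁻¹) + √3 * (X * ρ) * η := by positivity
    have e4 : 2 * t * σ * ((P ^ (s + 1))⁻¹ + (Q ^ (s + 1))⁻¹) + √3 * (X * ρ) * η ≤ 1 := by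
      norm_num at e2 e3
      linarith
    have e5 := pow_le_pow_left₀ e10 e1 2
    have e6 := pow_le_pow_left₀ e20 e4 2
    have e7 : (0.65 : ℝ) ^ 2 + 1 ^ 2 < 4 := by norm_num
    linarith
  · -- the main case
    have hP2 : 2 * (1 - c) ≤ P := by rw [hP]; linarith
    have hQ52 : 5 / 2 ≤ Q := by rw [hQ]; linarith
    have hσP : σ ≤ √3 / 2 * P := by
      have h1 : σ ≤ √3 * (1 - c) := by
        apply le_of_sq_le_sq _ (by have : 0 ≤ 1 - c := by linarith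
                                   positivity)
        rw [mul_pow, hsq3]
        have q1 : (1 - c) * (4 * c) ≤ (1 - c) * 2 := mul_le_mul_of_nonneg_left (by linarith) (by linarith)
        linarith
      calc σ ≤ √3 * (1 - c) := h1
        _ = √3 / 2 * (2 * (1 - c)) := by ring
        _ ≤ _ := mul_le_mul_of_nonneg_left hP2 (by positivity)
    have hσA : σ * (P ^ (s + 1))⁻¹ ≤ √3 / 2 * X⁻¹ := by
      have h1 : (P ^ (s + 1))⁻¹ = (P ^ s)⁻¹ * P⁻¹ := by rw [pow_succ, mul_inv]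
      rw [h1]
      calc σ * ((P ^ s)⁻¹ * P⁻¹) ≤ (√3 / 2 * P) * ((P ^ s)⁻¹ * P⁻¹) :=
            mul_le_mul_of_nonneg_right hσP (by positivity)
        _ = √3 / 2 * (P ^ s)⁻¹ * (P * P⁻¹) := by ring
        _ = √3 / 2 * (P ^ s)⁻¹ := by rw [mul_inv_cancel₀ hP0.ne', mul_one]
        _ ≤ _ := mul_le_mul_of_nonneg_left hPA (by positivity)
    have hBs : ∀ m : ℕ, (Q ^ m)⁻¹ ≤ (2 / 5) ^ m := by
      intro m
      rw [← inv_pow]
      apply pow_le_pow_left₀ (by positivity)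
      rw [inv_le_comm₀ hQ0 (by norm_num)]
      norm_num
      linarith
    have hB1 : (Q ^ s)⁻¹ ≤ 64 / 1000 * u := by
      refine (hBs s).trans (le_of_eq ?_)
      rw [hn, pow_add, hu]
      ring
    have hB2 : (Q ^ (s + 1))⁻¹ ≤ 256 / 10000 * u := by
      refine (hBs (s + 1)).trans (le_of_eq ?_)
      rw [hn, pow_add, pow_add, hu]
      ring
    have hXi0 : 0 < X⁻¹ := inv_pos.2 hX0
    have hXi : X * X⁻¹ = 1 := mul_inv_cancel₀ hX0.ne'
    -- a / X + κ X ≤ a + κ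
    have hconv : ∀ a κ : ℝ, 0 ≤ κ → 2 * κ ≤ a → a * X⁻¹ + κ * X ≤ a + κ := by
      intro a κ hκ hκa
      have h1 : a * X⁻¹ + κ * X - (a + κ) = (X - 1) * (κ * X - a) * X⁻¹ := by
        field_simp
        ring
      have h2 : (X - 1) * (κ * X - a) * X⁻¹ ≤ 0 := by
        apply mul_nonpos_of_nonpos_of_nonneg _ hXi0.le
        apply mul_nonpos_of_nonneg_of_nonpos (by linarith)
        have : κ * X ≤ κ * 2 := mul_le_mul_of_nonneg_left hX hκ
        linarith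
      linarith
    have e1 : (P ^ s)⁻¹ + (Q ^ s)⁻¹ + X * η ≤ 1 + 177 / 1000 * u := by
      have h1 := hconv 1 η hη0.le (by linarith)
      linarith
    have e10 : 0 ≤ (P ^ s)⁻¹ + (Q ^ s)⁻¹ + X * η := by positivity
    have e2 : 2 * t * σ * ((P ^ (s + 1))⁻¹ + (Q ^ (s + 1))⁻¹) + √3 * (X * ρ) * η ≤
        √3 * (1 - is) + 272 / 1000 * u := by
      have h1 : 2 * t * (σ * (P ^ (s + 1))⁻¹) ≤ √3 * (1 - is) * X⁻¹ := by
        calc 2 * t * (σ * (P ^ (s + 1))⁻¹) ≤ 2 * (1 - is) * (√3 / 2 * X⁻¹) := by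
              apply mul_le_mul (by linarith) hσA (by positivity) (by linarith)
          _ = _ := by ring
      have h2 : 2 * t * (σ * (Q ^ (s + 1))⁻¹) ≤ 512 / 10000 * u := by
        have h3 : t * σ ≤ 1 := htσ
        have h4 : 0 ≤ t * σ := by positivity
        calc 2 * t * (σ * (Q ^ (s + 1))⁻¹) = 2 * ((t * σ) * (Q ^ (s + 1))⁻¹) := by ring
          _ ≤ 2 * (1 * (256 / 10000 * u)) := by
              apply mul_le_mul_of_nonneg_left _ (by norm_num)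
              exact mul_le_mul h3 hB2 (by positivity) (by norm_num)
          _ = _ := by ring
      have h5 : √3 * (X * ρ) * η ≤ (√3 * (9 / 8) * η) * X := by
        calc √3 * (X * ρ) * η = (√3 * ρ * η) * X := by ring
          _ ≤ (√3 * (9 / 8) * η) * X := by gcongr
      have h6 := hconv (√3 * (1 - is)) (√3 * (9 / 8) * η) (by positivity) (by
        have : 2 * ((9 / 8) * η) ≤ 1 - is := by linarith
        calc 2 * (√3 * (9 / 8) * η) = √3 * (2 * ((9 / 8) * η)) := by ring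
          _ ≤ √3 * (1 - is) := mul_le_mul_of_nonneg_left this hsq3n)
      have h7 : √3 * (9 / 8) * η ≤ 2205 / 10000 * u := by
        calc √3 * (9 / 8) * η ≤ 1.7321 * (9 / 8) * (113 / 1000 * u) := by gcongr
          _ ≤ _ := by norm_num; linarith
      have h8 : 2 * t * σ * ((P ^ (s + 1))⁻¹ + (Q ^ (s + 1))⁻¹) =
          2 * t * (σ * (P ^ (s + 1))⁻¹) + 2 * t * (σ * (Q ^ (s + 1))⁻¹) := by ring
      rw [h8]
      linarith
    have e20 : 0 ≤ 2 * t * σ * ((P ^ (s + 1))⁻¹ + (Q ^ (s + 1))⁻¹) + √3 * (X * ρ) * η := by positivity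
    have f1 : ((P ^ s)⁻¹ + (Q ^ s)⁻¹ + X * η) ^ 2 ≤ (1 + 177 / 1000 * u) ^ 2 := pow_le_pow_left₀ e10 e1 2
    have f2 : (2 * t * σ * ((P ^ (s + 1))⁻¹ + (Q ^ (s + 1))⁻¹) + √3 * (X * ρ) * η) ^ 2 ≤
        (√3 * (1 - is) + 272 / 1000 * u) ^ 2 := pow_le_pow_left₀ e20 e2 2
    have f3 : (√3 * (1 - is) + 272 / 1000 * u) ^ 2 =
        3 * (1 - is) ^ 2 + 544 / 1000 * (√3 * (1 - is)) * u + (272 / 1000 * u) ^ 2 := by
      have g : (√3 * (1 - is) + 272 / 1000 * u) ^ 2 =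
        √3 ^ 2 * (1 - is) ^ 2 + 544 / 1000 * (√3 * (1 - is)) * u + (272 / 1000 * u) ^ 2 := by ring
      rw [g, hsq3]
    have f4 : √3 * (1 - is) ≤ 1.7321 := by
      calc √3 * (1 - is) ≤ 1.7321 * 1 := mul_le_mul hsq3u (by linarith) (by linarith) (by norm_num)
        _ = _ := by norm_num
    have f5 : 544 / 1000 * (√3 * (1 - is)) * u ≤ 544 / 1000 * 1.7321 * u := by
      gcongr
    have f6 : u ^ 2 ≤ u := by
      rw [sq]
      exact mul_le_of_le_one_left hu0.le hu1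
    have f7 : (1 + 177 / 1000 * u) ^ 2 + (3 * (1 - is) ^ 2 + 544 / 1000 * 1.7321 * u + (272 / 1000 * u) ^ 2) ≤
        4 - 6 * is + 3 * is ^ 2 + 1.41 * u := by
      have g : (1 + 177 / 1000 * u) ^ 2 + (3 * (1 - is) ^ 2 + 544 / 1000 * 1.7321 * u + (272 / 1000 * u) ^ 2) =
        4 - 6 * is + 3 * is ^ 2 + (354 / 1000 + 544 / 1000 * 1.7321) * u + (31329 + 73984) / 1000000 * u ^ 2 := by
        ring
      rw [g]
      norm_num
      linarith
    have f8 : 4 - 6 * is + 3 * is ^ 2 + 1.41 * u < 4 := by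
      have g1 : u ≤ 3 * is := by
        have : (s : ℝ) * u ≤ s * (3 * is) := by
          have : (s : ℝ) * (3 * is) = 3 := by
            calc (s : ℝ) * (3 * is) = 3 * (s * is) := by ring
              _ = 3 := by rw [his1, mul_one]
          linarith
        exact le_of_mul_le_mul_left this hs0
      have g2 : is ^ 2 ≤ is * (1 / 3) := by
        rw [sq]
        exact mul_le_mul_of_nonneg_left his3 his0.le
      norm_num
      linarith
    rw [f3] at f2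
    linarith

end Pool.Agent.LibEis68
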