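import Pool.Agent.LibEis68.ADefs

open Complex Polynomial Matrix
open scoped ComplexConjugate MatrixGroups UpperHalfPlane

namespace Pool.Agent.LibEis68

private theorem sinh_aux {y : ℝ} (hy : 1 < y) (s : ℕ) :
    s * (y - y⁻¹) ≤ y ^ s - (y ^ s)⁻¹ := by
  have hy0 : 0 < y := by linarith
  have hz : ∀ z : ℝ, 0 < z → 2 ≤ z + z⁻¹ := by
    intro z hz
    have h1 : z * z⁻¹ = 1 := mul_inv_cancel₀ hz.ne'
    have h2 : 0 < z⁻¹ := inv_pos.2 hz
    nlinarith [sq_nonneg (z - z⁻¹), sq_nonneg (z + z⁻¹ - 2)]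
  have h1 : 0 ≤ y - y⁻¹ := by
    have := inv_lt_one_of_one_lt₀ hy
    linarith
  induction s with
  | zero => simp
  | succ s ih =>
    have h2 : 0 ≤ y ^ s - (y ^ s)⁻¹ := by
      have h3 : 1 ≤ y ^ s := one_le_pow₀ hy.le
      have h4 := inv_le_one_of_one_le₀ h3
      linarith
    have h5 := hz y hy0
    have h6 := hz (y ^ s) (by positivity)
    have e : y ^ (s + 1) - (y ^ (s + 1))⁻¹ =
        ((y + y⁻¹) * (y ^ s - (y ^ s)⁻¹) + (y ^ s + (y ^ s)⁻¹) * (y - y⁻¹)) / 2 := by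
      rw [pow_succ, mul_inv]
      field_simp
      ring
    rw [e]
    push_cast
    nlinarith [mul_nonneg (sub_nonneg.2 h5) h2, mul_nonneg (sub_nonneg.2 h6) h1]

/-- Comparison of hyperbolic sines. -/
theorem sinh_comp {s : ℕ} (hs : 1 ≤ s) {ρ : ℝ} (hρ : 1 < ρ) :
    s * (ρ ^ 2 - (ρ ^ 2)⁻¹) ≤ ρ ^ (2 * s) - (ρ ^ (2 * s))⁻¹ ∧
    2 * s * (ρ - ρ⁻¹) ≤ ρ ^ (2 * s) - (ρ ^ (2 * s))⁻¹ := by
  constructor
  · have := sinh_aux (y := ρ ^ 2) (one_lt_pow₀ hρ (by norm_num)) s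
    rwa [← pow_mul] at this
  · have := sinh_aux hρ (2 * s)
    push_cast at this
    exact this

end Pool.Agent.LibEis68
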