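import Pool.Agent.LibEis68.A07
import Pool.Agent.LibEis68.A09
import Pool.Agent.LibEis68.A10
import Pool.Agent.LibEis68.A11
import Pool.Agent.LibEis68.A13
import Pool.Agent.LibEis68.A15
import Pool.Agent.LibEis68.A16
import Pool.Agent.LibEis68.A17

open Complex Polynomial Matrix
open scoped ComplexConjugate MatrixGroups UpperHalfPlane

namespace Pool.Agent.LibEis68

/-- `s ≥ 3`, `|τ|^s ≤ 2`. -/
theorem latc_ne_zero_near {s l : ℕ} (hs : 3 ≤ s) (hl1 : 1 ≤ l) (hl : l < s) {ρ : ℝ} {E : ℂ}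
    (h : Pos ρ E) (hX : ρ ^ (2 * s) ≤ 2) : latc (s + l) (s - l) (((ρ : ℂ) * E) ^ 2) ≠ 0 := by
  intro h0
  have hρ : 1 < ρ := h.one_lt
  have hρ0 : 0 < ρ := by linarith
  have key := latc_eq (by omega : 2 ≤ s) hl.le h
  rw [h0, mul_zero] at key
  set X := ρ ^ (2 * s) with hXdef
  set c := E.re ^ 2 - E.im ^ 2 with hc
  set σ := 2 * E.re * E.im with hσ
  have hX1 : 1 < X := one_lt_pow₀ hρ (by omega)
  have hX0 : 0 < X := by positivity
  have hs0 : (0:ℝ) < s := by exact_mod_cast (by omega : 0 < s)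
  have hr2 : 0 < (ρ ^ 2)⁻¹ := by positivity
  have hr3 : 0 < ρ ^ 2 := by positivity
  have h2c : 2 * c ≤ (ρ ^ 2)⁻¹ := by
    have := h.re_le
    rw [← hc] at this
    have h3 : 2 * c = (ρ ^ 2 * c) * 2 * (ρ ^ 2)⁻¹ := by field_simp
    rw [h3]
    nlinarith
  have hc0 : 0 ≤ c := h.re_nonneg
  have hσ0 : 0 ≤ σ := by
    have := h.im_pos
    rw [hσ]; nlinarith
  have hσc : σ ^ 2 + c ^ 2 = 1 := by
    have := h.norm_one
    have e : σ ^ 2 + c ^ 2 = (E.re ^ 2 + E.im ^ 2) ^ 2 := by rw [hσ, hc]; ring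
    rw [e, this]; norm_num
  set P := ρ ^ 2 + (ρ ^ 2)⁻¹ - 2 * c with hP
  set Q := ρ ^ 2 + (ρ ^ 2)⁻¹ + 2 * c with hQ
  have hP0 : 0 < P := by rw [hP]; linarith
  have hQ0 : 0 < Q := by rw [hQ]; linarith
  have nsq : ∀ m n : ℤ, normSq (vv ρ E m n) = m ^ 2 * ρ ^ 2 + n ^ 2 * (ρ ^ 2)⁻¹ + 2 * m * n * c :=
    fun m n => normSq_vv hρ0.ne' E h.norm_one m n
  have n11 : ‖tt s l ρ E 1 1‖ = (Q ^ s)⁻¹ := by
    rw [norm_tt_eq hl.le h, nsq]
    push_cast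
    rw [hQ]; congr 2; ring
  have n1m : ‖tt s l ρ E 1 (-1)‖ = (P ^ s)⁻¹ := by
    rw [norm_tt_eq hl.le h, nsq]
    push_cast
    rw [hP]; congr 2; ring
  have hsr := sum_qf hs
  set u : ℝ := (1 / 3) ^ (s - 3) with hu
  have hne : ∀ v : Rest, (v.1.1, v.1.2) ≠ (0, 0) := by
    intro v he
    have h3 := v.2.2
    simp only [Prod.mk.injEq] at he
    rw [he.1, he.2] at h3
    norm_num at h3
  set S := ∑' v : Rest, tt s l ρ E v.1.1 v.1.2 with hS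
  have htail : ‖S‖ ≤ X * (226 / 1000 * u) := by
    have hb : ∀ v : Rest, ‖tt s l ρ E v.1.1 v.1.2‖ ≤ X * ((qf v.1.1 v.1.2 : ℝ) ^ s)⁻¹ := by
      intro v
      have := norm_tt_le hl.le h (hne v)
      rw [div_eq_mul_inv] at this
      exact this
    have h1 := tsum_of_norm_bounded (hsr.1.mul_left X).hasSum hb
    rw [tsum_mul_left] at h1
    exact h1.trans (mul_le_mul_of_nonneg_left hsr.2 hX0.le)
  -- imaginary part of the tail
  have hsum : Summable fun v : Rest => tt s l ρ E v.1.1 v.1.2 :=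
    (tt_summable (by omega : 2 ≤ s) hl.le h).comp_injective (i := fun v : Rest => v.1) Subtype.val_injective
  have hsum2 : Summable fun v : Rest => tt s l ρ E v.1.2 v.1.1 := by
    exact (tt_summable (by omega : 2 ≤ s) hl.le h).comp_injective (i := fun v : Rest => (v.1.2, v.1.1))
      (fun v w hvw => Subtype.ext (Prod.ext (congrArg Prod.snd hvw) (congrArg Prod.fst hvw)))
  set W := 2 * s * (ρ - ρ⁻¹) * √3 * ρ ^ (2 * s + 1) with hW
  have hρi : 0 ≤ ρ - ρ⁻¹ := by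
    have := inv_lt_one_of_one_lt₀ hρ
    linarith
  have hW0 : 0 ≤ W := by rw [hW]; positivity
  have him : |S.im| ≤ W * (226 / 1000 * u) / 2 := by
    have e1 := tail_symm (by omega : 2 ≤ s) hl.le h
    have e2 : 2 * S.im = ∑' v : Rest, (tt s l ρ E v.1.1 v.1.2 + tt s l ρ E v.1.2 v.1.1).im := by
      rw [← Complex.im_tsum (hsum.add hsum2), ← e1]
      simp [hS]
    have hb : ∀ v : Rest, ‖(tt s l ρ E v.1.1 v.1.2 + tt s l ρ E v.1.2 v.1.1).im‖ ≤ W * ((qf v.1.1 v.1.2 : ℝ) ^ s)⁻¹ := by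
      intro v
      have := im_pair_le (by omega : 1 ≤ s) hl.le h (hne v)
      rw [div_eq_mul_inv] at this
      exact this
    have h1 := tsum_of_norm_bounded (hsr.1.mul_left W).hasSum hb
    rw [tsum_mul_left, ← e2, Real.norm_eq_abs, abs_mul, abs_two] at h1
    have h2 := mul_le_mul_of_nonneg_left hsr.2 hW0
    linarith
  -- the remainder
  set R := tt s l ρ E 1 1 + tt s l ρ E 1 (-1) + S / 2 with hR
  have hzero : ((X : ℝ) : ℂ) * E ^ (2 * l) + ((X : ℝ) : ℂ)⁻¹ * conj (E ^ (2 * l)) + R = 0 := by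
    have e1 := tt_zero_one hl.le h
    have e2 := tt_one_zero hl.le h
    have e3 : ((X : ℝ) : ℂ) = (ρ : ℂ) ^ (2 * s) := by rw [hXdef]; push_cast; rfl
    rw [e3, ← e1, ← e2, hR]
    linear_combination (-1/2 : ℂ) * key
  set α := (P ^ s)⁻¹ + (Q ^ s)⁻¹ + X * (113 / 1000 * u) with hα
  set β := 2 * ((l:ℝ) / s) * σ * ((P ^ (s + 1))⁻¹ + (Q ^ (s + 1))⁻¹) + √3 * ρ ^ (2 * s + 1) * (113 / 1000 * u) with hβ
  have hα0 : 0 ≤ α := by rw [hα]; positivity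
  have hz : normSq (E ^ (2 * l)) = 1 := by
    rw [map_pow, normSq_apply]
    have : E.re * E.re + E.im * E.im = 1 := by nlinarith [h.norm_one]
    rw [this, one_pow]
  refine ellipse (X := X) (α := α) (β := β) hX1 hz ?_ ?_ ?_ hzero
  · have h1 : |R.re| ≤ ‖R‖ := Complex.abs_re_le_norm R
    have h2 : ‖R‖ ≤ α := by
      rw [hR]
      refine (norm_add_le _ _).trans ?_
      have h3 : ‖S / 2‖ ≤ X * (113 / 1000 * u) := by
        rw [norm_div]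
        have : ‖(2:ℂ)‖ = 2 := by norm_num
        rw [this]; linarith
      have h4 := norm_add_le (tt s l ρ E 1 1) (tt s l ρ E 1 (-1))
      rw [n11, n1m] at h4
      rw [hα]; linarith
    have h5 : 2 ≤ X + X⁻¹ := by
      have : X * X⁻¹ = 1 := mul_inv_cancel₀ hX0.ne'
      have h6 : 0 < X⁻¹ := by positivity
      nlinarith [sq_nonneg (X - X⁻¹), sq_nonneg (X + X⁻¹ - 2)]
    nlinarith [mul_nonneg hα0 (sub_nonneg.2 h5)]
  · obtain ⟨c1, c2⟩ := sinh_comp (by omega : 1 ≤ s) hρ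
    rw [← hXdef] at c1 c2
    have i1 := im_tt_one_neg hl.le h
    have i2 := im_tt_one_one hl.le h
    rw [← hc, ← hσ, ← hP] at i1
    rw [← hc, ← hσ, ← hQ] at i2
    have hy : 0 ≤ ρ ^ 2 - (ρ ^ 2)⁻¹ := by
      have := inv_lt_one_of_one_lt₀ (one_lt_pow₀ hρ (n := 2) (by norm_num))
      have h3 := one_lt_pow₀ hρ (n := 2) (by norm_num)
      linarith
    have d0 : (l:ℝ) * (ρ ^ 2 - (ρ ^ 2)⁻¹) ≤ (l / s) * (X - X⁻¹) := by
      calc (l:ℝ) * (ρ ^ 2 - (ρ ^ 2)⁻¹) = (l / s) * (s * (ρ ^ 2 - (ρ ^ 2)⁻¹)) := by field_simp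
        _ ≤ _ := mul_le_mul_of_nonneg_left c1 (by positivity)
    have d1 : |(tt s l ρ E 1 (-1)).im| ≤ (X - X⁻¹) / 2 * (2 * ((l:ℝ) / s) * σ * (P ^ (s + 1))⁻¹) := by
      refine i1.trans ?_
      rw [div_eq_mul_inv]
      calc (l:ℝ) * (ρ ^ 2 - (ρ ^ 2)⁻¹) * σ * (P ^ (s + 1))⁻¹ ≤ ((l / s) * (X - X⁻¹)) * σ * (P ^ (s + 1))⁻¹ := by gcongr
        _ = _ := by ring
    have d2 : |(tt s l ρ E 1 1).im| ≤ (X - X⁻¹) / 2 * (2 * ((l:ℝ) / s) * σ * (Q ^ (s + 1))⁻¹) := by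
      refine i2.trans ?_
      rw [div_eq_mul_inv]
      calc (l:ℝ) * (ρ ^ 2 - (ρ ^ 2)⁻¹) * σ * (Q ^ (s + 1))⁻¹ ≤ ((l / s) * (X - X⁻¹)) * σ * (Q ^ (s + 1))⁻¹ := by gcongr
        _ = _ := by ring
    have d3 : |S.im| / 2 ≤ (X - X⁻¹) / 2 * (√3 * ρ ^ (2 * s + 1) * (113 / 1000 * u)) := by
      have e1 : W * (226 / 1000 * u) / 2 / 2 = (2 * s * (ρ - ρ⁻¹)) / 2 * (√3 * ρ ^ (2 * s + 1) * (113 / 1000 * u)) := by
        rw [hW]; ring
      have e2 : (2 * s * (ρ - ρ⁻¹)) / 2 * (√3 * ρ ^ (2 * s + 1) * (113 / 1000 * u)) ≤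
          (X - X⁻¹) / 2 * (√3 * ρ ^ (2 * s + 1) * (113 / 1000 * u)) := by
        refine mul_le_mul_of_nonneg_right (by linarith) ?_
        positivity
      linarith
    have e4 : R.im = (tt s l ρ E 1 1).im + (tt s l ρ E 1 (-1)).im + S.im / 2 := by
      rw [hR]
      have : (S / 2).im = S.im / 2 := by
        rw [show (2:ℂ) = ((2:ℝ):ℂ) by norm_num, Complex.div_ofReal_im]
      simp only [Complex.add_im, this]
    rw [e4]
    calc |(tt s l ρ E 1 1).im + (tt s l ρ E 1 (-1)).im + S.im / 2| 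
        ≤ |(tt s l ρ E 1 1).im| + |(tt s l ρ E 1 (-1)).im| + |S.im / 2| :=
          (abs_add_le _ _).trans (add_le_add (abs_add_le _ _) le_rfl)
      _ = |(tt s l ρ E 1 1).im| + |(tt s l ρ E 1 (-1)).im| + |S.im| / 2 := by rw [abs_div, abs_two]
      _ ≤ (X - X⁻¹) / 2 * (2 * ((l:ℝ) / s) * σ * (Q ^ (s + 1))⁻¹) + (X - X⁻¹) / 2 * (2 * ((l:ℝ) / s) * σ * (P ^ (s + 1))⁻¹) +
          (X - X⁻¹) / 2 * (√3 * ρ ^ (2 * s + 1) * (113 / 1000 * u)) := add_le_add (add_le_add d2 d1) d3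
      _ = β * (X - X⁻¹) / 2 := by rw [hβ]; ring
  · exact real_ineq hs hl hρ hX hc0 h.re_le hσ0 hσc

end Pool.Agent.LibEis68
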