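import Pool.Agent.LibEis68.A06
import Pool.Agent.LibEis68.A09
import Pool.Agent.LibEis68.A11
import Pool.Agent.LibEis68.A13

open Complex Polynomial Matrix
open scoped ComplexConjugate MatrixGroups UpperHalfPlane

namespace Pool.Agent.LibEis68

/-- `s ≥ 3`, `|τ|^s ≥ 2`. -/
theorem latc_ne_zero_far {s l : ℕ} (hs : 3 ≤ s) (hl : l ≤ s) {ρ : ℝ} {E : ℂ}
    (h : Pos ρ E) (hX : 2 ≤ ρ ^ (2 * s)) : latc (s + l) (s - l) (((ρ : ℂ) * E) ^ 2) ≠ 0 := by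
  intro h0
  have hρ : 1 < ρ := h.one_lt
  have hρ0 : 0 < ρ := by linarith
  have key := latc_eq (by omega : 2 ≤ s) hl h
  rw [h0, mul_zero] at key
  set X := ρ ^ (2 * s) with hXdef
  set c := E.re ^ 2 - E.im ^ 2 with hc
  have hX0 : 0 < X := by positivity
  have hE : ‖E‖ = 1 := by
    have : normSq E = 1 := by rw [normSq_apply]; nlinarith [h.norm_one]
    rw [← Complex.sq_norm] at this
    nlinarith [norm_nonneg E]
  have n01 : ‖tt s l ρ E 0 1‖ = X := by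
    rw [tt_zero_one hl h, norm_mul, norm_pow, norm_pow, hE, Complex.norm_real, Real.norm_of_nonneg hρ0.le]
    simp [hXdef]
  have n10 : ‖tt s l ρ E 1 0‖ = X⁻¹ := by
    rw [tt_one_zero hl h, norm_mul, norm_inv, norm_pow, RCLike.norm_conj, norm_pow, hE, Complex.norm_real,
      Real.norm_of_nonneg hρ0.le]
    simp [hXdef]
  have hr1 : ρ ^ 2 * (ρ ^ 2)⁻¹ = 1 := mul_inv_cancel₀ (by positivity)
  have hr2 : 0 < (ρ ^ 2)⁻¹ := by positivity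
  have hr3 : 0 < ρ ^ 2 := by positivity
  have h2c : 2 * c ≤ (ρ ^ 2)⁻¹ := by
    have := h.re_le
    rw [← hc] at this
    have h3 : 2 * c = (ρ ^ 2 * c) * 2 * (ρ ^ 2)⁻¹ := by field_simp
    rw [h3]
    nlinarith
  have hc0 : 0 ≤ c := h.re_nonneg
  have hhyp : 2 ≤ ρ ^ 2 + (ρ ^ 2)⁻¹ := by nlinarith [sq_nonneg (ρ ^ 2 - (ρ ^ 2)⁻¹), sq_nonneg (ρ ^ 2 + (ρ ^ 2)⁻¹ - 2)]
  have nsq : ∀ m n : ℤ, normSq (vv ρ E m n) = m ^ 2 * ρ ^ 2 + n ^ 2 * (ρ ^ 2)⁻¹ + 2 * m * n * c :=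
    fun m n => normSq_vv hρ0.ne' E h.norm_one m n
  have n11 : ‖tt s l ρ E 1 1‖ ≤ 1 / 8 := by
    rw [norm_tt_eq hl h, nsq]
    push_cast
    have h1 : (2:ℝ) ≤ 1 ^ 2 * ρ ^ 2 + 1 ^ 2 * (ρ ^ 2)⁻¹ + 2 * 1 * 1 * c := by linarith
    have h2 : (2:ℝ) ^ 3 ≤ (1 ^ 2 * ρ ^ 2 + 1 ^ 2 * (ρ ^ 2)⁻¹ + 2 * 1 * 1 * c) ^ s :=
      (pow_le_pow_right₀ (by norm_num) hs).trans (pow_le_pow_left₀ (by norm_num) h1 s)
    calc ((1 ^ 2 * ρ ^ 2 + 1 ^ 2 * (ρ ^ 2)⁻¹ + 2 * 1 * 1 * c) ^ s)⁻¹ ≤ ((2:ℝ) ^ 3)⁻¹ := inv_anti₀ (by positivity) h2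
      _ = 1 / 8 := by norm_num
  have n1m : ‖tt s l ρ E 1 (-1)‖ ≤ X⁻¹ := by
    rw [norm_tt_eq hl h, nsq]
    push_cast
    have h1 : ρ ^ 2 ≤ 1 ^ 2 * ρ ^ 2 + (-1) ^ 2 * (ρ ^ 2)⁻¹ + 2 * 1 * (-1) * c := by linarith
    have h2 : X ≤ (1 ^ 2 * ρ ^ 2 + (-1) ^ 2 * (ρ ^ 2)⁻¹ + 2 * 1 * (-1) * c) ^ s := by
      rw [hXdef, pow_mul]
      exact pow_le_pow_left₀ (by positivity) h1 s
    exact inv_anti₀ hX0 h2
  have hsr := sum_qf hs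
  have htail : ‖∑' v : Rest, tt s l ρ E v.1.1 v.1.2‖ ≤ X * (226 / 1000) := by
    have hb : ∀ v : Rest, ‖tt s l ρ E v.1.1 v.1.2‖ ≤ X * ((qf v.1.1 v.1.2 : ℝ) ^ s)⁻¹ := by
      intro v
      have hv : (v.1.1, v.1.2) ≠ (0, 0) := by
        intro he
        have h3 := v.2.2
        simp only [Prod.mk.injEq] at he
        rw [he.1, he.2] at h3
        norm_num at h3
      have := norm_tt_le hl h hv
      rw [div_eq_mul_inv] at this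
      exact this
    have h1 := tsum_of_norm_bounded (hsr.1.mul_left X).hasSum hb
    rw [tsum_mul_left] at h1
    refine h1.trans (mul_le_mul_of_nonneg_left ?_ hX0.le)
    refine hsr.2.trans ?_
    have : ((1:ℝ) / 3) ^ (s - 3) ≤ 1 := pow_le_one₀ (by norm_num) (by norm_num)
    nlinarith
  have hXi : X⁻¹ ≤ X / 4 := by
    rw [inv_le_iff_one_le_mul₀ hX0]
    nlinarith
  have hN : ‖tt s l ρ E 0 1‖ ≤ ‖tt s l ρ E 1 0‖ + ‖tt s l ρ E 1 1‖ + ‖tt s l ρ E 1 (-1)‖ +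
      ‖∑' v : Rest, tt s l ρ E v.1.1 v.1.2‖ / 2 := by
    have e : tt s l ρ E 0 1 = -(tt s l ρ E 1 0 + tt s l ρ E 1 1 + tt s l ρ E 1 (-1) +
        (∑' v : Rest, tt s l ρ E v.1.1 v.1.2) / 2) := by
      linear_combination (-1/2 : ℂ) * key
    rw [e, norm_neg]
    refine (norm_add_le _ _).trans ?_
    rw [norm_div]
    have : ‖(2:ℂ)‖ = 2 := by norm_num
    rw [this]
    exact add_le_add ((norm_add_le _ _).trans (add_le_add (norm_add_le _ _) le_rfl)) le_rfl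
  rw [n01, n10] at hN
  linarith

end Pool.Agent.LibEis68
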