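import Pool.Agent.LibEis68.A07
import Pool.Agent.LibEis68.A11
import Pool.Agent.LibEis68.A14

open Complex Polynomial Matrix
open scoped ComplexConjugate MatrixGroups UpperHalfPlane

namespace Pool.Agent.LibEis68

private theorem im_tt {ρ : ℝ} (hρ : ρ ≠ 0) (E : ℂ) (m n : ℤ) :
    (tt 2 1 ρ E m n).im =
      -((m ^ 2 * ρ ^ 2 - n ^ 2 * (ρ ^ 2)⁻¹) * (2 * E.re * E.im)) / (normSq (vv ρ E m n)) ^ 3 := by
  rw [← im_vv_sq hρ E m n]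
  set V := vv ρ E m n with hV
  have e1 : tt 2 1 ρ E m n = (V ^ 2 * ((normSq V : ℝ) : ℂ))⁻¹ := by
    unfold tt
    rw [← hV, ← Complex.mul_conj]
    congr 1
    ring
  rw [e1, Complex.inv_im, Complex.im_mul_ofReal, map_mul, map_pow, normSq_ofReal]
  by_cases h0 : normSq V = 0
  · rw [h0]; simp
  · field_simp

private theorem pair_bound {ρ : ℝ} {E : ℂ} (h : Pos ρ E) {m n : ℤ} (hmn : (m, n) ≠ (0, 0)) :
    -(tt 2 1 ρ E m n + tt 2 1 ρ E n m).im ≤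
      (2 * E.re * E.im) * (ρ ^ 2 - (ρ ^ 2)⁻¹) * ρ ^ 6 * (((m:ℝ) ^ 2 + (n:ℝ) ^ 2) / (qf m n : ℝ) ^ 3) := by
  have hρ : 1 < ρ := h.one_lt
  have hρ0 : 0 < ρ := by linarith
  have hq : (1:ℝ) ≤ qf m n := by exact_mod_cast qf_pos hmn
  have hq0 : (0:ℝ) < qf m n := by linarith
  set σ := 2 * E.re * E.im with hσ
  have hσ0 : 0 ≤ σ := by
    have := h.im_pos
    rw [hσ]; nlinarith
  have hr2 : 0 < (ρ ^ 2)⁻¹ := by positivity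
  have hy1 : 1 < ρ ^ 2 := one_lt_pow₀ hρ (by norm_num)
  have hy2 : (ρ ^ 2)⁻¹ < 1 := inv_lt_one_of_one_lt₀ hy1
  have hA := normSq_vv hρ0.ne' E h.norm_one m n
  have hB := normSq_vv hρ0.ne' E h.norm_one n m
  have qA := qf_le h m n
  have qB := qf_le h n m
  rw [qf_swap] at qB
  rw [Complex.add_im, im_tt hρ0.ne', im_tt hρ0.ne', ← hσ]
  set A := normSq (vv ρ E m n) with hAd
  set B := normSq (vv ρ E n m) with hBd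
  have hA0 : 0 < A := by
    by_contra hcon
    push Not at hcon
    nlinarith [mul_nonneg (by positivity : 0 ≤ ρ ^ 2) (neg_nonneg.2 hcon)]
  have hB0 : 0 < B := by
    by_contra hcon
    push Not at hcon
    nlinarith [mul_nonneg (by positivity : 0 ≤ ρ ^ 2) (neg_nonneg.2 hcon)]
  have cube : ∀ D : ℝ, 0 < D → (qf m n : ℝ) ≤ ρ ^ 2 * D → (D ^ 3)⁻¹ ≤ ρ ^ 6 / (qf m n : ℝ) ^ 3 := by
    intro D hD hqD
    rw [inv_eq_one_div, div_le_div_iff₀ (by positivity) (by positivity), one_mul]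
    calc (qf m n : ℝ) ^ 3 ≤ (ρ ^ 2 * D) ^ 3 := pow_le_pow_left₀ hq0.le hqD 3
      _ = _ := by ring
  have hAB : A - B = ((m:ℝ) ^ 2 - (n:ℝ) ^ 2) * (ρ ^ 2 - (ρ ^ 2)⁻¹) := by rw [hA, hB]; ring
  set a := (m:ℝ) ^ 2 * ρ ^ 2 - (n:ℝ) ^ 2 * (ρ ^ 2)⁻¹ with ha
  set b := (n:ℝ) ^ 2 * ρ ^ 2 - (m:ℝ) ^ 2 * (ρ ^ 2)⁻¹ with hb
  have hab : a + b = ((m:ℝ) ^ 2 + (n:ℝ) ^ 2) * (ρ ^ 2 - (ρ ^ 2)⁻¹) := by rw [ha, hb]; ring
  have hab0 : 0 ≤ a + b := by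
    rw [hab]; exact mul_nonneg (by positivity) (by linarith)
  have e : -(-(a * σ) / A ^ 3 + -(b * σ) / B ^ 3) = σ * (a * (A ^ 3)⁻¹ + b * (B ^ 3)⁻¹) := by
    rw [div_eq_mul_inv, div_eq_mul_inv]; ring
  rw [e]
  have key : a * (A ^ 3)⁻¹ + b * (B ^ 3)⁻¹ ≤ (a + b) * (ρ ^ 6 / (qf m n : ℝ) ^ 3) := by
    rcases le_total ((n:ℝ) ^ 2) ((m:ℝ) ^ 2) with hle | hle
    · have hBA : B ≤ A := by
        have : 0 ≤ A - B := by rw [hAB]; exact mul_nonneg (by linarith) (by linarith)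
        linarith
      have ha0 : 0 ≤ a := by
        rw [ha]
        have h1 : (n:ℝ) ^ 2 * (ρ ^ 2)⁻¹ ≤ (n:ℝ) ^ 2 * 1 := mul_le_mul_of_nonneg_left hy2.le (by positivity)
        have h2 : (m:ℝ) ^ 2 * 1 ≤ (m:ℝ) ^ 2 * ρ ^ 2 := mul_le_mul_of_nonneg_left hy1.le (by positivity)
        linarith
      have h1 : (A ^ 3)⁻¹ ≤ (B ^ 3)⁻¹ := inv_anti₀ (by positivity) (pow_le_pow_left₀ hB0.le hBA 3)
      calc a * (A ^ 3)⁻¹ + b * (B ^ 3)⁻¹ ≤ a * (B ^ 3)⁻¹ + b * (B ^ 3)⁻¹ := by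
            have := mul_le_mul_of_nonneg_left h1 ha0
            linarith
        _ = (a + b) * (B ^ 3)⁻¹ := by ring
        _ ≤ _ := mul_le_mul_of_nonneg_left (cube B hB0 qB) hab0
    · have hAB' : A ≤ B := by
        have : A - B ≤ 0 := by rw [hAB]; exact mul_nonpos_of_nonpos_of_nonneg (by linarith) (by linarith)
        linarith
      have hb0 : 0 ≤ b := by
        rw [hb]
        have h1 : (m:ℝ) ^ 2 * (ρ ^ 2)⁻¹ ≤ (m:ℝ) ^ 2 * 1 := mul_le_mul_of_nonneg_left hy2.le (by positivity)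
        have h2 : (n:ℝ) ^ 2 * 1 ≤ (n:ℝ) ^ 2 * ρ ^ 2 := mul_le_mul_of_nonneg_left hy1.le (by positivity)
        linarith
      have h1 : (B ^ 3)⁻¹ ≤ (A ^ 3)⁻¹ := inv_anti₀ (by positivity) (pow_le_pow_left₀ hA0.le hAB' 3)
      calc a * (A ^ 3)⁻¹ + b * (B ^ 3)⁻¹ ≤ a * (A ^ 3)⁻¹ + b * (A ^ 3)⁻¹ := by
            have := mul_le_mul_of_nonneg_left h1 hb0
            linarith
        _ = (a + b) * (A ^ 3)⁻¹ := by ring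
        _ ≤ _ := mul_le_mul_of_nonneg_left (cube A hA0 qA) hab0
  calc σ * (a * (A ^ 3)⁻¹ + b * (B ^ 3)⁻¹) ≤ σ * ((a + b) * (ρ ^ 6 / (qf m n : ℝ) ^ 3)) :=
        mul_le_mul_of_nonneg_left key hσ0
    _ = _ := by rw [hab]; ring

/-- `s = 2`, `|τ|² ≤ 2`. -/
theorem latc_ne_zero_two_near {ρ : ℝ} {E : ℂ}
    (h : Pos ρ E) (hX : ρ ^ 4 ≤ 2) : latc 3 1 (((ρ : ℂ) * E) ^ 2) ≠ 0 := by
  intro h0
  have hρ : 1 < ρ := h.one_lt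
  have hρ0 : 0 < ρ := by linarith
  have key := latc_eq (s := 2) (l := 1) le_rfl (by norm_num) h
  rw [show 2 + 1 = 3 from rfl, show 2 - 1 = 1 from rfl, h0, mul_zero] at key
  set c := E.re ^ 2 - E.im ^ 2 with hc
  set σ := 2 * E.re * E.im with hσ
  have hr2 : 0 < (ρ ^ 2)⁻¹ := by positivity
  have hr3 : 0 < ρ ^ 2 := by positivity
  have h2c : 2 * c ≤ (ρ ^ 2)⁻¹ := by
    have := h.re_le
    rw [← hc] at this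
    have h3 : 2 * c = (ρ ^ 2 * c) * 2 * (ρ ^ 2)⁻¹ := by field_simp
    rw [h3]
    nlinarith
  have hc0 : 0 ≤ c := h.re_nonneg
  have hσ0 : 0 < σ := by
    have := h.im_pos
    rw [hσ]; nlinarith
  have nsq : ∀ m n : ℤ, normSq (vv ρ E m n) = m ^ 2 * ρ ^ 2 + n ^ 2 * (ρ ^ 2)⁻¹ + 2 * m * n * c :=
    fun m n => normSq_vv hρ0.ne' E h.norm_one m n
  have hne : ∀ v : Rest, (v.1.1, v.1.2) ≠ (0, 0) := by
    intro v he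
    have h3 := v.2.2
    simp only [Prod.mk.injEq] at he
    rw [he.1, he.2] at h3
    norm_num at h3
  set S := ∑' v : Rest, tt 2 1 ρ E v.1.1 v.1.2 with hS
  have hsum : Summable fun v : Rest => tt 2 1 ρ E v.1.1 v.1.2 :=
    (tt_summable le_rfl (by norm_num) h).comp_injective (i := fun v : Rest => v.1) Subtype.val_injective
  have hsum2 : Summable fun v : Rest => tt 2 1 ρ E v.1.2 v.1.1 :=
    (tt_summable le_rfl (by norm_num) h).comp_injective (i := fun v : Rest => (v.1.2, v.1.1))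
      (fun v w hvw => Subtype.ext (Prod.ext (congrArg Prod.snd hvw) (congrArg Prod.fst hvw)))
  obtain ⟨s1, s2⟩ := sum_qf_cube
  have hy1 : 1 < ρ ^ 2 := one_lt_pow₀ hρ (by norm_num)
  have hy2 : (ρ ^ 2)⁻¹ < 1 := inv_lt_one_of_one_lt₀ hy1
  set d := ρ ^ 2 - (ρ ^ 2)⁻¹ with hd
  have hd0 : 0 < d := by rw [hd]; linarith
  have him : -(2 * S.im) ≤ σ * d * ρ ^ 6 * (19 / 10) := by
    have e1 := tail_symm (s := 2) (l := 1) le_rfl (by norm_num) h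
    have e2 : 2 * S.im = ∑' v : Rest, (tt 2 1 ρ E v.1.1 v.1.2 + tt 2 1 ρ E v.1.2 v.1.1).im := by
      rw [← Complex.im_tsum (hsum.add hsum2), ← e1]
      simp [hS]
    rw [e2, ← tsum_neg]
    have s3 : Summable fun v : Rest => -(tt 2 1 ρ E v.1.1 v.1.2 + tt 2 1 ρ E v.1.2 v.1.1).im :=
      ((Complex.hasSum_im (hsum.add hsum2).hasSum).summable).neg
    refine (s3.tsum_le_tsum (fun v => pair_bound h (hne v)) (s1.mul_left _)).trans ?_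
    rw [tsum_mul_left]
    exact mul_le_mul_of_nonneg_left s2 (by positivity)
  have hIm : (tt 2 1 ρ E 1 0).im + (tt 2 1 ρ E 0 1).im + (tt 2 1 ρ E 1 1).im + (tt 2 1 ρ E 1 (-1)).im + S.im / 2 = 0 := by
    have h1 := congrArg Complex.im key
    simp only [Complex.zero_im, Complex.add_im, Complex.mul_im, Complex.re_ofNat, Complex.im_ofNat, zero_mul, add_zero] at h1
    linarith
  rw [im_tt hρ0.ne', im_tt hρ0.ne', im_tt hρ0.ne', im_tt hρ0.ne', nsq, nsq, nsq, nsq, ← hσ] at hIm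
  push_cast at hIm
  set P := ρ ^ 2 + (ρ ^ 2)⁻¹ - 2 * c with hP
  set Q := ρ ^ 2 + (ρ ^ 2)⁻¹ + 2 * c with hQ
  have hP1 : ρ ^ 2 ≤ P := by rw [hP]; linarith
  have hhyp : 2 ≤ ρ ^ 2 + (ρ ^ 2)⁻¹ := by
    have : ρ ^ 2 * (ρ ^ 2)⁻¹ = 1 := mul_inv_cancel₀ (by positivity)
    nlinarith [sq_nonneg (ρ ^ 2 - (ρ ^ 2)⁻¹), sq_nonneg (ρ ^ 2 + (ρ ^ 2)⁻¹ - 2)]
  have hQ1 : 2 ≤ Q := by rw [hQ]; linarith
  have hP0 : 0 < P := by linarith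
  have hQ0 : 0 < Q := by linarith
  set Z := ρ ^ 6 with hZ
  have hZ1 : 1 < Z := one_lt_pow₀ hρ (by norm_num)
  have hZ2 : Z ^ 2 ≤ 8 := by
    have : Z ^ 2 = (ρ ^ 4) ^ 3 := by rw [hZ]; ring
    rw [this]
    calc (ρ ^ 4) ^ 3 ≤ 2 ^ 3 := pow_le_pow_left₀ (by positivity) hX 3
      _ = 8 := by norm_num
  have hZ3 : Z ≤ 2829 / 1000 := by nlinarith
  have iP : (P ^ 3)⁻¹ ≤ Z⁻¹ := by
    refine inv_anti₀ (by positivity) ?_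
    calc Z = (ρ ^ 2) ^ 3 := by rw [hZ]; ring
      _ ≤ P ^ 3 := pow_le_pow_left₀ (by positivity) hP1 3
  have iQ : (Q ^ 3)⁻¹ ≤ 1 / 8 := by
    calc (Q ^ 3)⁻¹ ≤ ((2:ℝ) ^ 3)⁻¹ := inv_anti₀ (by positivity) (pow_le_pow_left₀ (by norm_num) hQ1 3)
      _ = 1 / 8 := by norm_num
  -- rewrite the equation
  have e10 : -((1 ^ 2 * ρ ^ 2 - 0 ^ 2 * (ρ ^ 2)⁻¹) * σ) / (1 ^ 2 * ρ ^ 2 + 0 ^ 2 * (ρ ^ 2)⁻¹ + 2 * 1 * 0 * c) ^ 3 =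
      -(σ * (ρ ^ 2)⁻¹ ^ 2) := by
    field_simp
    ring
  have e01 : -((0 ^ 2 * ρ ^ 2 - 1 ^ 2 * (ρ ^ 2)⁻¹) * σ) / (0 ^ 2 * ρ ^ 2 + 1 ^ 2 * (ρ ^ 2)⁻¹ + 2 * 0 * 1 * c) ^ 3 =
      σ * (ρ ^ 2) ^ 2 := by
    field_simp
    ring
  have e11 : -((1 ^ 2 * ρ ^ 2 - 1 ^ 2 * (ρ ^ 2)⁻¹) * σ) / (1 ^ 2 * ρ ^ 2 + 1 ^ 2 * (ρ ^ 2)⁻¹ + 2 * 1 * 1 * c) ^ 3 =
      -(σ * d * (Q ^ 3)⁻¹) := by
    have : (1 ^ 2 * ρ ^ 2 + 1 ^ 2 * (ρ ^ 2)⁻¹ + 2 * 1 * 1 * c) = Q := by rw [hQ]; ring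
    rw [this, hd, div_eq_mul_inv]; ring
  have e1m : -((1 ^ 2 * ρ ^ 2 - (-1) ^ 2 * (ρ ^ 2)⁻¹) * σ) / (1 ^ 2 * ρ ^ 2 + (-1) ^ 2 * (ρ ^ 2)⁻¹ + 2 * 1 * (-1) * c) ^ 3 =
      -(σ * d * (P ^ 3)⁻¹) := by
    have : (1 ^ 2 * ρ ^ 2 + (-1) ^ 2 * (ρ ^ 2)⁻¹ + 2 * 1 * (-1) * c) = P := by rw [hP]; ring
    rw [this, hd, div_eq_mul_inv]; ring
  rw [e10, e01, e11, e1m] at hIm
  have e5 : σ * (ρ ^ 2) ^ 2 - σ * (ρ ^ 2)⁻¹ ^ 2 = σ * d * (ρ ^ 2 + (ρ ^ 2)⁻¹) := by rw [hd]; ring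
  have hZi : Z * Z⁻¹ = 1 := mul_inv_cancel₀ (by positivity)
  have hZi0 : 0 < Z⁻¹ := by positivity
  have hfin : 0 < (ρ ^ 2 + (ρ ^ 2)⁻¹) - (P ^ 3)⁻¹ - (Q ^ 3)⁻¹ - (19 / 40) * Z := by
    have : 0 < 2 - Z⁻¹ - 1 / 8 - (19 / 40) * Z := by
      by_contra hcon
      push Not at hcon
      nlinarith [mul_nonneg (by linarith : 0 ≤ Z - 1) (by linarith : 0 ≤ 2829 / 1000 - Z),
        mul_nonneg (by linarith : (0:ℝ) ≤ Z) (neg_nonneg.2 hcon)]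
    linarith
  have hpos := mul_pos (mul_pos hσ0 hd0) hfin
  have e6 : σ * d * ((ρ ^ 2 + (ρ ^ 2)⁻¹) - (P ^ 3)⁻¹ - (Q ^ 3)⁻¹ - (19 / 40) * Z) =
      σ * d * (ρ ^ 2 + (ρ ^ 2)⁻¹) - σ * d * (P ^ 3)⁻¹ - σ * d * (Q ^ 3)⁻¹ - σ * d * Z * (19 / 10) / 4 := by ring
  rw [e6] at hpos
  linarith

end Pool.Agent.LibEis68
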