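import Pool.Agent.LibEis68.A06
import Pool.Agent.LibEis68.A09
import Pool.Agent.LibEis68.A11
import Pool.Agent.LibEis68.A14

open Complex Polynomial Matrix
open scoped ComplexConjugate MatrixGroups UpperHalfPlane

namespace Pool.Agent.LibEis68

private theorem a21_lower {ρ : ℝ} {E : ℂ} (h : Pos ρ E) (hX : 2 ≤ ρ ^ 4) (m n : ℤ) :
    (qf m n : ℝ) + (m : ℝ) ^ 2 ≤ ρ ^ 2 * normSq (vv ρ E m n) := by
  have hρ : ρ ≠ 0 := by have := h.one_lt; linarith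
  have e : ρ ^ 2 * normSq (vv ρ E m n) =
      m ^ 2 * ρ ^ 4 + n ^ 2 + 2 * m * n * (ρ ^ 2 * (E.re ^ 2 - E.im ^ 2)) := by
    rw [normSq_vv hρ E h.norm_one]
    field_simp
  rw [e]
  have h2 := h.re_le
  have h3 : 0 ≤ ρ ^ 2 * (E.re ^ 2 - E.im ^ 2) := mul_nonneg (by positivity) h.re_nonneg
  set c := ρ ^ 2 * (E.re ^ 2 - E.im ^ 2)
  unfold qf
  rcases le_total 0 (m * n) with h0 | h0
  · rw [min_eq_right h0]
    have h0' : (0:ℝ) ≤ (m:ℝ) * n := by exact_mod_cast h0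
    push_cast
    nlinarith [mul_nonneg h0' h3, sq_nonneg (m:ℝ)]
  · rw [min_eq_left h0]
    have h0' : (m:ℝ) * n ≤ 0 := by exact_mod_cast h0
    push_cast
    nlinarith [mul_nonneg (neg_nonneg.mpr h0') (sub_nonneg.mpr h2), sq_nonneg (m:ℝ)]

private theorem a21_le {ρ : ℝ} {E : ℂ} (h : Pos ρ E) (hX : 2 ≤ ρ ^ 4) (m n : ℤ)
    (hmn : (m, n) ≠ (0, 0)) :
    ‖tt 2 1 ρ E m n‖ ≤ ρ ^ 4 * (((qf m n : ℝ) + (m : ℝ) ^ 2) ^ 2)⁻¹ := by
  rw [norm_tt_eq (by norm_num) h]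
  have hρ0 : 0 < ρ := by have := h.one_lt; linarith
  have h1 := a21_lower h hX m n
  have h2 : (1:ℝ) ≤ qf m n := by exact_mod_cast qf_pos hmn
  have h3 : 0 < (qf m n : ℝ) + (m : ℝ) ^ 2 := by positivity
  have h4 : ((qf m n : ℝ) + (m : ℝ) ^ 2) / ρ ^ 2 ≤ normSq (vv ρ E m n) := by
    rw [div_le_iff₀ (by positivity)]; linarith
  calc (normSq (vv ρ E m n) ^ 2)⁻¹ ≤ ((((qf m n : ℝ) + (m : ℝ) ^ 2) / ρ ^ 2) ^ 2)⁻¹ := by
        gcongr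
    _ = _ := by
        rw [div_pow, inv_div]
        field_simp

/-- `s = 2`, `|τ|² ≥ 2`. -/
theorem latc_ne_zero_two_far {ρ : ℝ} {E : ℂ}
    (h : Pos ρ E) (hX : 2 ≤ ρ ^ 4) : latc 3 1 (((ρ : ℂ) * E) ^ 2) ≠ 0 := by
  intro h0
  have hρ0 : 0 < ρ := by have := h.one_lt; linarith
  have he := latc_eq (s := 2) (l := 1) le_rfl (by norm_num) h
  norm_num at he
  rw [h0, mul_zero] at he
  set sr := ∑' v : Rest, tt 2 1 ρ E v.1.1 v.1.2 with hsr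
  have hne : ∀ v : Rest, (v.1.1, v.1.2) ≠ ((0:ℤ), (0:ℤ)) := by
    intro v hv
    have h3 := v.2.2
    rw [Prod.mk.injEq] at hv
    rw [hv.1, hv.2] at h3
    norm_num at h3
  have hs := sum_qf_add
  have hR : ‖sr‖ ≤ ρ ^ 4 * (66 / 100) := by
    refine (tsum_of_norm_bounded (hs.1.hasSum.mul_left (ρ ^ 4)) fun v => ?_).trans ?_
    · exact a21_le h hX _ _ (hne v)
    · exact mul_le_mul_of_nonneg_left hs.2 (by positivity)
  have h10 : ‖tt 2 1 ρ E 1 0‖ ≤ ρ ^ 4 * (1/4) := by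
    refine (a21_le h hX 1 0 (by decide)).trans (le_of_eq ?_)
    norm_num [qf]
  have h11 : ‖tt 2 1 ρ E 1 1‖ ≤ ρ ^ 4 * (1/9) := by
    refine (a21_le h hX 1 1 (by decide)).trans (le_of_eq ?_)
    norm_num [qf]
  have h1m : ‖tt 2 1 ρ E 1 (-1)‖ ≤ ρ ^ 4 * (1/4) := by
    refine (a21_le h hX 1 (-1) (by decide)).trans (le_of_eq ?_)
    norm_num [qf]
  have h01 : ‖tt 2 1 ρ E 0 1‖ = ρ ^ 4 := by
    rw [norm_tt_eq (by norm_num) h, normSq_vv hρ0.ne' E h.norm_one]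
    norm_num
    ring
  have hkey : 2 * tt 2 1 ρ E 0 1 = -(2 * tt 2 1 ρ E 1 0 + 2 * tt 2 1 ρ E 1 1 + 2 * tt 2 1 ρ E 1 (-1) + sr) := by
    linear_combination -he
  have hn := congrArg norm hkey
  rw [norm_neg, norm_mul, h01] at hn
  have hle : ‖2 * tt 2 1 ρ E 1 0 + 2 * tt 2 1 ρ E 1 1 + 2 * tt 2 1 ρ E 1 (-1) + sr‖ ≤
      2 * (ρ ^ 4 * (1/4)) + 2 * (ρ ^ 4 * (1/9)) + 2 * (ρ ^ 4 * (1/4)) + ρ ^ 4 * (66 / 100) := by
    refine (norm_add_le _ _).trans (add_le_add ((norm_add_le _ _).trans (add_le_add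
      ((norm_add_le _ _).trans (add_le_add ?_ ?_)) ?_)) hR)
    · rw [norm_mul]; norm_num at *; linarith
    · rw [norm_mul]; norm_num at *; linarith
    · rw [norm_mul]; norm_num at *; linarith
  rw [← hn] at hle
  norm_num at hle
  have : 0 < ρ ^ 4 := by positivity
  linarith

end Pool.Agent.LibEis68
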