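import Pool.Agent.LibEis68.A03
import Pool.Agent.LibEis68.A05
import Pool.Agent.LibEis68.A18
import Pool.Agent.LibEis68.A19
import Pool.Agent.LibEis68.A20
import Pool.Agent.LibEis68.A21

open Complex Polynomial Matrix
open scoped ComplexConjugate MatrixGroups UpperHalfPlane

namespace Pool.Agent.LibEis68

theorem exists_pos {τ : ℂ} (hτ : 0 < τ.im) (h0 : 0 ≤ τ.re) (h1 : τ.re ≤ 1 / 2) (h2 : 1 < ‖τ‖) :
    ∃ (ρ : ℝ) (E : ℂ), Pos ρ E ∧ τ = ((ρ : ℂ) * E) ^ 2 := by
  obtain ⟨r, hr⟩ : ∃ r : ℝ, r = ‖τ‖ := ⟨_, rfl⟩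
  have hr1 : 1 < r := by rw [hr]; exact h2
  have hr0 : 0 < r := by linarith
  have hsq : τ.re ^ 2 + τ.im ^ 2 = r ^ 2 := by
    have := Complex.normSq_apply τ
    rw [Complex.normSq_eq_norm_sq, ← hr] at this
    nlinarith [this]
  obtain ⟨x, hx⟩ : ∃ x : ℝ, x = τ.re / r := ⟨_, rfl⟩
  obtain ⟨y, hy⟩ : ∃ y : ℝ, y = τ.im / r := ⟨_, rfl⟩
  have hx0 : 0 ≤ x := by rw [hx]; positivity
  have hy0 : 0 < y := by rw [hy]; positivity
  have hre : τ.re = r * x := by rw [hx]; field_simp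
  have him : τ.im = r * y := by rw [hy]; field_simp
  have hxy : x ^ 2 + y ^ 2 = 1 := by
    rw [hre, him] at hsq
    have : r ^ 2 * (x ^ 2 + y ^ 2) = r ^ 2 * 1 := by linarith
    exact mul_left_cancel₀ (by positivity) this
  have hx1 : x < 1 := by nlinarith
  have hp : 0 < (1 + x) / 2 := by linarith
  have hm : 0 < (1 - x) / 2 := by linarith
  have hsp := Real.sq_sqrt hp.le
  have hsm := Real.sq_sqrt hm.le
  have hspos := Real.sqrt_pos.2 hp
  have hsmpos := Real.sqrt_pos.2 hm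
  have hprod : 2 * (√((1 + x) / 2) * √((1 - x) / 2)) = y := by
    have h3 : (2 * (√((1 + x) / 2) * √((1 - x) / 2))) ^ 2 = y ^ 2 := by
      have : (2 * (√((1 + x) / 2) * √((1 - x) / 2))) ^ 2 =
          4 * (√((1 + x) / 2) ^ 2 * √((1 - x) / 2) ^ 2) := by ring
      rw [this, hsp, hsm]
      nlinarith
    have h4 : 0 ≤ 2 * (√((1 + x) / 2) * √((1 - x) / 2)) := by positivity
    exact (sq_eq_sq₀ h4 hy0.le).1 h3
  have hrs := Real.sq_sqrt hr0.le
  refine ⟨√r, ⟨√((1 + x) / 2), √((1 - x) / 2)⟩, ⟨?_, ?_, ?_, ?_, ?_⟩, ?_⟩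
  · rw [Real.lt_sqrt zero_le_one]
    simpa using hr1
  · simp only
    rw [hsp, hsm]
    ring
  · simp only
    rw [hsp, hsm]
    linarith
  · simp only
    rw [hsp, hsm, hrs]
    have : r * ((1 + x) / 2 - (1 - x) / 2) = τ.re := by rw [hre]; ring
    rw [this]
    exact h1
  · simp only
    positivity
  · apply Complex.ext
    · rw [mul_pow, ← Complex.ofReal_pow, hrs, Complex.re_ofReal_mul, sq, Complex.mul_re]
      simp only
      rw [hre]
      nlinarith [hsp, hsm]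
    · rw [mul_pow, ← Complex.ofReal_pow, hrs, Complex.im_ofReal_mul, sq, Complex.mul_im]
      simp only
      rw [him, ← hprod]
      ring

private theorem lat_ne_zero_of_nonneg {s l : ℕ} (hs : 2 ≤ s) (hl1 : 1 ≤ l) (hl : l < s) {τ : ℂ}
    (hτ : 0 < τ.im) (h0 : 0 ≤ τ.re) (h1 : τ.re ≤ 1 / 2) (h2 : 1 < ‖τ‖) :
    lat (s + l) (s - l) τ ≠ 0 := by
  obtain ⟨ρ, E, hP, rfl⟩ := exists_pos hτ h0 h1 h2
  refine lat_ne_zero_of_latc (by omega) hτ ?_
  rcases hs.lt_or_eq with hs3 | rfl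
  · rcases le_total (ρ ^ (2 * s)) 2 with h | h
    · exact latc_ne_zero_near hs3 hl1 hl hP h
    · exact latc_ne_zero_far hs3 hl.le hP h
  · obtain rfl : l = 1 := by omega
    rcases le_total (ρ ^ 4) 2 with h | h
    · exact latc_ne_zero_two_near hP h
    · exact latc_ne_zero_two_far hP h

/-- In the fundamental domain all zeros of the lattice sums lie on the unit circle. -/
theorem lat_ne_zero {s l : ℕ} (hs : 2 ≤ s) (hl1 : 1 ≤ l) (hl : l < s) {τ : ℂ} (hτ : 0 < τ.im)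
    (h1 : |τ.re| ≤ 1 / 2) (h2 : 1 < ‖τ‖) : lat (s + l) (s - l) τ ≠ 0 := by
  rcases le_total 0 τ.re with h | h
  · exact lat_ne_zero_of_nonneg hs hl1 hl hτ h (abs_le.1 h1).2 h2
  · have h3 : lat (s + l) (s - l) (-conj τ) ≠ 0 := by
      apply lat_ne_zero_of_nonneg hs hl1 hl
      · simpa using hτ
      · simpa using h
      · have := (abs_le.1 h1).1
        simp only [Complex.neg_re, Complex.conj_re]
        linarith
      · simpa using h2
    rw [lat_neg_conj] at h3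
    intro h4
    rw [h4, map_zero] at h3
    exact h3 rfl

end Pool.Agent.LibEis68
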