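import Pool.Agent.LibEis68.A01

open Complex Polynomial Matrix
open scoped ComplexConjugate MatrixGroups UpperHalfPlane

namespace Pool.Agent.LibEis68

/-- The holomorphic function which agrees with the lattice sum on the unit circle. -/
noncomputable def circ (a b : ℕ) (w : ℂ) : ℂ :=
  ∑' v : Fin 2 → ℤ, (((v 0 : ℂ) * w + v 1) ^ a * ((v 0 : ℂ) * w⁻¹ + v 1) ^ b)⁻¹

theorem circ_eq (a b : ℕ) {w : ℂ} (hw : ‖w‖ = 1) : circ a b w = lat a b w := by
  unfold circ lat
  rw [Complex.inv_eq_conj hw]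

private lemma a23_pow_bound (z : ℍ) {A B : ℝ} (hB : 0 < B) (hz : z ∈ UpperHalfPlane.verticalStrip A B) (v : Fin 2 → ℤ)
    (hv : v ≠ 0) (a : ℕ) :
    (‖(v 0 : ℂ) * (z : ℂ) + v 1‖ ^ a)⁻¹ ≤ (EisensteinSeries.r ⟨⟨A, B⟩, hB⟩ ^ a)⁻¹ * (‖v‖ ^ a)⁻¹ := by
  have h1 := EisensteinSeries.r_mul_max_le z hv
  have h2 := EisensteinSeries.r_lower_bound_on_verticalStrip z hB hz
  have h3 : 0 < EisensteinSeries.r ⟨⟨A, B⟩, hB⟩ := EisensteinSeries.r_pos _
  have h4 : 0 < ‖v‖ := norm_pos_iff.2 hv
  rw [← mul_inv, ← mul_pow]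
  refine inv_anti₀ (by positivity) (pow_le_pow_left₀ (by positivity) ?_ a)
  exact (mul_le_mul_of_nonneg_right h2 h4.le).trans h1

private lemma a23_ne (z : ℂ) (hz : z.im ≠ 0) (v : Fin 2 → ℤ) (hv : v ≠ 0) : (v 0 : ℂ) * z + v 1 ≠ 0 := by
  intro h
  have h1 := congrArg Complex.im h
  simp at h1
  rcases h1 with h1 | h1
  · rw [h1] at h
    simp at h
    apply hv
    funext i
    fin_cases i
    · simpa using h1
    · simpa using h
  · exact hz h1

theorem circ_differentiableOn {a b : ℕ} (hab : 3 ≤ a + b) :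
    DifferentiableOn ℂ (circ a b) {w | 0 < w.im} := by
  intro w0 hw0
  have hw0' : 0 < w0.im := hw0
  refine DifferentiableAt.differentiableWithinAt ?_
  set B : ℝ := w0.im / 2 with hBd
  have hB : 0 < B := by positivity
  set R : ℝ := ‖w0‖ + 1 with hRd
  have hR : 0 < R := by positivity
  set U : Set ℂ := {w | B < w.im ∧ ‖w‖ < R} with hU
  have hUo : IsOpen U := (isOpen_lt continuous_const Complex.continuous_im).inter (isOpen_lt continuous_norm continuous_const)
  have hw0U : w0 ∈ U := ⟨by rw [hBd]; linarith, by rw [hRd]; linarith⟩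
  have hB2 : 0 < B / R ^ 2 := by positivity
  have key : DifferentiableOn ℂ (circ a b) U := by
    unfold circ
    refine differentiableOn_tsum_of_summable_norm
      (u := fun v : Fin 2 → ℤ => (EisensteinSeries.r ⟨⟨R, B⟩, hB⟩ ^ a)⁻¹ * (EisensteinSeries.r ⟨⟨1 / B, B / R ^ 2⟩, hB2⟩ ^ b)⁻¹ *
        ‖v‖ ^ (-((a + b : ℕ) : ℝ))) ?_ ?_ hUo ?_
    · exact (EisensteinSeries.summable_one_div_norm_rpow (by exact_mod_cast hab)).mul_left _
    · intro v w hw
      refine DifferentiableAt.differentiableWithinAt ?_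
      have hwim : 0 < w.im := hB.trans hw.1
      have hw0 : w ≠ 0 := by
        intro h
        rw [h] at hwim
        simp at hwim
      by_cases hv : v = 0
      · subst hv
        simp
      · have h1 := a23_ne w hwim.ne' v hv
        have h2 := a23_ne w⁻¹ (by
          rw [Complex.inv_im]
          exact div_ne_zero (neg_ne_zero.2 hwim.ne') (by simpa using hw0)) v hv
        have hd : DifferentiableAt ℂ (fun w : ℂ => ((v 0 : ℂ) * w + v 1) ^ a * ((v 0 : ℂ) * w⁻¹ + v 1) ^ b) w := by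
          refine DifferentiableAt.mul (by fun_prop) (DifferentiableAt.pow ?_ b)
          exact ((differentiableAt_inv hw0).const_mul _).add_const _
        exact hd.inv (mul_ne_zero (pow_ne_zero _ h1) (pow_ne_zero _ h2))
    · intro v w hw
      have hwim : 0 < w.im := hB.trans hw.1
      have hwn : 0 < ‖w‖ := lt_of_lt_of_le hwim ((le_abs_self _).trans (Complex.abs_im_le_norm w))
      by_cases hv : v = 0
      · subst hv
        have hr1 : 0 < EisensteinSeries.r ⟨⟨R, B⟩, hB⟩ := EisensteinSeries.r_pos _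
        have hr2 : 0 < EisensteinSeries.r ⟨⟨1 / B, B / R ^ 2⟩, hB2⟩ := EisensteinSeries.r_pos _
        refine le_trans (le_of_eq ?_) (mul_nonneg (mul_nonneg (inv_nonneg.2 (pow_nonneg hr1.le a))
          (inv_nonneg.2 (pow_nonneg hr2.le b))) (Real.rpow_nonneg (norm_nonneg _) _))
        have : a ≠ 0 ∨ b ≠ 0 := by omega
        rcases this with h | h <;> simp [h]
      · have hz1 : (⟨w, hwim⟩ : ℍ) ∈ UpperHalfPlane.verticalStrip R B :=
          ⟨(Complex.abs_re_le_norm w).trans hw.2.le, hw.1.le⟩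
        have him2 : (-w⁻¹).im = w.im / ‖w‖ ^ 2 := by
          rw [Complex.neg_im, Complex.inv_im, Complex.normSq_eq_norm_sq]
          ring
        have him : 0 < (-w⁻¹).im := by
          rw [him2]
          positivity
        have hz2 : (⟨-w⁻¹, him⟩ : ℍ) ∈ UpperHalfPlane.verticalStrip (1 / B) (B / R ^ 2) := by
          refine ⟨?_, ?_⟩
          · change |(-w⁻¹).re| ≤ 1 / B
            refine (Complex.abs_re_le_norm _).trans ?_
            rw [norm_neg, norm_inv, ← one_div]
            exact one_div_le_one_div_of_le hB (hw.1.le.trans ((le_abs_self _).trans (Complex.abs_im_le_norm w)))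
          · change B / R ^ 2 ≤ (-w⁻¹).im
            rw [him2]
            exact div_le_div₀ hwim.le hw.1.le (by positivity) (pow_le_pow_left₀ hwn.le hw.2.le 2)
        have h1 := a23_pow_bound ⟨w, hwim⟩ hB hz1 v hv a
        have hv' : (fun i => if i = 0 then -v 0 else v 1 : Fin 2 → ℤ) ≠ 0 := by
          intro h
          apply hv
          funext i
          have h0 := congrFun h 0
          have h1 := congrFun h 1
          simp at h0 h1
          fin_cases i
          · simpa using h0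
          · simpa using h1
        have h2 := a23_pow_bound ⟨-w⁻¹, him⟩ hB2 hz2 (fun i => if i = 0 then -v 0 else v 1) hv' b
        have hn : ‖(fun i => if i = 0 then -v 0 else v 1 : Fin 2 → ℤ)‖ = ‖v‖ := by
          rw [EisensteinSeries.norm_eq_max_natAbs, EisensteinSeries.norm_eq_max_natAbs]
          simp
        rw [hn] at h2
        have e2 : (((fun i => if i = 0 then -v 0 else v 1 : Fin 2 → ℤ) 0 : ℤ) : ℂ) * (-w⁻¹) +
            (((fun i => if i = 0 then -v 0 else v 1 : Fin 2 → ℤ) 1 : ℤ) : ℂ) = (v 0 : ℂ) * w⁻¹ + v 1 := by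
          simp
        have h2' : (‖(v 0 : ℂ) * w⁻¹ + v 1‖ ^ b)⁻¹ ≤
            (EisensteinSeries.r ⟨⟨1 / B, B / R ^ 2⟩, hB2⟩ ^ b)⁻¹ * (‖v‖ ^ b)⁻¹ := by
          rw [← e2]
          exact h2
        have h1' : (‖(v 0 : ℂ) * w + v 1‖ ^ a)⁻¹ ≤ (EisensteinSeries.r ⟨⟨R, B⟩, hB⟩ ^ a)⁻¹ * (‖v‖ ^ a)⁻¹ := h1
        rw [norm_inv, norm_mul, norm_pow, norm_pow, mul_inv]
        refine (mul_le_mul h1' h2' (by positivity) (mul_nonneg (inv_nonneg.2 (pow_nonneg (EisensteinSeries.r_pos _).le _))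
          (by positivity))).trans (le_of_eq ?_)
        rw [Real.rpow_neg (norm_nonneg _), Real.rpow_natCast, pow_add, mul_inv (‖v‖ ^ a) (‖v‖ ^ b)]
        ring
  exact (key w0 hw0U).differentiableAt (hUo.mem_nhds hw0U)

end Pool.Agent.LibEis68
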