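import Pool.Agent.LibEis68.A23

open Complex Polynomial Matrix
open scoped ComplexConjugate MatrixGroups UpperHalfPlane

namespace Pool.Agent.LibEis68

/-- the general term on the imaginary axis -/
private noncomputable def a24f (a b : ℕ) (y : ℝ) (v : Fin 2 → ℤ) : ℂ :=
  (((v 0 : ℂ) * (I * y) + v 1) ^ a * ((v 0 : ℂ) * (I * y)⁻¹ + v 1) ^ b)⁻¹

private theorem a24_norm1 (m n : ℤ) {y : ℝ} (hy : 1 ≤ y) :
    |(m : ℝ)| * y ≤ ‖(m : ℂ) * (I * y) + n‖ ∧ |(n : ℝ)| ≤ ‖(m : ℂ) * (I * y) + n‖ := by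
  have him : ((m : ℂ) * (I * y) + n).im = m * y := by simp
  have hre : ((m : ℂ) * (I * y) + n).re = n := by simp
  constructor
  · have h := Complex.abs_im_le_norm ((m : ℂ) * (I * y) + n)
    rw [him, abs_mul, abs_of_pos (by linarith : 0 < y)] at h
    exact h
  · have h := Complex.abs_re_le_norm ((m : ℂ) * (I * y) + n)
    rw [hre] at h
    exact h

private theorem a24_norm2 (m n : ℤ) {y : ℝ} (hy : 1 ≤ y) :
    |(m : ℝ)| / y ≤ ‖(m : ℂ) * (I * y)⁻¹ + n‖ ∧ |(n : ℝ)| ≤ ‖(m : ℂ) * (I * y)⁻¹ + n‖ := by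
  have hinv : (m : ℂ) * (I * y)⁻¹ = -((m * y⁻¹ : ℝ) : ℂ) * I := by
    rw [mul_inv, Complex.inv_I]
    push_cast
    ring
  have him : ((m : ℂ) * (I * y)⁻¹ + n).im = -(m * y⁻¹) := by
    rw [hinv]
    simp
  have hre : ((m : ℂ) * (I * y)⁻¹ + n).re = n := by
    rw [hinv]
    simp
  constructor
  · have h := Complex.abs_im_le_norm ((m : ℂ) * (I * y)⁻¹ + n)
    rw [him, abs_neg, abs_mul, abs_of_pos (by positivity : 0 < y⁻¹)] at h
    rw [div_eq_mul_inv]
    exact h
  · have h := Complex.abs_re_le_norm ((m : ℂ) * (I * y)⁻¹ + n)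
    rw [hre] at h
    exact h

private theorem a24_one_le {m : ℤ} (hm : m ≠ 0) : (1 : ℝ) ≤ |(m : ℝ)| := by
  have : 1 ≤ |m| := Int.one_le_abs hm
  exact_mod_cast this

/-- lower bounds of the denominator -/
private theorem a24_den {a b : ℕ} (hb : 1 ≤ b) (hab : b + 2 ≤ a) (m n : ℤ) (hmn : m ≠ 0 ∨ n ≠ 0) {y : ℝ}
    (hy : 1 ≤ y) :
    (max |(m : ℝ)| |(n : ℝ)|) ^ a ≤ ‖((m : ℂ) * (I * y) + n) ^ a * ((m : ℂ) * (I * y)⁻¹ + n) ^ b‖ ∧
    (m ≠ 0 → y ≤ ‖((m : ℂ) * (I * y) + n) ^ a * ((m : ℂ) * (I * y)⁻¹ + n) ^ b‖) := by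
  have hy0 : 0 < y := by linarith
  obtain ⟨h1, h2⟩ := a24_norm1 m n hy
  obtain ⟨h3, h4⟩ := a24_norm2 m n hy
  rw [norm_mul, norm_pow, norm_pow]
  set A : ℝ := ‖(m : ℂ) * (I * y) + n‖ with hA
  set B : ℝ := ‖(m : ℂ) * (I * y)⁻¹ + n‖ with hB
  have hA0 : 0 ≤ A := norm_nonneg _
  have hB0 : 0 ≤ B := norm_nonneg _
  have hmaxA : max |(m : ℝ)| |(n : ℝ)| ≤ A := by
    apply max_le _ h2
    refine le_trans ?_ h1
    exact le_mul_of_one_le_right (abs_nonneg _) hy
  have hmax0 : 0 ≤ max |(m : ℝ)| |(n : ℝ)| := le_max_of_le_left (abs_nonneg _)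
  by_cases hn : n = 0
  · have hm : m ≠ 0 := by
      rcases hmn with h | h
      · exact h
      · exact absurd hn h
    have hm1 := a24_one_le hm
    have hmax : max |(m : ℝ)| |(n : ℝ)| = |(m : ℝ)| := by
      rw [hn]
      simp
    rw [hmax]
    have hAB : A ^ a * B ^ b = (A * B) ^ b * A ^ (a - b) := by
      have : a = b + (a - b) := by omega
      rw [mul_pow]
      nth_rewrite 1 [this]
      rw [pow_add]
      ring
    have hABge : |(m : ℝ)| * |(m : ℝ)| ≤ A * B := by
      calc |(m : ℝ)| * |(m : ℝ)| = (|(m : ℝ)| * y) * (|(m : ℝ)| / y) := by field_simp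
        _ ≤ A * B := mul_le_mul h1 h3 (by positivity) hA0
    have hABb : |(m : ℝ)| ^ b ≤ (A * B) ^ b := by
      apply pow_le_pow_left₀ (abs_nonneg _)
      refine le_trans ?_ hABge
      exact le_mul_of_one_le_right (abs_nonneg _) hm1
    rw [hAB]
    constructor
    · calc |(m : ℝ)| ^ a = |(m : ℝ)| ^ b * |(m : ℝ)| ^ (a - b) := by
            rw [← pow_add]
            congr 1
            omega
        _ ≤ (A * B) ^ b * A ^ (a - b) := by
            apply mul_le_mul hABb _ (by positivity) (by positivity)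
            apply pow_le_pow_left₀ (abs_nonneg _)
            refine le_trans ?_ h1
            exact le_mul_of_one_le_right (abs_nonneg _) hy
    · intro _
      have hyA : y ≤ A := by
        refine le_trans ?_ h1
        exact le_mul_of_one_le_left hy0.le hm1
      have hyA2 : y ≤ A ^ (a - b) := by
        refine hyA.trans ?_
        exact le_self_pow₀ (hy.trans hyA) (by omega)
      calc y = 1 * y := (one_mul y).symm
        _ ≤ (A * B) ^ b * A ^ (a - b) := by
            apply mul_le_mul _ hyA2 hy0.le (by positivity)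
            exact le_trans (one_le_pow₀ hm1) hABb
  · have hn1 := a24_one_le hn
    have hB1 : 1 ≤ B ^ b := one_le_pow₀ (hn1.trans h4)
    constructor
    · calc (max |(m : ℝ)| |(n : ℝ)|) ^ a = (max |(m : ℝ)| |(n : ℝ)|) ^ a * 1 := (mul_one _).symm
        _ ≤ A ^ a * B ^ b := by
            apply mul_le_mul _ hB1 (by norm_num) (by positivity)
            exact pow_le_pow_left₀ hmax0 hmaxA a
    · intro hm
      have hm1 := a24_one_le hm
      have hyA : y ≤ A := by
        refine le_trans ?_ h1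
        exact le_mul_of_one_le_left hy0.le hm1
      have hyA2 : y ≤ A ^ a := by
        refine hyA.trans ?_
        exact le_self_pow₀ (hy.trans hyA) (by omega)
      calc y = y * 1 := (mul_one y).symm
        _ ≤ A ^ a * B ^ b := mul_le_mul hyA2 hB1 (by norm_num) (by positivity)

private theorem a24_norm (v : Fin 2 → ℤ) : ‖v‖ = max |(v 0 : ℝ)| |(v 1 : ℝ)| := by
  rw [EisensteinSeries.norm_eq_max_natAbs]
  push_cast
  rw [Nat.cast_natAbs, Nat.cast_natAbs]
  push_cast
  rfl

private theorem a24_bound {a b : ℕ} (hb : 1 ≤ b) (hab : b + 2 ≤ a) (v : Fin 2 → ℤ) {y : ℝ} (hy : 1 ≤ y) :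
    ‖a24f a b y v‖ ≤ ‖v‖ ^ (-(a : ℝ)) := by
  by_cases hv : v 0 = 0 ∧ v 1 = 0
  · have h0 : a24f a b y v = 0 := by
      unfold a24f
      rw [hv.1, hv.2]
      simp
      left
      omega
    rw [h0, norm_zero]
    exact Real.rpow_nonneg (norm_nonneg _) _
  · have hmn : v 0 ≠ 0 ∨ v 1 ≠ 0 := by
      by_contra hcon
      push Not at hcon
      exact hv hcon
    have h1 := (a24_den hb hab (v 0) (v 1) hmn hy).1
    have hpos : 0 < max |(v 0 : ℝ)| |(v 1 : ℝ)| := by
      rcases hmn with h | h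
      · exact lt_max_of_lt_left (by have := a24_one_le h; linarith)
      · exact lt_max_of_lt_right (by have := a24_one_le h; linarith)
    rw [a24_norm, Real.rpow_neg hpos.le, Real.rpow_natCast]
    unfold a24f
    rw [norm_inv]
    exact inv_anti₀ (pow_pos hpos a) h1

/-- `circ a b (iy) → 2ζ(a+b) ≠ 0` as `y → ∞` when `a ≥ b + 2`, `b ≥ 1` and `a + b` is even. -/
theorem exists_circ_ne_zero {a b : ℕ} (hb : 1 ≤ b) (hab : b + 2 ≤ a) (hev : Even (a + b)) :
    ∃ w : ℂ, 0 < w.im ∧ circ a b w ≠ 0 := by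
  set g : (Fin 2 → ℤ) → ℝ := fun v => if v 0 = 0 then ((v 1 : ℝ) ^ (a + b))⁻¹ else 0 with hg
  have hsum : Summable (fun v : Fin 2 → ℤ => ‖v‖ ^ (-(a : ℝ))) := by
    apply EisensteinSeries.summable_one_div_norm_rpow
    have : (3 : ℝ) ≤ a := by
      have : 3 ≤ a := by omega
      exact_mod_cast this
    linarith
  have hlim : ∀ v : Fin 2 → ℤ, Filter.Tendsto (fun y : ℝ => a24f a b y v) Filter.atTop
      (nhds ((g v : ℝ) : ℂ)) := by
    intro v
    by_cases hv : v 0 = 0
    · have : ∀ y : ℝ, a24f a b y v = ((g v : ℝ) : ℂ) := by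
        intro y
        unfold a24f
        simp only [hg, hv, if_true]
        push_cast
        simp only [zero_mul, zero_add]
        rw [← pow_add]
      simp only [this]
      exact tendsto_const_nhds
    · have hgv : g v = 0 := by simp [hg, hv]
      rw [hgv, Complex.ofReal_zero]
      apply squeeze_zero_norm' (a := fun y : ℝ => y⁻¹) _ tendsto_inv_atTop_zero
      filter_upwards [Filter.eventually_ge_atTop (1 : ℝ)] with y hy
      unfold a24f
      rw [norm_inv]
      exact inv_anti₀ (by linarith) ((a24_den hb hab (v 0) (v 1) (Or.inl hv) hy).2 hv)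
  have htend : Filter.Tendsto (fun y : ℝ => ∑' v, a24f a b y v) Filter.atTop
      (nhds (∑' v, ((g v : ℝ) : ℂ))) := by
    apply tendsto_tsum_of_dominated_convergence hsum hlim
    filter_upwards [Filter.eventually_ge_atTop (1 : ℝ)] with y hy v
    exact a24_bound hb hab v hy
  have hg0 : ∀ v, 0 ≤ g v := by
    intro v
    simp only [hg]
    split_ifs with h
    · have := hev.pow_nonneg (v 1 : ℝ)
      positivity
    · exact le_refl _
  have hgle : ∀ v, g v ≤ ‖v‖ ^ (-(a : ℝ)) := by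
    intro v
    have h1 : ‖((g v : ℝ) : ℂ)‖ ≤ ‖v‖ ^ (-(a : ℝ)) := by
      apply le_of_tendsto (hlim v).norm
      filter_upwards [Filter.eventually_ge_atTop (1 : ℝ)] with y hy
      exact a24_bound hb hab v hy
    rw [Complex.norm_real, Real.norm_of_nonneg (hg0 v)] at h1
    exact h1
  have hgs : Summable g := Summable.of_nonneg_of_le hg0 hgle hsum
  have hpos : 1 ≤ ∑' v, g v := by
    have h1 := hgs.le_tsum ![0, 1] (fun v _ => hg0 v)
    have h2 : g ![0, 1] = 1 := by simp [hg]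
    rw [h2] at h1
    exact h1
  have hne : (∑' v, ((g v : ℝ) : ℂ)) ≠ 0 := by
    rw [← Complex.ofReal_tsum]
    intro h
    rw [Complex.ofReal_eq_zero] at h
    linarith
  obtain ⟨y, hy1, hy2⟩ := ((htend.eventually_ne hne).and (Filter.eventually_ge_atTop (1 : ℝ))).exists
  refine ⟨I * y, ?_, ?_⟩
  · simp
    linarith
  · exact hy1

end Pool.Agent.LibEis68
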