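import Pool.Agent.LibEis68.A24

open Complex Polynomial Matrix
open scoped ComplexConjugate MatrixGroups UpperHalfPlane

namespace Pool.Agent.LibEis68

private theorem circ_zeros_finite {a b : ℕ} (hb : 1 ≤ b) (hab : b + 2 ≤ a) (he : Even (a + b)) :
    {w : ℂ | ‖w‖ = 1 ∧ |w.re| ≤ 1 / 2 ∧ 0 ≤ w.im ∧ circ a b w = 0}.Finite := by
  obtain ⟨w0, hw0, hne⟩ := exists_circ_ne_zero hb hab he
  have hopen : IsOpen {w : ℂ | 0 < w.im} := isOpen_lt continuous_const Complex.continuous_im
  have hpre : IsPreconnected {w : ℂ | 0 < w.im} :=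
    (convex_halfSpace_im_gt 0).isPreconnected
  have han : AnalyticOnNhd ℂ (circ a b) {w : ℂ | 0 < w.im} :=
    (circ_differentiableOn (by omega)).analyticOnNhd hopen
  have hK : IsCompact {w : ℂ | ‖w‖ = 1 ∧ |w.re| ≤ 1 / 2 ∧ 0 ≤ w.im} := by
    apply Metric.isCompact_of_isClosed_isBounded
    · exact (isClosed_eq continuous_norm continuous_const).inter
        ((isClosed_le (continuous_abs.comp Complex.continuous_re) continuous_const).inter
          (isClosed_le continuous_const Complex.continuous_im))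
    · refine (Metric.isBounded_closedBall (x := (0 : ℂ)) (r := 1)).subset ?_
      rintro w ⟨h, -, -⟩
      simp [h]
  by_contra hinf
  obtain ⟨z, hzK, hz⟩ := Set.Infinite.exists_accPt_of_subset_isCompact hinf hK
    (fun w hw => ⟨hw.1, hw.2.1, hw.2.2.1⟩)
  have hzim : 0 < z.im := by
    obtain ⟨h1, h2, h3⟩ := hzK
    rcases h3.lt_or_eq with h | h
    · exact h
    · exfalso
      have h4 : z.re * z.re + z.im * z.im = 1 := by
        have := Complex.normSq_apply z
        rw [← this, Complex.normSq_eq_norm_sq, h1]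
        norm_num
      rw [← h] at h4
      have h5 := abs_le.1 h2
      nlinarith [h5.1, h5.2]
  have hfr : ∃ᶠ w in nhdsWithin z {z}ᶜ, circ a b w = 0 := by
    have := accPt_iff_frequently_nhdsNE.1 hz
    exact this.mono fun w hw => hw.2.2.2
  have := han.eqOn_zero_of_preconnected_of_frequently_eq_zero hpre hzim hfr hw0
  exact hne this

/-- Finitely many zeros on a compact arc of the unit circle. -/
theorem arc_finite {a b : ℕ} (hb : 1 ≤ b) (hab : b + 2 ≤ a) (he : Even (a + b)) :
    {z : ℍ | ‖(z : ℂ)‖ = 1 ∧ |z.re| ≤ 1 / 2 ∧ lat a b z = 0}.Finite := by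
  have h := (circ_zeros_finite hb hab he).preimage
    (f := fun z : ℍ => (z : ℂ)) (UpperHalfPlane.coe_injective.injOn)
  refine h.subset ?_
  rintro z ⟨h1, h2, h3⟩
  refine ⟨h1, h2, z.im_pos.le, ?_⟩
  rw [circ_eq a b h1]
  exact h3

end Pool.Agent.LibEis68
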