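import Pool.Agent.LibEis68.Defs

/-! # Block A: the lattice sums `∑ (mτ+n)^(-a) (mτ̄+n)^(-b)` -/

open Complex Polynomial Matrix
open scoped ComplexConjugate MatrixGroups UpperHalfPlane

namespace Pool.Agent.LibEis68

/-- `∑' (m,n), (mτ+n)^(-a) (mτ̄+n)^(-b)` (the term `(0,0)` is `0` for `a + b > 0`). -/
noncomputable def lat (a b : ℕ) (τ : ℂ) : ℂ :=
  ∑' v : Fin 2 → ℤ, (((v 0 : ℂ) * τ + v 1) ^ a * ((v 0 : ℂ) * conj τ + v 1) ^ b)⁻¹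

/-- The same sum over coprime pairs. -/
noncomputable def latc (a b : ℕ) (τ : ℂ) : ℂ :=
  ∑' v : {v : Fin 2 → ℤ // IsCoprime (v 0) (v 1)},
    (((v.1 0 : ℂ) * τ + v.1 1) ^ a * ((v.1 0 : ℂ) * conj τ + v.1 1) ^ b)⁻¹

/-- `V(m,n) = m ρ E + n ρ⁻¹ Ē`. -/
noncomputable def vv (ρ : ℝ) (E : ℂ) (m n : ℤ) : ℂ := m * (ρ * E) + n * ((ρ : ℂ)⁻¹ * conj E)

/-- `T(m,n) = V^(-(s+ℓ)) V̄^(-(s-ℓ))`. -/
noncomputable def tt (s l : ℕ) (ρ : ℝ) (E : ℂ) (m n : ℤ) : ℂ :=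
  (vv ρ E m n ^ (s + l) * conj (vv ρ E m n) ^ (s - l))⁻¹

/-- `m² + n² - |mn|` if `mn < 0` and `m² + n²` otherwise. -/
def qf (m n : ℤ) : ℤ := m ^ 2 + n ^ 2 + min (m * n) 0

/-- The coprime pairs other than `±(1,0), ±(0,1), ±(1,1), ±(1,-1)`. -/
def Rest : Set (ℤ × ℤ) := {v | IsCoprime v.1 v.2 ∧ 3 ≤ v.1 ^ 2 + v.2 ^ 2}

/-- Standing assumptions: `τ = (ρE)²`, `|τ| > 1`, `0 ≤ Re τ ≤ 1/2`. -/
structure Pos (ρ : ℝ) (E : ℂ) : Prop where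
  one_lt : 1 < ρ
  norm_one : E.re ^ 2 + E.im ^ 2 = 1
  re_nonneg : 0 ≤ E.re ^ 2 - E.im ^ 2
  re_le : ρ ^ 2 * (E.re ^ 2 - E.im ^ 2) ≤ 1 / 2
  im_pos : 0 < E.re * E.im

end Pool.Agent.LibEis68
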