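import Pool.Agent.LibEis68.A02
import Pool.Agent.LibEis68.A04
import Pool.Agent.LibEis68.A22
import Pool.Agent.LibEis68.A25

open Complex Polynomial Matrix
open scoped ComplexConjugate MatrixGroups UpperHalfPlane

namespace Pool.Agent.LibEis68

/-- The zeros of the lattice sums of weight `k + 2` on the right half of the arc. -/
def arcZeros (k : ℕ) : Set ℍ :=
  {z | (‖(z : ℂ)‖ = 1 ∧ 0 ≤ z.re ∧ z.re ≤ 1 / 2) ∧
    ∃ i : Fin (k + 1), lat (i + 1) (k - i + 1) z = 0}

private theorem lat_swap_zero {a b : ℕ} {τ : ℂ} (h : lat a b τ = 0) : lat b a τ = 0 := by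
  rw [lat_conj, h, map_zero]

private theorem taskM_even {k s : ℕ} (hs : k = s + s) (i : Fin (k + 1)) :
    Even (k - (i : ℕ) + 1 + (i + 1)) ∧ Even ((i : ℕ) + 1 + (k - i + 1)) :=
  ⟨⟨s + 1, by omega⟩, ⟨s + 1, by omega⟩⟩

theorem arcZeros_finite {k : ℕ} (hk : Even k) (hk2 : 2 ≤ k) : (arcZeros k).Finite := by
  obtain ⟨s, hs⟩ := hk
  have h : ∀ i : Fin (k + 1), {z : ℍ | (‖(z : ℂ)‖ = 1 ∧ 0 ≤ z.re ∧ z.re ≤ 1 / 2) ∧
      lat (i + 1) (k - i + 1) z = 0}.Finite := by
    intro i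
    rcases lt_trichotomy (i : ℕ) s with hi | hi | hi
    · refine (arc_finite (a := k - i + 1) (b := i + 1) (by omega) (by omega) (taskM_even hs i).1).subset ?_
      rintro z ⟨⟨h1, h2, h3⟩, h4⟩
      exact ⟨h1, by rw [abs_of_nonneg h2]; exact h3, lat_swap_zero h4⟩
    · refine Set.Finite.subset Set.finite_empty ?_
      rintro z ⟨-, h4⟩
      have h5 : k - (i : ℕ) + 1 = i + 1 := by omega
      rw [h5] at h4
      exact lat_self_ne_zero (by omega) z.im_pos h4
    · refine (arc_finite (a := i + 1) (b := k - i + 1) (by omega) (by omega) (taskM_even hs i).2).subset ?_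
      rintro z ⟨⟨h1, h2, h3⟩, h4⟩
      exact ⟨h1, by rw [abs_of_nonneg h2]; exact h3, h4⟩
  refine (Set.finite_iUnion h).subset ?_
  rintro z ⟨h1, i, h2⟩
  exact Set.mem_iUnion.2 ⟨i, h1, h2⟩

private theorem norm_le_one_of_zero {k : ℕ} (hk : Even k) (hk2 : 2 ≤ k) {z : ℍ} (i : Fin (k + 1))
    (hre : |z.re| ≤ 1 / 2) (h : lat (i + 1) (k - i + 1) z = 0) : ‖(z : ℂ)‖ ≤ 1 := by
  obtain ⟨s, hs⟩ := hk
  by_contra hlt
  push Not at hlt
  rcases lt_trichotomy (i : ℕ) s with hi | hi | hi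
  · have h1 := lat_ne_zero (s := s + 1) (l := s - i) (by omega) (by omega) (by omega) z.im_pos
      hre hlt
    have h2 : s + 1 + (s - i) = k - i + 1 := by omega
    have h3 : s + 1 - (s - i) = i + 1 := by omega
    rw [h2, h3] at h1
    exact h1 (lat_swap_zero h)
  · have h5 : k - (i : ℕ) + 1 = i + 1 := by omega
    rw [h5] at h
    exact lat_self_ne_zero (by omega) z.im_pos h
  · have h1 := lat_ne_zero (s := s + 1) (l := i - s) (by omega) (by omega) (by omega) z.im_pos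
      hre hlt
    have h2 : s + 1 + (i - s) = i + 1 := by omega
    have h3 : s + 1 - (i - s) = k - i + 1 := by omega
    rw [h2, h3] at h1
    exact h1 h

/-- Every zero is equivalent to a zero on the right half of the arc. -/
theorem exists_smul_arc {k : ℕ} (hk : Even k) (hk2 : 2 ≤ k) {τ : ℍ}
    (h : ∃ i : Fin (k + 1), lat (i + 1) (k - i + 1) τ = 0) :
    ∃ γ : SL(2, ℤ), γ • τ ∈ arcZeros k := by
  obtain ⟨i, hi⟩ := h
  obtain ⟨g, hg⟩ := ModularGroup.exists_smul_mem_fd τ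
  have hz : ∀ g : SL(2, ℤ), lat (i + 1) (k - i + 1) ((g • τ : ℍ) : ℂ) = 0 := by
    intro g
    rw [lat_smul, hi, mul_zero]
  have h1 : 1 ≤ ‖((g • τ : ℍ) : ℂ)‖ := by
    have := hg.1
    rw [Complex.normSq_eq_norm_sq] at this
    nlinarith [norm_nonneg ((g • τ : ℍ) : ℂ)]
  have h2 := norm_le_one_of_zero hk hk2 i hg.2 (hz g)
  have h3 : ‖((g • τ : ℍ) : ℂ)‖ = 1 := le_antisymm h2 h1
  rcases le_total 0 (g • τ).re with h4 | h4
  · exact ⟨g, ⟨h3, h4, (abs_le.1 hg.2).2⟩, i, hz g⟩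
  · have h5 : ((ModularGroup.S • (g • τ) : ℍ) : ℂ) = -conj ((g • τ : ℍ) : ℂ) := by
      have h6 := UpperHalfPlane.modular_S_smul (g • τ)
      rw [h6]
      have h7 : (g • τ : ℍ).1 * conj (g • τ : ℍ).1 = 1 := by
        rw [Complex.mul_conj, Complex.normSq_eq_norm_sq]
        have : ‖(g • τ : ℍ).1‖ = 1 := h3
        rw [this]
        norm_num
      have h8 : (g • τ : ℍ).1 ≠ 0 := (g • τ : ℍ).ne_zero
      show (-((g • τ : ℍ) : ℂ))⁻¹ = _
      rw [inv_neg]
      congr 1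
      exact inv_eq_of_mul_eq_one_right h7
    refine ⟨ModularGroup.S * g, ⟨?_, ?_, ?_⟩, i, hz _⟩
    · rw [mul_smul, h5, norm_neg, Complex.norm_conj, h3]
    · have : (((ModularGroup.S * g) • τ : ℍ) : ℂ).re = -((g • τ : ℍ) : ℂ).re := by
        rw [mul_smul, h5]; simp
      have h9 : ((ModularGroup.S * g) • τ).re = -(g • τ).re := this
      rw [h9]
      linarith
    · have : (((ModularGroup.S * g) • τ : ℍ) : ℂ).re = -((g • τ : ℍ) : ℂ).re := by
        rw [mul_smul, h5]; simp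
      have h9 : ((ModularGroup.S * g) • τ).re = -(g • τ).re := this
      rw [h9]
      have := (abs_le.1 hg.2).1
      linarith

end Pool.Agent.LibEis68
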