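import Pool.Agent.LibEis68.Defs

open Complex Polynomial Matrix
open scoped ComplexConjugate MatrixGroups UpperHalfPlane

namespace Pool.Agent.LibEis68

/-- Membership in the complexification is tested by `ℚ`-linear maps `ℂ → ℚ`. -/
theorem mem_cx_iff {n : Type*} [Fintype n] (L : Submodule ℚ (Matrix n n ℚ)) (M : Matrix n n ℂ) :
    M ∈ cx L ↔ ∀ f : ℂ →ₗ[ℚ] ℚ, M.map f ∈ L := by
  classical
  constructor
  · intro h
    rw [cx] at h
    induction h using Submodule.span_induction with
    | mem x hx =>
      obtain ⟨M, hM, rfl⟩ := hx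
      intro φ
      have : (M.map (algebraMap ℚ ℂ)).map φ = φ 1 • M := by
        ext i j
        have h1 : algebraMap ℚ ℂ (M i j) = M i j • (1 : ℂ) := by
          rw [Algebra.smul_def, mul_one]
        rw [Matrix.map_apply, Matrix.map_apply, h1, map_smul, Matrix.smul_apply, smul_eq_mul,
          smul_eq_mul, mul_comm]
      change (M.map (algebraMap ℚ ℂ)).map φ ∈ L
      rw [this]
      exact L.smul_mem _ hM
    | zero =>
      intro φ
      have : (0 : Matrix n n ℂ).map φ = 0 := by
        ext i j
        simp
      rw [this]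
      exact L.zero_mem
    | add x y _ _ h1 h2 =>
      intro φ
      have : (x + y).map φ = x.map φ + y.map φ := by
        ext i j
        simp
      rw [this]
      exact L.add_mem (h1 φ) (h2 φ)
    | smul a x _ h1 =>
      intro φ
      have : (a • x).map φ = x.map (φ ∘ₗ LinearMap.mulLeft ℚ a) := by
        ext i j
        simp
      rw [this]
      exact h1 _
  · intro h
    set b := Module.Basis.ofVectorSpace ℚ ℂ with hb
    set S := (Finset.univ : Finset n).biUnion fun i =>
      (Finset.univ : Finset n).biUnion fun j => (b.repr (M i j)).support with hS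
    have hA : M = ∑ k ∈ S, b k • (M.map (b.coord k)).map (algebraMap ℚ ℂ) := by
      ext i j
      have h1 : (b.repr (M i j)).sum (fun k c => c • b k) = M i j := b.linearCombination_repr _
      have h2 : (b.repr (M i j)).support ⊆ S := by
        intro k hk
        rw [hS, Finset.mem_biUnion]
        refine ⟨i, Finset.mem_univ _, ?_⟩
        rw [Finset.mem_biUnion]
        exact ⟨j, Finset.mem_univ _, hk⟩
      have h3 : (b.repr (M i j)).sum (fun k c => c • b k) =
          ∑ k ∈ S, (b.repr (M i j)) k • b k :=
        Finsupp.sum_of_support_subset _ h2 _ (fun k _ => zero_smul _ _)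
      refine (h1.symm.trans h3).trans ?_
      rw [Matrix.sum_apply]
      refine Finset.sum_congr rfl fun k _ => ?_
      rw [Matrix.smul_apply, Matrix.map_apply, Matrix.map_apply, smul_eq_mul,
        Module.Basis.coord_apply, Algebra.smul_def, mul_comm]
    rw [hA]
    refine Submodule.sum_mem _ fun k _ => Submodule.smul_mem _ _ ?_
    exact Submodule.subset_span ⟨_, h (b.coord k), rfl⟩

/-- The complexification of a rational space of vectors. -/
def cxv {n : Type*} (U : Submodule ℚ (n → ℚ)) : Submodule ℂ (n → ℂ) :=
  Submodule.span ℂ ((fun (w : n → ℚ) (j : n) => (w j : ℂ)) '' (U : Set _))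

theorem mem_cxv_iff {n : Type*} [Fintype n] (U : Submodule ℚ (n → ℚ)) (w : n → ℂ) :
    w ∈ cxv U ↔ ∀ f : ℂ →ₗ[ℚ] ℚ, (fun j => f (w j)) ∈ U := by
  classical
  constructor
  · intro h
    rw [cxv] at h
    induction h using Submodule.span_induction with
    | mem x hx =>
      obtain ⟨v, hv, rfl⟩ := hx
      intro φ
      have : (fun j => φ ((fun (w : n → ℚ) (j : n) => (w j : ℂ)) v j)) = φ 1 • v := by
        ext i
        have h1 : ((v i : ℚ) : ℂ) = v i • (1 : ℂ) := by
          rw [Algebra.smul_def, mul_one]
          rfl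
        simp only [Pi.smul_apply, smul_eq_mul]
        rw [h1, map_smul, smul_eq_mul, mul_comm]
      rw [this]
      exact U.smul_mem _ hv
    | zero =>
      intro φ
      have : (fun j => φ ((0 : n → ℂ) j)) = 0 := by
        ext i
        simp
      rw [this]
      exact U.zero_mem
    | add x y _ _ h1 h2 =>
      intro φ
      have : (fun j => φ ((x + y) j)) = (fun j => φ (x j)) + fun j => φ (y j) := by
        ext i
        simp
      rw [this]
      exact U.add_mem (h1 φ) (h2 φ)
    | smul a x _ h1 =>
      intro φ
      exact h1 (φ ∘ₗ LinearMap.mulLeft ℚ a)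
  · intro h
    set b := Module.Basis.ofVectorSpace ℚ ℂ with hb
    set S := (Finset.univ : Finset n).biUnion fun i => (b.repr (w i)).support with hS
    have hA : w = ∑ k ∈ S, b k • (fun j => ((b.coord k (w j) : ℚ) : ℂ)) := by
      ext i
      have h1 : (b.repr (w i)).sum (fun k c => c • b k) = w i := b.linearCombination_repr _
      have h2 : (b.repr (w i)).support ⊆ S := by
        intro k hk
        rw [hS, Finset.mem_biUnion]
        exact ⟨i, Finset.mem_univ _, hk⟩
      have h3 : (b.repr (w i)).sum (fun k c => c • b k) =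
          ∑ k ∈ S, (b.repr (w i)) k • b k :=
        Finsupp.sum_of_support_subset _ h2 _ (fun k _ => zero_smul _ _)
      refine (h1.symm.trans h3).trans ?_
      rw [Finset.sum_apply]
      refine Finset.sum_congr rfl fun k _ => ?_
      rw [Pi.smul_apply, smul_eq_mul, Module.Basis.coord_apply, Algebra.smul_def, mul_comm]
      rfl
    rw [hA]
    refine Submodule.sum_mem _ fun k _ => Submodule.smul_mem _ _ ?_
    exact Submodule.subset_span ⟨_, h (b.coord k), rfl⟩

theorem cxv_conj {n : Type*} [Fintype n] (U : Submodule ℚ (n → ℚ)) {w : n → ℂ}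
    (h : w ∈ cxv U) : (fun j => conj (w j)) ∈ cxv U := by
  rw [mem_cxv_iff] at h ⊢
  intro f
  exact h (f ∘ₗ (Complex.conjAe.toLinearMap.restrictScalars ℚ))

theorem finrank_cxv {n : Type*} [Fintype n] (U : Submodule ℚ (n → ℚ)) :
    Module.finrank ℂ (cxv U) = Module.finrank ℚ U := by
  classical
  set d := Module.finrank ℚ U with hd
  let b : Module.Basis (Fin d) ℚ U := Module.finBasis ℚ U
  let B : Fin d → n → ℂ := fun i j => (((b i : U) : n → ℚ) j : ℂ)
  have hspan : Submodule.span ℂ (Set.range B) = cxv U := by
    apply le_antisymm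
    · rw [Submodule.span_le]
      rintro _ ⟨i, rfl⟩
      exact Submodule.subset_span ⟨_, (b i).2, rfl⟩
    · rw [cxv, Submodule.span_le]
      rintro _ ⟨v, hv, rfl⟩
      have h1 : v = ∑ i, b.repr ⟨v, hv⟩ i • ((b i : U) : n → ℚ) := by
        have h2 := congrArg Subtype.val (b.sum_repr ⟨v, hv⟩)
        rw [Submodule.coe_sum] at h2
        exact h2.symm
      have h3 : (fun j => ((v j : ℚ) : ℂ)) = ∑ i, ((b.repr ⟨v, hv⟩ i : ℚ) : ℂ) • B i := by
        ext j
        have h4 := congrFun h1 j
        rw [h4]
        simp only [Finset.sum_apply, Pi.smul_apply, smul_eq_mul, Rat.cast_sum, Rat.cast_mul, B]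
      change (fun j => ((v j : ℚ) : ℂ)) ∈ _
      rw [h3]
      exact Submodule.sum_mem _ fun i _ =>
        Submodule.smul_mem _ _ (Submodule.subset_span ⟨i, rfl⟩)
  have hli : LinearIndependent ℂ B := by
    rw [Fintype.linearIndependent_iff]
    intro c hc i
    have key : ∀ f : ℂ →ₗ[ℚ] ℚ, f (c i) = 0 := by
      intro f
      have hb := Fintype.linearIndependent_iff.mp b.linearIndependent (fun i => f (c i)) ?_ i
      · exact hb
      · apply Subtype.ext
        ext j
        have h5 := congrArg f (congrFun hc j)
        simp only [Finset.sum_apply, Pi.smul_apply, smul_eq_mul, Pi.zero_apply, map_sum,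
          map_zero, B] at h5
        have h6 : ∀ x : Fin d, f (c x * ((((b x : U) : n → ℚ) j : ℚ) : ℂ)) =
            f (c x) * ((b x : U) : n → ℚ) j := by
          intro x
          have h7 : c x * ((((b x : U) : n → ℚ) j : ℚ) : ℂ) =
              (((b x : U) : n → ℚ) j : ℚ) • c x := by
            rw [Algebra.smul_def, mul_comm]
            rfl
          rw [h7, map_smul, smul_eq_mul, mul_comm]
        simp only [h6] at h5
        simpa using h5
    exact (Module.forall_dual_apply_eq_zero_iff ℚ (c i)).mp key
  rw [← hspan, finrank_span_eq_card hli, Fintype.card_fin]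

end Pool.Agent.LibEis68
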