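import Pool.Agent.LibEis68.B01

open Complex Polynomial Matrix
open scoped ComplexConjugate MatrixGroups UpperHalfPlane

namespace Pool.Agent.LibEis68

/-- The defining properties of the Mumford-Tate Lie algebra. -/
theorem mtLie_spec {k : ℕ} (e : ℂ → Fin (k + 1) → ℂ) (τ : ℂ) :
    (∀ A ∈ mtLie e τ, ∀ B ∈ mtLie e τ, A * B - B * A ∈ mtLie e τ) ∧
      opP e τ ∈ cx (mtLie e τ) ∧ opQ e τ ∈ cx (mtLie e τ) := by
  refine ⟨?_, ?_, ?_⟩
  · intro A hA B hB
    rw [mtLie, Submodule.mem_sInf] at hA hB ⊢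
    intro L hL
    exact hL.1 A (hA L hL) B (hB L hL)
  · rw [mem_cx_iff]
    intro f
    rw [mtLie, Submodule.mem_sInf]
    intro L hL
    exact (mem_cx_iff L _).mp hL.2.1 f
  · rw [mem_cx_iff]
    intro f
    rw [mtLie, Submodule.mem_sInf]
    intro L hL
    exact (mem_cx_iff L _).mp hL.2.2 f

theorem cx_mono {n : Type*} {L M : Submodule ℚ (Matrix n n ℚ)} (h : L ≤ M) : cx L ≤ cx M := by
  rw [cx, cx]
  exact Submodule.span_mono (Set.image_mono h)

end Pool.Agent.LibEis68
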