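import Pool.Agent.LibEis68.BDefs

open Complex Polynomial Matrix
open scoped ComplexConjugate MatrixGroups UpperHalfPlane

namespace Pool.Agent.LibEis68

namespace B03aux

variable {R : Type*} [CommRing R]

/-- the polynomial with given coefficients -/
noncomputable def toP (k : ℕ) (v : Fin (k + 1) → R) : R[X] := ∑ j, C (v j) * X ^ (j : ℕ)

theorem coeff_toP (k : ℕ) (v : Fin (k + 1) → R) (i : Fin (k + 1)) :
    (toP k v).coeff i = v i := by
  rw [toP, finsetSum_coeff]
  rw [Finset.sum_eq_single i]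
  · rw [coeff_C_mul, coeff_X_pow_self, mul_one]
  · intro j _ hj
    rw [coeff_C_mul, coeff_X_pow, if_neg, mul_zero]
    intro h
    exact hj (Fin.ext h.symm)
  · intro h
    exact absurd (Finset.mem_univ _) h

theorem toP_injective (k : ℕ) : Function.Injective (toP (R := R) k) := by
  intro v w h
  ext i
  have h1 := coeff_toP k v i
  rw [h, coeff_toP] at h1
  exact h1.symm

/-- the differential operator -/
noncomputable def DO (k : ℕ) (t : Fin 4 → R) (p : R[X]) : R[X] :=
  C (t 0) * ((k : R[X]) * X * p - X ^ 2 * derivative p) +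
    C (t 1) * (2 * X * derivative p - (k : R[X]) * p) + C (t 3) * p - C (t 2) * derivative p

theorem DO_sum {ι : Type*} (s : Finset ι) (k : ℕ) (t : Fin 4 → R) (f : ι → R[X]) :
    DO k t (∑ i ∈ s, f i) = ∑ i ∈ s, DO k t (f i) := by
  simp only [DO, map_sum, Finset.mul_sum, ← Finset.sum_sub_distrib, ← Finset.sum_add_distrib]

theorem DO_C_mul (k : ℕ) (t : Fin 4 → R) (a : R) (p : R[X]) :
    DO k t (C a * p) = C a * DO k t p := by
  simp only [DO, derivative_C_mul]
  ring

theorem toP_col (k : ℕ) (t : Fin 4 → R) (j : Fin (k + 1)) :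
    toP k (fun i => sl k t i j) = DO k t (X ^ (j : ℕ)) := by
  have h1 : toP k (fun i => sl k t i j) = ∑ i ∈ Finset.range (k + 1),
      ((if i = (j : ℕ) + 1 then C (t 0 * ((k : R) - (j : ℕ))) * X ^ i else 0) +
        (if i = (j : ℕ) then C (t 1 * (2 * ((j : ℕ) : R) - k) + t 3) * X ^ i else 0) -
        (if i + 1 = (j : ℕ) then C (t 2 * ((j : ℕ) : R)) * X ^ i else 0)) := by
    rw [toP, ← Fin.sum_univ_eq_sum_range (fun i =>
      ((if i = (j : ℕ) + 1 then C (t 0 * ((k : R) - (j : ℕ))) * X ^ i else 0) +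
        (if i = (j : ℕ) then C (t 1 * (2 * ((j : ℕ) : R) - k) + t 3) * X ^ i else 0) -
        (if i + 1 = (j : ℕ) then C (t 2 * ((j : ℕ) : R)) * X ^ i else 0)))]
    refine Finset.sum_congr rfl fun i _ => ?_
    simp only [sl, Matrix.of_apply, Fin.ext_iff]
    split_ifs <;> simp <;> ring
  rw [h1, Finset.sum_sub_distrib, Finset.sum_add_distrib, Finset.sum_ite_eq', Finset.sum_ite_eq']
  have hj : (j : ℕ) ∈ Finset.range (k + 1) := Finset.mem_range.mpr j.2
  rw [if_pos hj]
  have h2 : (if (j : ℕ) + 1 ∈ Finset.range (k + 1) then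
      C (t 0 * ((k : R) - (j : ℕ))) * X ^ ((j : ℕ) + 1) else 0) =
      C (t 0 * ((k : R) - (j : ℕ))) * X ^ ((j : ℕ) + 1) := by
    split_ifs with h
    · rfl
    · have h3 : (j : ℕ) = k := by
        rw [Finset.mem_range] at h
        have := j.2
        omega
      rw [h3]
      simp
  rw [h2]
  rcases hm : (j : ℕ) with _ | m
  · simp only [Nat.add_eq_zero_iff, one_ne_zero, and_false, if_false, Finset.sum_const_zero, DO]
    simp
    ring
  · have h4 : ∑ i ∈ Finset.range (k + 1),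
        (if i + 1 = m + 1 then C (t 2 * ((m + 1 : ℕ) : R)) * X ^ i else 0) =
        C (t 2 * ((m + 1 : ℕ) : R)) * X ^ m := by
      have h5 : ∀ i ∈ Finset.range (k + 1),
          (if i + 1 = m + 1 then C (t 2 * ((m + 1 : ℕ) : R)) * X ^ i else 0) =
          (if i = m then C (t 2 * ((m + 1 : ℕ) : R)) * X ^ i else 0) := by
        intro i _
        simp
      rw [Finset.sum_congr rfl h5, Finset.sum_ite_eq', if_pos]
      rw [Finset.mem_range]
      have := j.2
      omega
    rw [h4]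
    simp only [DO, derivative_X_pow, Nat.add_sub_cancel, map_mul, map_sub, map_add, map_natCast,
      Nat.cast_add, Nat.cast_one, map_one, map_ofNat]
    ring

theorem toP_sl (k : ℕ) (t : Fin 4 → R) (v : Fin (k + 1) → R) :
    toP k (sl k t *ᵥ v) = DO k t (toP k v) := by
  have h1 : toP k (sl k t *ᵥ v) = ∑ j, C (v j) * toP k (fun i => sl k t i j) := by
    simp only [toP, Matrix.mulVec, dotProduct, map_sum, Finset.sum_mul, Finset.mul_sum]
    rw [Finset.sum_comm]
    refine Finset.sum_congr rfl fun j _ => Finset.sum_congr rfl fun i _ => ?_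
    rw [C_mul]
    ring
  rw [h1, toP, DO_sum]
  refine Finset.sum_congr rfl fun j _ => ?_
  rw [toP_col, DO_C_mul]

theorem toP_smul (k : ℕ) (c : R) (v : Fin (k + 1) → R) : toP k (c • v) = C c * toP k v := by
  simp only [toP, Pi.smul_apply, smul_eq_mul, C_mul, Finset.mul_sum, mul_assoc]

theorem toP_coeff (k : ℕ) (p : R[X]) (hp : p.natDegree < k + 1) :
    toP k (fun j => p.coeff j) = p := by
  rw [toP, Fin.sum_univ_eq_sum_range (fun j => C (p.coeff j) * X ^ j)]
  conv_rhs => rw [p.as_sum_range' (k + 1) hp]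
  exact Finset.sum_congr rfl fun j _ => C_mul_X_pow_eq_monomial

theorem natDegree_lt [Nontrivial R] (k : ℕ) (z w : R) (i : ℕ) (hi : i ≤ k) :
    ((X - C z) ^ i * (X - C w) ^ (k - i)).natDegree < k + 1 := by
  have h1 : ((X - C z) ^ i).natDegree ≤ i * 1 :=
    natDegree_pow_le_of_le i (natDegree_X_sub_C_le z)
  have h2 : ((X - C w) ^ (k - i)).natDegree ≤ (k - i) * 1 :=
    natDegree_pow_le_of_le (k - i) (natDegree_X_sub_C_le w)
  have h3 := natDegree_mul_le (p := (X - C z) ^ i) (q := (X - C w) ^ (k - i))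
  omega

theorem toP_form (k : ℕ) (z w : ℂ) (i : ℕ) (hi : i ≤ k) :
    toP k (form k z w i) = (X - C z) ^ i * (X - C w) ^ (k - i) :=
  toP_coeff k _ (natDegree_lt k z w i hi)

theorem mul_deriv (a : R) (m : ℕ) :
    (X - C a) * derivative ((X - C a) ^ m) = (m : R[X]) * (X - C a) ^ m := by
  rcases m with _ | m
  · simp
  · rw [derivative_X_sub_C_pow, Nat.add_sub_cancel, pow_succ]
    simp only [map_natCast]
    ring

theorem conj_eq (τ : ℂ) : conj τ = τ - 2 * I * τ.im := by
  apply Complex.ext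
  · simp
  · simp
    ring

theorem C_conj (τ : ℂ) : (C (conj τ) : ℂ[X]) = C τ - C (2 * I * τ.im) := by
  rw [← C_sub, ← conj_eq]

end B03aux

open B03aux in
/-- The forms `(X - τY)^i (X - τ̄Y)^(k-i)` are eigenvectors of the Hodge cocharacter. -/
theorem sl_mulVec_form (k : ℕ) {τ : ℂ} (hτ : 0 < τ.im) (i : Fin (k + 1)) :
    sl k (hvec τ) *ᵥ form k τ (conj τ) i = ((2 * (i : ℕ) : ℂ) - k) • form k τ (conj τ) i := by
  have hi : (i : ℕ) ≤ k := Nat.lt_succ_iff.mp i.2
  apply toP_injective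
  rw [toP_sl, toP_smul, toP_form k _ _ _ hi]
  obtain ⟨n, hn⟩ := Nat.exists_eq_add_of_le hi
  have hkn : k - (i : ℕ) = n := by omega
  rw [hkn]
  have hA := mul_deriv τ (i : ℕ)
  have hB := mul_deriv (conj τ) n
  have hy : (τ.im : ℂ) ≠ 0 := by exact_mod_cast hτ.ne'
  have hk : (k : ℂ[X]) = (i : ℕ) + (n : ℂ[X]) := by
    exact_mod_cast congrArg (Nat.cast : ℕ → ℂ[X]) hn
  have hkc : (k : ℂ) = (i : ℕ) + (n : ℂ) := by
    exact_mod_cast congrArg (Nat.cast : ℕ → ℂ) hn
  have e1 : (τ.re : ℂ) = τ - I * τ.im := by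
    rw [mul_comm]
    exact eq_sub_of_add_eq (Complex.re_add_im τ)
  have hII : (I : ℂ) * I = -1 := Complex.I_mul_I
  have hCI : (C I : ℂ[X]) * C I = -1 := by rw [← C_mul, hII, C_neg, C_1]
  -- coordinates of hvec
  have h0 : C (hvec τ 0) * C (τ.im : ℂ) = (C I : ℂ[X]) := by
    rw [← C_mul]
    congr 1
    simp [hvec]
    field_simp
  have h1 : C (hvec τ 1) = C (hvec τ 0) * (C τ - C I * C (τ.im : ℂ)) := by
    rw [← C_mul, ← C_sub, ← C_mul]
    congr 1
    simp only [hvec, Matrix.cons_val_zero, Matrix.cons_val_one]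
    rw [e1]
    ring
  have h2 : C (hvec τ 2) = C (hvec τ 0) * (C τ * C (conj τ)) := by
    rw [← C_mul, ← C_mul]
    congr 1
    simp only [hvec, Matrix.cons_val_zero, Matrix.cons_val]
    rw [e1, conj_eq, div_mul_eq_mul_div]
    congr 1
    have : (I : ℂ) ^ 2 = -1 := Complex.I_sq
    linear_combination (I * τ.im ^ 2) * this
  have h3 : hvec τ 3 = 0 := by simp [hvec]
  have hcj := C_conj τ
  rw [C_mul, C_mul, map_ofNat] at hcj
  simp only [DO, derivative_mul]
  rw [h1, h2, h3, C_0]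
  have h4 : (C ((2 * (i : ℕ) : ℂ) - k) : ℂ[X]) = 2 * (i : ℕ) - k := by
    rw [C_sub, C_mul, map_natCast, map_natCast, map_ofNat]
  rw [h4, hk]
  rw [hcj] at hB ⊢
  generalize (X - C τ) ^ (i : ℕ) = A at *
  generalize (X - (C τ - 2 * C I * C (τ.im : ℂ))) ^ n = B at *
  linear_combination (-(C (hvec τ 0)) * (X - (C τ - 2 * C I * C (τ.im : ℂ))) * B) * hA -
    (C (hvec τ 0) * (X - C τ) * A) * hB + (((n : ℂ[X]) - (i : ℕ)) * A * B * C I) * h0 +
    (((n : ℂ[X]) - (i : ℕ)) * A * B) * hCI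

open B03aux in
/-- Raising operator. -/
theorem sl_raise (k : ℕ) {τ : ℂ} (hτ : 0 < τ.im) (i : ℕ) (hi : i < k) :
    sl k ![1, τ, τ ^ 2, 0] *ᵥ form k τ (conj τ) i =
      (((k : ℂ) - i) * (2 * I * τ.im)) • form k τ (conj τ) (i + 1) := by
  apply toP_injective
  rw [toP_sl, toP_smul, toP_form k _ _ _ hi.le, toP_form k _ _ _ hi]
  obtain ⟨n, hn⟩ := Nat.exists_eq_add_of_lt hi
  have hkn : k - i = n + 1 := by omega
  have hkn' : k - (i + 1) = n := by omega
  rw [hkn, hkn']
  have hA := mul_deriv τ i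
  have hk : (k : ℂ[X]) = i + (n + 1 : ℂ[X]) := by
    have := congrArg (Nat.cast : ℕ → ℂ[X]) hn
    rw [this]
    push_cast
    ring
  have h4 : (C (((k : ℂ) - i) * (2 * I * τ.im)) : ℂ[X]) = (k - i) * (C τ - C (conj τ)) := by
    rw [C_mul, C_sub, map_natCast, map_natCast, C_conj, sub_sub_cancel]
  rw [h4]
  simp only [DO, derivative_mul, derivative_X_sub_C_pow, Matrix.cons_val_zero, Matrix.cons_val_one,
    Matrix.cons_val, C_0, C_1, C_pow, Nat.add_sub_cancel, map_natCast, Nat.succ_eq_add_one]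
  rw [hk]
  rw [derivative_X_sub_C_pow] at hA
  simp only [map_natCast] at hA
  push_cast
  rw [pow_succ (X - C (conj τ)) n, pow_succ (X - C τ) i]
  generalize (X - C τ) ^ (i - 1) = A' at *
  generalize (X - C τ) ^ i = A at *
  generalize (X - C (conj τ)) ^ n = B at *
  linear_combination (-(X - C τ) * (B * (X - C (conj τ)))) * hA

open B03aux in
/-- Lowering operator. -/
theorem sl_lower (k : ℕ) {τ : ℂ} (hτ : 0 < τ.im) (i : ℕ) (hi : i < k) :
    sl k ![1, conj τ, conj τ ^ 2, 0] *ᵥ form k τ (conj τ) (i + 1) =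
      (-((i : ℂ) + 1) * (2 * I * τ.im)) • form k τ (conj τ) i := by
  apply toP_injective
  rw [toP_sl, toP_smul, toP_form k _ _ _ hi.le, toP_form k _ _ _ hi]
  obtain ⟨n, hn⟩ := Nat.exists_eq_add_of_lt hi
  have hkn : k - i = n + 1 := by omega
  have hkn' : k - (i + 1) = n := by omega
  rw [hkn, hkn']
  have hB := mul_deriv (conj τ) n
  have hk : (k : ℂ[X]) = i + (n + 1 : ℂ[X]) := by
    have := congrArg (Nat.cast : ℕ → ℂ[X]) hn
    rw [this]
    push_cast
    ring
  have h4 : (C (-((i : ℂ) + 1) * (2 * I * τ.im)) : ℂ[X]) = -(i + 1) * (C τ - C (conj τ)) := by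
    rw [C_mul, C_neg, C_add, map_natCast, C_1, C_conj, sub_sub_cancel]
  rw [h4]
  simp only [DO, derivative_mul, derivative_X_sub_C_pow, Matrix.cons_val_zero, Matrix.cons_val_one,
    Matrix.cons_val, C_0, C_1, C_pow, Nat.add_sub_cancel, map_natCast, Nat.succ_eq_add_one]
  rw [hk]
  rw [derivative_X_sub_C_pow] at hB
  simp only [map_natCast] at hB
  push_cast
  rw [pow_succ (X - C (conj τ)) n, pow_succ (X - C τ) i]
  generalize (X - C (conj τ)) ^ (n - 1) = B' at *
  generalize (X - C τ) ^ i = A at *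
  generalize (X - C (conj τ)) ^ n = B at *
  linear_combination (-(X - C (conj τ)) * (A * (X - C τ))) * hB

end Pool.Agent.LibEis68
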