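import Pool.Agent.LibEis68.BDefs

open Complex Polynomial Matrix
open scoped ComplexConjugate MatrixGroups UpperHalfPlane

namespace Pool.Agent.LibEis68

private lemma b04_aux {z w : ℂ} (hzw : z ≠ w) (k : ℕ) : ∀ c : ℕ → ℂ,
    ∑ i ∈ Finset.range (k + 1), C (c i) * ((X - C z) ^ i * (X - C w) ^ (k - i)) = 0 →
      ∀ i ≤ k, c i = 0 := by
  induction k with
  | zero =>
    intro c h i hi
    have : i = 0 := by omega
    subst this
    simpa using h
  | succ k ih =>
    intro c h
    have h0 : c 0 = 0 := by
      have h1 := congrArg (Polynomial.eval z) h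
      rw [Polynomial.eval_finset_sum, Finset.sum_range_succ'] at h1
      simp only [eval_mul, eval_C, eval_pow, eval_sub, eval_X, sub_self, eval_zero] at h1
      rw [Finset.sum_eq_zero (fun i _ => by rw [pow_succ]; ring), zero_add, pow_zero, one_mul] at h1
      exact (mul_eq_zero.1 h1).resolve_right (pow_ne_zero _ (sub_ne_zero.2 hzw))
    have h2 : ∑ i ∈ Finset.range (k + 1), C (c (i + 1)) * ((X - C z) ^ i * (X - C w) ^ (k - i)) = 0 := by
      have h3 : (X - C z) * ∑ i ∈ Finset.range (k + 1),
          C (c (i + 1)) * ((X - C z) ^ i * (X - C w) ^ (k - i)) = 0 := by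
        rw [Finset.sum_range_succ', h0, C_0, zero_mul, add_zero] at h
        rw [← h, Finset.mul_sum]
        refine Finset.sum_congr rfl fun i _ => ?_
        rw [show k + 1 - (i + 1) = k - i by omega]
        ring
      exact (mul_eq_zero.1 h3).resolve_left (X_sub_C_ne_zero z)
    intro i hi
    cases i with
    | zero => exact h0
    | succ i => exact ih (fun i => c (i + 1)) h2 i (by omega)

private lemma b04_ne {τ : ℂ} (hτ : 0 < τ.im) : τ ≠ conj τ := by
  intro h
  have := congrArg Complex.im h
  rw [Complex.conj_im] at this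
  linarith

/-- The forms `(X - τY)^i (X - τ̄Y)^(k-i)` are a basis. -/
theorem form_linearIndependent (k : ℕ) {τ : ℂ} (hτ : 0 < τ.im) :
    LinearIndependent ℂ (fun i : Fin (k + 1) => form k τ (conj τ) i) := by
  rw [Fintype.linearIndependent_iff]
  intro c hc
  set c' : ℕ → ℂ := fun i => if h : i < k + 1 then c ⟨i, h⟩ else 0 with hc'
  have h : ∑ i ∈ Finset.range (k + 1),
      C (c' i) * ((X - C τ) ^ i * (X - C (conj τ)) ^ (k - i)) = 0 := by
    ext j
    rw [finset_sum_coeff, coeff_zero]
    rcases lt_or_ge j (k + 1) with hj | hj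
    · have h1 := congrFun hc ⟨j, hj⟩
      rw [Finset.sum_apply, Pi.zero_apply] at h1
      rw [← h1, Finset.sum_range]
      refine Finset.sum_congr rfl fun i _ => ?_
      rw [coeff_C_mul, hc']
      simp only [i.2, dite_true, Fin.eta]
      rfl
    · refine Finset.sum_eq_zero fun i hi => ?_
      rw [Finset.mem_range] at hi
      rw [coeff_C_mul, coeff_eq_zero_of_natDegree_lt, mul_zero]
      refine lt_of_le_of_lt (natDegree_mul_le.trans ?_) (show k < j by omega)
      rw [natDegree_pow, natDegree_pow, natDegree_X_sub_C, natDegree_X_sub_C]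
      omega
  intro i
  have h2 := b04_aux (b04_ne hτ) k c' h i (by omega)
  rw [hc'] at h2
  simpa [i.2] using h2

theorem form_span (k : ℕ) {τ : ℂ} (hτ : 0 < τ.im) :
    Submodule.span ℂ (Set.range fun i : Fin (k + 1) => form k τ (conj τ) i) = ⊤ := by
  apply (form_linearIndependent k hτ).span_eq_top_of_card_eq_finrank
  simp

theorem frame_isUnit {k : ℕ} (e : ℂ → Fin (k + 1) → ℂ) {τ : ℂ} (hτ : 0 < τ.im) :
    IsUnit (frame e τ).det := by
  unfold frame
  rw [Matrix.det_fromBlocks_zero₁₂, det_one, one_mul, ← det_transpose, ← isUnit_iff_isUnit_det,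
    ← linearIndependent_rows_iff_isUnit]
  exact form_linearIndependent k hτ

end Pool.Agent.LibEis68
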