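import Pool.Agent.LibEis68.B03
import Pool.Agent.LibEis68.B04

open Complex Polynomial Matrix
open scoped ComplexConjugate MatrixGroups UpperHalfPlane

namespace Pool.Agent.LibEis68

namespace B05aux

theorem par_mul_frame {k : ℕ} (e : ℂ → Fin (k + 1) → ℂ) (τ : ℂ) (v : Fin (k + 1) → ℂ)
    (t : Fin 4 → ℂ) :
    par k v t * frame e τ = Matrix.fromBlocks 0 0
      (Matrix.of fun j _ => v j + (sl k t *ᵥ e τ) j)
      (Matrix.of fun j (i : Fin (k + 1)) => (sl k t *ᵥ form k τ (conj τ) i) j) := by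
  rw [par, frame, Matrix.fromBlocks_multiply]
  congr 1
  · simp
  · simp
  · ext i j
    simp [Matrix.mul_apply, Matrix.mulVec, dotProduct]
  · ext i j
    simp [Matrix.mul_apply, Matrix.mulVec, dotProduct]

theorem conj_of_mul {k : ℕ} (e : ℂ → Fin (k + 1) → ℂ) {τ : ℂ} (hτ : 0 < τ.im)
    {M : Matrix (Unit ⊕ Fin (k + 1)) (Unit ⊕ Fin (k + 1)) ℂ} {d : Unit ⊕ Fin (k + 1) → ℂ}
    (h : M * frame e τ = frame e τ * Matrix.diagonal d) :
    frame e τ * Matrix.diagonal d * (frame e τ)⁻¹ = M := by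
  rw [← h, Matrix.mul_assoc, Matrix.mul_nonsing_inv _ (frame_isUnit e hτ), Matrix.mul_one]

theorem sl_scalar (k : ℕ) (c : ℂ) (v : Fin (k + 1) → ℂ) :
    sl k ![0, 0, 0, c] *ᵥ v = c • v := by
  have h : sl k ![0, 0, 0, c] = c • (1 : Matrix (Fin (k + 1)) (Fin (k + 1)) ℂ) := by
    ext i j
    simp [sl, Matrix.one_apply]
  rw [h, Matrix.smul_mulVec, Matrix.one_mulVec]

end B05aux

open B05aux

theorem opP_add_opQ {k : ℕ} (e : ℂ → Fin (k + 1) → ℂ) {τ : ℂ} (hτ : 0 < τ.im) :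
    opP e τ + opQ e τ = par k (fun j => ((k : ℂ) + 2) * e τ j) ![0, 0, 0, -((k : ℂ) + 2)] := by
  rw [opP, opQ, ← Matrix.add_mul, ← Matrix.mul_add, Matrix.diagonal_add]
  apply conj_of_mul e hτ
  rw [par_mul_frame]
  ext x y
  rw [Matrix.mul_diagonal]
  rcases x with x | x <;> rcases y with y | y
  · simp [hodgeP, hodgeQ]
  · simp [frame]
  · simp only [Matrix.fromBlocks_apply₂₁, Matrix.of_apply, sl_scalar, Pi.smul_apply, smul_eq_mul,
      hodgeP, hodgeQ, Sum.elim_inl]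
    push_cast
    ring
  · simp only [Matrix.fromBlocks_apply₂₂, Matrix.of_apply, sl_scalar, Pi.smul_apply, smul_eq_mul,
      hodgeP, hodgeQ, Sum.elim_inr, frame]
    push_cast
    ring

theorem opP_sub_opQ {k : ℕ} (e : ℂ → Fin (k + 1) → ℂ) {τ : ℂ} (hτ : 0 < τ.im) :
    opP e τ - opQ e τ = par k (-(sl k (hvec τ) *ᵥ e τ)) (hvec τ) := by
  rw [opP, opQ, ← Matrix.sub_mul, ← Matrix.mul_sub, Matrix.diagonal_sub]
  apply conj_of_mul e hτ
  rw [par_mul_frame]
  ext x y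
  rw [Matrix.mul_diagonal]
  rcases x with x | x <;> rcases y with y | y
  · simp [hodgeP, hodgeQ]
  · simp [frame]
  · simp only [Matrix.fromBlocks_apply₂₁, Matrix.of_apply, Pi.neg_apply,
      hodgeP, hodgeQ, Sum.elim_inl]
    push_cast
    ring
  · simp only [Matrix.fromBlocks_apply₂₂, Matrix.of_apply, sl_mulVec_form k hτ, Pi.smul_apply,
      smul_eq_mul, hodgeP, hodgeQ, Sum.elim_inr, frame]
    push_cast
    ring

end Pool.Agent.LibEis68
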