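import Pool.Agent.LibEis68.BDefs

open Complex Polynomial Matrix
open scoped ComplexConjugate MatrixGroups UpperHalfPlane

namespace Pool.Agent.LibEis68

namespace B06aux

variable {R : Type*} [CommRing R]

/-- the polynomial with given coefficients -/
noncomputable def toP (k : ℕ) (v : Fin (k + 1) → R) : R[X] := ∑ j, C (v j) * X ^ (j : ℕ)

theorem coeff_toP (k : ℕ) (v : Fin (k + 1) → R) (i : Fin (k + 1)) :
    (toP k v).coeff i = v i := by
  rw [toP, finsetSum_coeff]
  rw [Finset.sum_eq_single i]
  · rw [coeff_C_mul, coeff_X_pow_self, mul_one]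
  · intro j _ hj
    rw [coeff_C_mul, coeff_X_pow, if_neg, mul_zero]
    intro h
    exact hj (Fin.ext h.symm)
  · intro h
    exact absurd (Finset.mem_univ _) h

theorem toP_injective (k : ℕ) : Function.Injective (toP (R := R) k) := by
  intro v w h
  ext i
  have h1 := coeff_toP k v i
  rw [h, coeff_toP] at h1
  exact h1.symm

/-- the differential operator -/
noncomputable def DO (k : ℕ) (t : Fin 4 → R) (p : R[X]) : R[X] :=
  C (t 0) * ((k : R[X]) * X * p - X ^ 2 * derivative p) +
    C (t 1) * (2 * X * derivative p - (k : R[X]) * p) + C (t 3) * p - C (t 2) * derivative p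

theorem DO_sum {ι : Type*} (s : Finset ι) (k : ℕ) (t : Fin 4 → R) (f : ι → R[X]) :
    DO k t (∑ i ∈ s, f i) = ∑ i ∈ s, DO k t (f i) := by
  simp only [DO, map_sum, Finset.mul_sum, ← Finset.sum_sub_distrib, ← Finset.sum_add_distrib]

theorem DO_C_mul (k : ℕ) (t : Fin 4 → R) (a : R) (p : R[X]) :
    DO k t (C a * p) = C a * DO k t p := by
  simp only [DO, derivative_C_mul]
  ring

theorem toP_col (k : ℕ) (t : Fin 4 → R) (j : Fin (k + 1)) :
    toP k (fun i => sl k t i j) = DO k t (X ^ (j : ℕ)) := by
  have h1 : toP k (fun i => sl k t i j) = ∑ i ∈ Finset.range (k + 1),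
      ((if i = (j : ℕ) + 1 then C (t 0 * ((k : R) - (j : ℕ))) * X ^ i else 0) +
        (if i = (j : ℕ) then C (t 1 * (2 * ((j : ℕ) : R) - k) + t 3) * X ^ i else 0) -
        (if i + 1 = (j : ℕ) then C (t 2 * ((j : ℕ) : R)) * X ^ i else 0)) := by
    rw [toP, ← Fin.sum_univ_eq_sum_range (fun i =>
      ((if i = (j : ℕ) + 1 then C (t 0 * ((k : R) - (j : ℕ))) * X ^ i else 0) +
        (if i = (j : ℕ) then C (t 1 * (2 * ((j : ℕ) : R) - k) + t 3) * X ^ i else 0) -
        (if i + 1 = (j : ℕ) then C (t 2 * ((j : ℕ) : R)) * X ^ i else 0)))]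
    refine Finset.sum_congr rfl fun i _ => ?_
    simp only [sl, Matrix.of_apply, Fin.ext_iff]
    split_ifs <;> simp <;> ring
  rw [h1, Finset.sum_sub_distrib, Finset.sum_add_distrib, Finset.sum_ite_eq', Finset.sum_ite_eq']
  have hj : (j : ℕ) ∈ Finset.range (k + 1) := Finset.mem_range.mpr j.2
  rw [if_pos hj]
  have h2 : (if (j : ℕ) + 1 ∈ Finset.range (k + 1) then
      C (t 0 * ((k : R) - (j : ℕ))) * X ^ ((j : ℕ) + 1) else 0) =
      C (t 0 * ((k : R) - (j : ℕ))) * X ^ ((j : ℕ) + 1) := by
    split_ifs with h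
    · rfl
    · have h3 : (j : ℕ) = k := by
        rw [Finset.mem_range] at h
        have := j.2
        omega
      rw [h3]
      simp
  rw [h2]
  rcases hm : (j : ℕ) with _ | m
  · simp only [Nat.add_eq_zero_iff, one_ne_zero, and_false, if_false, Finset.sum_const_zero, DO]
    simp
    ring
  · have h4 : ∑ i ∈ Finset.range (k + 1),
        (if i + 1 = m + 1 then C (t 2 * ((m + 1 : ℕ) : R)) * X ^ i else 0) =
        C (t 2 * ((m + 1 : ℕ) : R)) * X ^ m := by
      have h5 : ∀ i ∈ Finset.range (k + 1),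
          (if i + 1 = m + 1 then C (t 2 * ((m + 1 : ℕ) : R)) * X ^ i else 0) =
          (if i = m then C (t 2 * ((m + 1 : ℕ) : R)) * X ^ i else 0) := by
        intro i _
        simp
      rw [Finset.sum_congr rfl h5, Finset.sum_ite_eq', if_pos]
      rw [Finset.mem_range]
      have := j.2
      omega
    rw [h4]
    simp only [DO, derivative_X_pow, Nat.add_sub_cancel, map_mul, map_sub, map_add, map_natCast,
      Nat.cast_add, Nat.cast_one, map_one, map_ofNat]
    ring

theorem toP_sl (k : ℕ) (t : Fin 4 → R) (v : Fin (k + 1) → R) :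
    toP k (sl k t *ᵥ v) = DO k t (toP k v) := by
  have h1 : toP k (sl k t *ᵥ v) = ∑ j, C (v j) * toP k (fun i => sl k t i j) := by
    simp only [toP, Matrix.mulVec, dotProduct, map_sum, Finset.sum_mul, Finset.mul_sum]
    rw [Finset.sum_comm]
    refine Finset.sum_congr rfl fun j _ => Finset.sum_congr rfl fun i _ => ?_
    rw [C_mul]
    ring
  rw [h1, toP, DO_sum]
  refine Finset.sum_congr rfl fun j _ => ?_
  rw [toP_col, DO_C_mul]

theorem mat_ext {n : Type*} [Fintype n] {A B : Matrix n n R}
    (h : ∀ v, A *ᵥ v = B *ᵥ v) : A = B := by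
  classical
  exact Matrix.toLin'.injective (LinearMap.ext h)

end B06aux

open B06aux in
theorem sl_bracket (k : ℕ) {R : Type*} [CommRing R] (t t' : Fin 4 → R) :
    sl k t * sl k t' - sl k t' * sl k t =
      sl k ![2 * (t 1 * t' 0 - t 0 * t' 1), t 2 * t' 0 - t 0 * t' 2,
        2 * (t 2 * t' 1 - t 1 * t' 2), 0] := by
  apply mat_ext
  intro v
  apply toP_injective
  rw [Matrix.sub_mulVec, ← Matrix.mulVec_mulVec, ← Matrix.mulVec_mulVec]
  have h1 : ∀ a b : Fin (k + 1) → R, toP k (a - b) = toP k a - toP k b := by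
    intro a b
    simp only [toP, Pi.sub_apply, map_sub, sub_mul, Finset.sum_sub_distrib]
  rw [h1, toP_sl, toP_sl, toP_sl, toP_sl, toP_sl]
  simp only [DO, Matrix.cons_val_zero, Matrix.cons_val_one, Matrix.cons_val, map_mul, map_sub,
    map_zero, derivative_mul, derivative_sub, derivative_add, derivative_C, derivative_X,
    derivative_X_pow, derivative_natCast, derivative_ofNat, Nat.cast_ofNat, map_ofNat]
  ring

theorem par_add (k : ℕ) {R : Type*} [CommRing R] (v v' : Fin (k + 1) → R) (t t' : Fin 4 → R) :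
    par k v t + par k v' t' = par k (v + v') (t + t') := by
  ext x y
  rcases x with x | x <;> rcases y with y | y <;> simp [par, sl]
  split_ifs <;> ring

theorem par_smul (k : ℕ) {R : Type*} [CommRing R] (c : R) (v : Fin (k + 1) → R) (t : Fin 4 → R) :
    c • par k v t = par k (c • v) (c • t) := by
  ext x y
  rcases x with x | x <;> rcases y with y | y <;> simp [par, sl]
  split_ifs <;> ring

theorem sl_smul (k : ℕ) {R : Type*} [CommRing R] (c : R) (t : Fin 4 → R) :
    sl k (c • t) = c • sl k t := by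
  ext x y
  simp [sl]
  split_ifs <;> ring

theorem sl_add (k : ℕ) {R : Type*} [CommRing R] (t t' : Fin 4 → R) :
    sl k (t + t') = sl k t + sl k t' := by
  ext x y
  simp [sl]
  split_ifs <;> ring

theorem par_bracket (k : ℕ) {R : Type*} [CommRing R] (v v' : Fin (k + 1) → R) (t t' : Fin 4 → R) :
    par k v t * par k v' t' - par k v' t' * par k v t =
      par k (sl k t *ᵥ v' - sl k t' *ᵥ v) ![2 * (t 1 * t' 0 - t 0 * t' 1),
        t 2 * t' 0 - t 0 * t' 2, 2 * (t 2 * t' 1 - t 1 * t' 2), 0] := by
  have h1 : ∀ (a b : Fin (k + 1) → R) (s s' : Fin 4 → R),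
      par k a s * par k b s' = Matrix.fromBlocks 0 0 (Matrix.of fun j _ => (sl k s *ᵥ b) j)
        (sl k s * sl k s') := by
    intro a b s s'
    rw [par, par, Matrix.fromBlocks_multiply]
    congr 1
    · simp
    · simp
    · ext i j
      simp [Matrix.mul_apply, Matrix.mulVec, dotProduct]
    · simp
  rw [h1, h1]
  ext x y
  rcases x with x | x <;> rcases y with y | y
  · simp [par]
  · simp [par]
  · simp [par]
  · rw [Matrix.sub_apply, par]
    simp only [Matrix.fromBlocks_apply₂₂]
    rw [← sl_bracket, Matrix.sub_apply]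

namespace B06aux

theorem lin_mul (f : ℂ →ₗ[ℚ] ℚ) (z : ℂ) (q : ℚ) : f (z * (q : ℂ)) = f z * q := by
  have h : z * (q : ℂ) = q • z := by
    rw [Algebra.smul_def, mul_comm]
    rfl
  rw [h, map_smul, smul_eq_mul, mul_comm]

end B06aux

open B06aux in
/-- Applying a `ℚ`-linear map entrywise. -/
theorem par_map_lin (k : ℕ) (f : ℂ →ₗ[ℚ] ℚ) (v : Fin (k + 1) → ℂ) (t : Fin 4 → ℂ) :
    (par k v t).map f = par k (fun j => f (v j)) (fun j => f (t j)) := by
  ext x y
  rcases x with x | x <;> rcases y with y | y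
  · simp [par]
  · simp [par]
  · simp [par]
  · simp only [par, Matrix.map_apply, Matrix.fromBlocks_apply₂₂, sl, Matrix.of_apply, map_sub,
      map_add]
    congr 1
    · congr 1
      · split_ifs
        · have := lin_mul f (t 0) ((k : ℚ) - ((y : ℕ) : ℚ))
          push_cast at this
          exact this
        · exact map_zero f
      · split_ifs
        · rw [map_add]
          have := lin_mul f (t 1) (2 * ((y : ℕ) : ℚ) - (k : ℚ))
          push_cast at this
          rw [this]
        · exact map_zero f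
    · split_ifs
      · have := lin_mul f (t 2) ((y : ℕ) : ℚ)
        push_cast at this
        exact this
      · exact map_zero f

theorem par_map_cast (k : ℕ) (v : Fin (k + 1) → ℚ) (t : Fin 4 → ℚ) :
    (par k v t).map (algebraMap ℚ ℂ) = par k (fun j => (v j : ℂ)) (fun j => (t j : ℂ)) := by
  ext x y
  rcases x with x | x <;> rcases y with y | y
  · simp [par]
  · simp [par]
  · simp [par]
  · simp only [par, Matrix.map_apply, Matrix.fromBlocks_apply₂₂, sl, Matrix.of_apply, map_sub,
      map_add]
    congr 1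
    · congr 1
      · split_ifs <;> simp
      · split_ifs <;> simp
    · split_ifs <;> simp

theorem sl_mulVec_cast (k : ℕ) (t : Fin 4 → ℚ) (v : Fin (k + 1) → ℚ) :
    (fun j => (((sl k t *ᵥ v) j : ℚ) : ℂ)) = sl k (fun j => (t j : ℂ)) *ᵥ fun j => (v j : ℂ) := by
  ext i
  simp only [Matrix.mulVec, dotProduct, Rat.cast_sum, Rat.cast_mul]
  refine Finset.sum_congr rfl fun j _ => ?_
  congr 1
  simp only [sl, Matrix.of_apply]
  push_cast
  congr 1
  · congr 1
    · split_ifs <;> simp
    · split_ifs <;> simp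
  · split_ifs <;> simp

theorem par_injective {k : ℕ} (hk : 1 ≤ k) {R : Type*} [Field R] [CharZero R]
    {v v' : Fin (k + 1) → R} {t t' : Fin 4 → R} (h : par k v t = par k v' t') :
    v = v' ∧ t = t' := by
  have hv : v = v' := by
    ext j
    have := congrFun (congrFun h (Sum.inr j)) (Sum.inl ())
    simpa [par] using this
  refine ⟨hv, ?_⟩
  have hs : ∀ i j, sl k t i j = sl k t' i j := by
    intro i j
    have := congrFun (congrFun h (Sum.inr i)) (Sum.inr j)
    simpa [par] using this
  have hk0 : (k : R) ≠ 0 := by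
    rw [Nat.cast_ne_zero]
    omega
  let a : Fin (k + 1) := ⟨0, by omega⟩
  let b : Fin (k + 1) := ⟨1, by omega⟩
  have h10 := hs b a
  have h00 := hs a a
  have h11 := hs b b
  have h01 := hs a b
  simp [sl, a, b] at h10 h00 h11 h01
  have e0 : t 0 = t' 0 := by
    rcases h10 with h | h
    · exact h
    · omega
  have e1 : t 1 = t' 1 := by
    have h2 : (2 : R) * t 1 = 2 * t' 1 := by linear_combination h11 - h00
    exact mul_left_cancel₀ two_ne_zero h2
  have e3 : t 3 = t' 3 := by
    rw [e1] at h00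
    exact add_left_cancel h00
  ext i
  fin_cases i
  · exact e0
  · exact e1
  · exact h01
  · exact e3

end Pool.Agent.LibEis68
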