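import Pool.Agent.LibEis68.B01
import Pool.Agent.LibEis68.B05
import Pool.Agent.LibEis68.B06

open Complex Polynomial Matrix
open scoped ComplexConjugate MatrixGroups UpperHalfPlane

namespace Pool.Agent.LibEis68

/-- `L` is a rational space of matrices containing the Mumford-Tate Lie algebra at `τ`. -/
structure Adm {k : ℕ} (e : ℂ → Fin (k + 1) → ℂ) (τ : ℂ)
    (L : Submodule ℚ (Matrix (Unit ⊕ Fin (k + 1)) (Unit ⊕ Fin (k + 1)) ℚ)) : Prop where
  closed : ∀ A ∈ L, ∀ B ∈ L, A * B - B * A ∈ L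
  memP : opP e τ ∈ cx L
  memQ : opQ e τ ∈ cx L

/-- The unipotent part of `L`. -/
def uni {k : ℕ} (L : Submodule ℚ (Matrix (Unit ⊕ Fin (k + 1)) (Unit ⊕ Fin (k + 1)) ℚ)) :
    Submodule ℚ (Fin (k + 1) → ℚ) where
  carrier := {v | par k v 0 ∈ L}
  add_mem' := by
    intro a b ha hb
    simpa [par_add] using L.add_mem ha hb
  zero_mem' := by
    have : par k (0 : Fin (k + 1) → ℚ) 0 = 0 := by
      simpa using (par_smul k (0 : ℚ) 0 0).symm
    simp [this]
  smul_mem' := by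
    intro c a ha
    simpa [par_smul] using L.smul_mem c ha

namespace B07aux

theorem lin_mul (f : ℂ →ₗ[ℚ] ℚ) (z : ℂ) (q : ℚ) : f ((q : ℂ) * z) = q * f z := by
  have h : (q : ℂ) * z = q • z := by
    rw [Algebra.smul_def]
    rfl
  rw [h, map_smul, smul_eq_mul]

theorem lin_sl (k : ℕ) (f : ℂ →ₗ[ℚ] ℚ) (t : Fin 4 → ℂ) (u : Fin (k + 1) → ℚ) (j : Fin (k + 1)) :
    f ((sl k t *ᵥ fun i => ((u i : ℚ) : ℂ)) j) = (sl k (fun i => f (t i)) *ᵥ u) j := by
  simp only [Matrix.mulVec, dotProduct, map_sum]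
  refine Finset.sum_congr rfl fun i _ => ?_
  have h := congrFun (congrFun (par_map_lin k f 0 t) (Sum.inr j)) (Sum.inr i)
  simp only [par, Matrix.map_apply, Matrix.fromBlocks_apply₂₂] at h
  rw [mul_comm, lin_mul, h, mul_comm]

end B07aux

open B07aux

/-- For every `ℚ`-linear `f`, the images of the two Deligne operators lie in `L`. -/
theorem Adm.lin_mem {k : ℕ} {e : ℂ → Fin (k + 1) → ℂ} {τ : ℂ} (hτ : 0 < τ.im) {L}
    (h : Adm e τ L) (f : ℂ →ₗ[ℚ] ℚ) :
    par k (fun j => f (e τ j)) ![0, 0, 0, -f 1] ∈ L ∧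
      par k (fun j => -f ((sl k (hvec τ) *ᵥ e τ) j)) (fun j => f (hvec τ j)) ∈ L := by
  constructor
  · have h1 : opP e τ + opQ e τ ∈ cx L := (cx L).add_mem h.memP h.memQ
    rw [opP_add_opQ e hτ, mem_cx_iff] at h1
    have h2 := h1 f
    rw [par_map_lin] at h2
    have hk : ((k : ℚ) + 2) ≠ 0 := by positivity
    have h3 := L.smul_mem ((k : ℚ) + 2)⁻¹ h2
    rw [par_smul] at h3
    convert h3 using 2
    · ext j
      have h4 := lin_mul f (e τ j) ((k : ℚ) + 2)
      push_cast at h4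
      rw [Pi.smul_apply, h4, smul_eq_mul, ← mul_assoc, inv_mul_cancel₀ hk, one_mul]
    · have h4 := lin_mul f 1 (-((k : ℚ) + 2))
      push_cast at h4
      rw [mul_one] at h4
      ext j
      fin_cases j
      · simp
      · simp
      · simp
      · simp only [Fin.reduceFinMk, Matrix.cons_val, Pi.smul_apply, smul_eq_mul]
        rw [h4]
        field_simp
  · have h1 : opP e τ - opQ e τ ∈ cx L := (cx L).sub_mem h.memP h.memQ
    rw [opP_sub_opQ e hτ, mem_cx_iff] at h1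
    have h2 := h1 f
    rw [par_map_lin] at h2
    convert h2 using 2
    ext j
    simp

/-- The unipotent part is stable under the projection of `L`. -/
theorem Adm.uni_stable {k : ℕ} {e : ℂ → Fin (k + 1) → ℂ} {τ : ℂ} {L} (h : Adm e τ L)
    {v : Fin (k + 1) → ℚ} {t : Fin 4 → ℚ} (hv : par k v t ∈ L) {u : Fin (k + 1) → ℚ}
    (hu : u ∈ uni L) : sl k t *ᵥ u ∈ uni L := by
  have hu' : par k u 0 ∈ L := hu
  have h1 := h.closed _ hv _ hu'
  rw [par_bracket] at h1
  change par k (sl k t *ᵥ u) 0 ∈ L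
  convert h1 using 2
  · have h0 : sl k (0 : Fin 4 → ℚ) = 0 := by
      have := sl_smul k (0 : ℚ) (0 : Fin 4 → ℚ)
      simpa using this
    rw [h0, Matrix.zero_mulVec, sub_zero]
  · ext i
    fin_cases i <;> simp

/-- The imaginary part of the extension class lies in the unipotent part. -/
theorem Adm.im_mem {k : ℕ} {e : ℂ → Fin (k + 1) → ℂ} {τ : ℂ} (hτ : 0 < τ.im) {L}
    (h : Adm e τ L) : (fun j => ((e τ j).im : ℂ)) ∈ cxv (uni L) := by
  obtain ⟨f0, hf0⟩ := Module.Projective.exists_dual_eq_one ℚ (one_ne_zero : (1 : ℂ) ≠ 0)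
  have h1 : (fun j => e τ j - ((f0 (e τ j) : ℚ) : ℂ)) ∈ cxv (uni L) := by
    rw [mem_cxv_iff]
    intro f
    have h2 := L.sub_mem (h.lin_mem hτ f).1 (L.smul_mem (f 1) (h.lin_mem hτ f0).1)
    change par k (fun j => f (e τ j - ((f0 (e τ j) : ℚ) : ℂ))) 0 ∈ L
    rw [par_smul, sub_eq_add_neg, ← neg_one_smul ℚ (par k _ _), par_smul, par_add] at h2
    convert h2 using 2
    · ext j
      have h3 := lin_mul f 1 (f0 (e τ j))
      rw [mul_one] at h3
      simp only [map_sub, Pi.add_apply, Pi.smul_apply, smul_eq_mul]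
      rw [h3]
      ring
    · ext i
      fin_cases i
      · simp
      · simp
      · simp
      · simp only [Fin.reduceFinMk, Matrix.cons_val, Pi.add_apply, Pi.smul_apply, smul_eq_mul,
          Pi.zero_apply]
        rw [hf0]
        ring
  have h2 := cxv_conj _ h1
  have h3 := (cxv (uni L)).smul_mem (1 / (2 * I)) ((cxv (uni L)).sub_mem h1 h2)
  convert h3 using 1
  ext j
  simp only [Pi.smul_apply, Pi.sub_apply, smul_eq_mul, map_sub]
  have h4 : conj (((f0 (e τ j) : ℚ) : ℂ)) = ((f0 (e τ j) : ℚ) : ℂ) := by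
    rw [map_ratCast]
  rw [h4]
  have h5 : e τ j - conj (e τ j) = 2 * I * (e τ j).im := by
    rw [Complex.sub_conj]
    push_cast
    ring
  have h6 : e τ j - ((f0 (e τ j) : ℚ) : ℂ) - (conj (e τ j) - ((f0 (e τ j) : ℚ) : ℂ)) =
      2 * I * (e τ j).im := by
    rw [← h5]
    ring
  rw [h6]
  have h7 : (2 : ℂ) * I ≠ 0 := mul_ne_zero two_ne_zero Complex.I_ne_zero
  field_simp

/-- The complexified unipotent part is stable under the Hodge cocharacter. -/
theorem Adm.sl_stable {k : ℕ} {e : ℂ → Fin (k + 1) → ℂ} {τ : ℂ} (hτ : 0 < τ.im) {L}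
    (h : Adm e τ L) {w : Fin (k + 1) → ℂ} (hw : w ∈ cxv (uni L)) :
    sl k (hvec τ) *ᵥ w ∈ cxv (uni L) := by
  rw [cxv] at hw
  induction hw using Submodule.span_induction with
  | mem x hx =>
    obtain ⟨u, hu, rfl⟩ := hx
    rw [mem_cxv_iff]
    intro f
    have h1 := h.uni_stable (h.lin_mem hτ f).2 hu
    have h2 : (fun j => f ((sl k (hvec τ) *ᵥ fun i => ((u i : ℚ) : ℂ)) j)) =
        sl k (fun j => f (hvec τ j)) *ᵥ u := by
      ext j
      exact lin_sl k f (hvec τ) u j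
    change (fun j => f ((sl k (hvec τ) *ᵥ fun i => ((u i : ℚ) : ℂ)) j)) ∈ uni L
    rw [h2]
    exact h1
  | zero =>
    rw [Matrix.mulVec_zero]
    exact Submodule.zero_mem _
  | add x y _ _ h1 h2 =>
    rw [Matrix.mulVec_add]
    exact Submodule.add_mem _ h1 h2
  | smul a x _ h1 =>
    rw [Matrix.mulVec_smul]
    exact Submodule.smul_mem _ _ h1

end Pool.Agent.LibEis68
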