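import Pool.Agent.LibEis68.B03
import Pool.Agent.LibEis68.B04

open Complex Polynomial Matrix
open scoped ComplexConjugate MatrixGroups UpperHalfPlane

namespace Pool.Agent.LibEis68

/-- A subspace stable under the Hodge cocharacter contains the components of its elements. -/
theorem component_mem {k : ℕ} {τ : ℂ} (hτ : 0 < τ.im) (W : Submodule ℂ (Fin (k + 1) → ℂ))
    (hW : ∀ w ∈ W, sl k (hvec τ) *ᵥ w ∈ W) (c : Fin (k + 1) → ℂ)
    (h : ∑ i, c i • form k τ (conj τ) i ∈ W) (i : Fin (k + 1)) (hi : c i ≠ 0) :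
    form k τ (conj τ) i ∈ W := by
  classical
  set m : Fin (k + 1) → ℂ := fun j => (2 * (j : ℕ) : ℂ) - k with hm
  have hinj : ∀ j l, j ≠ l → m j - m l ≠ 0 := by
    intro j l hjl h0
    apply hjl
    rw [hm] at h0
    have h1 : ((j : ℕ) : ℂ) = ((l : ℕ) : ℂ) := by
      simp only at h0
      linear_combination h0 / 2
    exact Fin.ext (by exact_mod_cast h1)
  have key : ∀ S : Finset (Fin (k + 1)),
      ∑ j, ((∏ l ∈ S, (m j - m l)) * c j) • form k τ (conj τ) j ∈ W := by
    intro S
    induction S using Finset.induction_on with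
    | empty => simpa using h
    | insert a S ha ih =>
      have h1 := W.sub_mem (hW _ ih) (W.smul_mem (m a) ih)
      have h2 : sl k (hvec τ) *ᵥ ∑ j, ((∏ l ∈ S, (m j - m l)) * c j) • form k τ (conj τ) j -
          m a • ∑ j, ((∏ l ∈ S, (m j - m l)) * c j) • form k τ (conj τ) j =
          ∑ j, ((∏ l ∈ insert a S, (m j - m l)) * c j) • form k τ (conj τ) j := by
        rw [Matrix.mulVec_sum, Finset.smul_sum, ← Finset.sum_sub_distrib]
        refine Finset.sum_congr rfl fun j _ => ?_
        rw [Matrix.mulVec_smul, sl_mulVec_form k hτ j, smul_smul, smul_smul, ← sub_smul,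
          Finset.prod_insert ha]
        congr 1
        rw [hm]
        ring
      rw [h2] at h1
      exact h1
  have h3 := key (Finset.univ.erase i)
  rw [Finset.sum_eq_single i] at h3
  · have hne : (∏ l ∈ Finset.univ.erase i, (m i - m l)) * c i ≠ 0 := by
      refine mul_ne_zero (Finset.prod_ne_zero_iff.2 fun l hl => ?_) hi
      exact hinj i l (Finset.ne_of_mem_erase hl).symm
    exact (Submodule.smul_mem_iff W hne).1 h3
  · intro j _ hj
    rw [Finset.prod_eq_zero (Finset.mem_erase.2 ⟨hj, Finset.mem_univ j⟩) (sub_self _), zero_mul,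
      zero_smul]
  · intro h4; exact absurd (Finset.mem_univ i) h4

end Pool.Agent.LibEis68
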