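import Pool.Agent.LibEis68.ADefs

open Complex Polynomial Matrix
open scoped ComplexConjugate MatrixGroups UpperHalfPlane

namespace Pool.Agent.LibEis68

/-- `R(τ) = Im τ ∑_i (∑' (mτ+n)^(-i-1) (mτ̄+n)^(-(k-i)-1)) (X - τY)^i (X - τ̄Y)^(k-i)`. -/
noncomputable def reg (k : ℕ) (τ : ℂ) : Fin (k + 1) → ℂ := fun j =>
  τ.im * ∑ i : Fin (k + 1), lat (i + 1) (k - i + 1) τ * form k τ (conj τ) i j

/-- The real linear map `h ↦ Im (c h)`. -/
noncomputable def imMul (c : ℂ) : ℂ →L[ℝ] ℝ := imCLM.comp (ContinuousLinearMap.mul ℝ ℂ c)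

end Pool.Agent.LibEis68
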