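import Pool.Agent.LibEis68.B07
import Pool.Agent.LibEis68.B08
import Pool.Agent.LibEis68.CDefs

open Complex Polynomial Matrix
open scoped ComplexConjugate MatrixGroups UpperHalfPlane

namespace Pool.Agent.LibEis68

/-- If the imaginary part of `e` is `κ reg`, then `(X - τY)^i (X - τ̄Y)^(k-i)` lies in the
unipotent part whenever the corresponding lattice sum does not vanish. -/
theorem Adm.form_mem {k : ℕ} {e : ℂ → Fin (k + 1) → ℂ} {τ : ℂ} (hτ : 0 < τ.im) {L}
    (h : Adm e τ L) {κ : ℝ} (hκ : κ ≠ 0) (he : ∀ j, ((e τ j).im : ℂ) = κ * reg k τ j)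
    (i : Fin (k + 1)) (hi : lat (i + 1) (k - i + 1) τ ≠ 0) :
    form k τ (conj τ) i ∈ cxv (uni L) := by
  have h1 : (fun j => ((e τ j).im : ℂ)) ∈ cxv (uni L) := h.im_mem hτ
  have h2 : reg k τ = (κ : ℂ)⁻¹ • fun j => ((e τ j).im : ℂ) := by
    funext j
    rw [Pi.smul_apply, he j, smul_eq_mul, ← mul_assoc, inv_mul_cancel₀, one_mul]
    exact_mod_cast hκ
  have h3 : reg k τ ∈ cxv (uni L) := by
    rw [h2]
    exact (cxv (uni L)).smul_mem _ h1
  have h4 : reg k τ = ∑ i : Fin (k + 1),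
      ((τ.im : ℂ) * lat (i + 1) (k - i + 1) τ) • form k τ (conj τ) i := by
    funext j
    unfold reg
    rw [Finset.sum_apply, Finset.mul_sum]
    refine Finset.sum_congr rfl fun i _ => ?_
    rw [Pi.smul_apply, smul_eq_mul, mul_assoc]
  rw [h4] at h3
  refine component_mem hτ (cxv (uni L)) (fun w hw => h.sl_stable hτ hw) _ h3 i ?_
  refine mul_ne_zero ?_ hi
  exact_mod_cast hτ.ne'

/-- If all lattice sums are nonzero, the unipotent part is everything. -/
theorem Adm.uni_eq_top {k : ℕ} {e : ℂ → Fin (k + 1) → ℂ} {τ : ℂ} (hτ : 0 < τ.im) {L}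
    (h : Adm e τ L) {κ : ℝ} (hκ : κ ≠ 0) (he : ∀ j, ((e τ j).im : ℂ) = κ * reg k τ j)
    (hi : ∀ i : Fin (k + 1), lat (i + 1) (k - i + 1) τ ≠ 0) : uni L = ⊤ := by
  have h1 : cxv (uni L) = ⊤ := by
    rw [eq_top_iff, ← form_span k hτ, Submodule.span_le]
    rintro _ ⟨i, rfl⟩
    exact h.form_mem hτ hκ he i (hi i)
  have h2 := finrank_cxv (uni L)
  rw [h1, finrank_top] at h2
  apply Submodule.eq_top_of_finrank_eq
  rw [← h2]
  simp

end Pool.Agent.LibEis68
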