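import Pool.Agent.LibEis68.B07

open Complex Polynomial Matrix
open scoped ComplexConjugate MatrixGroups UpperHalfPlane

namespace Pool.Agent.LibEis68

/-- Complex multiplication. -/
def IsCM (τ : ℂ) : Prop := ∃ a b c : ℤ, a ≠ 0 ∧ (a : ℂ) * τ ^ 2 + b * τ + c = 0

private theorem b10_top {M : Submodule ℚ (Fin 3 → ℚ)} {p q : ℚ} (ha : ![1, 0, p] ∈ M)
    (hb : ![0, 1, q] ∈ M) (hc : ![0, 0, 1] ∈ M) : M = ⊤ := by
  rw [eq_top_iff]
  intro v _
  have h : v = v 0 • (![1, 0, p] - p • ![0, 0, 1]) + v 1 • (![0, 1, q] - q • ![0, 0, 1]) +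
      v 2 • ![0, 0, 1] := by
    ext i
    fin_cases i <;> simp
  rw [h]
  exact M.add_mem (M.add_mem (M.smul_mem _ (M.sub_mem ha (M.smul_mem _ hc)))
    (M.smul_mem _ (M.sub_mem hb (M.smul_mem _ hc)))) (M.smul_mem _ hc)

private theorem b10_sep {U : Submodule ℚ ℂ} {v : ℂ} (hv : v ∉ U) :
    ∃ f : ℂ →ₗ[ℚ] ℚ, f v = 1 ∧ ∀ u ∈ U, f u = 0 := by
  obtain ⟨f, hf, hU⟩ := Submodule.exists_dual_map_eq_bot_of_notMem hv inferInstance
  refine ⟨(f v)⁻¹ • f, ?_, fun u hu => ?_⟩
  · simp [hf]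
  · have : f u ∈ U.map f := Submodule.mem_map_of_mem hu
    rw [hU] at this
    have h0 : f u = 0 := by simpa using this
    simp [h0]

/-- A subspace of `ℚ³` closed under the bracket of `𝔰𝔩₂` and containing the rational hull of
`(1, x, |τ|²)` is everything when `τ` is not CM. -/
theorem hull_top {τ : ℂ} (hτ : 0 < τ.im) (hcm : ¬ IsCM τ) (M : Submodule ℚ (Fin 3 → ℚ))
    (hM : ∀ a ∈ M, ∀ b ∈ M, ![2 * (a 1 * b 0 - a 0 * b 1), a 2 * b 0 - a 0 * b 2,
      2 * (a 2 * b 1 - a 1 * b 2)] ∈ M)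
    (hf : ∀ f : ℂ →ₗ[ℚ] ℚ, ![f (hvec τ 0), f (hvec τ 1), f (hvec τ 2)] ∈ M) : M = ⊤ := by
  have hy : (τ.im : ℂ) ≠ 0 := by exact_mod_cast hτ.ne'
  -- normalised functionals
  have hg : ∀ g : ℂ →ₗ[ℚ] ℚ, ![g 1, g (τ.re : ℂ), g ((τ.re ^ 2 + τ.im ^ 2 : ℝ) : ℂ)] ∈ M := by
    intro g
    have h := hf (g.comp (LinearMap.mulLeft ℚ ((τ.im : ℂ) / I)))
    have h0 : ((τ.im : ℂ) / I) * hvec τ 0 = 1 := by
      simp only [hvec, Matrix.cons_val_zero]
      field_simp [Complex.I_ne_zero]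
    have h1 : ((τ.im : ℂ) / I) * hvec τ 1 = (τ.re : ℂ) := by
      simp only [hvec, Matrix.cons_val]
      field_simp [Complex.I_ne_zero]
    have h2 : ((τ.im : ℂ) / I) * hvec τ 2 = ((τ.re ^ 2 + τ.im ^ 2 : ℝ) : ℂ) := by
      simp only [hvec, Matrix.cons_val]
      field_simp [Complex.I_ne_zero]
      push_cast
      ring
    simp only [LinearMap.comp_apply, LinearMap.mulLeft_apply, h0, h1, h2] at h
    exact h
  set n : ℂ := ((τ.re ^ 2 + τ.im ^ 2 : ℝ) : ℂ) with hn
  set x : ℂ := (τ.re : ℂ) with hx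
  have h1span : ∀ u : ℂ, u ∈ Submodule.span ℚ ({1} : Set ℂ) ↔ ∃ r : ℚ, (r : ℂ) = u := by
    intro u
    rw [Submodule.mem_span_singleton]
    constructor
    · rintro ⟨r, hr⟩
      exact ⟨r, by rw [← hr, Rat.smul_def, mul_one]⟩
    · rintro ⟨r, hr⟩
      exact ⟨r, by rw [← hr, Rat.smul_def, mul_one]⟩
  have hsm : ∀ (g : ℂ →ₗ[ℚ] ℚ) (r : ℚ), g (r : ℂ) = r * g 1 := by
    intro g r
    have : (r : ℂ) = r • (1 : ℂ) := by rw [Rat.smul_def, mul_one]
    rw [this, map_smul, smul_eq_mul]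
  have hsm' : ∀ (g : ℂ →ₗ[ℚ] ℚ) (r : ℚ) (u : ℂ), g ((r : ℂ) * u) = r * g u := by
    intro g r u
    have : (r : ℂ) * u = r • u := by rw [Rat.smul_def]
    rw [this, map_smul, smul_eq_mul]
  obtain ⟨g0, hg01, -⟩ := b10_sep (U := ⊥) (v := (1 : ℂ)) (by simp)
  by_cases hxr : ∃ r : ℚ, (r : ℂ) = x
  · obtain ⟨r, hr⟩ := hxr
    by_cases hnr : ∃ s : ℚ, (s : ℂ) = n
    · obtain ⟨s, hs⟩ := hnr
      exfalso
      apply hcm
      refine ⟨r.den * s.den, -2 * r.num * s.den, s.num * r.den, ?_, ?_⟩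
      · have := r.den_pos
        have := s.den_pos
        positivity
      · have hq : τ ^ 2 - 2 * (r : ℂ) * τ + (s : ℂ) = 0 := by
          rw [hr, hs, hn, hx]
          apply Complex.ext
          · simp [sq]
            ring
          · simp [sq]
            ring
        have hrd : (r : ℂ) * r.den = r.num := by exact_mod_cast r.mul_den_eq_num
        have hsd : (s : ℂ) * s.den = s.num := by exact_mod_cast s.mul_den_eq_num
        push_cast
        rw [← hrd, ← hsd]
        linear_combination ((r.den : ℂ) * s.den) * hq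
    · have hn' : n ∉ Submodule.span ℚ ({1} : Set ℂ) := fun h => hnr ((h1span n).mp h)
      obtain ⟨g1, hg11, hg12⟩ := b10_sep hn'
      have h1 : g1 1 = 0 := hg12 1 (Submodule.mem_span_singleton_self _)
      have hb := hg g1
      rw [h1, ← hr, hsm, h1, mul_zero, hg11] at hb
      have ha := hg (g0 - (g0 n) • g1)
      simp only [LinearMap.sub_apply, LinearMap.smul_apply, smul_eq_mul, h1, hg01, hg11] at ha
      rw [← hr, hsm, hsm, h1, hg01] at ha
      simp only [mul_zero, mul_one, sub_zero, sub_self] at ha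
      have hc := hM _ ha _ hb
      simp only [Matrix.cons_val_zero, Matrix.cons_val_one, Matrix.cons_val, mul_zero, mul_one,
        sub_self, zero_sub] at hc
      have hb' : ![(0 : ℚ), 1, 0] ∈ M := by
        have := M.add_mem (M.smul_mem (-1 : ℚ) hc) (M.smul_mem (-(2 * r)) hb)
        have h2 : ![(0 : ℚ), 1, 0] = (-1 : ℚ) • ![(0 : ℚ), -1, 2 * -r] + (-(2 * r)) • ![(0 : ℚ), 0, 1] := by
          ext i
          fin_cases i <;> simp
        rw [h2]
        exact this
      have ha' : ![(1 : ℚ), 0, 0] ∈ M := by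
        have := M.sub_mem ha (M.smul_mem r hb')
        have h2 : ![(1 : ℚ), 0, 0] = ![(1 : ℚ), r, 0] - r • ![(0 : ℚ), 1, 0] := by
          ext i
          fin_cases i <;> simp
        rw [h2]
        exact this
      exact b10_top ha' hb' hb
  · have hx' : x ∉ Submodule.span ℚ ({1} : Set ℂ) := fun h => hxr ((h1span x).mp h)
    obtain ⟨g1, hg11, hg12⟩ := b10_sep hx'
    have h1 : g1 1 = 0 := hg12 1 (Submodule.mem_span_singleton_self _)
    have hb := hg g1
    rw [h1, hg11] at hb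
    set g2 : ℂ →ₗ[ℚ] ℚ := g0 - (g0 x) • g1 with hg2
    have hg21 : g2 1 = 1 := by simp [hg2, h1, hg01]
    have hg2x : g2 x = 0 := by simp [hg2, hg11]
    have ha := hg g2
    rw [hg21, hg2x] at ha
    by_cases hnU : n ∈ Submodule.span ℚ ({1, x} : Set ℂ)
    · obtain ⟨α, β, hαβ⟩ := Submodule.mem_span_pair.mp hnU
      rw [Rat.smul_def, Rat.smul_def, mul_one] at hαβ
      have hp : g2 n = α := by
        rw [← hαβ, map_add, hsm, hsm', hg21, hg2x]
        ring
      have hq : g1 n = β := by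
        rw [← hαβ, map_add, hsm, hsm', h1, hg11]
        ring
      rw [hp] at ha
      rw [hq] at hb
      have hc := hM _ ha _ hb
      simp only [Matrix.cons_val_zero, Matrix.cons_val_one, Matrix.cons_val, mul_zero, mul_one,
        zero_sub, zero_mul, one_mul, sub_zero] at hc
      have hd : ![(0 : ℚ), 0, 4 * α + β ^ 2] ∈ M := by
        have := M.add_mem (M.add_mem hc (M.smul_mem 2 ha)) (M.smul_mem β hb)
        have h2 : ![(0 : ℚ), 0, 4 * α + β ^ 2] =
            ![2 * -1, -β, 2 * α] + (2 : ℚ) • ![(1 : ℚ), 0, α] + β • ![(0 : ℚ), 1, β] := by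
          ext i
          fin_cases i <;> simp
          ring
        rw [h2]
        exact this
      by_cases hz : 4 * α + β ^ 2 = 0
      · exfalso
        have h2 : (τ.re ^ 2 + τ.im ^ 2 : ℝ) = α + β * τ.re := by
          have h3 : (((α : ℝ) + (β : ℝ) * τ.re : ℝ) : ℂ) = n := by
            rw [← hαβ, hx]
            push_cast
            ring
          rw [hn] at h3
          exact (Complex.ofReal_injective h3).symm
        have h3 : (4 : ℝ) * α + (β : ℝ) ^ 2 = 0 := by exact_mod_cast hz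
        nlinarith [sq_nonneg (τ.re - (β : ℝ) / 2), pow_pos hτ 2]
      · have hc' : ![(0 : ℚ), 0, 1] ∈ M := by
          have := M.smul_mem (4 * α + β ^ 2)⁻¹ hd
          have h2 : ![(0 : ℚ), 0, 1] = (4 * α + β ^ 2)⁻¹ • ![(0 : ℚ), 0, 4 * α + β ^ 2] := by
            ext i
            fin_cases i <;> simp [hz]
          rw [h2]
          exact this
        exact b10_top ha hb hc'
    · obtain ⟨g3, hg31, hg32⟩ := b10_sep hnU
      have h2 : g3 1 = 0 := hg32 1 (Submodule.subset_span (by simp))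
      have h3 : g3 x = 0 := hg32 x (Submodule.subset_span (by simp))
      have hc := hg g3
      rw [h2, h3, hg31] at hc
      exact b10_top ha hb hc

end Pool.Agent.LibEis68
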