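import Pool.Agent.LibEis68.B10

open Complex Polynomial Matrix
open scoped ComplexConjugate MatrixGroups UpperHalfPlane

namespace Pool.Agent.LibEis68

/-- The first three coordinates of the projection of `L`. -/
def b11_M {k : ℕ} (L : Submodule ℚ (Matrix (Unit ⊕ Fin (k + 1)) (Unit ⊕ Fin (k + 1)) ℚ)) :
    Submodule ℚ (Fin 3 → ℚ) where
  carrier := {a | ∃ v, par k v ![a 0, a 1, a 2, 0] ∈ L}
  add_mem' := by
    rintro a b ⟨v, hv⟩ ⟨w, hw⟩
    refine ⟨v + w, ?_⟩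
    have := L.add_mem hv hw
    rw [par_add] at this
    convert this using 2
    ext j; fin_cases j <;> simp
  zero_mem' := by
    refine ⟨0, ?_⟩
    have h : par k (0 : Fin (k + 1) → ℚ) ![(0 : Fin 3 → ℚ) 0, (0 : Fin 3 → ℚ) 1, (0 : Fin 3 → ℚ) 2, 0] = 0 := by
      have h1 : (![(0 : Fin 3 → ℚ) 0, (0 : Fin 3 → ℚ) 1, (0 : Fin 3 → ℚ) 2, 0] : Fin 4 → ℚ) = 0 := by
        ext j; fin_cases j <;> simp
      rw [h1]
      simpa using (par_smul k (0 : ℚ) 0 0).symm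
    rw [h]
    exact L.zero_mem
  smul_mem' := by
    rintro c a ⟨v, hv⟩
    refine ⟨c • v, ?_⟩
    have := L.smul_mem c hv
    rw [par_smul] at this
    convert this using 2
    ext j; fin_cases j <;> simp

/-- At a point without complex multiplication `L` projects onto `𝔤𝔩₂`. -/
theorem Adm.proj_full {k : ℕ} {e : ℂ → Fin (k + 1) → ℂ} {τ : ℂ} (hτ : 0 < τ.im) {L}
    (h : Adm e τ L) (hL : L ≤ full k) (hcm : ¬ IsCM τ) (t : Fin 4 → ℚ) :
    ∃ v, par k v t ∈ L := by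
  have _ := hL
  have hM : b11_M L = ⊤ := by
    apply hull_top hτ hcm
    · rintro a ⟨v, hv⟩ b ⟨w, hw⟩
      have h1 := h.closed _ hv _ hw
      rw [par_bracket] at h1
      exact ⟨sl k ![a 0, a 1, a 2, 0] *ᵥ w - sl k ![b 0, b 1, b 2, 0] *ᵥ v, h1⟩
    · intro f
      have h1 := (h.lin_mem hτ f).2
      have h2 : (![(![f (hvec τ 0), f (hvec τ 1), f (hvec τ 2)] : Fin 3 → ℚ) 0,
          (![f (hvec τ 0), f (hvec τ 1), f (hvec τ 2)] : Fin 3 → ℚ) 1,
          (![f (hvec τ 0), f (hvec τ 1), f (hvec τ 2)] : Fin 3 → ℚ) 2, 0] : Fin 4 → ℚ) = fun j => f (hvec τ j) := by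
        ext j
        fin_cases j <;> simp [hvec]
      refine ⟨fun j => -f ((sl k (hvec τ) *ᵥ e τ) j), ?_⟩
      rw [h2]
      exact h1
  obtain ⟨f, hf⟩ : ∃ f : ℂ →ₗ[ℚ] ℚ, f 1 ≠ 0 := by
    by_contra hcon
    push Not at hcon
    exact one_ne_zero ((Module.forall_dual_apply_eq_zero_iff ℚ (1 : ℂ)).1 hcon)
  have h2 := (h.lin_mem hτ f).1
  have h3 : (![t 0, t 1, t 2] : Fin 3 → ℚ) ∈ b11_M L := by rw [hM]; trivial
  obtain ⟨v, hv⟩ := h3
  have h4 := L.add_mem hv (L.smul_mem (-(t 3) / f 1) h2)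
  rw [par_smul, par_add] at h4
  refine ⟨v + (-t 3 / f 1) • fun j => f (e τ j), ?_⟩
  convert h4 using 2
  ext j
  fin_cases j <;> simp
  field_simp

end Pool.Agent.LibEis68
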