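import Pool.Agent.LibEis68.B07
import Pool.Agent.LibEis68.B02

open Complex Polynomial Matrix
open scoped ComplexConjugate MatrixGroups UpperHalfPlane

namespace Pool.Agent.LibEis68

/-- The operator `P` is in `𝔤𝔩₂ ⋉ Sym^k`. -/
theorem b13_opP {k : ℕ} (e : ℂ → Fin (k + 1) → ℂ) {τ : ℂ} (hτ : 0 < τ.im) :
    ∃ v t, opP e τ = par k v t := by
  have h1 := opP_add_opQ e hτ
  have h2 := opP_sub_opQ e hτ
  have h3 : opP e τ = (1 / 2 : ℂ) • ((opP e τ + opQ e τ) + (opP e τ - opQ e τ)) := by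
    rw [add_add_sub_cancel, ← two_smul ℂ, smul_smul]
    norm_num
  rw [h1, h2, par_add, par_smul] at h3
  exact ⟨_, _, h3⟩

theorem b13_opQ {k : ℕ} (e : ℂ → Fin (k + 1) → ℂ) {τ : ℂ} (hτ : 0 < τ.im) :
    ∃ v t, opQ e τ = par k v t := by
  have h1 := opP_add_opQ e hτ
  have h2 := opP_sub_opQ e hτ
  have h3 : opQ e τ = (1 / 2 : ℂ) • ((opP e τ + opQ e τ) + (-1 : ℂ) • (opP e τ - opQ e τ)) := by
    have : (opP e τ + opQ e τ) + (-1 : ℂ) • (opP e τ - opQ e τ) = (2 : ℂ) • opQ e τ := by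
      rw [two_smul, neg_one_smul]
      abel
    rw [this, smul_smul]
    norm_num
  rw [h1, h2, par_smul, par_add, par_smul] at h3
  exact ⟨_, _, h3⟩

theorem adm_full {k : ℕ} (e : ℂ → Fin (k + 1) → ℂ) {τ : ℂ} (hτ : 0 < τ.im) :
    Adm e τ (full k) := by
  refine ⟨?_, ?_, ?_⟩
  · rintro _ ⟨v, t, rfl⟩ _ ⟨v', t', rfl⟩
    exact ⟨_, _, par_bracket k v v' t t'⟩
  · rw [mem_cx_iff]
    intro f
    obtain ⟨v, t, h⟩ := b13_opP e hτ
    rw [h, par_map_lin]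
    exact ⟨_, _, rfl⟩
  · rw [mem_cx_iff]
    intro f
    obtain ⟨v, t, h⟩ := b13_opQ e hτ
    rw [h, par_map_lin]
    exact ⟨_, _, rfl⟩

theorem mtLie_le_full {k : ℕ} (e : ℂ → Fin (k + 1) → ℂ) {τ : ℂ} (hτ : 0 < τ.im) :
    mtLie e τ ≤ full k := by
  have h := adm_full e hτ
  exact sInf_le ⟨h.closed, h.memP, h.memQ⟩

/-- If `L₁`, `L₂` are admissible, so is their intersection. -/
theorem Adm.inf {k : ℕ} {e : ℂ → Fin (k + 1) → ℂ} {τ : ℂ} {L₁ L₂}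
    (h₁ : Adm e τ L₁) (h₂ : Adm e τ L₂) : Adm e τ (L₁ ⊓ L₂) := by
  refine ⟨?_, ?_, ?_⟩
  · intro A hA B hB
    exact ⟨h₁.closed A hA.1 B hB.1, h₂.closed A hA.2 B hB.2⟩
  · rw [mem_cx_iff]
    intro f
    exact ⟨(mem_cx_iff _ _).1 h₁.memP f, (mem_cx_iff _ _).1 h₂.memP f⟩
  · rw [mem_cx_iff]
    intro f
    exact ⟨(mem_cx_iff _ _).1 h₁.memQ f, (mem_cx_iff _ _).1 h₂.memQ f⟩

/-- The parametrisation as a linear map. -/
def b13_parL (k : ℕ) : ((Fin (k + 1) → ℚ) × (Fin 4 → ℚ)) →ₗ[ℚ]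
    Matrix (Unit ⊕ Fin (k + 1)) (Unit ⊕ Fin (k + 1)) ℚ where
  toFun p := par k p.1 p.2
  map_add' p q := (par_add k p.1 q.1 p.2 q.2).symm
  map_smul' c p := (par_smul k c p.1 p.2).symm

theorem finrank_full {k : ℕ} (hk : 1 ≤ k) : Module.finrank ℚ (full k) = k + 5 := by
  have h : full k = LinearMap.range (b13_parL k) := by
    ext M
    constructor
    · rintro ⟨v, t, rfl⟩
      exact ⟨(v, t), rfl⟩
    · rintro ⟨⟨v, t⟩, rfl⟩
      exact ⟨v, t, rfl⟩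
  have hinj : Function.Injective (b13_parL k) := by
    rintro ⟨v, t⟩ ⟨v', t'⟩ h
    have := par_injective hk (show par k v t = par k v' t' from h)
    rw [this.1, this.2]
  rw [h, LinearMap.finrank_range_of_inj hinj, Module.finrank_prod, Module.finrank_fin_fun,
    Module.finrank_fin_fun]

end Pool.Agent.LibEis68
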