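import Pool.Agent.LibEis68.B09
import Pool.Agent.LibEis68.B11
import Pool.Agent.LibEis68.B13
import Pool.Agent.LibEis68.A04

open Complex Polynomial Matrix
open scoped ComplexConjugate MatrixGroups UpperHalfPlane

namespace Pool.Agent.LibEis68

/-- Complex `sl k t` in coordinates. -/
theorem b12_sl_sum (k : ℕ) (t : Fin 4 → ℂ) :
    sl k t = ∑ j : Fin 4, t j • sl k (fun i => (((Pi.single j 1 : Fin 4 → ℚ) i : ℚ) : ℂ)) := by
  have h : t = ∑ j : Fin 4, t j • (fun i => (((Pi.single j 1 : Fin 4 → ℚ) i : ℚ) : ℂ)) := by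
    ext i
    rw [Finset.sum_apply, Fin.sum_univ_four]
    fin_cases i <;> simp
  conv_lhs => rw [h]
  rw [Fin.sum_univ_four, Fin.sum_univ_four, sl_add, sl_add, sl_add, sl_smul, sl_smul, sl_smul, sl_smul]

/-- The complexified unipotent part is stable under rational elements of the projection. -/
theorem b12_stable_rat {k : ℕ} {e : ℂ → Fin (k + 1) → ℂ} {τ : ℂ} {L} (h : Adm e τ L)
    {v : Fin (k + 1) → ℚ} {t : Fin 4 → ℚ} (hv : par k v t ∈ L) {w : Fin (k + 1) → ℂ}
    (hw : w ∈ cxv (uni L)) : sl k (fun i => (t i : ℂ)) *ᵥ w ∈ cxv (uni L) := by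
  unfold cxv at hw ⊢
  induction hw using Submodule.span_induction with
  | mem x hx =>
    obtain ⟨u, hu, rfl⟩ := hx
    simp only
    rw [← sl_mulVec_cast]
    exact Submodule.subset_span ⟨_, h.uni_stable hv hu, rfl⟩
  | zero => rw [Matrix.mulVec_zero]; exact Submodule.zero_mem _
  | add x y _ _ hx hy => rw [Matrix.mulVec_add]; exact Submodule.add_mem _ hx hy
  | smul a x _ hx => rw [Matrix.mulVec_smul]; exact Submodule.smul_mem _ _ hx

theorem b12_stable {k : ℕ} {e : ℂ → Fin (k + 1) → ℂ} {τ : ℂ} {L} (h : Adm e τ L)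
    (hv : ∀ t : Fin 4 → ℚ, ∃ v, par k v t ∈ L) (t : Fin 4 → ℂ) {w : Fin (k + 1) → ℂ}
    (hw : w ∈ cxv (uni L)) : sl k t *ᵥ w ∈ cxv (uni L) := by
  rw [b12_sl_sum, Fin.sum_univ_four]
  simp only [Matrix.add_mulVec, Matrix.smul_mulVec]
  have h1 : ∀ j : Fin 4, t j • (sl k (fun i => (((Pi.single j 1 : Fin 4 → ℚ) i : ℚ) : ℂ)) *ᵥ w) ∈ cxv (uni L) := by
    intro j
    obtain ⟨v, hv⟩ := hv (Pi.single j 1)
    exact Submodule.smul_mem _ _ (b12_stable_rat h hv hw)
  exact Submodule.add_mem _ (Submodule.add_mem _ (Submodule.add_mem _ (h1 0) (h1 1)) (h1 2)) (h1 3)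

/-- At a point without complex multiplication the Mumford-Tate Lie algebra is everything. -/
theorem mtLie_eq_full {k : ℕ} (hk : Even k) (hk2 : 2 ≤ k) {e : ℂ → Fin (k + 1) → ℂ} {τ : ℂ}
    (hτ : 0 < τ.im) {κ : ℝ} (hκ : κ ≠ 0) (he : ∀ j, ((e τ j).im : ℂ) = κ * reg k τ j)
    (hcm : ¬ IsCM τ) : mtLie e τ = full k := by
  have hspec := mtLie_spec e τ
  have hA : Adm e τ (mtLie e τ) := ⟨hspec.1, hspec.2.1, hspec.2.2⟩
  have hle := mtLie_le_full e hτ
  have hproj := hA.proj_full hτ hle hcm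
  refine le_antisymm hle ?_
  obtain ⟨s, hs⟩ := hk
  have hy : (τ.im : ℂ) ≠ 0 := by exact_mod_cast hτ.ne'
  set W := cxv (uni (mtLie e τ)) with hW
  have hmid : form k τ (conj τ) s ∈ W := by
    have h1 := hA.form_mem hτ hκ he (⟨s, by omega⟩ : Fin (k + 1)) (by
      simp only
      have : k - s + 1 = s + 1 := by omega
      rw [this]
      exact lat_self_ne_zero (by omega) hτ)
    simpa using h1
  have hup : ∀ i, i < k → form k τ (conj τ) i ∈ W → form k τ (conj τ) (i + 1) ∈ W := by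
    intro i hi hmem
    have h1 := b12_stable hA hproj ![1, τ, τ ^ 2, 0] hmem
    rw [sl_raise k hτ i hi] at h1
    have hc : (((k : ℂ) - i) * (2 * I * τ.im)) ≠ 0 := by
      apply mul_ne_zero
      · have : (i : ℂ) ≠ k := by exact_mod_cast hi.ne
        exact sub_ne_zero.2 this.symm
      · exact mul_ne_zero (mul_ne_zero two_ne_zero I_ne_zero) hy
    exact (Submodule.smul_mem_iff _ hc).1 h1
  have hdown : ∀ i, i < k → form k τ (conj τ) (i + 1) ∈ W → form k τ (conj τ) i ∈ W := by
    intro i hi hmem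
    have h1 := b12_stable hA hproj ![1, conj τ, conj τ ^ 2, 0] hmem
    rw [sl_lower k hτ i hi] at h1
    have hc : (-((i : ℂ) + 1) * (2 * I * τ.im)) ≠ 0 := by
      apply mul_ne_zero
      · have : (i : ℂ) + 1 ≠ 0 := by exact_mod_cast Nat.succ_ne_zero i
        exact neg_ne_zero.2 this
      · exact mul_ne_zero (mul_ne_zero two_ne_zero I_ne_zero) hy
    exact (Submodule.smul_mem_iff _ hc).1 h1
  have hge : ∀ j, s + j ≤ k → form k τ (conj τ) (s + j) ∈ W := by
    intro j
    induction j with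
    | zero => intro _; exact hmid
    | succ j ih => intro hj; exact hup (s + j) (by omega) (ih (by omega))
  have hle' : ∀ j, j ≤ s → form k τ (conj τ) (s - j) ∈ W := by
    intro j
    induction j with
    | zero => intro _; exact hmid
    | succ j ih =>
      intro hj
      apply hdown _ (by omega)
      have : s - (j + 1) + 1 = s - j := by omega
      rw [this]
      exact ih (by omega)
  have hall : ∀ i : Fin (k + 1), form k τ (conj τ) i ∈ W := by
    intro i
    have hi := i.2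
    rcases le_total s i with h | h
    · have := hge (i - s) (by omega)
      rwa [show s + ((i : ℕ) - s) = i by omega] at this
    · have := hle' (s - i) (by omega)
      rwa [show s - (s - (i : ℕ)) = i by omega] at this
  have hWtop : W = ⊤ := by
    rw [eq_top_iff, ← form_span k hτ, Submodule.span_le]
    rintro _ ⟨i, rfl⟩
    exact hall i
  have huni : ∀ u : Fin (k + 1) → ℚ, u ∈ uni (mtLie e τ) := by
    intro u
    obtain ⟨f, hf⟩ : ∃ f : ℂ →ₗ[ℚ] ℚ, f 1 ≠ 0 := by
      by_contra hcon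
      push Not at hcon
      exact one_ne_zero ((Module.forall_dual_apply_eq_zero_iff ℚ (1 : ℂ)).1 hcon)
    have h1 : (fun j => (u j : ℂ)) ∈ W := by rw [hWtop]; trivial
    have h2 := (mem_cxv_iff _ _).1 h1 f
    have h3 : (fun j => f (u j : ℂ)) = f 1 • u := by
      ext j
      have : ((u j : ℚ) : ℂ) = u j • (1 : ℂ) := by rw [Rat.smul_def, mul_one]
      rw [this, map_smul]
      simp [mul_comm]
    rw [h3] at h2
    exact (Submodule.smul_mem_iff _ hf).1 h2
  rintro _ ⟨v, t, rfl⟩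
  obtain ⟨v', hv'⟩ := hproj t
  have h1 : par k (v - v') 0 ∈ mtLie e τ := huni (v - v')
  have h2 := (mtLie e τ).add_mem h1 hv'
  rw [par_add, sub_add_cancel, zero_add] at h2
  exact h2

end Pool.Agent.LibEis68
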