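import Pool.Agent.LibEis68.B10
import Pool.Agent.LibEis68.B13

open Complex Polynomial Matrix
open scoped ComplexConjugate MatrixGroups UpperHalfPlane

namespace Pool.Agent.LibEis68

/-- The elements of `full k` whose projection is in the span of `t₀` and the scalars, and whose
unipotent component relative to `e₁` lies in `N`. -/
def part (k : ℕ) (t₀ : Fin 4 → ℚ) (e₁ : Fin (k + 1) → ℚ) (N : Submodule ℚ (Fin (k + 1) → ℚ)) :
    Submodule ℚ (Matrix (Unit ⊕ Fin (k + 1)) (Unit ⊕ Fin (k + 1)) ℚ) where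
  carrier := {M | ∃ n ∈ N, ∃ a b : ℚ, M =
    par k (n - sl k (a • t₀ + ![0, 0, 0, b]) *ᵥ e₁) (a • t₀ + ![0, 0, 0, b])}
  add_mem' := by
    rintro _ _ ⟨n, hn, a, b, rfl⟩ ⟨n', hn', a', b', rfl⟩
    refine ⟨n + n', N.add_mem hn hn', a + a', b + b', ?_⟩
    have ht : a • t₀ + ![0, 0, 0, b] + (a' • t₀ + ![0, 0, 0, b']) =
        (a + a') • t₀ + ![0, 0, 0, b + b'] := by
      ext j; fin_cases j <;> simp [Matrix.vecHead, Matrix.vecTail] <;> ring
    rw [par_add, ← ht, sl_add (t := a • t₀ + ![0, 0, 0, b]), Matrix.add_mulVec]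
    congr 1
    abel
  zero_mem' := ⟨0, N.zero_mem, 0, 0, by
    have h0 : (0 : ℚ) • t₀ + ![0, 0, 0, (0 : ℚ)] = 0 := by
      ext j; fin_cases j <;> simp
    have h1 : sl k (0 : Fin 4 → ℚ) = 0 := by simpa using sl_smul k (0 : ℚ) 0
    have h2 : par k (0 : Fin (k + 1) → ℚ) 0 = 0 := by simpa using (par_smul k (0 : ℚ) 0 0).symm
    rw [h0, h1]
    simp [h2]⟩
  smul_mem' := by
    rintro c _ ⟨n, hn, a, b, rfl⟩
    refine ⟨c • n, N.smul_mem c hn, c * a, c * b, ?_⟩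
    have ht : c • (a • t₀ + ![0, 0, 0, b]) = (c * a) • t₀ + ![0, 0, 0, c * b] := by
      ext j; fin_cases j <;> simp [Matrix.vecHead, Matrix.vecTail] <;> ring
    rw [par_smul, ht, ← ht, sl_smul, Matrix.smul_mulVec, smul_sub]

theorem b14_sl_scalar (k : ℕ) {R : Type*} [CommRing R] (b : R) (w : Fin (k + 1) → R) :
    sl k ![0, 0, 0, b] *ᵥ w = b • w := by
  have h : sl k ![0, 0, 0, b] = b • (1 : Matrix (Fin (k + 1)) (Fin (k + 1)) R) := by
    ext i j
    simp [sl, Matrix.one_apply]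
  rw [h, Matrix.smul_mulVec, Matrix.one_mulVec]

theorem b14_stable {k : ℕ} {t₀ : Fin 4 → ℚ} {N : Submodule ℚ (Fin (k + 1) → ℚ)}
    (hN : ∀ n ∈ N, sl k t₀ *ᵥ n ∈ N) {w : Fin (k + 1) → ℂ} (hw : w ∈ cxv N) :
    sl k (fun j => (t₀ j : ℂ)) *ᵥ w ∈ cxv N := by
  unfold cxv at hw ⊢
  induction hw using Submodule.span_induction with
  | mem x hx =>
    obtain ⟨u, hu, rfl⟩ := hx
    simp only
    rw [← sl_mulVec_cast]
    exact Submodule.subset_span ⟨_, hN u hu, rfl⟩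
  | zero => rw [Matrix.mulVec_zero]; exact Submodule.zero_mem _
  | add x y _ _ hx hy => rw [Matrix.mulVec_add]; exact Submodule.add_mem _ hx hy
  | smul a x _ hx => rw [Matrix.mulVec_smul]; exact Submodule.smul_mem _ _ hx

theorem b14_lin_rat (f : ℂ →ₗ[ℚ] ℚ) (z : ℂ) (q : ℚ) : f (z * q) = f z * q := by
  have : z * (q : ℂ) = q • z := by rw [Rat.smul_def, mul_comm]
  rw [this, map_smul, smul_eq_mul, mul_comm]

/-- `ℚ`-linear maps commute with the action on rational vectors. -/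
theorem b14_lin_mulVec (k : ℕ) (f : ℂ →ₗ[ℚ] ℚ) (T : Fin 4 → ℂ) (u : Fin (k + 1) → ℚ) (j) :
    f ((sl k T *ᵥ fun i => (u i : ℂ)) j) = (sl k (fun i => f (T i)) *ᵥ u) j := by
  have h := congrFun (congrFun (par_map_lin k f 0 T) (Sum.inr j))
  have h2 : ∀ i, f (sl k T j i) = sl k (fun i => f (T i)) j i := by
    intro i
    simpa [par] using h (Sum.inr i)
  simp only [Matrix.mulVec, dotProduct]
  rw [map_sum]
  refine Finset.sum_congr rfl fun i _ => ?_
  rw [b14_lin_rat, h2]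

theorem b14_mem {k : ℕ} (e : Fin (k + 1) → ℂ) {t₀ : Fin 4 → ℚ} {e₁ : Fin (k + 1) → ℚ}
    {N : Submodule ℚ (Fin (k + 1) → ℚ)} (hN : ∀ n ∈ N, sl k t₀ *ᵥ n ∈ N)
    (he : (fun j => e j - e₁ j) ∈ cxv N) (α β : ℂ) (T : Fin 4 → ℂ)
    (hT : T = α • (fun j => (t₀ j : ℂ)) + ![0, 0, 0, β]) :
    par k (-(sl k T *ᵥ e)) T ∈ cx (part k t₀ e₁ N) := by
  rw [mem_cx_iff]
  intro f
  rw [par_map_lin]
  have hfT : (fun j => f (T j)) = (f α) • t₀ + ![0, 0, 0, f β] := by
    rw [hT]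
    ext j
    simp only [Pi.add_apply, Pi.smul_apply, smul_eq_mul, map_add, b14_lin_rat]
    congr 1
    fin_cases j <;> simp
  have hmem : (-(sl k T *ᵥ fun j => e j - e₁ j)) ∈ cxv N := by
    apply Submodule.neg_mem
    rw [hT, sl_add, sl_smul, Matrix.add_mulVec, Matrix.smul_mulVec, b14_sl_scalar]
    exact Submodule.add_mem _ (Submodule.smul_mem _ _ (b14_stable hN he))
      (Submodule.smul_mem _ _ he)
  have hn := (mem_cxv_iff _ _).1 hmem f
  refine ⟨_, hn, f α, f β, ?_⟩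
  rw [← hfT]
  congr 1
  ext j
  have h1 : (-(sl k T *ᵥ e)) j = (-(sl k T *ᵥ fun j => e j - e₁ j)) j -
      (sl k T *ᵥ fun i => (e₁ i : ℂ)) j := by
    have : e = (fun j => e j - e₁ j) + fun j => (e₁ j : ℂ) := by
      ext j; simp
    conv_lhs => rw [this, Matrix.mulVec_add]
    simp only [Pi.neg_apply, Pi.add_apply]
    ring
  simp only [Pi.sub_apply]
  rw [h1, map_sub, b14_lin_mulVec]

/-- Main criterion for an upper bound of the Mumford-Tate Lie algebra at a CM point. -/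
theorem adm_part {k : ℕ} {e : ℂ → Fin (k + 1) → ℂ} {τ : ℂ} (hτ : 0 < τ.im) {t₀ : Fin 4 → ℚ}
    {c : ℂ} (ht : ∀ j, hvec τ j = c * t₀ j) {e₁ : Fin (k + 1) → ℚ}
    {N : Submodule ℚ (Fin (k + 1) → ℚ)} (hN : ∀ n ∈ N, sl k t₀ *ᵥ n ∈ N)
    (he : (fun j => e τ j - e₁ j) ∈ cxv N) : Adm e τ (part k t₀ e₁ N) := by
  have hadd := opP_add_opQ e hτ
  have hsub := opP_sub_opQ e hτ
  have hsum : opP e τ + opQ e τ =
      par k (-(sl k ![0, 0, 0, -((k : ℂ) + 2)] *ᵥ e τ)) ![0, 0, 0, -((k : ℂ) + 2)] := by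
    rw [hadd, b14_sl_scalar]
    congr 1
    ext j
    simp only [Pi.neg_apply, Pi.smul_apply, smul_eq_mul]
    ring
  have hhv : hvec τ = c • (fun j => (t₀ j : ℂ)) + ![0, 0, 0, (0 : ℂ)] := by
    ext j
    simp only [Pi.add_apply, Pi.smul_apply, smul_eq_mul, ht]
    fin_cases j <;> simp
  have hA := b14_mem (e τ) hN he c 0 (hvec τ) hhv
  have hB := b14_mem (e τ) hN he 0 (-((k : ℂ) + 2)) ![0, 0, 0, -((k : ℂ) + 2)] (by simp)
  rw [← hsub] at hA
  rw [← hsum] at hB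
  refine ⟨?_, ?_, ?_⟩
  · rintro _ ⟨n, hn, a, b, rfl⟩ _ ⟨n', hn', a', b', rfl⟩
    rw [par_bracket]
    set T := a • t₀ + ![0, 0, 0, b] with hTdef
    set T' := a' • t₀ + ![0, 0, 0, b'] with hT'def
    have hz : (![2 * (T 1 * T' 0 - T 0 * T' 1), T 2 * T' 0 - T 0 * T' 2,
        2 * (T 2 * T' 1 - T 1 * T' 2), 0] : Fin 4 → ℚ) = 0 := by
      ext j
      rw [hTdef, hT'def]
      fin_cases j <;> simp <;> ring
    have hcomm := sl_bracket k T T'
    rw [hz] at hcomm ⊢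
    have hsl0 : sl k (0 : Fin 4 → ℚ) = 0 := by simpa using sl_smul k (0 : ℚ) 0
    rw [hsl0] at hcomm
    have hstab : ∀ (a b : ℚ) (m : Fin (k + 1) → ℚ), m ∈ N →
        sl k (a • t₀ + ![0, 0, 0, b]) *ᵥ m ∈ N := by
      intro a b m hm
      rw [sl_add, sl_smul, Matrix.add_mulVec, Matrix.smul_mulVec, b14_sl_scalar]
      exact N.add_mem (N.smul_mem _ (hN m hm)) (N.smul_mem _ hm)
    refine ⟨sl k T *ᵥ n' - sl k T' *ᵥ n, N.sub_mem (hstab a b n' hn') (hstab a' b' n hn), 0, 0, ?_⟩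
    have h0 : (0 : ℚ) • t₀ + ![0, 0, 0, (0 : ℚ)] = 0 := by
      ext j; fin_cases j <;> simp
    rw [h0, hsl0, Matrix.zero_mulVec, sub_zero]
    congr 1
    rw [Matrix.mulVec_sub, Matrix.mulVec_sub, Matrix.mulVec_mulVec, Matrix.mulVec_mulVec]
    have h2 : (sl k T * sl k T') *ᵥ e₁ = (sl k T' * sl k T) *ᵥ e₁ := by
      rw [sub_eq_zero.1 hcomm]
    rw [h2]
    abel
  · have h : opP e τ = (1 / 2 : ℂ) • ((opP e τ + opQ e τ) + (opP e τ - opQ e τ)) := by
      ext i j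
      simp only [Matrix.smul_apply, Matrix.add_apply, Matrix.sub_apply, smul_eq_mul]
      ring
    rw [h]
    exact Submodule.smul_mem _ _ (Submodule.add_mem _ hB hA)
  · have h : opQ e τ = (1 / 2 : ℂ) • ((opP e τ + opQ e τ) - (opP e τ - opQ e τ)) := by
      ext i j
      simp only [Matrix.smul_apply, Matrix.add_apply, Matrix.sub_apply, smul_eq_mul]
      ring
    rw [h]
    exact Submodule.smul_mem _ _ (Submodule.sub_mem _ hB hA)

/-- At a CM point the Hodge cocharacter is proportional to a rational vector. -/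
theorem exists_rational {τ : ℂ} (hτ : 0 < τ.im) (hcm : IsCM τ) :
    ∃ (t₀ : Fin 4 → ℚ) (c : ℂ), t₀ ≠ 0 ∧ t₀ 3 = 0 ∧ ∀ j, hvec τ j = c * t₀ j := by
  obtain ⟨a, b, c, ha, habc⟩ := hcm
  have hre := congrArg Complex.re habc
  have him := congrArg Complex.im habc
  have ha' : (a : ℝ) ≠ 0 := by exact_mod_cast ha
  simp [pow_two] at hre him
  have hx : τ.re = -(b : ℝ) / (2 * a) := by
    have : τ.im * (2 * a * τ.re + b) = 0 := by linarith
    rcases mul_eq_zero.1 this with h | h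
    · exact absurd h hτ.ne'
    · field_simp
      linarith
  have hn : τ.re ^ 2 + τ.im ^ 2 = (c : ℝ) / a := by
    have h1 : (2 * a * τ.re : ℝ) = -b := by
      rw [hx]; field_simp
    field_simp
    linear_combination (-1) * hre + τ.re * h1
  refine ⟨![1, -(b : ℚ) / (2 * a), (c : ℚ) / a, 0], I / τ.im, ?_, rfl, ?_⟩
  · intro h
    have := congrFun h 0
    simp at this
  · have hxC : (τ.re : ℂ) = -(b : ℂ) / (2 * a) := by
      rw [hx]; push_cast; ring
    have hnC : (τ.re : ℂ) ^ 2 + (τ.im : ℂ) ^ 2 = (c : ℂ) / a := by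
      have := congrArg (fun r : ℝ => (r : ℂ)) hn
      push_cast at this
      exact this
    intro j
    fin_cases j
    · simp [hvec]
    · simp only [hvec]
      simp
      rw [hxC]; ring
    · simp only [hvec]
      simp
      rw [hnC]; ring
    · simp [hvec]

end Pool.Agent.LibEis68
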