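import Pool.Agent.LibEis68.B14

open Complex Polynomial Matrix
open scoped ComplexConjugate MatrixGroups UpperHalfPlane

namespace Pool.Agent.LibEis68

/-- Parametrization of `part`. -/
noncomputable def b15_phi (k : ℕ) (t₀ : Fin 4 → ℚ) (e₁ : Fin (k + 1) → ℚ)
    (N : Submodule ℚ (Fin (k + 1) → ℚ)) :
    (N × ℚ × ℚ) →ₗ[ℚ] Matrix (Unit ⊕ Fin (k + 1)) (Unit ⊕ Fin (k + 1)) ℚ where
  toFun x := par k ((x.1 : Fin (k + 1) → ℚ) - sl k (x.2.1 • t₀ + ![0, 0, 0, x.2.2]) *ᵥ e₁)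
    (x.2.1 • t₀ + ![0, 0, 0, x.2.2])
  map_add' := by
    rintro ⟨n, a, b⟩ ⟨n', a', b'⟩
    have ht : a • t₀ + ![0, 0, 0, b] + (a' • t₀ + ![0, 0, 0, b']) =
        (a + a') • t₀ + ![0, 0, 0, b + b'] := by
      ext j; fin_cases j <;> simp [Matrix.vecHead, Matrix.vecTail] <;> ring
    simp only [Prod.fst_add, Prod.snd_add, Prod.mk_add_mk, Submodule.coe_add]
    rw [par_add, ← ht, sl_add (t := a • t₀ + ![0, 0, 0, b]), Matrix.add_mulVec]
    congr 1
    abel
  map_smul' := by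
    rintro c ⟨n, a, b⟩
    have ht : c • (a • t₀ + ![0, 0, 0, b]) = (c * a) • t₀ + ![0, 0, 0, c * b] := by
      ext j; fin_cases j <;> simp [Matrix.vecHead, Matrix.vecTail] <;> ring
    simp only [Prod.smul_mk, smul_eq_mul, RingHom.id_apply, Submodule.coe_smul]
    rw [par_smul, ← ht, sl_smul, Matrix.smul_mulVec, smul_sub]

theorem finrank_part {k : ℕ} (hk : 1 ≤ k) {t₀ : Fin 4 → ℚ} (h0 : t₀ ≠ 0) (h3 : t₀ 3 = 0)
    (e₁ : Fin (k + 1) → ℚ) (N : Submodule ℚ (Fin (k + 1) → ℚ)) :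
    Module.finrank ℚ (part k t₀ e₁ N) = Module.finrank ℚ N + 2 := by
  have hinj : Function.Injective (b15_phi k t₀ e₁ N) := by
    rintro ⟨n, a, b⟩ ⟨n', a', b'⟩ h
    obtain ⟨hv, ht⟩ := par_injective hk h
    have hb : b = b' := by
      have := congrFun ht 3
      simpa [h3] using this
    subst hb
    have ha : a = a' := by
      obtain ⟨j, hj⟩ : ∃ j, t₀ j ≠ 0 := by
        by_contra hcon
        push Not at hcon
        exact h0 (funext hcon)
      have := congrFun ht j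
      simp only [Pi.add_apply, Pi.smul_apply, smul_eq_mul, add_left_inj] at this
      exact mul_right_cancel₀ hj this
    subst ha
    have hn : (n : Fin (k + 1) → ℚ) = n' := by simpa using hv
    rw [Subtype.ext hn]
  have hrange : LinearMap.range (b15_phi k t₀ e₁ N) = part k t₀ e₁ N := by
    ext M
    constructor
    · rintro ⟨⟨n, a, b⟩, rfl⟩
      exact ⟨n, n.2, a, b, rfl⟩
    · rintro ⟨n, hn, a, b, rfl⟩
      exact ⟨(⟨n, hn⟩, a, b), rfl⟩
  rw [← hrange, LinearMap.finrank_range_of_inj hinj]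
  simp [Module.finrank_prod]

/-- The Mumford-Tate group at a CM point is smaller. -/
theorem mtDim_cm_le {k : ℕ} (hk : 1 ≤ k) (e : ℂ → Fin (k + 1) → ℂ) {τ : ℂ} (hτ : 0 < τ.im)
    (hcm : IsCM τ) : mtDim e τ ≤ k + 3 := by
  obtain ⟨t₀, c, h0, h3, ht⟩ := exists_rational hτ hcm
  have hA : Adm e τ (part k t₀ 0 ⊤) := by
    apply adm_part hτ ht
    · intro n _; trivial
    · rw [mem_cxv_iff]; intro f; trivial
  have hle : mtLie e τ ≤ part k t₀ 0 ⊤ := sInf_le ⟨hA.closed, hA.memP, hA.memQ⟩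
  have h := Submodule.finrank_mono hle
  rw [finrank_part hk h0 h3, finrank_top, Module.finrank_fin_fun] at h
  exact h

end Pool.Agent.LibEis68
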