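import Pool.Agent.LibEis68.B15

open Complex Polynomial Matrix
open scoped ComplexConjugate MatrixGroups UpperHalfPlane

namespace Pool.Agent.LibEis68

/-- An admissible space with full unipotent part contains the whole CM algebra. -/
theorem Adm.part_le {k : ℕ} {e : ℂ → Fin (k + 1) → ℂ} {τ : ℂ} (hτ : 0 < τ.im) {L}
    (h : Adm e τ L) (hU : uni L = ⊤) {t₀ : Fin 4 → ℚ} {c : ℂ} (h3 : t₀ 3 = 0)
    (ht : ∀ j, hvec τ j = c * t₀ j) : part k t₀ 0 ⊤ ≤ L := by
  have hsep : ∀ z : ℂ, z ≠ 0 → ∃ f : ℂ →ₗ[ℚ] ℚ, f z ≠ 0 := by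
    intro z hz
    by_contra hcon
    push Not at hcon
    exact hz ((Module.forall_dual_apply_eq_zero_iff ℚ z).1 hcon)
  have hu : ∀ v : Fin (k + 1) → ℚ, par k v 0 ∈ L := by
    intro v
    have : v ∈ uni L := by rw [hU]; trivial
    exact this
  have hc : c ≠ 0 := by
    rintro rfl
    have h0 := ht 0
    simp only [hvec, zero_mul] at h0
    have hy : (τ.im : ℂ) ≠ 0 := by exact_mod_cast hτ.ne'
    have : I / (τ.im : ℂ) ≠ 0 := div_ne_zero I_ne_zero hy
    exact this (by simpa using h0)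
  obtain ⟨f, hf⟩ := hsep 1 one_ne_zero
  obtain ⟨g, hg⟩ := hsep c hc
  have hS : ∀ b : ℚ, ∃ v, par k v ![0, 0, 0, b] ∈ L := by
    intro b
    have h1 := L.smul_mem (-(f 1)⁻¹ * b) (h.lin_mem hτ f).1
    rw [par_smul] at h1
    have h2 : (-(f 1)⁻¹ * b) • (![0, 0, 0, -f 1] : Fin 4 → ℚ) = ![0, 0, 0, b] := by
      ext j
      fin_cases j <;> simp
      field_simp
    rw [h2] at h1
    exact ⟨_, h1⟩
  have hT : ∀ a : ℚ, ∃ v, par k v (a • t₀) ∈ L := by
    intro a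
    have h1 := L.smul_mem ((g c)⁻¹ * a) (h.lin_mem hτ g).2
    rw [par_smul] at h1
    have h2 : ((g c)⁻¹ * a) • (fun j => g (hvec τ j)) = a • t₀ := by
      ext j
      simp only [Pi.smul_apply, smul_eq_mul]
      rw [ht j]
      have : c * (t₀ j : ℂ) = t₀ j • c := by rw [Rat.smul_def, mul_comm]
      rw [this, map_smul, smul_eq_mul]
      field_simp
    rw [h2] at h1
    exact ⟨_, h1⟩
  rintro _ ⟨n, -, a, b, rfl⟩
  rw [Matrix.mulVec_zero, sub_zero]
  obtain ⟨v, hv⟩ := hT a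
  obtain ⟨w, hw⟩ := hS b
  have h1 := L.add_mem (L.add_mem hv hw) (hu (n - v - w))
  rw [par_add, par_add] at h1
  convert h1 using 2
  · abel
  · simp

end Pool.Agent.LibEis68
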