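import Pool.Agent.LibEis68.B05
import Pool.Agent.LibEis68.B06
import Pool.Agent.LibEis68.B04

open Complex Polynomial Matrix
open scoped ComplexConjugate MatrixGroups UpperHalfPlane

namespace Pool.Agent.LibEis68

/-- The raising operator kills the highest form. -/
private lemma sl_raise_top (k : ℕ) (τ : ℂ) :
    sl k ![1, τ, τ ^ 2, 0] *ᵥ form k τ (conj τ) k = 0 := by
  funext i
  have hdeg : ((X - C τ : ℂ[X]) ^ k).natDegree ≤ k := by
    refine natDegree_pow_le.trans ?_
    rw [natDegree_X_sub_C, mul_one]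
  -- the differential equation `(X - τ) p' = k p`
  have hode : (X - C τ : ℂ[X]) * derivative ((X - C τ) ^ k) = (k : ℂ[X]) * (X - C τ) ^ k := by
    rw [derivative_X_sub_C_pow]
    rcases k with _ | k
    · simp
    · simp only [Nat.add_sub_cancel, map_natCast]
      rw [pow_succ]
      ring
  set p : ℂ[X] := (X - C τ) ^ k with hp
  have hform : form k τ (conj τ) k = fun j : Fin (k + 1) => p.coeff j := by
    funext j
    simp [form, hp]
  have hrec : ∀ n : ℕ, ((n : ℂ) - k) * p.coeff n = τ * ((n : ℂ) + 1) * p.coeff (n + 1) := by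
    intro n
    have h := congrArg (fun q : ℂ[X] => q.coeff n) hode
    simp only [sub_mul, coeff_sub, coeff_C_mul, coeff_derivative, coeff_natCast_mul] at h
    rcases n with _ | n
    · simp only [coeff_X_mul_zero] at h
      push_cast
      linear_combination h
    · rw [coeff_X_mul, coeff_derivative] at h
      push_cast at h ⊢
      linear_combination h
  have hsum : ∀ F : ℕ → ℂ, ∑ j : Fin (k + 1), F j = ∑ j ∈ Finset.range (k + 1), F j :=
    fun F => Fin.sum_univ_eq_sum_range F (k + 1)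
  rw [hform]
  simp only [Matrix.mulVec, dotProduct, sl, Matrix.of_apply, Pi.zero_apply, Matrix.cons_val_zero,
    Matrix.cons_val_one, Matrix.cons_val]
  rw [show (∑ x : Fin (k + 1), ((if (i : ℕ) = x + 1 then 1 * ((k : ℂ) - ((x : ℕ) : ℂ)) else 0) +
      (if i = x then τ * (2 * ((x : ℕ) : ℂ) - k) + 0 else 0) -
      (if (i : ℕ) + 1 = x then τ ^ 2 * ((x : ℕ) : ℂ) else 0)) * p.coeff x) =
      ∑ x ∈ Finset.range (k + 1), ((if (i : ℕ) = x + 1 then 1 * ((k : ℂ) - ((x : ℕ) : ℂ)) else 0) +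
      (if (i : ℕ) = x then τ * (2 * ((x : ℕ) : ℂ) - k) + 0 else 0) -
      (if (i : ℕ) + 1 = x then τ ^ 2 * ((x : ℕ) : ℂ) else 0)) * p.coeff x from by
    rw [← hsum]
    refine Finset.sum_congr rfl fun x _ => ?_
    simp only [Fin.ext_iff]]
  simp only [add_mul, sub_mul, ite_mul, zero_mul, Finset.sum_add_distrib, Finset.sum_sub_distrib,
    add_zero, one_mul]
  have hi : (i : ℕ) < k + 1 := i.2
  have s2 : (∑ x ∈ Finset.range (k + 1), if (i : ℕ) = x then
      τ * (2 * ((x : ℕ) : ℂ) - k) * p.coeff x else 0) = τ * (2 * ((i : ℕ) : ℂ) - k) * p.coeff i := by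
    rw [Finset.sum_ite_eq]
    simp [hi]
  have s3 : (∑ x ∈ Finset.range (k + 1), if (i : ℕ) + 1 = x then
      τ ^ 2 * ((x : ℕ) : ℂ) * p.coeff x else 0) = τ ^ 2 * ((i : ℕ) + 1) * p.coeff (i + 1) := by
    rw [Finset.sum_ite_eq]
    split_ifs with h
    · push_cast; ring
    · have : p.coeff (i + 1) = 0 := by
        apply coeff_eq_zero_of_natDegree_lt
        rw [Finset.mem_range] at h
        omega
      rw [this, mul_zero]
  have s1 : (∑ x ∈ Finset.range (k + 1), if (i : ℕ) = x + 1 then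
      (k : ℂ) * p.coeff x - ((x : ℕ) : ℂ) * p.coeff x else 0) =
      -(τ * ((i : ℕ) : ℂ) * p.coeff i) := by
    rcases h : (i : ℕ) with _ | n
    · simp
    · simp only [Nat.add_right_cancel_iff]
      rw [Finset.sum_ite_eq]
      rw [if_pos (by rw [Finset.mem_range]; omega)]
      have := hrec n
      push_cast
      linear_combination -this
  rw [s1, s2, s3]
  have := hrec i
  linear_combination τ * this

private lemma decomp (x J t0 t1 t2 : ℂ) (hJ : J ≠ 0) :
    (t1 = (t0 * (x - J) ^ 2 - 2 * t1 * (x - J) + t2) / (2 * J) ^ 2 * (x + J) +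
      (t0 - (t0 * (x - J) ^ 2 - 2 * t1 * (x - J) + t2) / (2 * J) ^ 2 -
        (t0 * (x + J) ^ 2 - 2 * t1 * (x + J) + t2) / (2 * J) ^ 2) * x +
      (t0 * (x + J) ^ 2 - 2 * t1 * (x + J) + t2) / (2 * J) ^ 2 * (x - J)) ∧
    (t2 = (t0 * (x - J) ^ 2 - 2 * t1 * (x - J) + t2) / (2 * J) ^ 2 * (x + J) ^ 2 +
      (t0 - (t0 * (x - J) ^ 2 - 2 * t1 * (x - J) + t2) / (2 * J) ^ 2 -
        (t0 * (x + J) ^ 2 - 2 * t1 * (x + J) + t2) / (2 * J) ^ 2) * ((x + J) * (x - J)) +
      (t0 * (x + J) ^ 2 - 2 * t1 * (x + J) + t2) / (2 * J) ^ 2 * (x - J) ^ 2) := by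
  constructor
  · field_simp
    ring
  · field_simp
    ring

/-- Coordinates of `End / F⁰` on `full k`: the element `(v, t)` lies in `F⁰` iff
`v + t·e(τ) = 0` and the component of `t` along the lowering operator vanishes. -/
theorem par_mem_F0_iff {k : ℕ} (hk : 1 ≤ k) (e : ℂ → Fin (k + 1) → ℂ) {τ : ℂ} (hτ : 0 < τ.im)
    (v : Fin (k + 1) → ℂ) (t : Fin 4 → ℂ) :
    par k v t ∈ F0 e τ ↔ v + sl k t *ᵥ e τ = 0 ∧
      t 0 * τ ^ 2 - 2 * t 1 * τ + t 2 = 0 := by
  have hy : (τ.im : ℂ) ≠ 0 := by exact_mod_cast hτ.ne'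
  -- the blocks
  set B : Matrix (Fin (k + 1)) (Fin (k + 1)) ℂ :=
    Matrix.of fun j (i : Fin (k + 1)) => form k τ (conj τ) i j with hB
  set E : Matrix (Fin (k + 1)) Unit ℂ := Matrix.of fun j _ => e τ j with hE
  have hframe : frame e τ = Matrix.fromBlocks 1 0 E B := rfl
  have hdet : IsUnit B.det := by
    have h := frame_isUnit e hτ
    rw [hframe, Matrix.det_fromBlocks_zero₁₂] at h
    simpa using h
  have hBB : B⁻¹ * B = 1 := Matrix.nonsing_inv_mul B hdet
  have hBB' : B * B⁻¹ = 1 := Matrix.mul_nonsing_inv B hdet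
  have hinv : (frame e τ)⁻¹ = Matrix.fromBlocks 1 0 (-(B⁻¹ * E)) B⁻¹ := by
    apply Matrix.inv_eq_left_inv
    rw [hframe, Matrix.fromBlocks_multiply]
    simp [hBB, ← Matrix.fromBlocks_one]
  set V : Matrix (Fin (k + 1)) Unit ℂ := Matrix.of fun j _ => v j with hV
  have hprod : (frame e τ)⁻¹ * par k v t * frame e τ =
      Matrix.fromBlocks 0 0 (B⁻¹ * (V + sl k t * E)) (B⁻¹ * (sl k t * B)) := by
    rw [hinv, hframe, par, Matrix.mul_assoc, Matrix.fromBlocks_multiply,
      Matrix.fromBlocks_multiply]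
    simp [hV]
  -- decomposition of `t`
  set c : ℂ := (t 0 * τ ^ 2 - 2 * t 1 * τ + t 2) / (2 * I * τ.im) ^ 2 with hc
  set a : ℂ := (t 0 * (conj τ) ^ 2 - 2 * t 1 * conj τ + t 2) / (2 * I * τ.im) ^ 2 with ha
  set b : ℂ := (t 0 - a - c) * (τ.im / I) with hb
  have hre : τ = τ.re + τ.im * I := (Complex.re_add_im τ).symm
  have hconj : conj τ = τ.re - τ.im * I := by
    apply Complex.ext <;> simp
  have hI : I ≠ 0 := Complex.I_ne_zero
  have hJ : (τ.im * I : ℂ) ≠ 0 := mul_ne_zero hy hI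
  have e0 : (2 * I * (τ.im : ℂ)) ^ 2 = (2 * (τ.im * I)) ^ 2 := by ring
  have hb' : b * (I / τ.im) = t 0 - a - c := by
    rw [hb]; field_simp
  have ht : t = a • ![1, τ, τ ^ 2, 0] + b • hvec τ + c • ![1, conj τ, conj τ ^ 2, 0] +
      t 3 • ![0, 0, 0, 1] := by
    obtain ⟨d1, d2⟩ := decomp (τ.re : ℂ) (τ.im * I) (t 0) (t 1) (t 2) hJ
    rw [← hre, ← hconj, ← e0, ← hc, ← ha] at d1 d2
    have hzw : τ * conj τ = τ.re ^ 2 + τ.im ^ 2 := by
      rw [hconj]; nth_rw 1 [hre]; linear_combination (-(τ.im : ℂ) ^ 2) * I_sq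
    funext j
    fin_cases j
    · simp only [hvec, Pi.add_apply, Pi.smul_apply, smul_eq_mul, Fin.zero_eta, Matrix.cons_val_zero,
        mul_one, mul_zero, add_zero]
      rw [hb']; ring
    · simp only [hvec, Pi.add_apply, Pi.smul_apply, smul_eq_mul, Fin.mk_one, Matrix.cons_val_one,
        Matrix.cons_val_zero, mul_zero, add_zero]
      linear_combination d1 - τ.re * hb'
    · simp only [hvec, Pi.add_apply, Pi.smul_apply, smul_eq_mul, Fin.reduceFinMk, Matrix.cons_val,
        mul_zero, add_zero]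
      linear_combination d2 - (τ.re ^ 2 + τ.im ^ 2) * hb' + (t 0 - a - c) * hzw
    · simp [hvec]
  have hsl1 : sl k ![0, 0, 0, (1 : ℂ)] = 1 := by
    ext i j
    simp [sl, Matrix.one_apply]
  have hslt : sl k t = a • sl k ![1, τ, τ ^ 2, 0] + b • sl k (hvec τ) +
      c • sl k ![1, conj τ, conj τ ^ 2, 0] + t 3 • 1 := by
    conv_lhs => rw [ht]
    rw [sl_add, sl_add, sl_add, sl_smul, sl_smul, sl_smul, sl_smul, hsl1]
  have hcol : ∀ i' : Fin (k + 1), B⁻¹ *ᵥ form k τ (conj τ) i' = Pi.single i' 1 := by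
    intro i'
    have h1 : B *ᵥ Pi.single i' 1 = form k τ (conj τ) i' := by
      rw [Matrix.mulVec_single_one]
      rfl
    rw [← h1, Matrix.mulVec_mulVec, hBB, Matrix.one_mulVec]
  have hentry : ∀ (n : ℕ) (hn : n < k) (i : Fin (k + 1)), (i : ℕ) < n + 1 →
      (B⁻¹ * (sl k t * B)) i ⟨n + 1, by omega⟩ =
        if (i : ℕ) = n then c * (-((n : ℂ) + 1) * (2 * I * τ.im)) else 0 := by
    intro n hn i hi
    have h1 : (B⁻¹ * (sl k t * B)) i ⟨n + 1, by omega⟩ =
        (B⁻¹ *ᵥ (sl k t *ᵥ form k τ (conj τ) (n + 1))) i := rfl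
    have h2 : form k τ (conj τ) (n + 1) = form k τ (conj τ) ((⟨n + 1, by omega⟩ : Fin (k + 1)) : ℕ) :=
      rfl
    have hR : (B⁻¹ *ᵥ (sl k ![1, τ, τ ^ 2, 0] *ᵥ form k τ (conj τ) (n + 1))) i = 0 := by
      rcases Nat.lt_or_ge (n + 1) k with h | h
      · rw [sl_raise k hτ (n + 1) h, Matrix.mulVec_smul,
          show form k τ (conj τ) (n + 1 + 1) =
            form k τ (conj τ) ((⟨n + 1 + 1, by omega⟩ : Fin (k + 1)) : ℕ) from rfl, hcol]
        have : i ≠ (⟨n + 1 + 1, by omega⟩ : Fin (k + 1)) := by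
          intro h; rw [h] at hi; simp at hi
        simp [Pi.single_eq_of_ne this]
      · have : n + 1 = k := by omega
        rw [this, sl_raise_top]
        simp
    have hH : (B⁻¹ *ᵥ (sl k (hvec τ) *ᵥ form k τ (conj τ) (n + 1))) i = 0 := by
      rw [h2, sl_mulVec_form k hτ, Matrix.mulVec_smul, hcol]
      have : i ≠ (⟨n + 1, by omega⟩ : Fin (k + 1)) := by
        intro h; rw [h] at hi; simp at hi
      simp [Pi.single_eq_of_ne this]
    have hL : (B⁻¹ *ᵥ (sl k ![1, conj τ, conj τ ^ 2, 0] *ᵥ form k τ (conj τ) (n + 1))) i =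
        if (i : ℕ) = n then -((n : ℂ) + 1) * (2 * I * τ.im) else 0 := by
      rw [sl_lower k hτ n hn, Matrix.mulVec_smul,
        show form k τ (conj τ) n = form k τ (conj τ) ((⟨n, by omega⟩ : Fin (k + 1)) : ℕ) from rfl,
        hcol]
      simp only [Pi.smul_apply, smul_eq_mul, Pi.single_apply, Fin.ext_iff, mul_ite, mul_one,
        mul_zero]
    have h1' : (B⁻¹ *ᵥ form k τ (conj τ) (n + 1)) i = 0 := by
      rw [h2, hcol]
      have : i ≠ (⟨n + 1, by omega⟩ : Fin (k + 1)) := by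
        intro h; rw [h] at hi; simp at hi
      simp [Pi.single_eq_of_ne this]
    rw [h1, hslt]
    simp only [Matrix.add_mulVec, Matrix.smul_mulVec, Matrix.mulVec_add, Matrix.mulVec_smul,
      Pi.add_apply, Pi.smul_apply, smul_eq_mul, hR, hH, hL, Matrix.one_mulVec, h1', mul_zero,
      add_zero, zero_add, mul_ite]
  have hcz : c = 0 ↔ t 0 * τ ^ 2 - 2 * t 1 * τ + t 2 = 0 := by
    rw [hc, div_eq_zero_iff]
    constructor
    · rintro (h | h)
      · exact h
      · exact absurd h (pow_ne_zero _ (by simp [hy]))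
    · exact fun h => Or.inl h
  rw [← hcz]
  have hVE : ∀ j, (B⁻¹ * (V + sl k t * E)) j () = (B⁻¹ *ᵥ (v + sl k t *ᵥ e τ)) j := fun j => rfl
  constructor
  · intro h
    have h' : ∀ x y, hodgeP k x < hodgeP k y →
        ((frame e τ)⁻¹ * par k v t * frame e τ) x y = 0 := h
    rw [hprod] at h'
    constructor
    · have h1 : B⁻¹ *ᵥ (v + sl k t *ᵥ e τ) = 0 := by
        funext j
        have := h' (Sum.inr j) (Sum.inl ()) (by simp [hodgeP]; omega)
        rw [Matrix.fromBlocks_apply₂₁, hVE] at this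
        exact this
      have h2 := congrArg (fun w => B *ᵥ w) h1
      simp only [Matrix.mulVec_mulVec, hBB', Matrix.one_mulVec, Matrix.mulVec_zero] at h2
      exact h2
    · have := h' (Sum.inr 0) (Sum.inr ⟨1, by omega⟩) (by simp [hodgeP])
      rw [Matrix.fromBlocks_apply₂₂, hentry 0 (by omega) 0 (by simp)] at this
      simp only [Fin.val_zero, if_true] at this
      rcases mul_eq_zero.mp this with h | h
      · exact h
      · exfalso
        simp [hy] at h
  · rintro ⟨h1, h2⟩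
    show ∀ x y, hodgeP k x < hodgeP k y → ((frame e τ)⁻¹ * par k v t * frame e τ) x y = 0
    rw [hprod]
    intro x y hxy
    rcases x with x | i
    · rcases y with y | y <;> simp
    · rcases y with y | j
      · rw [Matrix.fromBlocks_apply₂₁, hVE, h1, Matrix.mulVec_zero]
        rfl
      · rw [Matrix.fromBlocks_apply₂₂]
        have hij : (i : ℕ) < j := by
          simp only [hodgeP, Sum.elim_inr] at hxy
          omega
        obtain ⟨n, hn⟩ : ∃ n, (j : ℕ) = n + 1 := ⟨j - 1, by omega⟩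
        have hj : j = ⟨n + 1, by omega⟩ := Fin.ext hn
        rw [hj, hentry n (by omega) i (by omega), h2]
        simp

end Pool.Agent.LibEis68
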