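import Pool.Agent.LibEis68.B17
import Pool.Agent.LibEis68.B13
import Pool.Agent.LibEis68.B01

open Complex Polynomial Matrix
open scoped ComplexConjugate MatrixGroups UpperHalfPlane

namespace Pool.Agent.LibEis68

private theorem finrank_range_eq {V A B : Type*} [AddCommGroup V] [Module ℂ V]
    [FiniteDimensional ℂ V] [AddCommGroup A] [Module ℂ A] [AddCommGroup B] [Module ℂ B]
    (f : V →ₗ[ℂ] A) (g : V →ₗ[ℂ] B) (h : LinearMap.ker f = LinearMap.ker g) :
    Module.finrank ℂ (LinearMap.range f) = Module.finrank ℂ (LinearMap.range g) := by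
  have h1 := f.finrank_range_add_finrank_ker
  have h2 := g.finrank_range_add_finrank_ker
  rw [h] at h1
  omega

/-- `par` as a linear map. -/
private noncomputable def parLin (k : ℕ) : ((Fin (k + 1) → ℂ) × (Fin 4 → ℂ)) →ₗ[ℂ]
    Matrix (Unit ⊕ Fin (k + 1)) (Unit ⊕ Fin (k + 1)) ℂ where
  toFun p := par k p.1 p.2
  map_add' p q := (par_add k p.1 q.1 p.2 q.2).symm
  map_smul' c p := (par_smul k c p.1 p.2).symm

private theorem range_parLin (k : ℕ) : LinearMap.range (parLin k) = cx (full k) := by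
  apply le_antisymm
  · rintro _ ⟨p, rfl⟩
    rw [mem_cx_iff]
    intro f
    exact ⟨_, _, par_map_lin k f p.1 p.2⟩
  · unfold cx
    rw [Submodule.span_le]
    rintro _ ⟨M, ⟨v, t, rfl⟩, rfl⟩
    refine ⟨(fun j => (v j : ℂ), fun j => (t j : ℂ)), ?_⟩
    exact (par_map_cast k v t).symm

/-- The coordinates modulo `F⁰`. -/
private noncomputable def coordLin (k : ℕ) (w : Fin (k + 1) → ℂ) (τ : ℂ) :
    ((Fin (k + 1) → ℂ) × (Fin 4 → ℂ)) →ₗ[ℂ] ((Fin (k + 1) → ℂ) × ℂ) where
  toFun p := (p.1 + sl k p.2 *ᵥ w, p.2 0 * τ ^ 2 - 2 * p.2 1 * τ + p.2 2)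
  map_add' p q := by
    refine Prod.ext ?_ ?_
    · simp only [Prod.fst_add, Prod.snd_add, sl_add, Matrix.add_mulVec]
      abel
    · simp only [Prod.snd_add, Pi.add_apply]
      ring
  map_smul' c p := by
    refine Prod.ext ?_ ?_
    · simp only [Prod.smul_fst, Prod.smul_snd, sl_smul, Matrix.smul_mulVec, RingHom.id_apply,
        smul_add]
    · simp only [Prod.smul_snd, Pi.smul_apply, smul_eq_mul, RingHom.id_apply]
      ring

private theorem coordLin_surjective (k : ℕ) (w : Fin (k + 1) → ℂ) (τ : ℂ) :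
    Function.Surjective (coordLin k w τ) := by
  rintro ⟨u, z⟩
  refine ⟨(u - sl k ![0, 0, z, 0] *ᵥ w, ![0, 0, z, 0]), ?_⟩
  refine Prod.ext ?_ ?_
  · simp [coordLin]
  · simp [coordLin]

/-- The dimension of the full domain. -/
theorem finrank_full_map {k : ℕ} (hk : 1 ≤ k) (e : ℂ → Fin (k + 1) → ℂ) {τ : ℂ}
    (hτ : 0 < τ.im) : Module.finrank ℂ ((cx (full k)).map (F0 e τ).mkQ) = k + 2 := by
  rw [← range_parLin, ← LinearMap.range_comp]
  have h : LinearMap.ker ((F0 e τ).mkQ ∘ₗ parLin k) = LinearMap.ker (coordLin k (e τ) τ) := by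
    ext p
    rw [LinearMap.mem_ker, LinearMap.mem_ker, LinearMap.comp_apply, Submodule.mkQ_apply,
      Submodule.Quotient.mk_eq_zero]
    show par k p.1 p.2 ∈ F0 e τ ↔ _
    rw [par_mem_F0_iff hk e hτ]
    constructor
    · rintro ⟨h1, h2⟩
      exact Prod.ext h1 h2
    · intro h
      exact ⟨congrArg Prod.fst h, congrArg Prod.snd h⟩
  rw [finrank_range_eq _ _ h, LinearMap.range_eq_top.mpr (coordLin_surjective k (e τ) τ), finrank_top]
  simp

end Pool.Agent.LibEis68
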