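import Pool.Agent.LibEis68.B17
import Pool.Agent.LibEis68.B15

open Complex Polynomial Matrix
open scoped ComplexConjugate MatrixGroups UpperHalfPlane

namespace Pool.Agent.LibEis68

private theorem finrank_range_eq {V A B : Type*} [AddCommGroup V] [Module ℂ V]
    [FiniteDimensional ℂ V] [AddCommGroup A] [Module ℂ A] [AddCommGroup B] [Module ℂ B]
    (f : V →ₗ[ℂ] A) (g : V →ₗ[ℂ] B) (h : LinearMap.ker f = LinearMap.ker g) :
    Module.finrank ℂ (LinearMap.range f) = Module.finrank ℂ (LinearMap.range g) := by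
  have h1 := f.finrank_range_add_finrank_ker
  have h2 := g.finrank_range_add_finrank_ker
  rw [h] at h1
  omega

private theorem cast_mem {k : ℕ} {N : Submodule ℚ (Fin (k + 1) → ℚ)} {n : Fin (k + 1) → ℚ}
    (hn : n ∈ N) : (fun j => (n j : ℂ)) ∈ cxv N := by
  unfold cxv
  exact Submodule.subset_span ⟨n, hn, rfl⟩

private theorem sl_scalar (k : ℕ) (b : ℂ) (w : Fin (k + 1) → ℂ) :
    sl k ![0, 0, 0, b] *ᵥ w = b • w := by
  have h : sl k ![0, 0, 0, b] = b • (1 : Matrix (Fin (k + 1)) (Fin (k + 1)) ℂ) := by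
    ext i j
    simp [sl, Matrix.one_apply]
  rw [h, Matrix.smul_mulVec, Matrix.one_mulVec]

private noncomputable def vecT (t₀ : Fin 4 → ℚ) (x : ℂ × ℂ) : Fin 4 → ℂ :=
  x.1 • (fun j => (t₀ j : ℂ)) + ![0, 0, 0, x.2]

private theorem vecT_add (t₀ : Fin 4 → ℚ) (x y : ℂ × ℂ) :
    vecT t₀ (x + y) = vecT t₀ x + vecT t₀ y := by
  unfold vecT
  ext j
  fin_cases j <;> simp [Matrix.vecHead, Matrix.vecTail] <;> ring

private theorem vecT_smul (t₀ : Fin 4 → ℚ) (c : ℂ) (x : ℂ × ℂ) :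
    vecT t₀ (c • x) = c • vecT t₀ x := by
  unfold vecT
  ext j
  fin_cases j <;> simp [Matrix.vecHead, Matrix.vecTail] <;> ring

private theorem sl_vecT (k : ℕ) (t₀ : Fin 4 → ℚ) (x : ℂ × ℂ) (w : Fin (k + 1) → ℂ) :
    sl k (vecT t₀ x) *ᵥ w = x.1 • (sl k (fun j => (t₀ j : ℂ)) *ᵥ w) + x.2 • w := by
  unfold vecT
  rw [sl_add, Matrix.add_mulVec, sl_smul, Matrix.smul_mulVec, sl_scalar]

private theorem sl_map_lin (k : ℕ) (f : ℂ →ₗ[ℚ] ℚ) (t : Fin 4 → ℂ) (v : Fin (k + 1) → ℚ)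
    (j : Fin (k + 1)) :
    f ((sl k t *ᵥ fun i => (v i : ℂ)) j) = (sl k (fun i => f (t i)) *ᵥ v) j := by
  have h1 : ∀ i, f (sl k t j i) = sl k (fun i => f (t i)) j i := by
    intro i
    have h := par_map_lin k f 0 t
    have h2 := congrFun (congrFun h (Sum.inr j)) (Sum.inr i)
    simpa [par] using h2
  simp only [Matrix.mulVec, dotProduct, map_sum]
  refine Finset.sum_congr rfl fun i _ => ?_
  rw [← h1, show sl k t j i * (v i : ℂ) = (v i : ℚ) • sl k t j i by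
    rw [mul_comm, Rat.smul_def], map_smul, smul_eq_mul, mul_comm]

/-- Parametrisation of the complexification of `part`. -/
private noncomputable def partLin (k : ℕ) (t₀ : Fin 4 → ℚ) (e₁ : Fin (k + 1) → ℚ)
    (N : Submodule ℚ (Fin (k + 1) → ℚ)) : (cxv N × (ℂ × ℂ)) →ₗ[ℂ]
    Matrix (Unit ⊕ Fin (k + 1)) (Unit ⊕ Fin (k + 1)) ℂ where
  toFun p := par k ((p.1 : Fin (k + 1) → ℂ) - sl k (vecT t₀ p.2) *ᵥ fun j => (e₁ j : ℂ))
    (vecT t₀ p.2)
  map_add' p q := by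
    rw [par_add, Prod.snd_add, vecT_add, sl_add, Matrix.add_mulVec, Prod.fst_add,
      Submodule.coe_add]
    congr 1
    abel
  map_smul' c p := by
    rw [RingHom.id_apply, par_smul, Prod.smul_snd, vecT_smul, sl_smul, Matrix.smul_mulVec,
      Prod.smul_fst, Submodule.coe_smul, smul_sub]

private theorem range_partLin (k : ℕ) (t₀ : Fin 4 → ℚ) (e₁ : Fin (k + 1) → ℚ)
    (N : Submodule ℚ (Fin (k + 1) → ℚ)) :
    LinearMap.range (partLin k t₀ e₁ N) = cx (part k t₀ e₁ N) := by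
  apply le_antisymm
  · rintro _ ⟨p, rfl⟩
    rw [mem_cx_iff]
    intro f
    have hn := (mem_cxv_iff N _).mp p.1.2 f
    refine ⟨_, hn, f p.2.1, f p.2.2, ?_⟩
    show (par k _ _).map f = _
    rw [par_map_lin]
    have ht : (fun j => f (vecT t₀ p.2 j)) = f p.2.1 • t₀ + ![0, 0, 0, f p.2.2] := by
      have hs : ∀ j, f (p.2.1 * (t₀ j : ℂ)) = f p.2.1 * t₀ j := by
        intro j
        rw [show p.2.1 * (t₀ j : ℂ) = (t₀ j : ℚ) • p.2.1 by rw [mul_comm, Rat.smul_def], map_smul,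
          smul_eq_mul, mul_comm]
      ext j
      unfold vecT
      fin_cases j <;> simp [hs]
    rw [ht]
    congr 1
    ext j
    rw [Pi.sub_apply, Pi.sub_apply, map_sub, sl_map_lin, ht]
  · unfold cx
    rw [Submodule.span_le]
    rintro _ ⟨M, ⟨n, hn, a, b, rfl⟩, rfl⟩
    refine ⟨(⟨fun j => (n j : ℂ), cast_mem hn⟩, ((a : ℂ), (b : ℂ))), ?_⟩
    show par k ((fun j => (n j : ℂ)) - sl k (vecT t₀ ((a : ℂ), (b : ℂ))) *ᵥ fun j => (e₁ j : ℂ))
      (vecT t₀ ((a : ℂ), (b : ℂ))) = (par k _ _).map (algebraMap ℚ ℂ)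
    rw [par_map_cast]
    have ht : vecT t₀ ((a : ℂ), (b : ℂ)) = fun j => (((a • t₀ + ![0, 0, 0, b]) j : ℚ) : ℂ) := by
      ext j
      unfold vecT
      fin_cases j <;> simp [Matrix.vecHead, Matrix.vecTail]
    rw [ht]
    congr 1
    rw [← sl_mulVec_cast]
    ext j
    simp only [Pi.sub_apply, Rat.cast_sub]

/-- The coordinates modulo `F⁰`. -/
private noncomputable def coordLin (k : ℕ) (t₀ : Fin 4 → ℚ) (w : Fin (k + 1) → ℂ)
    (N : Submodule ℚ (Fin (k + 1) → ℚ)) : (cxv N × (ℂ × ℂ)) →ₗ[ℂ] (Fin (k + 1) → ℂ) where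
  toFun p := (p.1 : Fin (k + 1) → ℂ) + sl k (vecT t₀ p.2) *ᵥ w
  map_add' p q := by
    rw [Prod.snd_add, vecT_add, sl_add, Matrix.add_mulVec, Prod.fst_add, Submodule.coe_add]
    abel
  map_smul' c p := by
    rw [RingHom.id_apply, Prod.smul_snd, vecT_smul, sl_smul, Matrix.smul_mulVec,
      Prod.smul_fst, Submodule.coe_smul, smul_add]

private theorem sl_stable' {k : ℕ} {t₀ : Fin 4 → ℚ} {N : Submodule ℚ (Fin (k + 1) → ℚ)}
    (hN : ∀ n ∈ N, sl k t₀ *ᵥ n ∈ N) {w : Fin (k + 1) → ℂ} (hw : w ∈ cxv N) :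
    sl k (fun j => (t₀ j : ℂ)) *ᵥ w ∈ cxv N := by
  have h : cxv N ≤ (cxv N).comap (Matrix.mulVecLin (sl k (fun j => (t₀ j : ℂ)))) := by
    conv_lhs => unfold cxv
    rw [Submodule.span_le]
    rintro _ ⟨n, hn, rfl⟩
    show sl k (fun j => (t₀ j : ℂ)) *ᵥ (fun j => (n j : ℂ)) ∈ cxv N
    rw [← sl_mulVec_cast]
    exact cast_mem (hN n hn)
  exact h hw

private theorem range_coordLin {k : ℕ} {t₀ : Fin 4 → ℚ} {N : Submodule ℚ (Fin (k + 1) → ℚ)}
    (hN : ∀ n ∈ N, sl k t₀ *ᵥ n ∈ N) {w : Fin (k + 1) → ℂ} (hw : w ∈ cxv N) :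
    LinearMap.range (coordLin k t₀ w N) = cxv N := by
  apply le_antisymm
  · rintro _ ⟨p, rfl⟩
    show (p.1 : Fin (k + 1) → ℂ) + sl k (vecT t₀ p.2) *ᵥ w ∈ cxv N
    rw [sl_vecT]
    exact (cxv N).add_mem p.1.2 ((cxv N).add_mem ((cxv N).smul_mem _ (sl_stable' hN hw))
      ((cxv N).smul_mem _ hw))
  · intro n hn
    refine ⟨(⟨n, hn⟩, 0), ?_⟩
    show n + sl k (vecT t₀ 0) *ᵥ w = n
    rw [sl_vecT]
    simp

/-- The dimension of the domain at a CM point with unipotent part `N`. -/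
theorem finrank_part_map {k : ℕ} (hk : 1 ≤ k) {e : ℂ → Fin (k + 1) → ℂ} {τ : ℂ}
    (hτ : 0 < τ.im) {t₀ : Fin 4 → ℚ} {c : ℂ} (h3 : t₀ 3 = 0)
    (ht : ∀ j, hvec τ j = c * t₀ j) {e₁ : Fin (k + 1) → ℚ}
    {N : Submodule ℚ (Fin (k + 1) → ℚ)} (hN : ∀ n ∈ N, sl k t₀ *ᵥ n ∈ N)
    (he : (fun j => e τ j - e₁ j) ∈ cxv N) :
    Module.finrank ℂ ((cx (part k t₀ e₁ N)).map (F0 e τ).mkQ) = Module.finrank ℚ N := by
  have _ := h3
  have hy : (τ.im : ℂ) ≠ 0 := by exact_mod_cast hτ.ne'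
  have hc : c ≠ 0 := by
    intro h0
    have h := ht 0
    rw [h0, zero_mul] at h
    simp [hvec] at h
    exact hτ.ne' h
  have hquad : (t₀ 0 : ℂ) * τ ^ 2 - 2 * t₀ 1 * τ + t₀ 2 = 0 := by
    have e0 := ht 0
    have e1 := ht 1
    have e2 := ht 2
    simp only [hvec, Matrix.cons_val_zero, Matrix.cons_val_one, Matrix.cons_val] at e0 e1 e2
    have hτe : τ = τ.re + τ.im * I := (Complex.re_add_im τ).symm
    have h1 : c * ((t₀ 0 : ℂ) * τ ^ 2 - 2 * t₀ 1 * τ + t₀ 2) = 0 := by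
      have h2 : c * ((t₀ 0 : ℂ) * τ ^ 2 - 2 * t₀ 1 * τ + t₀ 2) =
          (c * t₀ 0) * τ ^ 2 - 2 * (c * t₀ 1) * τ + c * t₀ 2 := by ring
      rw [h2, ← e0, ← e1, ← e2]
      have h3 : τ ^ 2 - 2 * τ.re * τ + ((τ.re : ℂ) ^ 2 + τ.im ^ 2) = 0 := by
        conv_lhs => rw [hτe]
        simp only [add_re, ofReal_re, mul_re, I_re, mul_zero, ofReal_im, I_im, mul_one, sub_self,
          add_zero, add_im, mul_im, zero_add]
        linear_combination (τ.im : ℂ) ^ 2 * Complex.I_sq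
      have h4 : I / (τ.im : ℂ) * τ ^ 2 - 2 * (I * (τ.re : ℂ) / τ.im) * τ +
          I * ((τ.re : ℂ) ^ 2 + (τ.im : ℂ) ^ 2) / τ.im =
          I / (τ.im : ℂ) * (τ ^ 2 - 2 * τ.re * τ + ((τ.re : ℂ) ^ 2 + τ.im ^ 2)) := by
        ring
      rw [h4, h3, mul_zero]
    exact (mul_eq_zero.mp h1).resolve_left hc
  rw [← range_partLin, ← LinearMap.range_comp]
  have h : LinearMap.ker ((F0 e τ).mkQ ∘ₗ partLin k t₀ e₁ N) =
      LinearMap.ker (coordLin k t₀ (fun j => e τ j - e₁ j) N) := by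
    ext p
    rw [LinearMap.mem_ker, LinearMap.mem_ker, LinearMap.comp_apply, Submodule.mkQ_apply,
      Submodule.Quotient.mk_eq_zero]
    show par k ((p.1 : Fin (k + 1) → ℂ) - sl k (vecT t₀ p.2) *ᵥ fun j => (e₁ j : ℂ))
      (vecT t₀ p.2) ∈ F0 e τ ↔
      (p.1 : Fin (k + 1) → ℂ) + sl k (vecT t₀ p.2) *ᵥ (fun j => e τ j - e₁ j) = 0
    rw [par_mem_F0_iff hk e hτ]
    have h1 : (p.1 : Fin (k + 1) → ℂ) - (sl k (vecT t₀ p.2) *ᵥ fun j => (e₁ j : ℂ)) +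
        sl k (vecT t₀ p.2) *ᵥ e τ =
        (p.1 : Fin (k + 1) → ℂ) + sl k (vecT t₀ p.2) *ᵥ (fun j => e τ j - e₁ j) := by
      have h2 : (fun j => e τ j - (e₁ j : ℂ)) = e τ - fun j => (e₁ j : ℂ) := rfl
      rw [h2, Matrix.mulVec_sub]
      abel
    rw [h1]
    constructor
    · exact fun h => h.1
    · intro h
      refine ⟨h, ?_⟩
      unfold vecT
      simp
      linear_combination p.2.1 * hquad
  rw [finrank_range_eq _ _ h, range_coordLin hN he, finrank_cxv]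

theorem domainDim_le_of_adm {k : ℕ} {e : ℂ → Fin (k + 1) → ℂ} {τ : ℂ} {L}
    (h : Adm e τ L) : domainDim e τ ≤ Module.finrank ℂ ((cx L).map (F0 e τ).mkQ) := by
  unfold domainDim
  apply Submodule.finrank_mono
  apply Submodule.map_mono
  apply cx_mono
  exact sInf_le ⟨h.closed, h.memP, h.memQ⟩

end Pool.Agent.LibEis68
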