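import Pool.Agent.LibEis68.B12
import Pool.Agent.LibEis68.B16
import Pool.Agent.LibEis68.B18
import Pool.Agent.LibEis68.B19

open Complex Polynomial Matrix
open scoped ComplexConjugate MatrixGroups UpperHalfPlane

namespace Pool.Agent.LibEis68

/-- Summary: dimensions at all points. -/
theorem dims {k : ℕ} (hk : Even k) (hk2 : 2 ≤ k) {e : ℂ → Fin (k + 1) → ℂ} {τ : ℂ}
    (hτ : 0 < τ.im) {κ : ℝ} (hκ : κ ≠ 0) (he : ∀ j, ((e τ j).im : ℂ) = κ * reg k τ j) :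
    (¬ IsCM τ → mtDim e τ = k + 5 ∧ domainDim e τ = k + 2) ∧
    (IsCM τ → mtDim e τ ≤ k + 3 ∧ domainDim e τ ≤ k + 1) ∧
    (IsCM τ → (∀ i : Fin (k + 1), lat (i + 1) (k - i + 1) τ ≠ 0) → domainDim e τ = k + 1) := by
  have hk1 : 1 ≤ k := by omega
  have htop : ∀ w : Fin (k + 1) → ℂ, w ∈ cxv (⊤ : Submodule ℚ (Fin (k + 1) → ℚ)) := by
    intro w
    rw [mem_cxv_iff]
    intro f
    exact Submodule.mem_top
  have hft : Module.finrank ℚ (⊤ : Submodule ℚ (Fin (k + 1) → ℚ)) = k + 1 := by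
    rw [finrank_top]; simp
  refine ⟨fun hcm => ?_, fun hcm => ?_, fun hcm hi => ?_⟩
  · have h := mtLie_eq_full hk hk2 hτ hκ he hcm
    unfold mtDim domainDim
    rw [h]
    exact ⟨finrank_full hk1, finrank_full_map hk1 e hτ⟩
  · refine ⟨mtDim_cm_le hk1 e hτ hcm, ?_⟩
    obtain ⟨t₀, c, _, h3, ht⟩ := exists_rational hτ hcm
    have hadm : Adm e τ (part k t₀ 0 ⊤) :=
      adm_part hτ ht (fun n _ => Submodule.mem_top) (htop _)
    refine (domainDim_le_of_adm hadm).trans (le_of_eq ?_)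
    rw [finrank_part_map hk1 hτ h3 ht (fun n _ => Submodule.mem_top) (htop _), hft]
  · obtain ⟨t₀, c, _, h3, ht⟩ := exists_rational hτ hcm
    have hadm : Adm e τ (part k t₀ 0 ⊤) :=
      adm_part hτ ht (fun n _ => Submodule.mem_top) (htop _)
    have hmt : Adm e τ (mtLie e τ) :=
      ⟨(mtLie_spec e τ).1, (mtLie_spec e τ).2.1, (mtLie_spec e τ).2.2⟩
    have hU : uni (mtLie e τ) = ⊤ := hmt.uni_eq_top hτ hκ he hi
    have h1 : part k t₀ 0 ⊤ ≤ mtLie e τ := hmt.part_le hτ hU h3 ht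
    have h2 : mtLie e τ ≤ part k t₀ 0 ⊤ := sInf_le ⟨hadm.closed, hadm.memP, hadm.memQ⟩
    have h3' : mtLie e τ = part k t₀ 0 ⊤ := le_antisymm h2 h1
    unfold domainDim
    rw [h3', finrank_part_map hk1 hτ h3 ht (fun n _ => Submodule.mem_top) (htop _), hft]

end Pool.Agent.LibEis68
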