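import Pool.Agent.LibEis68.BDefs

open Complex Polynomial Matrix
open scoped ComplexConjugate MatrixGroups UpperHalfPlane

namespace Pool.Agent.LibEis68

/-- There is a point of the upper half plane without complex multiplication. -/
theorem exists_not_cm : ∃ τ : ℍ, ¬ ∃ a b c : ℤ, a ≠ 0 ∧ (a : ℂ) * (τ : ℂ) ^ 2 + b * τ + c = 0 := by
  have hs : 0 < Real.sqrt (Real.sqrt 2) := Real.sqrt_pos.mpr (Real.sqrt_pos.mpr (by norm_num))
  refine ⟨⟨⟨0, Real.sqrt (Real.sqrt 2)⟩, hs⟩, ?_⟩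
  rintro ⟨a, b, c, ha, h⟩
  have hsq : Real.sqrt (Real.sqrt 2) * Real.sqrt (Real.sqrt 2) = Real.sqrt 2 :=
    Real.mul_self_sqrt (Real.sqrt_nonneg 2)
  have hre := congrArg Complex.re h
  change ((a : ℂ) * (⟨0, Real.sqrt (Real.sqrt 2)⟩ : ℂ) ^ 2 + b * (⟨0, Real.sqrt (Real.sqrt 2)⟩ : ℂ) + c).re
    = (0 : ℂ).re at hre
  simp [pow_two, hsq] at hre
  have hc : Real.sqrt 2 * a = c := by linarith
  have har : (a : ℝ) ≠ 0 := by exact_mod_cast ha
  have : Real.sqrt 2 = c / a := by field_simp; linarith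
  apply irrational_sqrt_two
  refine ⟨(c : ℚ) / a, ?_⟩
  rw [this]; push_cast; rfl

end Pool.Agent.LibEis68
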