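import Pool.Agent.LibEis68.B19

open Complex Polynomial Matrix
open scoped ComplexConjugate MatrixGroups UpperHalfPlane

namespace Pool.Agent.LibEis68

/-- Points fixed by an element which acts nontrivially and commutes with the cocharacter. -/
theorem domainDim_fixed {k : ℕ} (hk : 1 ≤ k) {e : ℂ → Fin (k + 1) → ℂ} {τ : ℂ}
    (hτ : 0 < τ.im) {t₀ : Fin 4 → ℚ} {c : ℂ} (h3 : t₀ 3 = 0)
    (ht : ∀ j, hvec τ j = c * t₀ j) (g : Matrix (Fin (k + 1)) (Fin (k + 1)) ℚ) (hg : g ≠ 1)
    (hgt : g * sl k t₀ = sl k t₀ * g) (m : ℕ) (hm : 0 < m) (hgm : g ^ m = 1)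
    (r : Fin (k + 1) → ℚ)
    (hr : e τ = g.map (algebraMap ℚ ℂ) *ᵥ e τ + fun j => (r j : ℂ)) : domainDim e τ ≤ k := by
  -- a rational linear functional with value `1` at `1`
  obtain ⟨f, hf⟩ : ∃ f : ℂ →ₗ[ℚ] ℚ, f 1 = 1 := by
    obtain ⟨f, hf⟩ := LinearMap.exists_leftInverse_of_injective (Algebra.linearMap ℚ ℂ)
      (LinearMap.ker_eq_bot.mpr (algebraMap ℚ ℂ).injective)
    refine ⟨f, ?_⟩
    have := LinearMap.congr_fun hf 1
    simpa using this
  -- the linear functionals commute with the rational matrix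
  have key : ∀ (F : ℂ →ₗ[ℚ] ℚ) (w : Fin (k + 1) → ℂ),
      (fun j => F ((g.map (algebraMap ℚ ℂ) *ᵥ w) j)) = g *ᵥ fun j => F (w j) := by
    intro F w
    funext j
    simp only [Matrix.mulVec, dotProduct, Matrix.map_apply, map_sum]
    refine Finset.sum_congr rfl fun i _ => ?_
    rw [← Algebra.smul_def, map_smul, smul_eq_mul]
  have hFr : ∀ (F : ℂ →ₗ[ℚ] ℚ) (j : Fin (k + 1)), F (r j : ℂ) = r j * F 1 := by
    intro F j
    have : ((r j : ℚ) : ℂ) = r j • (1 : ℂ) := by
      rw [Algebra.smul_def]; simp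
    rw [this, map_smul, smul_eq_mul]
  have hFe : ∀ (F : ℂ →ₗ[ℚ] ℚ), (fun j => F (e τ j)) =
      (g *ᵥ fun j => F (e τ j)) + fun j => r j * F 1 := by
    intro F
    rw [← key F]
    funext j
    have h := congrFun hr j
    simp only [Pi.add_apply] at h ⊢
    conv_lhs => rw [h]
    rw [map_add, hFr]
  set e₁ : Fin (k + 1) → ℚ := fun j => f (e τ j) with he₁
  have he₁' : e₁ = g *ᵥ e₁ + r := by
    have := hFe f
    simp only [hf, mul_one] at this
    exact this
  set N : Submodule ℚ (Fin (k + 1) → ℚ) := LinearMap.ker (Matrix.mulVecLin (g - 1)) with hNdef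
  have hNmem : ∀ n, n ∈ N ↔ g *ᵥ n = n := by
    intro n
    rw [hNdef, LinearMap.mem_ker, Matrix.mulVecLin_apply, Matrix.sub_mulVec, Matrix.one_mulVec,
      sub_eq_zero]
  have hN : ∀ n ∈ N, sl k t₀ *ᵥ n ∈ N := by
    intro n hn
    rw [hNmem] at hn ⊢
    rw [Matrix.mulVec_mulVec, hgt, ← Matrix.mulVec_mulVec, hn]
  have he : (fun j => e τ j - e₁ j) ∈ cxv N := by
    rw [mem_cxv_iff]
    intro F
    rw [hNmem]
    have h1 : (fun j => F (e τ j - e₁ j)) = (fun j => F (e τ j)) - F 1 • e₁ := by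
      funext j
      have : ((e₁ j : ℚ) : ℂ) = e₁ j • (1 : ℂ) := by
        rw [Algebra.smul_def]; simp
      rw [map_sub, this, map_smul]
      simp [mul_comm]
    rw [h1, Matrix.mulVec_sub, Matrix.mulVec_smul]
    have h2 := hFe F
    have h3 : g *ᵥ (fun j => F (e τ j)) = (fun j => F (e τ j)) - fun j => r j * F 1 := by
      rw [eq_sub_iff_add_eq]; exact h2.symm
    have h4 : g *ᵥ e₁ = e₁ - r := by
      rw [eq_sub_iff_add_eq]; exact he₁'.symm
    rw [h3, h4]
    funext j
    simp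
    ring
  have hadm := adm_part hτ ht hN he
  have h1 := domainDim_le_of_adm hadm
  rw [finrank_part_map hk hτ h3 ht hN he] at h1
  have hNtop : N ≠ ⊤ := by
    intro htop
    apply hg
    have h : ∀ n, g *ᵥ n = n := fun n => (hNmem n).mp (by rw [htop]; trivial)
    ext i j
    have := congrFun (h (Pi.single j 1)) i
    rw [Matrix.mulVec_single_one] at this
    simpa [Matrix.one_apply, Pi.single_apply] using this
  have h2 : Module.finrank ℚ N < Module.finrank ℚ (Fin (k + 1) → ℚ) :=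
    Submodule.finrank_lt hNtop
  simp only [Module.finrank_fintype_fun_eq_card, Fintype.card_fin] at h2
  omega

end Pool.Agent.LibEis68
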