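import Pool.Agent.LibEis68.Defs

open Complex Polynomial Matrix
open scoped ComplexConjugate MatrixGroups UpperHalfPlane

namespace Pool.Agent.LibEis68

/-- Substitution of `(A, B)` for `(X, Y)` in the homogenisation of degree `k` of `P`. -/
noncomputable def homSub {R : Type*} [CommRing R] (k : ℕ) (A B P : R[X]) : R[X] :=
  ∑ j ∈ Finset.range (k + 1), C (P.coeff j) * A ^ j * B ^ (k - j)

lemma homSub_mul {R : Type*} [CommRing R] (k : ℕ) (A B P : R[X]) (u v : R)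
    (hP : P.natDegree ≤ k) :
    homSub (k + 1) A B ((C u * X + C v) * P) = (C u * A + C v * B) * homSub k A B P := by
  unfold homSub
  have h1 : ∀ j, ((C u * X + C v) * P).coeff j = u * (X * P).coeff j + v * P.coeff j := by
    intro j
    rw [add_mul, coeff_add, mul_assoc, coeff_C_mul, coeff_C_mul]
  have h2 : ∀ j, C (((C u * X + C v) * P).coeff j) * A ^ j * B ^ (k + 1 - j) =
      C u * (C ((X * P).coeff j) * A ^ j * B ^ (k + 1 - j)) +
        C v * (C (P.coeff j) * A ^ j * B ^ (k + 1 - j)) := by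
    intro j
    rw [h1, C_add, C_mul, C_mul]; ring
  rw [Finset.sum_congr rfl (fun j _ => h2 j), Finset.sum_add_distrib, ← Finset.mul_sum,
    ← Finset.mul_sum]
  have h3 : ∑ j ∈ Finset.range (k + 1 + 1), C ((X * P).coeff j) * A ^ j * B ^ (k + 1 - j) =
      A * ∑ j ∈ Finset.range (k + 1), C (P.coeff j) * A ^ j * B ^ (k - j) := by
    rw [Finset.sum_range_succ']
    simp only [coeff_X_mul, mul_coeff_zero, coeff_X_zero, zero_mul, map_zero, add_zero]
    rw [Finset.mul_sum]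
    refine Finset.sum_congr rfl fun j _ => ?_
    have : k + 1 - (j + 1) = k - j := by omega
    rw [this]; ring
  have h4 : ∑ j ∈ Finset.range (k + 1 + 1), C (P.coeff j) * A ^ j * B ^ (k + 1 - j) =
      B * ∑ j ∈ Finset.range (k + 1), C (P.coeff j) * A ^ j * B ^ (k - j) := by
    rw [Finset.sum_range_succ, coeff_eq_zero_of_natDegree_lt (by omega : P.natDegree < k + 1)]
    simp only [map_zero, zero_mul, add_zero]
    rw [Finset.mul_sum]
    refine Finset.sum_congr rfl fun j hj => ?_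
    have hj' : j ≤ k := by have := Finset.mem_range.mp hj; omega
    have : k + 1 - j = (k - j) + 1 := by omega
    rw [this]; ring
  rw [h3, h4]; ring

lemma natDegree_lin_pow {R : Type*} [CommRing R] (u v : R) (n : ℕ) :
    ((C u * X + C v) ^ n).natDegree ≤ n := by
  refine natDegree_pow_le.trans ?_
  have : (C u * X + C v : R[X]).natDegree ≤ 1 := natDegree_linear_le
  nlinarith

lemma homSub_lin {R : Type*} [CommRing R] (A B : R[X]) (u v u' v' : R) (m n : ℕ) :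
    homSub (m + n) A B ((C u * X + C v) ^ m * (C u' * X + C v') ^ n) =
      (C u * A + C v * B) ^ m * (C u' * A + C v' * B) ^ n := by
  induction m with
  | zero =>
    simp only [pow_zero, one_mul, zero_add]
    induction n with
    | zero => simp [homSub]
    | succ n ih =>
      rw [pow_succ', homSub_mul n A B _ u' v' (natDegree_lin_pow _ _ _), ih, pow_succ']
  | succ m ih =>
    have h : m + 1 + n = (m + n) + 1 := by omega
    rw [h, pow_succ', mul_assoc, homSub_mul (m + n) A B _ u v ?_, ih, pow_succ', mul_assoc]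
    exact natDegree_mul_le.trans (add_le_add (natDegree_lin_pow _ _ _) (natDegree_lin_pow _ _ _))

/-- The action on coefficient vectors is the substitution. -/
lemma act_mulVec_coeff (k : ℕ) (γ : SL(2, ℤ)) (P : Fin (k + 1) → ℂ) (Q : ℂ[X])
    (hPQ : ∀ j : Fin (k + 1), P j = Q.coeff j) (i : Fin (k + 1)) :
    ((act k γ).map (algebraMap ℚ ℂ) *ᵥ P) i =
      (homSub k (C (γ 1 1 : ℂ) * X + C (-(γ 0 1 : ℂ))) (C (-(γ 1 0 : ℂ)) * X + C (γ 0 0 : ℂ))
        Q).coeff i := by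
  unfold homSub
  rw [Matrix.mulVec, dotProduct, finsetSum_coeff, Finset.sum_range]
  refine Finset.sum_congr rfl fun j _ => ?_
  rw [hPQ j, mul_assoc, coeff_C_mul, Matrix.map_apply, act, Matrix.of_apply, mul_comm]
  congr 1
  have h1 : (C (γ 1 1 : ℂ) * X + C (-(γ 0 1 : ℂ)) : ℂ[X]) =
      (C (γ 1 1 : ℚ) * X - C (γ 0 1 : ℚ)).map (algebraMap ℚ ℂ) := by
    simp [sub_eq_add_neg]
  have h2 : (C (-(γ 1 0 : ℂ)) * X + C (γ 0 0 : ℂ) : ℂ[X]) =
      (C (γ 0 0 : ℚ) - C (γ 1 0 : ℚ) * X).map (algebraMap ℚ ℂ) := by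
    simp [sub_eq_add_neg, add_comm]
  rw [h1, h2, ← Polynomial.map_pow, ← Polynomial.map_pow, ← Polynomial.map_mul,
    Polynomial.coeff_map]

/-- Transformation of the forms `(X - zY)^i (X - wY)^(k-i)` under `γ`. -/
theorem act_mulVec_form (k : ℕ) (γ : SL(2, ℤ)) (z w : ℂ)
    (hz : (γ 1 0 : ℂ) * z + γ 1 1 ≠ 0) (hw : (γ 1 0 : ℂ) * w + γ 1 1 ≠ 0) (i : Fin (k + 1)) :
    (act k γ).map (algebraMap ℚ ℂ) *ᵥ form k z w i =
      (((γ 1 0 : ℂ) * z + γ 1 1) ^ (i : ℕ) * ((γ 1 0 : ℂ) * w + γ 1 1) ^ (k - i : ℕ)) •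
        form k (((γ 0 0 : ℂ) * z + γ 0 1) / ((γ 1 0 : ℂ) * z + γ 1 1))
          (((γ 0 0 : ℂ) * w + γ 0 1) / ((γ 1 0 : ℂ) * w + γ 1 1)) i := by
  funext j
  have hik : (i : ℕ) + (k - (i : ℕ)) = k := by have := i.2; omega
  have hlin : ∀ z : ℂ, (X - C z : ℂ[X]) = C 1 * X + C (-z) := by
    intro z; simp [sub_eq_add_neg]
  rw [act_mulVec_coeff k γ (form k z w i) ((X - C z) ^ (i : ℕ) * (X - C w) ^ (k - (i : ℕ)))
    (fun j => rfl) j]
  have key : ∀ z : ℂ, (γ 1 0 : ℂ) * z + γ 1 1 ≠ 0 →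
      (C (1 : ℂ) * (C (γ 1 1 : ℂ) * X + C (-(γ 0 1 : ℂ))) +
        C (-z) * (C (-(γ 1 0 : ℂ)) * X + C (γ 0 0 : ℂ)) : ℂ[X]) =
      C ((γ 1 0 : ℂ) * z + γ 1 1) *
        (X - C (((γ 0 0 : ℂ) * z + γ 0 1) / ((γ 1 0 : ℂ) * z + γ 1 1))) := by
    intro z hz
    rw [mul_sub, ← C_mul, mul_div_cancel₀ _ hz]
    simp only [C_add, C_mul, C_neg, map_one]
    ring
  have h := homSub_lin (C (γ 1 1 : ℂ) * X + C (-(γ 0 1 : ℂ)))
    (C (-(γ 1 0 : ℂ)) * X + C (γ 0 0 : ℂ)) (1 : ℂ) (-z) 1 (-w) (i : ℕ) (k - (i : ℕ))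
  rw [hik] at h
  rw [hlin z, hlin w, h, key z hz, key w hw]
  simp only [Pi.smul_apply, smul_eq_mul, form]
  rw [mul_pow, mul_pow, ← C_pow, ← C_pow]
  have : ∀ (a b : ℂ) (P Q : ℂ[X]), C a * P * (C b * Q) = C (a * b) * (P * Q) := by
    intro a b P Q; rw [C_mul]; ring
  rw [this, coeff_C_mul]

theorem act_one (k : ℕ) : act k 1 = 1 := by
  ext i j
  simp only [act, Matrix.of_apply, Matrix.SpecialLinearGroup.coe_one, Matrix.one_apply_eq,
    Int.cast_one, map_one, one_mul]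
  have h01 : (1 : Matrix (Fin 2) (Fin 2) ℤ) 0 1 = 0 := by simp
  have h10 : (1 : Matrix (Fin 2) (Fin 2) ℤ) 1 0 = 0 := by simp
  rw [h01, h10]
  simp only [Int.cast_zero, map_zero, sub_zero, zero_mul, one_pow, mul_one, coeff_X_pow,
    Matrix.one_apply]
  by_cases h : i = j
  · subst h; simp
  · have : (i : ℕ) ≠ j := fun h' => h (Fin.ext h')
    simp [h, this]

theorem act_mul (k : ℕ) (γ δ : SL(2, ℤ)) : act k (γ * δ) = act k γ * act k δ := by
  ext i j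
  have hjk : (j : ℕ) + (k - (j : ℕ)) = k := by have := j.2; omega
  have h := homSub_lin (C (γ 1 1 : ℚ) * X - C (γ 0 1 : ℚ)) (C (γ 0 0 : ℚ) - C (γ 1 0 : ℚ) * X)
    (δ 1 1 : ℚ) (-(δ 0 1 : ℚ)) (-(δ 1 0 : ℚ)) (δ 0 0 : ℚ) (j : ℕ) (k - (j : ℕ))
  rw [hjk] at h
  have hA : (C (δ 1 1 : ℚ) * (C (γ 1 1 : ℚ) * X - C (γ 0 1 : ℚ)) +
      C (-(δ 0 1 : ℚ)) * (C (γ 0 0 : ℚ) - C (γ 1 0 : ℚ) * X) : ℚ[X]) =
      C ((γ * δ) 1 1 : ℚ) * X - C ((γ * δ) 0 1 : ℚ) := by
    rw [Matrix.SpecialLinearGroup.coe_mul, Matrix.mul_apply, Matrix.mul_apply, Fin.sum_univ_two,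
      Fin.sum_univ_two]
    push_cast
    simp only [C_add, C_mul, C_neg]
    ring
  have hB : (C (-(δ 1 0 : ℚ)) * (C (γ 1 1 : ℚ) * X - C (γ 0 1 : ℚ)) +
      C (δ 0 0 : ℚ) * (C (γ 0 0 : ℚ) - C (γ 1 0 : ℚ) * X) : ℚ[X]) =
      C ((γ * δ) 0 0 : ℚ) - C ((γ * δ) 1 0 : ℚ) * X := by
    rw [Matrix.SpecialLinearGroup.coe_mul, Matrix.mul_apply, Matrix.mul_apply, Fin.sum_univ_two,
      Fin.sum_univ_two]
    push_cast
    simp only [C_add, C_mul, C_neg]
    ring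
  rw [hA, hB] at h
  rw [act, Matrix.of_apply, ← h, Matrix.mul_apply, homSub, finsetSum_coeff, Finset.sum_range]
  refine Finset.sum_congr rfl fun l _ => ?_
  rw [mul_assoc, coeff_C_mul, act, act, Matrix.of_apply, Matrix.of_apply, mul_comm]
  congr 2
  simp only [C_neg]
  ring

end Pool.Agent.LibEis68
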