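import Pool.Agent.LibEis68.B22
import Pool.Agent.LibEis68.B03
import Pool.Agent.LibEis68.B04
import Pool.Agent.LibEis68.FormSmul

open Complex Polynomial Matrix
open scoped ComplexConjugate MatrixGroups UpperHalfPlane

namespace Pool.Agent.LibEis68

private theorem b23_sl_hvec {k : ℕ} {τ : ℂ} {t₀ : Fin 4 → ℚ} {c : ℂ}
    (ht : ∀ j, hvec τ j = c * t₀ j) :
    sl k (hvec τ) = c • (sl k t₀).map (algebraMap ℚ ℂ) := by
  ext i j
  simp only [sl, Matrix.of_apply, Matrix.smul_apply, Matrix.map_apply, smul_eq_mul]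
  rw [ht 0, ht 1, ht 2, ht 3]
  split_ifs <;> simp <;> ring

private theorem b23_form (k : ℕ) (γ : SL(2, ℤ)) {τ : ℍ} (hfix : γ • τ = τ) (i : Fin (k + 1)) :
    ∃ l : ℂ, (act k γ).map (algebraMap ℚ ℂ) *ᵥ form k τ (conj (τ : ℂ)) i =
      l • form k τ (conj (τ : ℂ)) i := by
  have h0 : (γ 1 0 : ℂ) * τ + γ 1 1 ≠ 0 := by
    have := UpperHalfPlane.denom_ne_zero γ τ
    simpa [UpperHalfPlane.denom] using this
  have h1 : (γ 1 0 : ℂ) * conj (τ : ℂ) + γ 1 1 ≠ 0 := by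
    intro h
    apply h0
    have := congrArg conj h
    simpa using this
  have h2 : ((γ 0 0 : ℂ) * τ + γ 0 1) / ((γ 1 0 : ℂ) * τ + γ 1 1) = τ := by
    have h : ((γ • τ : ℍ) : ℂ) = (τ : ℂ) := by rw [hfix]
    rw [UpperHalfPlane.specialLinearGroup_apply] at h
    simpa using h
  have h3 : ((γ 0 0 : ℂ) * conj (τ : ℂ) + γ 0 1) / ((γ 1 0 : ℂ) * conj (τ : ℂ) + γ 1 1) =
      conj (τ : ℂ) := by
    have h := congrArg conj h2
    simpa using h
  refine ⟨((γ 1 0 : ℂ) * τ + γ 1 1) ^ (i : ℕ) *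
    ((γ 1 0 : ℂ) * conj (τ : ℂ) + γ 1 1) ^ (k - i : ℕ), ?_⟩
  rw [act_mulVec_form k γ _ _ h0 h1, h2, h3]

private theorem b23_comm {k : ℕ} (γ : SL(2, ℤ)) {τ : ℍ} (hfix : γ • τ = τ) {t₀ : Fin 4 → ℚ} {c : ℂ}
    (hc : c ≠ 0) (ht : ∀ j, hvec τ j = c * t₀ j) :
    act k γ * sl k t₀ = sl k t₀ * act k γ := by
  set G : Matrix (Fin (k + 1)) (Fin (k + 1)) ℂ := (act k γ).map (algebraMap ℚ ℂ) with hG
  set H : Matrix (Fin (k + 1)) (Fin (k + 1)) ℂ := (sl k t₀).map (algebraMap ℚ ℂ) with hH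
  have hlin : (G * H).mulVecLin = (H * G).mulVecLin := by
    apply LinearMap.ext_on_range (form_span k τ.im_pos)
    intro i
    obtain ⟨l, hl⟩ := b23_form k γ hfix i
    have h2 := sl_mulVec_form k τ.im_pos i
    rw [b23_sl_hvec ht, Matrix.smul_mulVec] at h2
    have h3 : H *ᵥ form k τ (conj (τ : ℂ)) i =
        (c⁻¹ * ((2 * (i : ℕ) : ℂ) - k)) • form k τ (conj (τ : ℂ)) i := by
      rw [mul_smul, ← h2, smul_smul, inv_mul_cancel₀ hc, one_smul]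
    simp only [Matrix.mulVecLin_apply]
    rw [← Matrix.mulVec_mulVec, ← Matrix.mulVec_mulVec, h3, hl, Matrix.mulVec_smul,
      Matrix.mulVec_smul, hl, h3, smul_smul, smul_smul, mul_comm]
  have hGH : G * H = H * G := Matrix.toLin'.injective hlin
  have h4 : (act k γ * sl k t₀).map (algebraMap ℚ ℂ) = (sl k t₀ * act k γ).map (algebraMap ℚ ℂ) := by
    rw [Matrix.map_mul, Matrix.map_mul]
    exact hGH
  exact Matrix.map_injective (algebraMap ℚ ℂ).injective h4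

private theorem b23_neg_one {k : ℕ} (hk : Even k) : act k (-1) = 1 := by
  ext i j
  unfold act
  have e1 : ((C (((-1 : SL(2, ℤ)) 1 1 : ℤ) : ℚ) * X - C (((-1 : SL(2, ℤ)) 0 1 : ℤ) : ℚ)) ^ (j : ℕ) *
      (C (((-1 : SL(2, ℤ)) 0 0 : ℤ) : ℚ) - C (((-1 : SL(2, ℤ)) 1 0 : ℤ) : ℚ) * X) ^
        (k - (j : ℕ)) : ℚ[X]) = X ^ (j : ℕ) := by
    have h1 : (((-1 : SL(2, ℤ)) 1 1 : ℤ) : ℚ) = -1 := by simp
    have h2 : (((-1 : SL(2, ℤ)) 0 1 : ℤ) : ℚ) = 0 := by simp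
    have h3 : (((-1 : SL(2, ℤ)) 0 0 : ℤ) : ℚ) = -1 := by simp
    have h4 : (((-1 : SL(2, ℤ)) 1 0 : ℤ) : ℚ) = 0 := by simp
    rw [h1, h2, h3, h4]
    simp only [map_neg, map_one, map_zero, neg_mul, one_mul, sub_zero, zero_mul]
    rw [neg_pow, mul_assoc, mul_comm (X ^ (j : ℕ)), ← mul_assoc, ← pow_add,
      Nat.add_sub_cancel' (by omega : (j : ℕ) ≤ k), hk.neg_one_pow, one_mul]
  rw [Matrix.of_apply, e1, Polynomial.coeff_X_pow, Matrix.one_apply]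
  by_cases h : i = j
  · rw [if_pos h, if_pos (by rw [h])]
  · rw [if_neg h, if_neg (fun h' => h (Fin.ext h'))]

private theorem b23_ne_one {k : ℕ} (hk : 1 ≤ k) {γ : SL(2, ℤ)} (h0 : γ 1 1 = 0) (h1 : γ 0 1 = -1) :
    act k γ ≠ 1 := by
  intro h
  have h2 := congrFun (congrFun h (Fin.last k)) (Fin.last k)
  unfold act at h2
  rw [Matrix.of_apply, Matrix.one_apply, if_pos rfl] at h2
  rw [h0, h1] at h2
  simp only [Int.cast_zero, map_zero, zero_mul, Int.cast_neg, Int.cast_one, map_neg, map_one,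
    zero_sub, neg_neg, one_pow, one_mul, Fin.val_last, Nat.sub_self, pow_zero] at h2
  rw [Polynomial.coeff_one, if_neg (by omega)] at h2
  exact zero_ne_one h2

private theorem b23_S_fix : ModularGroup.S • UpperHalfPlane.I = UpperHalfPlane.I := by
  rw [UpperHalfPlane.modular_S_smul]
  apply UpperHalfPlane.ext
  simp

private theorem b23_rho_sq : (rho : ℂ) ^ 2 = (rho : ℂ) - 1 := by
  have h : (rho : ℂ) = ⟨1 / 2, √3 / 2⟩ := rfl
  rw [h]
  have h3 : √3 * √3 = (3 : ℝ) := Real.mul_self_sqrt (by norm_num)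
  apply Complex.ext
  · simp [sq]
    nlinarith
  · simp [sq]
    ring

/-- `(1, -1; 1, 0)` -/
private def b23_g : SL(2, ℤ) := ⟨!![1, -1; 1, 0], by simp [Matrix.det_fin_two_of]⟩

private theorem b23_g_fix : b23_g • rho = rho := by
  apply UpperHalfPlane.ext
  rw [UpperHalfPlane.specialLinearGroup_apply]
  have h0 : (rho : ℂ) ≠ 0 := rho.ne_zero
  have h1 := b23_rho_sq
  simp [b23_g]
  rw [div_eq_iff h0]
  linear_combination -h1

private theorem b23_g_cube : b23_g * b23_g * b23_g = -1 := by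
  ext i j
  fin_cases i <;> fin_cases j <;> simp [b23_g, Matrix.mul_apply, Fin.sum_univ_two]

private theorem b23_S_sq : ModularGroup.S * ModularGroup.S = -1 := by
  ext i j
  fin_cases i <;> fin_cases j <;> simp [ModularGroup.S, Matrix.mul_apply, Fin.sum_univ_two]

/-- The points `i` and `exp(iπ/3)`. -/
theorem domainDim_I {k : ℕ} (hk : Even k) (hk2 : 2 ≤ k) {e : ℂ → Fin (k + 1) → ℂ}
    (he : IsExtension k e) : domainDim e (UpperHalfPlane.I : ℂ) ≤ k := by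
  obtain ⟨r, hr⟩ := he.monodromy ModularGroup.S
  have hr' := hr UpperHalfPlane.I
  rw [b23_S_fix] at hr'
  have ht : ∀ j, hvec (UpperHalfPlane.I : ℂ) j = I * ((![1, 0, 1, 0] : Fin 4 → ℚ) j : ℂ) := by
    intro j
    fin_cases j <;> simp [hvec]
  refine domainDim_fixed (by omega) UpperHalfPlane.I.im_pos (t₀ := ![1, 0, 1, 0]) (c := I)
    (by simp) ht (act k ModularGroup.S) (b23_ne_one (by omega) (by simp [ModularGroup.S])
      (by simp [ModularGroup.S]))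
    (b23_comm ModularGroup.S b23_S_fix I_ne_zero ht) 2 (by norm_num) ?_ r hr'
  rw [sq, ← act_mul, b23_S_sq, b23_neg_one hk]

theorem domainDim_rho {k : ℕ} (hk : Even k) (hk2 : 2 ≤ k) {e : ℂ → Fin (k + 1) → ℂ}
    (he : IsExtension k e) : domainDim e (rho : ℂ) ≤ k := by
  obtain ⟨r, hr⟩ := he.monodromy b23_g
  have hr' := hr rho
  rw [b23_g_fix] at hr'
  have him : (rho : ℂ).im = √3 / 2 := rfl
  have hre : (rho : ℂ).re = 1 / 2 := rfl
  have h3 : √3 * √3 = (3 : ℝ) := Real.mul_self_sqrt (by norm_num)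
  have h3' : (0 : ℝ) < √3 := by positivity
  have h4 : ((√3 : ℝ) : ℂ) * ((√3 : ℝ) : ℂ) = 3 := by exact_mod_cast h3
  have ht : ∀ j, hvec (rho : ℂ) j =
      (I / ((√3 / 2 : ℝ) : ℂ)) * ((![1, 1 / 2, 1, 0] : Fin 4 → ℚ) j : ℂ) := by
    intro j
    have hrho : hvec (rho : ℂ) = ![I / ((√3 / 2 : ℝ) : ℂ), I * ((1 / 2 : ℝ) : ℂ) / ((√3 / 2 : ℝ) : ℂ),
        I * (((1 / 2 : ℝ) : ℂ) ^ 2 + ((√3 / 2 : ℝ) : ℂ) ^ 2) / ((√3 / 2 : ℝ) : ℂ), 0] := by
      unfold hvec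
      rw [him, hre]
    have h5 : (((1 / 2 : ℝ) : ℂ) ^ 2 + ((√3 / 2 : ℝ) : ℂ) ^ 2) = 1 := by
      push_cast
      linear_combination (1 / 4 : ℂ) * h4
    rw [hrho, h5]
    fin_cases j
    · simp
    · simp; ring
    · simp
    · simp
  refine domainDim_fixed (by omega) rho.im_pos (t₀ := ![1, 1 / 2, 1, 0])
    (c := I / ((√3 / 2 : ℝ) : ℂ))
    (by simp) ht (act k b23_g) (b23_ne_one (by omega) (by simp [b23_g])
      (by simp [b23_g]))
    (b23_comm b23_g b23_g_fix ?_ ht) 3 (by norm_num) ?_ r hr'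
  · apply div_ne_zero I_ne_zero
    have : (√3 / 2 : ℝ) ≠ 0 := by positivity
    exact_mod_cast this
  · rw [pow_succ, sq, ← act_mul, ← act_mul, b23_g_cube, b23_neg_one hk]

theorem isCM_I : ∃ a b c : ℤ, a ≠ 0 ∧
    (a : ℂ) * (UpperHalfPlane.I : ℂ) ^ 2 + b * (UpperHalfPlane.I : ℂ) + c = 0 :=
  ⟨1, 0, 1, by norm_num, by simp⟩

theorem isCM_rho : ∃ a b c : ℤ, a ≠ 0 ∧ (a : ℂ) * (rho : ℂ) ^ 2 + b * (rho : ℂ) + c = 0 :=
  ⟨1, -1, 1, by norm_num, by rw [b23_rho_sq]; push_cast; ring⟩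

end Pool.Agent.LibEis68
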