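import Pool.Agent.LibEis68.B02
import Pool.Agent.LibEis68.FormSmul

open Complex Polynomial Matrix
open scoped ComplexConjugate MatrixGroups UpperHalfPlane

namespace Pool.Agent.LibEis68

/-- Conjugation by an invertible matrix as a linear equivalence. -/
private noncomputable def b24_conj {n R : Type*} [Fintype n] [DecidableEq n] [Field R] (G H : Matrix n n R)
    (h : G * H = 1) (h' : H * G = 1) : Matrix n n R ≃ₗ[R] Matrix n n R where
  toFun M := G * M * H
  map_add' A B := by rw [Matrix.mul_add, Matrix.add_mul]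
  map_smul' c A := by simp
  invFun M := H * M * G
  left_inv M := by
    show H * (G * M * H) * G = M
    calc H * (G * M * H) * G = (H * G) * M * (H * G) := by simp only [Matrix.mul_assoc]
      _ = M := by rw [h', Matrix.one_mul, Matrix.mul_one]
  right_inv M := by
    show G * (H * M * G) * H = M
    calc G * (H * M * G) * H = (G * H) * M * (G * H) := by simp only [Matrix.mul_assoc]
      _ = M := by rw [h, Matrix.one_mul, Matrix.mul_one]

private theorem b24_map_mul {n : Type*} [Fintype n] (A B : Matrix n n ℚ) :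
    (A * B).map (algebraMap ℚ ℂ) = A.map (algebraMap ℚ ℂ) * B.map (algebraMap ℚ ℂ) :=
  Matrix.map_mul

private theorem b24_map_one {n : Type*} [Fintype n] [DecidableEq n] {A B : Matrix n n ℚ} (h : A * B = 1) :
    A.map (algebraMap ℚ ℂ) * B.map (algebraMap ℚ ℂ) = 1 := by
  rw [← b24_map_mul, h]
  simp

/-- Complexification commutes with conjugation by a rational matrix. -/
private theorem b24_cx_map {n : Type*} [Fintype n] [DecidableEq n] (G H : Matrix n n ℚ)
    (h : G * H = 1) (h' : H * G = 1) (L : Submodule ℚ (Matrix n n ℚ)) :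
    cx (L.map (b24_conj G H h h' : Matrix n n ℚ →ₗ[ℚ] Matrix n n ℚ)) =
      (cx L).map (b24_conj (G.map (algebraMap ℚ ℂ)) (H.map (algebraMap ℚ ℂ)) (b24_map_one h) (b24_map_one h') :
        Matrix n n ℂ →ₗ[ℂ] Matrix n n ℂ) := by
  unfold cx
  rw [Submodule.map_span]
  congr 1
  ext M
  constructor
  · rintro ⟨_, ⟨A, hA, rfl⟩, rfl⟩
    refine ⟨A.map (algebraMap ℚ ℂ), ⟨A, hA, rfl⟩, ?_⟩
    show G.map (algebraMap ℚ ℂ) * A.map (algebraMap ℚ ℂ) * H.map (algebraMap ℚ ℂ) = (G * A * H).map (algebraMap ℚ ℂ)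
    rw [b24_map_mul, b24_map_mul]
  · rintro ⟨_, ⟨A, hA, rfl⟩, rfl⟩
    refine ⟨G * A * H, ⟨A, hA, rfl⟩, ?_⟩
    show (G * A * H).map (algebraMap ℚ ℂ) = G.map (algebraMap ℚ ℂ) * A.map (algebraMap ℚ ℂ) * H.map (algebraMap ℚ ℂ)
    rw [b24_map_mul, b24_map_mul]

private theorem b24_le {k : ℕ} {e : ℂ → Fin (k + 1) → ℂ} {τ σ : ℂ}
    (G H : Matrix (Unit ⊕ Fin (k + 1)) (Unit ⊕ Fin (k + 1)) ℚ) (h : G * H = 1) (h' : H * G = 1)
    (hP : opP e σ = G.map (algebraMap ℚ ℂ) * opP e τ * H.map (algebraMap ℚ ℂ))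
    (hQ : opQ e σ = G.map (algebraMap ℚ ℂ) * opQ e τ * H.map (algebraMap ℚ ℂ)) :
    mtLie e σ ≤ (mtLie e τ).map (b24_conj G H h h' : Matrix _ _ ℚ →ₗ[ℚ] Matrix _ _ ℚ) := by
  obtain ⟨h1, h2, h3⟩ := mtLie_spec e τ
  refine sInf_le ⟨?_, ?_, ?_⟩
  · rintro _ ⟨A, hA, rfl⟩ _ ⟨B, hB, rfl⟩
    refine ⟨A * B - B * A, h1 A hA B hB, ?_⟩
    show G * (A * B - B * A) * H = (G * A * H) * (G * B * H) - (G * B * H) * (G * A * H)
    have e1 : (G * A * H) * (G * B * H) = G * (A * B) * H := by
      calc (G * A * H) * (G * B * H) = G * A * (H * G) * B * H := by simp only [Matrix.mul_assoc]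
        _ = G * (A * B) * H := by rw [h', Matrix.mul_one]; simp only [Matrix.mul_assoc]
    have e2 : (G * B * H) * (G * A * H) = G * (B * A) * H := by
      calc (G * B * H) * (G * A * H) = G * B * (H * G) * A * H := by simp only [Matrix.mul_assoc]
        _ = G * (B * A) * H := by rw [h', Matrix.mul_one]; simp only [Matrix.mul_assoc]
    rw [e1, e2, Matrix.mul_sub, Matrix.sub_mul]
  · rw [b24_cx_map]
    exact ⟨opP e τ, h2, hP.symm⟩
  · rw [b24_cx_map]
    exact ⟨opQ e τ, h3, hQ.symm⟩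

/-- The abstract invariance. -/
private theorem b24_dims {k : ℕ} {e : ℂ → Fin (k + 1) → ℂ} {τ σ : ℂ}
    (G H : Matrix (Unit ⊕ Fin (k + 1)) (Unit ⊕ Fin (k + 1)) ℚ) (h : G * H = 1) (h' : H * G = 1)
    (d d' : Unit ⊕ Fin (k + 1) → ℂ) (hd : ∀ x, d x * d' x = 1)
    (hF : frame e σ = G.map (algebraMap ℚ ℂ) * frame e τ * Matrix.diagonal d') :
    mtDim e σ = mtDim e τ ∧ domainDim e σ = domainDim e τ := by
  set GC := G.map (algebraMap ℚ ℂ) with hGC
  set HC := H.map (algebraMap ℚ ℂ) with hHC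
  have hGH : GC * HC = 1 := b24_map_one h
  have hHG : HC * GC = 1 := b24_map_one h'
  have hdd : Matrix.diagonal d' * Matrix.diagonal d = (1 : Matrix (Unit ⊕ Fin (k + 1)) (Unit ⊕ Fin (k + 1)) ℂ) := by
    rw [Matrix.diagonal_mul_diagonal, ← Matrix.diagonal_one]
    congr 1
    funext x
    rw [mul_comm, hd]
  have hdinv : (Matrix.diagonal d')⁻¹ = (Matrix.diagonal d : Matrix (Unit ⊕ Fin (k + 1)) (Unit ⊕ Fin (k + 1)) ℂ) :=
    Matrix.inv_eq_right_inv hdd
  have hGinv : GC⁻¹ = HC := Matrix.inv_eq_right_inv hGH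
  have hFinv : (frame e σ)⁻¹ = Matrix.diagonal d * (frame e τ)⁻¹ * HC := by
    rw [hF, Matrix.mul_inv_rev, Matrix.mul_inv_rev, hdinv, hGinv, Matrix.mul_assoc]
  have hop : ∀ w : Unit ⊕ Fin (k + 1) → ℂ, frame e σ * Matrix.diagonal w * (frame e σ)⁻¹ =
      GC * (frame e τ * Matrix.diagonal w * (frame e τ)⁻¹) * HC := by
    intro w
    rw [hFinv, hF]
    have h1 : Matrix.diagonal d' * Matrix.diagonal w * Matrix.diagonal d =
        (Matrix.diagonal w : Matrix (Unit ⊕ Fin (k + 1)) (Unit ⊕ Fin (k + 1)) ℂ) := by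
      rw [Matrix.diagonal_mul_diagonal, Matrix.diagonal_mul_diagonal]
      congr 1
      funext x
      calc d' x * w x * d x = (d x * d' x) * w x := by ring
        _ = w x := by rw [hd, one_mul]
    calc GC * frame e τ * Matrix.diagonal d' * Matrix.diagonal w * (Matrix.diagonal d * (frame e τ)⁻¹ * HC)
        = GC * frame e τ * (Matrix.diagonal d' * Matrix.diagonal w * Matrix.diagonal d) * (frame e τ)⁻¹ * HC := by
          simp only [Matrix.mul_assoc]
      _ = _ := by rw [h1]; simp only [Matrix.mul_assoc]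
  have hP : opP e σ = GC * opP e τ * HC := hop _
  have hQ : opQ e σ = GC * opQ e τ * HC := hop _
  have hback : ∀ A B : Matrix (Unit ⊕ Fin (k + 1)) (Unit ⊕ Fin (k + 1)) ℂ, A = GC * B * HC → B = HC * A * GC := by
    intro A B hAB
    rw [hAB]
    calc B = (HC * GC) * B * (HC * GC) := by rw [hHG, Matrix.one_mul, Matrix.mul_one]
      _ = HC * (GC * B * HC) * GC := by simp only [Matrix.mul_assoc]
  have hle1 := b24_le G H h h' hP hQ
  have hle2 := b24_le H G h' h (hback _ _ hP) (hback _ _ hQ)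
  have heq : mtLie e σ = (mtLie e τ).map (b24_conj G H h h' : Matrix _ _ ℚ →ₗ[ℚ] Matrix _ _ ℚ) := by
    refine le_antisymm hle1 ?_
    rintro _ ⟨A, hA, rfl⟩
    obtain ⟨B, hB, hBA⟩ := hle2 hA
    have hBA' : H * B * G = A := hBA
    have : (b24_conj G H h h' : Matrix _ _ ℚ →ₗ[ℚ] Matrix _ _ ℚ) A = B := by
      show G * A * H = B
      rw [← hBA']
      calc G * (H * B * G) * H = (G * H) * B * (G * H) := by simp only [Matrix.mul_assoc]
        _ = B := by rw [h, Matrix.one_mul, Matrix.mul_one]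
    rw [this]
    exact hB
  refine ⟨?_, ?_⟩
  · unfold mtDim
    rw [heq]
    exact LinearEquiv.finrank_map_eq (b24_conj G H h h') (mtLie e τ)
  · unfold domainDim
    set cC := b24_conj GC HC hGH hHG with hcC
    have hcx : cx (mtLie e σ) = (cx (mtLie e τ)).map (cC : Matrix _ _ ℂ →ₗ[ℂ] Matrix _ _ ℂ) := by
      rw [heq, b24_cx_map]
    have hd0 : ∀ x, d x ≠ 0 := fun x hx => by
      have := hd x
      rw [hx, zero_mul] at this
      exact zero_ne_one this
    have hd0' : ∀ x, d' x ≠ 0 := fun x hx => by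
      have := hd x
      rw [hx, mul_zero] at this
      exact zero_ne_one this
    have hentry : ∀ M : Matrix (Unit ⊕ Fin (k + 1)) (Unit ⊕ Fin (k + 1)) ℂ, ∀ x y,
        ((frame e σ)⁻¹ * (GC * M * HC) * frame e σ) x y = d x * ((frame e τ)⁻¹ * M * frame e τ) x y * d' y := by
      intro M x y
      have h1 : (frame e σ)⁻¹ * (GC * M * HC) * frame e σ =
          Matrix.diagonal d * ((frame e τ)⁻¹ * M * frame e τ) * Matrix.diagonal d' := by
        rw [hFinv, hF]
        calc Matrix.diagonal d * (frame e τ)⁻¹ * HC * (GC * M * HC) * (GC * frame e τ * Matrix.diagonal d')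
            = Matrix.diagonal d * (frame e τ)⁻¹ * (HC * GC) * M * (HC * GC) * frame e τ * Matrix.diagonal d' := by
              simp only [Matrix.mul_assoc]
          _ = _ := by rw [hHG, Matrix.mul_one, Matrix.mul_one]; simp only [Matrix.mul_assoc]
      rw [h1, Matrix.mul_diagonal, Matrix.diagonal_mul]
    have hF0 : (F0 e τ).map (cC : Matrix _ _ ℂ →ₗ[ℂ] Matrix _ _ ℂ) = F0 e σ := by
      ext M
      constructor
      · rintro ⟨A, hA, rfl⟩ x y hxy
        show ((frame e σ)⁻¹ * (GC * A * HC) * frame e σ) x y = 0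
        rw [hentry, hA x y hxy]
        ring
      · intro hM
        refine ⟨HC * M * GC, ?_, ?_⟩
        · intro x y hxy
          have h1 : GC * (HC * M * GC) * HC = M := by
            calc GC * (HC * M * GC) * HC = (GC * HC) * M * (GC * HC) := by simp only [Matrix.mul_assoc]
              _ = M := by rw [hGH, Matrix.one_mul, Matrix.mul_one]
          have h2 := hentry (HC * M * GC) x y
          rw [h1, hM x y hxy] at h2
          have h3 := hd0 x
          have h4 := hd0' y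
          have h5 := h2.symm
          rcases mul_eq_zero.mp h5 with h6 | h6
          · rcases mul_eq_zero.mp h6 with h7 | h7
            · exact absurd h7 h3
            · exact h7
          · exact absurd h6 h4
        · show GC * (HC * M * GC) * HC = M
          calc GC * (HC * M * GC) * HC = (GC * HC) * M * (GC * HC) := by simp only [Matrix.mul_assoc]
            _ = M := by rw [hGH, Matrix.one_mul, Matrix.mul_one]
    set E := Submodule.Quotient.equiv (F0 e τ) (F0 e σ) cC hF0 with hE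
    have hmap : (cx (mtLie e σ)).map (F0 e σ).mkQ = ((cx (mtLie e τ)).map (F0 e τ).mkQ).map
        (E : _ →ₗ[ℂ] _) := by
      rw [hcx, ← Submodule.map_comp, ← Submodule.map_comp]
      rfl
    rw [hmap]
    exact LinearEquiv.finrank_map_eq E _

/-- The dimensions are invariant under `SL₂(ℤ)`. -/
theorem dims_smul {k : ℕ} (hk : Even k) {e : ℂ → Fin (k + 1) → ℂ} (he : IsExtension k e)
    (γ : SL(2, ℤ)) (τ : ℍ) : mtDim e ((γ • τ : ℍ) : ℂ) = mtDim e τ ∧
      domainDim e ((γ • τ : ℍ) : ℂ) = domainDim e τ := by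
  obtain ⟨r, hr⟩ := he.monodromy γ
  have hA : act k γ * act k γ⁻¹ = 1 := by rw [← act_mul, mul_inv_cancel, act_one]
  have hA' : act k γ⁻¹ * act k γ = 1 := by rw [← act_mul, inv_mul_cancel, act_one]
  set A := act k γ with hAdef
  set B := act k γ⁻¹ with hBdef
  set G : Matrix (Unit ⊕ Fin (k + 1)) (Unit ⊕ Fin (k + 1)) ℚ :=
    Matrix.fromBlocks 1 0 (Matrix.of fun j _ => r j) A with hG
  set H : Matrix (Unit ⊕ Fin (k + 1)) (Unit ⊕ Fin (k + 1)) ℚ :=
    Matrix.fromBlocks 1 0 (-(B * (Matrix.of fun j _ => r j))) B with hH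
  have hGH : G * H = 1 := by
    rw [hG, hH, Matrix.fromBlocks_multiply]
    simp only [Matrix.mul_one, Matrix.zero_mul, Matrix.mul_zero, add_zero, zero_add, Matrix.mul_neg]
    rw [← Matrix.mul_assoc, hA, Matrix.one_mul, add_neg_cancel, neg_zero, add_zero, Matrix.fromBlocks_one]
  have hHG : H * G = 1 := by
    rw [hG, hH, Matrix.fromBlocks_multiply]
    simp only [Matrix.mul_one, Matrix.zero_mul, Matrix.mul_zero, add_zero, zero_add]
    rw [hA', neg_add_cancel, Matrix.fromBlocks_one]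
  -- the automorphy factors
  have hcd : ∀ z : ℂ, z.im ≠ 0 → (γ 1 0 : ℂ) * z + γ 1 1 ≠ 0 := by
    intro z hz h
    have h1 := congrArg Complex.im h
    simp at h1
    rcases h1 with h1 | h1
    · rw [h1] at h
      simp at h
      have h2 := γ.det_coe
      rw [Matrix.det_fin_two, h1, h] at h2
      simp at h2
    · exact hz h1
  have hτ := τ.im_pos
  have hz : ((γ 1 0 : ℂ) * (τ : ℂ) + γ 1 1) ≠ 0 := hcd _ (by
    have : (τ : ℂ).im = τ.im := rfl
    rw [this]; exact hτ.ne')
  have hw : ((γ 1 0 : ℂ) * conj (τ : ℂ) + γ 1 1) ≠ 0 := hcd _ (by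
    rw [Complex.conj_im]
    have : (τ : ℂ).im = τ.im := rfl
    rw [this]; exact (neg_ne_zero.mpr hτ.ne'))
  set u : ℂ := (γ 1 0 : ℂ) * (τ : ℂ) + γ 1 1 with hu
  set v : ℂ := (γ 1 0 : ℂ) * conj (τ : ℂ) + γ 1 1 with hv
  have hσ : ((γ • τ : ℍ) : ℂ) = ((γ 0 0 : ℂ) * (τ : ℂ) + γ 0 1) / u := by
    rw [UpperHalfPlane.coe_specialLinearGroup_apply]
    simp [hu]
  have hσ' : conj ((γ • τ : ℍ) : ℂ) = ((γ 0 0 : ℂ) * conj (τ : ℂ) + γ 0 1) / v := by
    rw [hσ]
    simp [hu, hv]
  set d : Unit ⊕ Fin (k + 1) → ℂ := Sum.elim (fun _ => 1) (fun i => u ^ (i : ℕ) * v ^ (k - i : ℕ)) with hd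
  set d' : Unit ⊕ Fin (k + 1) → ℂ := Sum.elim (fun _ => 1) (fun i => (u ^ (i : ℕ) * v ^ (k - i : ℕ))⁻¹) with hd'
  refine b24_dims G H hGH hHG d d' ?_ ?_
  · intro x
    rcases x with x | x
    · simp [hd, hd']
    · simp only [hd, hd', Sum.elim_inr]
      exact mul_inv_cancel₀ (mul_ne_zero (pow_ne_zero _ hz) (pow_ne_zero _ hw))
  · ext x y
    rw [Matrix.mul_diagonal]
    rcases x with x | x <;> rcases y with y | y
    · simp [frame, hG, hd', Matrix.mul_apply]
    · simp [frame, hG, hd', Matrix.mul_apply]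
    · have h1 := congrFun (hr τ) x
      simp only [frame, hG, hd', Matrix.mul_apply, Fintype.sum_sum_type, Matrix.map_apply, Sum.elim_inl,
        Matrix.fromBlocks_apply₁₁, Matrix.fromBlocks_apply₂₁, Matrix.fromBlocks_apply₂₂,
        Matrix.of_apply, mul_one]
      rw [h1]
      simp only [Pi.add_apply, Matrix.mulVec, dotProduct, Matrix.map_apply]
      simp
      ring
    · have h1 := congrFun (act_mulVec_form k γ (τ : ℂ) (conj (τ : ℂ)) hz hw y) x
      simp only [frame, hG, hd', Matrix.mul_apply, Fintype.sum_sum_type, Matrix.map_apply, Sum.elim_inr,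
        Matrix.fromBlocks_apply₁₂, Matrix.fromBlocks_apply₂₁, Matrix.fromBlocks_apply₂₂,
        Matrix.of_apply, Matrix.zero_apply, mul_zero, Finset.sum_const_zero, zero_add]
      simp only [Matrix.mulVec, dotProduct, Matrix.map_apply, Pi.smul_apply, smul_eq_mul] at h1
      rw [h1, hσ', hσ, ← hu, ← hv]
      have h2 : u ^ (y : ℕ) * v ^ (k - y : ℕ) ≠ 0 := mul_ne_zero (pow_ne_zero _ hz) (pow_ne_zero _ hw)
      field_simp

end Pool.Agent.LibEis68
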