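import Pool.Agent.LibEis68.Defs

/-! # Block B: the Lie algebra of `GL₂ ⋉ Sym^k` acting on `ℚ ⊕ Sym^k` -/

open Complex Polynomial Matrix
open scoped ComplexConjugate MatrixGroups UpperHalfPlane

namespace Pool.Agent.LibEis68

/-- The action of `t₀ X∂_Y + t₁ (X∂_X - Y∂_Y) - t₂ Y∂_X + t₃` on binary forms of degree `k`. -/
def sl (k : ℕ) {R : Type*} [CommRing R] (t : Fin 4 → R) : Matrix (Fin (k + 1)) (Fin (k + 1)) R :=
  Matrix.of fun i j =>
    (if (i : ℕ) = j + 1 then t 0 * ((k : R) - (j : ℕ)) else 0) +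
    (if i = j then t 1 * (2 * ((j : ℕ) : R) - k) + t 3 else 0) -
    (if (i : ℕ) + 1 = j then t 2 * ((j : ℕ) : R) else 0)

/-- The general element of the Lie algebra `𝔤𝔩₂ ⋉ Sym^k`. -/
def par (k : ℕ) {R : Type*} [CommRing R] (v : Fin (k + 1) → R) (t : Fin 4 → R) :
    Matrix (Unit ⊕ Fin (k + 1)) (Unit ⊕ Fin (k + 1)) R :=
  Matrix.fromBlocks 0 0 (Matrix.of fun j _ => v j) (sl k t)

/-- `𝔤𝔩₂ ⋉ Sym^k` as a space of matrices. -/
def full (k : ℕ) : Submodule ℚ (Matrix (Unit ⊕ Fin (k + 1)) (Unit ⊕ Fin (k + 1)) ℚ) where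
  carrier := {M | ∃ v t, M = par k v t}
  add_mem' := by
    rintro _ _ ⟨v, t, rfl⟩ ⟨v', t', rfl⟩
    refine ⟨v + v', t + t', ?_⟩
    ext x y
    rcases x with x | x <;> rcases y with y | y <;> simp [par, sl]
    split_ifs <;> ring
  zero_mem' := ⟨0, 0, by
    ext x y
    rcases x with x | x <;> rcases y with y | y <;> simp [par, sl]⟩
  smul_mem' := by
    rintro c _ ⟨v, t, rfl⟩
    refine ⟨c • v, c • t, ?_⟩
    ext x y
    rcases x with x | x <;> rcases y with y | y <;> simp [par, sl]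
    split_ifs <;> ring

/-- The coordinates of the Hodge cocharacter at `τ`. -/
noncomputable def hvec (τ : ℂ) : Fin 4 → ℂ :=
  ![I / τ.im, I * τ.re / τ.im, I * (τ.re ^ 2 + τ.im ^ 2) / τ.im, 0]

end Pool.Agent.LibEis68
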