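import Pool.Agent.LibEis68.CDefs
import Pool.Agent.LibEis68.A03

open Complex Polynomial Matrix
open scoped ComplexConjugate MatrixGroups UpperHalfPlane

namespace Pool.Agent.LibEis68

private lemma form_conj_aux (k : ℕ) (z w : ℂ) (i j : ℕ) (hj : j < k + 1) :
    conj (form k z w i ⟨j, hj⟩) = form k (conj z) (conj w) i ⟨j, hj⟩ := by
  unfold form
  rw [← Polynomial.coeff_map]
  simp [Polynomial.map_mul, Polynomial.map_pow, Polynomial.map_sub]

/-- `reg` is real. -/
theorem reg_im (k : ℕ) (τ : ℂ) (j : Fin (k + 1)) : (reg k τ j).im = 0 := by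
  rw [← Complex.conj_eq_iff_im]
  unfold reg
  rw [map_mul, Complex.conj_ofReal, map_sum]
  congr 1
  rw [← Equiv.sum_comp Fin.revPerm (fun i : Fin (k + 1) => lat (i + 1) (k - i + 1) τ * form k τ (conj τ) i j)]
  refine Finset.sum_congr rfl fun i _ => ?_
  have hi : (i : ℕ) ≤ k := Nat.lt_succ_iff.mp i.2
  have h1 : ((Fin.revPerm i : Fin (k + 1)) : ℕ) = k - i := by
    rw [Fin.revPerm_apply, Fin.val_rev]; omega
  have h2 : k - (k - (i : ℕ)) = i := by omega
  rw [h1, h2, map_mul, ← lat_conj]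
  congr 1
  obtain ⟨j, hj⟩ := j
  rw [form_conj_aux, Complex.conj_conj]
  unfold form
  simp only [h2]
  rw [mul_comm]

end Pool.Agent.LibEis68
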