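import Pool.Agent.LibEis68.CDefs
import Pool.Agent.LibEis68.A02
import Pool.Agent.LibEis68.FormSmul

open Complex Polynomial Matrix
open scoped ComplexConjugate MatrixGroups UpperHalfPlane

namespace Pool.Agent.LibEis68

/-- `reg` is equivariant. -/
theorem reg_smul (k : ℕ) (γ : SL(2, ℤ)) (τ : ℍ) :
    reg k ((γ • τ : ℍ) : ℂ) = (act k γ).map (algebraMap ℚ ℂ) *ᵥ reg k τ := by
  have hden : (γ 1 0 : ℂ) * τ + γ 1 1 ≠ 0 := by
    have := UpperHalfPlane.denom_ne_zero γ τ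
    rwa [ModularGroup.denom_apply] at this
  have hden' : (γ 1 0 : ℂ) * conj (τ : ℂ) + γ 1 1 ≠ 0 := by
    have h := (map_ne_zero (starRingEnd ℂ)).mpr hden
    simpa using h
  have hg : ((γ • τ : ℍ) : ℂ) = ((γ 0 0 : ℂ) * τ + γ 0 1) / ((γ 1 0 : ℂ) * τ + γ 1 1) := by
    rw [UpperHalfPlane.specialLinearGroup_apply]
    simp
  have hgc : conj ((γ • τ : ℍ) : ℂ) = ((γ 0 0 : ℂ) * conj (τ : ℂ) + γ 0 1) / ((γ 1 0 : ℂ) * conj (τ : ℂ) + γ 1 1) := by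
    rw [hg]; simp
  have him : (((γ • τ : ℍ) : ℂ).im : ℂ) * (((γ 1 0 : ℂ) * τ + γ 1 1) * ((γ 1 0 : ℂ) * conj (τ : ℂ) + γ 1 1)) = ((τ : ℂ).im : ℂ) := by
    have h1 := ModularGroup.im_smul_eq_div_normSq γ τ
    rw [ModularGroup.denom_apply] at h1
    have h2 : (((γ 1 0 : ℂ) * τ + γ 1 1) * ((γ 1 0 : ℂ) * conj (τ : ℂ) + γ 1 1)) = (Complex.normSq ((γ 1 0 : ℂ) * τ + γ 1 1) : ℂ) := by
      rw [← Complex.mul_conj]; simp
    rw [h2]
    have h3 : ((γ • τ : ℍ) : ℂ).im = (τ : ℂ).im / Complex.normSq ((γ 1 0 : ℂ) * τ + γ 1 1) := h1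
    rw [h3]
    have h4 : (Complex.normSq ((γ 1 0 : ℂ) * τ + γ 1 1)) ≠ 0 := by
      rwa [ne_eq, Complex.normSq_eq_zero]
    rw [← Complex.ofReal_mul, div_mul_cancel₀ _ h4]
  funext j
  have hR : (act k γ).map (algebraMap ℚ ℂ) *ᵥ reg k τ = ((τ : ℂ).im : ℂ) • ∑ i : Fin (k + 1), lat (i + 1) (k - i + 1) τ • 
      ((act k γ).map (algebraMap ℚ ℂ) *ᵥ form k τ (conj (τ : ℂ)) i) := by
    have h1 : reg k τ = ((τ : ℂ).im : ℂ) • ∑ i : Fin (k + 1), lat (i + 1) (k - i + 1) τ • form k τ (conj (τ : ℂ)) i := by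
      funext j; simp [reg]
    rw [h1, Matrix.mulVec_smul, Matrix.mulVec_sum]
    simp_rw [Matrix.mulVec_smul]
  rw [hR]
  simp only [Pi.smul_apply, Finset.sum_apply, smul_eq_mul]
  unfold reg
  rw [← him, mul_assoc]
  congr 1
  rw [Finset.mul_sum]
  refine Finset.sum_congr rfl fun i _ => ?_
  rw [act_mulVec_form k γ _ _ hden hden' i, lat_smul, ← hg, ← hgc]
  simp only [Pi.smul_apply, smul_eq_mul]
  rw [pow_succ, pow_succ]
  ring

end Pool.Agent.LibEis68
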