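import Pool.Agent.LibEis68.CDefs

open Complex Polynomial Matrix
open scoped ComplexConjugate MatrixGroups UpperHalfPlane

namespace Pool.Agent.LibEis68

/-- One term of `reg`, evaluated at a real number `x`. -/
noncomputable def tm (k : ℕ) (v : Fin 2 → ℤ) (x : ℝ) (τ : ℂ) : ℂ :=
  τ.im * ∑ i ∈ Finset.range (k + 1), (((x : ℂ) - τ) ^ i * ((x : ℂ) - conj τ) ^ (k - i)) *
    (((v 0 : ℂ) * τ + v 1) ^ (i + 1) * ((v 0 : ℂ) * conj τ + v 1) ^ (k - i + 1))⁻¹

/-- The imaginary part of a holomorphic function. -/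
private lemma c03_im {F : ℂ → ℂ} {F' τ : ℂ} (h : HasDerivAt F F' τ) : HasFDerivAt (fun z => (F z).im) (imMul F') τ := by
  have h1 := h.complexToReal_fderiv
  have h2 := (imCLM.hasFDerivAt (x := F τ)).comp τ h1
  refine h2.congr_fderiv ?_
  ext; simp [imMul]

private lemma c03_smul (r : ℝ) (c : ℂ) : imMul ((r : ℂ) * c) = r • imMul c := by
  ext z
  simp [imMul]
  ring

private lemma c03_u {v : Fin 2 → ℤ} (hv : v ≠ 0) {z : ℂ} (hz : 0 < z.im) : (v 0 : ℂ) * z + v 1 ≠ 0 := by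
  intro h
  have h1 := congrArg Complex.im h
  simp at h1
  rcases h1 with h1 | h1
  · have h2 := congrArg Complex.re h
    simp [h1] at h2
    exact hv (by funext i; fin_cases i <;> simp [h1, h2])
  · linarith

/-- Geometric sum. -/
private lemma c03_tm (k : ℕ) {v : Fin 2 → ℤ} (x : ℝ) {z : ℂ} (hu : (v 0 : ℂ) * z + v 1 ≠ 0) :
    tm k v x z = (z.im / (((v 0 : ℂ) * z + v 1) * ((v 0 : ℂ) * conj z + v 1))) * 
      ∑ i ∈ Finset.range (k + 1), (((x : ℂ) - z) / ((v 0 : ℂ) * z + v 1)) ^ i * (((x : ℂ) - conj z) / ((v 0 : ℂ) * conj z + v 1)) ^ (k - i) := by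
  have hu' : (v 0 : ℂ) * conj z + v 1 ≠ 0 := by
    have h := (map_ne_zero (starRingEnd ℂ)).mpr hu
    simpa using h
  unfold tm
  rw [Finset.mul_sum, Finset.mul_sum]
  refine Finset.sum_congr rfl fun i _ => ?_
  rw [pow_succ, pow_succ, div_pow, div_pow]
  field_simp

/-- The terms are antiderivatives of the terms of the holomorphic Eisenstein series. -/
theorem tm_hasFDerivAt (k : ℕ) {v : Fin 2 → ℤ} (hv : v ≠ 0) (x : ℝ) {τ : ℂ} (hτ : 0 < τ.im) :
    HasFDerivAt (fun z => (tm k v x z).re)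
      (((k : ℝ) + 1) • imMul ((((v 0 : ℂ) * τ + v 1) ^ (k + 2))⁻¹ * ((x : ℂ) - τ) ^ k)) τ := by
  have hu := c03_u hv hτ
  have hev : ∀ᶠ z : ℂ in nhds τ, 0 < z.im := (isOpen_lt continuous_const Complex.continuous_im).mem_nhds hτ
  by_cases hw : (v 0 : ℝ) * x + v 1 = 0
  · -- constant quotient
    have hm : (v 0 : ℝ) ≠ 0 := by
      intro h0
      rw [h0, zero_mul, zero_add] at hw
      exact hv (by funext i; fin_cases i <;> simp <;> [exact_mod_cast h0; exact_mod_cast hw])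
    have hmc : (v 0 : ℂ) ≠ 0 := by exact_mod_cast hm
    have hwc : (v 0 : ℂ) * x + v 1 = 0 := by exact_mod_cast congrArg (fun t : ℝ => (t : ℂ)) hw
    set c : ℝ := ((k : ℝ) + 1) * (-1 / (v 0 : ℝ)) ^ (k + 1) with hc
    have hF : ∀ᶠ z : ℂ in nhds τ, (tm k v x z).re = ((c : ℂ) * ((v 0 : ℂ) * z + v 1)⁻¹).im := by
      filter_upwards [hev] with z hz
      have hu1 := c03_u hv hz
      have hu1' : (v 0 : ℂ) * conj z + v 1 ≠ 0 := by
        have h := (map_ne_zero (starRingEnd ℂ)).mpr hu1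
        simpa using h
      rw [c03_tm k x hu1]
      have e1 : ((x : ℂ) - z) / ((v 0 : ℂ) * z + v 1) = -1 / (v 0 : ℂ) := by
        rw [div_eq_div_iff hu1 hmc]
        linear_combination hwc
      have e2 : ((x : ℂ) - conj z) / ((v 0 : ℂ) * conj z + v 1) = -1 / (v 0 : ℂ) := by
        rw [div_eq_div_iff hu1' hmc]
        linear_combination hwc
      rw [e1, e2]
      have e3 : ∑ i ∈ Finset.range (k + 1), (-1 / (v 0 : ℂ)) ^ i * (-1 / (v 0 : ℂ)) ^ (k - i) = ((k : ℂ) + 1) * (-1 / (v 0 : ℂ)) ^ k := by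
        rw [Finset.sum_congr rfl (g := fun _ => (-1 / (v 0 : ℂ)) ^ k)]
        · simp
        · intro i hi
          rw [← pow_add]
          congr 1
          have := Finset.mem_range.mp hi
          omega
      rw [e3]
      have e4 : (z.im : ℂ) / (((v 0 : ℂ) * z + v 1) * ((v 0 : ℂ) * conj z + v 1)) = ((z.im / Complex.normSq ((v 0 : ℂ) * z + v 1) : ℝ) : ℂ) := by
        have : (((v 0 : ℂ) * z + v 1) * ((v 0 : ℂ) * conj z + v 1)) = (Complex.normSq ((v 0 : ℂ) * z + v 1) : ℂ) := by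
          rw [← Complex.mul_conj]; simp
        rw [this]; push_cast; rfl
      have e5 : ((k : ℂ) + 1) * (-1 / (v 0 : ℂ)) ^ k = ((((k : ℝ) + 1) * (-1 / (v 0 : ℝ)) ^ k : ℝ) : ℂ) := by push_cast; rfl
      rw [e4, e5, ← Complex.ofReal_mul, Complex.ofReal_re, Complex.im_ofReal_mul, Complex.inv_im]
      have e6 : ((v 0 : ℂ) * z + v 1).im = (v 0 : ℝ) * z.im := by simp
      rw [e6, hc, pow_succ]
      have hN : Complex.normSq ((v 0 : ℂ) * z + v 1) ≠ 0 := by rwa [ne_eq, Complex.normSq_eq_zero]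
      field_simp
    refine HasFDerivAt.congr_of_eventuallyEq ?_ hF
    have hd : HasDerivAt (fun z : ℂ => (c : ℂ) * ((v 0 : ℂ) * z + v 1)⁻¹) ((c : ℂ) * (-((v 0 : ℂ)) / ((v 0 : ℂ) * τ + v 1) ^ 2)) τ := by
      have h1 : HasDerivAt (fun z : ℂ => (v 0 : ℂ) * z + v 1) (v 0 : ℂ) τ := by
        simpa using ((hasDerivAt_id τ).const_mul (v 0 : ℂ)).add_const (v 1 : ℂ)
      exact (h1.inv hu).const_mul _
    refine (c03_im hd).congr_fderiv ?_
    have e7 : (c : ℂ) * (-((v 0 : ℂ)) / ((v 0 : ℂ) * τ + v 1) ^ 2) = (((k : ℝ) + 1 : ℝ) : ℂ) * ((((v 0 : ℂ) * τ + v 1) ^ (k + 2))⁻¹ * ((x : ℂ) - τ) ^ k) := by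
      have e8 : ((x : ℂ) - τ) = (-1 / (v 0 : ℂ)) * ((v 0 : ℂ) * τ + v 1) := by
        field_simp
        linear_combination hwc
      rw [e8, mul_pow, hc]
      push_cast
      rw [pow_succ (-1 / (v 0 : ℂ)) k, pow_add]
      field_simp
    rw [e7, c03_smul]
  · -- generic case
    have hwc : (v 0 : ℂ) * x + v 1 ≠ 0 := by
      intro h
      exact hw (by exact_mod_cast h)
    set c : ℝ := -((v 0 : ℝ) * x + v 1)⁻¹ with hc
    have hF : ∀ᶠ z : ℂ in nhds τ, (tm k v x z).re = ((c : ℂ) * (((x : ℂ) - z) / ((v 0 : ℂ) * z + v 1)) ^ (k + 1)).im := by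
      filter_upwards [hev] with z hz
      have hu1 := c03_u hv hz
      have hu1' : (v 0 : ℂ) * conj z + v 1 ≠ 0 := by
        have h := (map_ne_zero (starRingEnd ℂ)).mpr hu1
        simpa using h
      rw [c03_tm k x hu1]
      set a : ℂ := ((x : ℂ) - z) / ((v 0 : ℂ) * z + v 1) with ha
      set b : ℂ := ((x : ℂ) - conj z) / ((v 0 : ℂ) * conj z + v 1) with hb
      have hba : b = conj a := by rw [ha, hb]; simp
      have hzc : z - conj z = 2 * z.im * I := by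
        rw [Complex.sub_conj]; push_cast; ring
      have hab : (z.im : ℂ) / (((v 0 : ℂ) * z + v 1) * ((v 0 : ℂ) * conj z + v 1)) = (c : ℂ) * (a - b) / (2 * I) := by
        rw [hc, ha, hb]
        push_cast
        rw [div_eq_div_iff (mul_ne_zero hu1 hu1') (by simp)]
        have : -((v 0 : ℂ) * x + v 1)⁻¹ * (((x : ℂ) - z) / ((v 0 : ℂ) * z + v 1) - ((x : ℂ) - conj z) / ((v 0 : ℂ) * conj z + v 1)) * 
            (((v 0 : ℂ) * z + v 1) * ((v 0 : ℂ) * conj z + v 1)) = z - conj z := by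
          field_simp
          ring
        rw [this, hzc]; ring
      rw [hab]
      have hg := (Commute.all a b).geom_sum₂_mul (k + 1)
      have e1 : (c : ℂ) * (a - b) / (2 * I) * ∑ i ∈ Finset.range (k + 1), a ^ i * b ^ (k - i) = (c : ℂ) * (a ^ (k + 1) - b ^ (k + 1)) / (2 * I) := by
        rw [← hg]
        have : ∑ i ∈ Finset.range (k + 1), a ^ i * b ^ (k + 1 - 1 - i) = ∑ i ∈ Finset.range (k + 1), a ^ i * b ^ (k - i) := by
          simp
        rw [this]; ring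
      rw [e1, hba, ← map_pow, Complex.sub_conj]
      have e2 : (c : ℂ) * (((2 * (a ^ (k + 1)).im : ℝ) : ℂ) * I) / (2 * I) = ((c * (a ^ (k + 1)).im : ℝ) : ℂ) := by
        push_cast
        have := Complex.I_ne_zero
        field_simp
      rw [e2, Complex.ofReal_re, Complex.im_ofReal_mul]
    refine HasFDerivAt.congr_of_eventuallyEq ?_ hF
    have hd : HasDerivAt (fun z : ℂ => (c : ℂ) * (((x : ℂ) - z) / ((v 0 : ℂ) * z + v 1)) ^ (k + 1)) 
        ((c : ℂ) * (((k + 1 : ℕ) : ℂ) * (((x : ℂ) - τ) / ((v 0 : ℂ) * τ + v 1)) ^ k * 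
          ((-1 * ((v 0 : ℂ) * τ + v 1) - ((x : ℂ) - τ) * (v 0 : ℂ)) / ((v 0 : ℂ) * τ + v 1) ^ 2))) τ := by
      have h1 : HasDerivAt (fun z : ℂ => (v 0 : ℂ) * z + v 1) (v 0 : ℂ) τ := by
        simpa using ((hasDerivAt_id τ).const_mul (v 0 : ℂ)).add_const (v 1 : ℂ)
      have h2 : HasDerivAt (fun z : ℂ => (x : ℂ) - z) (-1) τ := by
        simpa using (hasDerivAt_id τ).const_sub (x : ℂ)
      have h3 := (h2.div h1 hu).pow (k + 1)
      simpa using h3.const_mul (c : ℂ)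
    refine (c03_im hd).congr_fderiv ?_
    have e7 : (c : ℂ) * (((k + 1 : ℕ) : ℂ) * (((x : ℂ) - τ) / ((v 0 : ℂ) * τ + v 1)) ^ k * 
          ((-1 * ((v 0 : ℂ) * τ + v 1) - ((x : ℂ) - τ) * (v 0 : ℂ)) / ((v 0 : ℂ) * τ + v 1) ^ 2)) = 
        (((k : ℝ) + 1 : ℝ) : ℂ) * ((((v 0 : ℂ) * τ + v 1) ^ (k + 2))⁻¹ * ((x : ℂ) - τ) ^ k) := by
      rw [hc, div_pow, pow_add ((v 0 : ℂ) * τ + v 1) k 2]
      push_cast
      field_simp
      ring
    rw [e7, c03_smul]

end Pool.Agent.LibEis68
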