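import Pool.Agent.LibEis68.C03
import Pool.Agent.LibEis68.A01

open Complex Polynomial Matrix
open scoped ComplexConjugate MatrixGroups UpperHalfPlane

namespace Pool.Agent.LibEis68

private lemma c04_form (k : ℕ) (z w : ℂ) (i : Fin (k + 1)) (x : ℂ) :
    ∑ j : Fin (k + 1), form k z w i j * x ^ (j : ℕ) = (x - z) ^ (i : ℕ) * (x - w) ^ (k - i : ℕ) := by
  have hi : (i : ℕ) ≤ k := Nat.lt_succ_iff.mp i.2
  unfold form
  set p : ℂ[X] := (X - C z) ^ (i : ℕ) * (X - C w) ^ (k - (i : ℕ)) with hp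
  rw [Fin.sum_univ_eq_sum_range (fun j : ℕ => p.coeff j * x ^ j) (k + 1), ← Polynomial.eval_eq_sum_range', hp]
  · simp
  · have h1 : p.natDegree ≤ i * 1 + (k - i) * 1 := by
      rw [hp]
      refine natDegree_mul_le.trans ?_
      gcongr
      · exact (natDegree_pow_le).trans (by gcongr; simp)
      · exact (natDegree_pow_le).trans (by gcongr; simp)
    omega

theorem reg_eval (k : ℕ) (hk : 2 ≤ k) (x : ℝ) {τ : ℂ} (hτ : 0 < τ.im) :
    HasSum (fun v : Fin 2 → ℤ => tm k v x τ) (∑ j : Fin (k + 1), reg k τ j * (x : ℂ) ^ (j : ℕ)) := by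
  have h1 : ∑ j : Fin (k + 1), reg k τ j * (x : ℂ) ^ (j : ℕ) = 
      (τ.im : ℂ) * ∑ i : Fin (k + 1), (((x : ℂ) - τ) ^ (i : ℕ) * ((x : ℂ) - conj τ) ^ (k - i : ℕ)) * lat (i + 1) (k - i + 1) τ := by
    unfold reg
    simp_rw [mul_assoc, ← Finset.mul_sum]
    congr 1
    simp_rw [Finset.sum_mul]
    rw [Finset.sum_comm]
    refine Finset.sum_congr rfl fun i _ => ?_
    have := c04_form k τ (conj τ) i (x : ℂ)
    rw [← mul_assoc, ← this, Finset.sum_mul]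
    refine Finset.sum_congr rfl fun j _ => ?_
    ring
  rw [h1]
  have h2 : (fun v : Fin 2 → ℤ => tm k v x τ) = fun v => (τ.im : ℂ) * ∑ i : Fin (k + 1), 
      (((x : ℂ) - τ) ^ (i : ℕ) * ((x : ℂ) - conj τ) ^ (k - i : ℕ)) * 
      (((v 0 : ℂ) * τ + v 1) ^ ((i : ℕ) + 1) * ((v 0 : ℂ) * conj τ + v 1) ^ (k - (i : ℕ) + 1))⁻¹ := by
    funext v
    unfold tm
    rw [← Fin.sum_univ_eq_sum_range (fun i => (((x : ℂ) - τ) ^ i * ((x : ℂ) - conj τ) ^ (k - i)) *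
      (((v 0 : ℂ) * τ + v 1) ^ (i + 1) * ((v 0 : ℂ) * conj τ + v 1) ^ (k - i + 1))⁻¹) (k + 1)]
  rw [h2]
  refine HasSum.mul_left _ (hasSum_sum fun i _ => HasSum.mul_left _ ?_)
  have hi : (i : ℕ) ≤ k := Nat.lt_succ_iff.mp i.2
  exact (lat_summable (a := i + 1) (b := k - i + 1) (by omega) hτ).hasSum

private lemma c04_norm (c : ℂ) : ‖imMul c‖ ≤ ‖c‖ := by
  refine ContinuousLinearMap.opNorm_le_bound _ (norm_nonneg _) fun z => ?_
  simp only [imMul, ContinuousLinearMap.comp_apply, ContinuousLinearMap.mul_apply', imCLM_apply]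
  rw [Real.norm_eq_abs]
  exact (Complex.abs_im_le_norm _).trans (norm_mul_le _ _)

/-- The real linear map `c ↦ imMul c`. -/
private noncomputable def c04_L : ℂ →L[ℝ] (ℂ →L[ℝ] ℝ) := (ContinuousLinearMap.compL ℝ ℂ ℂ ℝ imCLM).comp (ContinuousLinearMap.mul ℝ ℂ)

private lemma c04_L_apply (c : ℂ) : c04_L c = imMul c := rfl

private lemma c04_ball {τ z : ℂ} (hz : z ∈ Metric.ball τ (τ.im / 2)) : 0 < z.im := by
  rw [Metric.mem_ball, dist_eq_norm] at hz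
  have h1 := Complex.abs_im_le_norm (z - τ)
  rw [Complex.sub_im] at h1
  have h2 := neg_abs_le (z.im - τ.im)
  have h3 : 0 ≤ ‖z - τ‖ := norm_nonneg _
  linarith

private lemma c04_lower {τ z : ℂ} (hτ : 0 < τ.im) (hz : z ∈ Metric.ball τ (τ.im / 2)) (v : Fin 2 → ℤ) :
    ‖(v 0 : ℂ) * τ + v 1‖ ≤ 2 * ‖(v 0 : ℂ) * z + v 1‖ := by
  rw [Metric.mem_ball, dist_eq_norm] at hz
  have h1 : |(v 0 : ℝ)| * τ.im ≤ ‖(v 0 : ℂ) * τ + v 1‖ := by
    have := Complex.abs_im_le_norm ((v 0 : ℂ) * τ + v 1)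
    simp only [add_im, mul_im, intCast_re, intCast_im, zero_mul, add_zero] at this
    rwa [abs_mul, abs_of_pos hτ] at this
  have h2 : ‖(v 0 : ℂ) * (z - τ)‖ ≤ ‖(v 0 : ℂ) * τ + v 1‖ / 2 := by
    rw [norm_mul, Complex.norm_intCast]
    calc |(v 0 : ℝ)| * ‖z - τ‖ ≤ |(v 0 : ℝ)| * (τ.im / 2) := by gcongr
      _ ≤ _ := by linarith
  have h3 : (v 0 : ℂ) * τ + v 1 = ((v 0 : ℂ) * z + v 1) - (v 0 : ℂ) * (z - τ) := by ring
  have h4 : ‖(v 0 : ℂ) * τ + v 1‖ ≤ ‖(v 0 : ℂ) * z + v 1‖ + ‖(v 0 : ℂ) * (z - τ)‖ := by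
    conv_lhs => rw [h3]
    exact norm_sub_le _ _
  linarith

/-- The derivative of `reg`, evaluated at a real number. -/
theorem reg_eval_hasFDerivAt (k : ℕ) (hk : 2 ≤ k) (x : ℝ) {τ : ℂ} (hτ : 0 < τ.im) :
    HasFDerivAt (fun z => (∑ j : Fin (k + 1), reg k z j * (x : ℂ) ^ (j : ℕ)).re)
      (((k : ℝ) + 1) • imMul (lat (k + 2) 0 τ * ((x : ℂ) - τ) ^ k)) τ := by
  set r : ℝ := τ.im / 2 with hr
  have hr0 : 0 < r := by positivity
  have hτs : τ ∈ Metric.ball τ r := Metric.mem_ball_self hr0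
  -- the terms of the derivative
  set f' : (Fin 2 → ℤ) → ℂ → (ℂ →L[ℝ] ℝ) := fun v z => 
    if v = 0 then 0 else ((k : ℝ) + 1) • imMul ((((v 0 : ℂ) * z + v 1) ^ (k + 2))⁻¹ * ((x : ℂ) - z) ^ k) with hf'
  set K : ℝ := ((k : ℝ) + 1) * (2 ^ (k + 2) * (‖(x : ℂ) - τ‖ + r) ^ k) with hK
  have hK0 : 0 ≤ K := by positivity
  have hsumL := lat_summable (a := k + 2) (b := 0) (by omega) hτ
  have hu : Summable fun v : Fin 2 → ℤ => K * ‖(((v 0 : ℂ) * τ + v 1) ^ (k + 2) * ((v 0 : ℂ) * conj τ + v 1) ^ 0)⁻¹‖ := 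
    hsumL.norm.mul_left K
  have hderiv : ∀ (v : Fin 2 → ℤ) (z : ℂ), z ∈ Metric.ball τ r → HasFDerivAt (fun z => (tm k v x z).re) (f' v z) z := by
    intro v z hz
    by_cases hv : v = 0
    · have e1 : (fun z => (tm k v x z).re) = fun _ => (0 : ℝ) := by
        funext z
        rw [hv]
        simp [tm]
      have e2 : f' v z = 0 := by simp [hf', hv]
      rw [e1, e2]
      exact hasFDerivAt_const _ _
    · have e2 : f' v z = ((k : ℝ) + 1) • imMul ((((v 0 : ℂ) * z + v 1) ^ (k + 2))⁻¹ * ((x : ℂ) - z) ^ k) := by simp [hf', hv]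
      rw [e2]
      exact tm_hasFDerivAt k hv x (c04_ball hz)
  have hbound : ∀ (v : Fin 2 → ℤ) (z : ℂ), z ∈ Metric.ball τ r → ‖f' v z‖ ≤ K * ‖(((v 0 : ℂ) * τ + v 1) ^ (k + 2) * ((v 0 : ℂ) * conj τ + v 1) ^ 0)⁻¹‖ := by
    intro v z hz
    by_cases hv : v = 0
    · have e2 : f' v z = 0 := by simp [hf', hv]
      rw [e2, norm_zero]
      positivity
    · have e2 : f' v z = ((k : ℝ) + 1) • imMul ((((v 0 : ℂ) * z + v 1) ^ (k + 2))⁻¹ * ((x : ℂ) - z) ^ k) := by simp [hf', hv]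
      have hlow := c04_lower hτ hz v
      have hτ0 : 0 < ‖(v 0 : ℂ) * τ + v 1‖ := by
        rw [norm_pos_iff]
        intro h
        have h1 := congrArg Complex.im h
        simp at h1
        rcases h1 with h1 | h1
        · have h2 := congrArg Complex.re h
          simp [h1] at h2
          exact hv (by funext i; fin_cases i <;> simp [h1, h2])
        · linarith
      have hz0 : 0 < ‖(v 0 : ℂ) * z + v 1‖ := by linarith
      have hxz : ‖(x : ℂ) - z‖ ≤ ‖(x : ℂ) - τ‖ + r := by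
        rw [Metric.mem_ball, dist_comm, dist_eq_norm] at hz
        calc ‖(x : ℂ) - z‖ = ‖((x : ℂ) - τ) + (τ - z)‖ := by ring_nf
          _ ≤ ‖(x : ℂ) - τ‖ + ‖τ - z‖ := norm_add_le _ _
          _ ≤ _ := by linarith
      rw [e2, norm_smul, Real.norm_of_nonneg (by positivity)]
      refine (mul_le_mul_of_nonneg_left (c04_norm _) (by positivity)).trans ?_
      rw [norm_mul, norm_inv, norm_pow, norm_pow, hK, pow_zero, mul_one, norm_inv, norm_pow]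
      have h5 : (‖(v 0 : ℂ) * z + v 1‖ ^ (k + 2))⁻¹ ≤ 2 ^ (k + 2) * (‖(v 0 : ℂ) * τ + v 1‖ ^ (k + 2))⁻¹ := by
        rw [← div_eq_mul_inv, inv_eq_one_div, div_le_div_iff₀ (by positivity) (by positivity), one_mul, ← mul_pow]
        gcongr
      have h6 : ‖(x : ℂ) - z‖ ^ k ≤ (‖(x : ℂ) - τ‖ + r) ^ k := by gcongr
      calc ((k : ℝ) + 1) * ((‖(v 0 : ℂ) * z + v 1‖ ^ (k + 2))⁻¹ * ‖(x : ℂ) - z‖ ^ k) 
          ≤ ((k : ℝ) + 1) * ((2 ^ (k + 2) * (‖(v 0 : ℂ) * τ + v 1‖ ^ (k + 2))⁻¹) * (‖(x : ℂ) - τ‖ + r) ^ k) := by gcongr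
        _ = _ := by ring
  have hev : ∀ z : ℂ, 0 < z.im → HasSum (fun v : Fin 2 → ℤ => (tm k v x z).re) (∑ j : Fin (k + 1), reg k z j * (x : ℂ) ^ (j : ℕ)).re := by
    intro z hz
    exact (reg_eval k hk x hz).mapL reCLM
  have hmain := hasFDerivAt_tsum_of_isPreconnected hu Metric.isOpen_ball (convex_ball τ r).isPreconnected hderiv hbound hτs 
    (hev τ hτ).summable hτs
  have hLHS : (fun z => (∑ j : Fin (k + 1), reg k z j * (x : ℂ) ^ (j : ℕ)).re) =ᶠ[nhds τ] fun z => ∑' v : Fin 2 → ℤ, (tm k v x z).re := by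
    filter_upwards [Metric.isOpen_ball.mem_nhds hτs] with z hz
    exact (hev z (c04_ball hz)).tsum_eq.symm
  refine (hmain.congr_of_eventuallyEq hLHS).congr_fderiv ?_
  have hS : HasSum (fun v : Fin 2 → ℤ => (((v 0 : ℂ) * τ + v 1) ^ (k + 2))⁻¹ * ((x : ℂ) - τ) ^ k) (lat (k + 2) 0 τ * ((x : ℂ) - τ) ^ k) := by
    refine HasSum.mul_right _ ?_
    have := hsumL.hasSum
    simpa [lat] using this
  have hS2 := (hS.mapL c04_L).const_smul ((k : ℝ) + 1)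
  simp only [c04_L_apply] at hS2
  rw [← hS2.tsum_eq]
  refine tsum_congr fun v => ?_
  by_cases hv : v = 0
  · simp [hf', hv, imMul]
  · simp [hf', hv]

end Pool.Agent.LibEis68
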