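import Pool.Agent.LibEis68.C04
import Pool.Agent.LibEis68.C01

open Complex Polynomial Matrix
open scoped ComplexConjugate MatrixGroups UpperHalfPlane

namespace Pool.Agent.LibEis68

private lemma c05_form (k : ℕ) (z : ℂ) (x : ℂ) :
    ∑ j : Fin (k + 1), form k z z k j * x ^ (j : ℕ) = (x - z) ^ k := by
  unfold form
  set p : ℂ[X] := (X - C z) ^ k * (X - C z) ^ (k - k) with hp
  rw [Fin.sum_univ_eq_sum_range (fun j : ℕ => p.coeff j * x ^ j) (k + 1), ← Polynomial.eval_eq_sum_range', hp]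
  · simp
  · have h1 : p.natDegree ≤ k * 1 := by
      rw [hp, Nat.sub_self, pow_zero, mul_one]
      exact (natDegree_pow_le).trans (by gcongr; simp)
    omega

/-- The real linear map `c ↦ imMul c`. -/
private noncomputable def c05_L : ℂ →L[ℝ] (ℂ →L[ℝ] ℝ) := (ContinuousLinearMap.compL ℝ ℂ ℂ ℝ imCLM).comp (ContinuousLinearMap.mul ℝ ℂ)

private lemma c05_L_apply (c : ℂ) : c05_L c = imMul c := rfl

/-- The derivative of the coefficients of `reg`. -/
theorem reg_hasFDerivAt (k : ℕ) (hk : 2 ≤ k) {τ : ℂ} (hτ : 0 < τ.im) (j : Fin (k + 1)) :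
    HasFDerivAt (fun z => (reg k z j).re)
      (((k : ℝ) + 1) • imMul (lat (k + 2) 0 τ * form k τ τ k j)) τ := by
  set x : Fin (k + 1) → ℝ := fun i => ((i : ℕ) : ℝ) with hx
  set V : Matrix (Fin (k + 1)) (Fin (k + 1)) ℝ := Matrix.vandermonde x with hV
  have hinj : Function.Injective x := by
    intro a b h
    simp only [hx] at h
    exact Fin.ext (by exact_mod_cast h)
  have hdet : IsUnit V.det := by
    rw [isUnit_iff_ne_zero]
    exact Matrix.det_vandermonde_ne_zero_iff.mpr hinj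
  have hVV : V⁻¹ * V = 1 := Matrix.nonsing_inv_mul V hdet
  -- coefficients from evaluations
  have hco : ∀ (a : Fin (k + 1) → ℝ), ∑ i : Fin (k + 1), V⁻¹ j i * (∑ l : Fin (k + 1), a l * x i ^ (l : ℕ)) = a j := by
    intro a
    have h1 : ∀ i, ∑ l : Fin (k + 1), a l * x i ^ (l : ℕ) = (V *ᵥ a) i := by
      intro i
      simp only [Matrix.mulVec, dotProduct, hV, Matrix.vandermonde_apply]
      exact Finset.sum_congr rfl fun l _ => mul_comm _ _
    simp_rw [h1]
    have h2 : (V⁻¹ *ᵥ (V *ᵥ a)) j = a j := by rw [Matrix.mulVec_mulVec, hVV, Matrix.one_mulVec]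
    exact h2
  have hcoC : ∀ (a : Fin (k + 1) → ℂ), ∑ i : Fin (k + 1), ((V⁻¹ j i : ℝ) : ℂ) * (∑ l : Fin (k + 1), a l * (x i : ℂ) ^ (l : ℕ)) = a j := by
    intro a
    apply Complex.ext
    · have := hco (fun l => (a l).re)
      rw [← this, Complex.re_sum]
      refine Finset.sum_congr rfl fun i _ => ?_
      rw [Complex.re_ofReal_mul, Complex.re_sum]
      congr 1
      refine Finset.sum_congr rfl fun l _ => ?_
      rw [← Complex.ofReal_pow, Complex.re_mul_ofReal]
    · have := hco (fun l => (a l).im)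
      rw [← this, Complex.im_sum]
      refine Finset.sum_congr rfl fun i _ => ?_
      rw [Complex.im_ofReal_mul, Complex.im_sum]
      congr 1
      refine Finset.sum_congr rfl fun l _ => ?_
      rw [← Complex.ofReal_pow, Complex.im_mul_ofReal]
  have hF : (fun z => (reg k z j).re) = fun z => ∑ i : Fin (k + 1), V⁻¹ j i * (∑ l : Fin (k + 1), reg k z l * (x i : ℂ) ^ (l : ℕ)).re := by
    funext z
    have := hcoC (reg k z)
    conv_lhs => rw [← this]
    rw [Complex.re_sum]
    refine Finset.sum_congr rfl fun i _ => ?_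
    rw [Complex.re_ofReal_mul]
  rw [hF]
  have hd : HasFDerivAt (fun z => ∑ i : Fin (k + 1), V⁻¹ j i * (∑ l : Fin (k + 1), reg k z l * (x i : ℂ) ^ (l : ℕ)).re) 
      (∑ i : Fin (k + 1), V⁻¹ j i • (((k : ℝ) + 1) • imMul (lat (k + 2) 0 τ * (((x i : ℝ) : ℂ) - τ) ^ k))) τ := by
    refine HasFDerivAt.fun_sum fun i _ => ?_
    exact (reg_eval_hasFDerivAt k hk (x i) hτ).const_mul (V⁻¹ j i)
  refine hd.congr_fderiv ?_
  have h3 : form k τ τ k j = ∑ i : Fin (k + 1), ((V⁻¹ j i : ℝ) : ℂ) * (((x i : ℝ) : ℂ) - τ) ^ k := by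
    rw [← hcoC (form k τ τ k)]
    refine Finset.sum_congr rfl fun i _ => ?_
    rw [c05_form]
  rw [h3, Finset.mul_sum, ← c05_L_apply, map_sum, Finset.smul_sum]
  refine Finset.sum_congr rfl fun i _ => ?_
  rw [smul_comm]
  congr 1
  rw [← c05_L_apply, ← map_smul]
  congr 1
  rw [Complex.real_smul]
  ring

end Pool.Agent.LibEis68
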