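import Pool.Agent.LibEis68.DDefs

open Complex Polynomial Matrix
open scoped ComplexConjugate MatrixGroups UpperHalfPlane

namespace Pool.Agent.LibEis68

private theorem d01_choose_ne (k : ℕ) (a : Fin (k + 1)) : ((k.choose a : ℕ) : ℂ) ≠ 0 := by
  have : 0 < k.choose (a : ℕ) := Nat.choose_pos (Nat.lt_succ_iff.mp a.2)
  exact_mod_cast this.ne'

private theorem d01_rev (k : ℕ) (a : Fin (k + 1)) : ((Fin.rev a : Fin (k + 1)) : ℕ) = k - a := by
  rw [Fin.val_rev]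
  omega

private theorem d01_coeff (k n : ℕ) (z : ℂ) : (((X : ℂ[X]) - C z) ^ k).coeff n =
    (-z) ^ (k - n) * (k.choose n : ℂ) := by
  have h : (X : ℂ[X]) - C z = X + C (-z) := by rw [C_neg]; ring
  rw [h, coeff_X_add_C_pow]

private theorem d01_form (k : ℕ) (z : ℂ) (j : Fin (k + 1)) :
    form k z z k j = (-z) ^ (k - (j : ℕ)) * (k.choose j : ℂ) := by
  unfold form
  rw [Nat.sub_self, pow_zero, mul_one, d01_coeff]

/-- Pairing with `(X - zY)^k` is evaluation at `z`. -/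
theorem pr_form_self (k : ℕ) (P : Fin (k + 1) → ℂ) (z : ℂ) :
    pr k P (form k z z k) = ∑ j : Fin (k + 1), P j * z ^ (j : ℕ) := by
  unfold pr
  refine Finset.sum_congr rfl fun a _ => ?_
  rw [d01_form, d01_rev]
  have ha : (a : ℕ) ≤ k := Nat.lt_succ_iff.mp a.2
  have h1 : k - (k - (a : ℕ)) = a := by omega
  rw [h1, Nat.choose_symm ha, neg_pow z]
  have h2 := d01_choose_ne k a
  have h3 : ((-1 : ℂ) ^ (a : ℕ)) * (-1) ^ (a : ℕ) = 1 := by
    rw [← mul_pow]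
    norm_num
  calc (-1 : ℂ) ^ (a : ℕ) * ((k.choose a : ℂ))⁻¹ * P a * ((-1) ^ (a : ℕ) * z ^ (a : ℕ) * (k.choose a : ℂ))
      = ((-1 : ℂ) ^ (a : ℕ) * (-1) ^ (a : ℕ)) * (((k.choose a : ℂ))⁻¹ * (k.choose a : ℂ)) * (P a * z ^ (a : ℕ)) := by ring
    _ = P a * z ^ (a : ℕ) := by rw [h3, inv_mul_cancel₀ h2, one_mul, one_mul]

theorem pr_comm {k : ℕ} (hk : Even k) (P Q : Fin (k + 1) → ℂ) : pr k P Q = pr k Q P := by
  unfold pr
  rw [← Equiv.sum_comp Fin.revPerm]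
  refine Finset.sum_congr rfl fun a _ => ?_
  rw [Fin.revPerm_apply, Fin.rev_rev, d01_rev]
  have ha : (a : ℕ) ≤ k := Nat.lt_succ_iff.mp a.2
  rw [Nat.choose_symm ha]
  have h : (-1 : ℂ) ^ (k - (a : ℕ)) = (-1) ^ (a : ℕ) := by
    have h1 : (-1 : ℂ) ^ (k - (a : ℕ)) * (-1) ^ (a : ℕ) = 1 := by
      rw [← pow_add, Nat.sub_add_cancel ha, hk.neg_one_pow]
    have h2 : ((-1 : ℂ) ^ (a : ℕ)) * (-1) ^ (a : ℕ) = 1 := by
      rw [← mul_pow]
      norm_num
    have h3 : (-1 : ℂ) ^ (a : ℕ) ≠ 0 := pow_ne_zero _ (by norm_num)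
    exact mul_right_cancel₀ h3 (h1.trans h2.symm)
  rw [h]
  ring

private theorem d01_eval (k : ℕ) (q : ℂ[X]) (hq : q.natDegree ≤ k) (z : ℂ) :
    ∑ j : Fin (k + 1), q.coeff j * z ^ (j : ℕ) = q.eval z := by
  rw [Polynomial.eval_eq_sum_range' (Nat.lt_succ_of_le hq), Finset.sum_range]

/-- `⟨(X - zY)^k, (X - zY)^p (X - wY)^(k-p)⟩ = 0` for `1 ≤ p ≤ k`. -/
theorem pr_form_form {k : ℕ} (hk : Even k) (z w : ℂ) {p : ℕ} (hp : 1 ≤ p) (hpk : p ≤ k) :
    pr k (form k z z k) (form k z w p) = 0 := by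
  rw [pr_comm hk, pr_form_self]
  unfold form
  rw [d01_eval]
  · simp
    left
    omega
  · refine natDegree_mul_le.trans ?_
    rw [natDegree_pow, natDegree_pow, natDegree_X_sub_C, natDegree_X_sub_C]
    omega

theorem pr_nondeg {k : ℕ} (P : Fin (k + 1) → ℂ) (h : ∀ Q, pr k P Q = 0) : P = 0 := by
  funext a
  have h1 := h (Pi.single (Fin.rev a) 1)
  unfold pr at h1
  rw [Finset.sum_eq_single a] at h1
  · rw [Pi.single_eq_same, mul_one] at h1
    have h2 : (-1 : ℂ) ^ (a : ℕ) ≠ 0 := pow_ne_zero _ (by norm_num)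
    have h3 := inv_ne_zero (d01_choose_ne k a)
    simpa [h2, h3] using h1
  · intro b _ hb
    rw [Pi.single_eq_of_ne, mul_zero]
    intro h
    exact hb (Fin.rev_injective h)
  · intro h
    exact absurd (Finset.mem_univ _) h

private theorem d01_act_apply (k : ℕ) (γ : SL(2, ℤ)) (P : Fin (k + 1) → ℂ) (i : Fin (k + 1)) :
    ((act k γ).map (algebraMap ℚ ℂ) *ᵥ P) i =
      (∑ j : Fin (k + 1), C (P j) * ((C (γ 1 1 : ℂ) * X - C (γ 0 1 : ℂ)) ^ (j : ℕ) *
        (C (γ 0 0 : ℂ) - C (γ 1 0 : ℂ) * X) ^ (k - (j : ℕ)))).coeff i := by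
  rw [Matrix.mulVec, dotProduct, Polynomial.finsetSum_coeff]
  refine Finset.sum_congr rfl fun j _ => ?_
  rw [coeff_C_mul, mul_comm]
  congr 1
  unfold act
  rw [Matrix.map_apply, Matrix.of_apply, ← Polynomial.coeff_map]
  congr 1
  simp [Polynomial.map_mul, Polynomial.map_pow, Polynomial.map_sub]

private theorem d01_deg (k : ℕ) (γ : SL(2, ℤ)) (P : Fin (k + 1) → ℂ) :
    (∑ j : Fin (k + 1), C (P j) * ((C (γ 1 1 : ℂ) * X - C (γ 0 1 : ℂ)) ^ (j : ℕ) *
        (C (γ 0 0 : ℂ) - C (γ 1 0 : ℂ) * X) ^ (k - (j : ℕ)))).natDegree ≤ k := by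
  refine natDegree_sum_le_of_forall_le _ _ fun j _ => ?_
  refine (natDegree_C_mul_le _ _).trans (natDegree_mul_le.trans ?_)
  have h1 : ((C (γ 1 1 : ℂ) * X - C (γ 0 1 : ℂ)) ^ (j : ℕ)).natDegree ≤ (j : ℕ) := by
    refine natDegree_pow_le.trans ?_
    have : (C (γ 1 1 : ℂ) * X - C (γ 0 1 : ℂ)).natDegree ≤ 1 := by
      refine (natDegree_sub_le _ _).trans ?_
      simp only [natDegree_C, zero_le, sup_of_le_left]
      exact (natDegree_C_mul_le _ _).trans natDegree_X_le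
    nlinarith
  have h2 : ((C (γ 0 0 : ℂ) - C (γ 1 0 : ℂ) * X) ^ (k - (j : ℕ))).natDegree ≤ k - (j : ℕ) := by
    refine natDegree_pow_le.trans ?_
    have : (C (γ 0 0 : ℂ) - C (γ 1 0 : ℂ) * X).natDegree ≤ 1 := by
      refine (natDegree_sub_le _ _).trans ?_
      simp only [natDegree_C, zero_le, sup_of_le_right]
      exact (natDegree_C_mul_le _ _).trans natDegree_X_le
    nlinarith
  have hj : (j : ℕ) ≤ k := Nat.lt_succ_iff.mp j.2
  omega

private theorem d01_det (γ : SL(2, ℤ)) : (γ 0 0 : ℂ) * γ 1 1 - (γ 0 1 : ℂ) * γ 1 0 = 1 := by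
  have h := γ.det_coe
  rw [Matrix.det_fin_two] at h
  exact_mod_cast h

private theorem d01_act_form (k : ℕ) (γ : SL(2, ℤ)) (z : ℂ) (hz : (γ 1 0 : ℂ) * z + γ 1 1 ≠ 0) :
    (act k γ).map (algebraMap ℚ ℂ) *ᵥ form k z z k = ((γ 1 0 : ℂ) * z + γ 1 1) ^ k •
      form k (((γ 0 0 : ℂ) * z + γ 0 1) / ((γ 1 0 : ℂ) * z + γ 1 1))
        (((γ 0 0 : ℂ) * z + γ 0 1) / ((γ 1 0 : ℂ) * z + γ 1 1)) k := by
  funext i
  rw [d01_act_apply]
  have h1 : (∑ j : Fin (k + 1), C (form k z z k j) * ((C (γ 1 1 : ℂ) * X - C (γ 0 1 : ℂ)) ^ (j : ℕ) *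
        (C (γ 0 0 : ℂ) - C (γ 1 0 : ℂ) * X) ^ (k - (j : ℕ)))) =
      ((C (γ 1 1 : ℂ) * X - C (γ 0 1 : ℂ)) + C (-z) * (C (γ 0 0 : ℂ) - C (γ 1 0 : ℂ) * X)) ^ k := by
    rw [add_pow, Finset.sum_range]
    refine Finset.sum_congr rfl fun j _ => ?_
    rw [d01_form, mul_pow, C_mul, C_pow]
    have : C ((k.choose (j : ℕ) : ℕ) : ℂ) = ((k.choose (j : ℕ) : ℕ) : ℂ[X]) := by simp
    rw [this]
    ring
  have h2 : (C (γ 1 1 : ℂ) * X - C (γ 0 1 : ℂ)) + C (-z) * (C (γ 0 0 : ℂ) - C (γ 1 0 : ℂ) * X) =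
      C ((γ 1 0 : ℂ) * z + γ 1 1) * (X - C (((γ 0 0 : ℂ) * z + γ 0 1) / ((γ 1 0 : ℂ) * z + γ 1 1))) := by
    have h3 : C ((γ 1 0 : ℂ) * z + γ 1 1) * C (((γ 0 0 : ℂ) * z + γ 0 1) / ((γ 1 0 : ℂ) * z + γ 1 1)) =
        C ((γ 0 0 : ℂ) * z + γ 0 1) := by
      rw [← C_mul]
      congr 1
      field_simp
    have h4 : C ((γ 1 0 : ℂ) * z + γ 1 1) * (X - C (((γ 0 0 : ℂ) * z + γ 0 1) / ((γ 1 0 : ℂ) * z + γ 1 1))) =
        C ((γ 1 0 : ℂ) * z + γ 1 1) * X - C ((γ 0 0 : ℂ) * z + γ 0 1) := by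
      rw [← h3]
      ring
    rw [h4]
    simp only [C_add, C_mul, C_neg]
    ring
  rw [h1, h2, mul_pow, ← C_pow, coeff_C_mul, Pi.smul_apply, smul_eq_mul]
  congr 1
  unfold form
  rw [Nat.sub_self, pow_zero, mul_one]

private theorem d01_act_eval (k : ℕ) (γ : SL(2, ℤ)) (P : Fin (k + 1) → ℂ) (z : ℂ)
    (hz : (γ 1 0 : ℂ) * z + γ 1 1 ≠ 0) :
    pr k ((act k γ).map (algebraMap ℚ ℂ) *ᵥ P) ((act k γ).map (algebraMap ℚ ℂ) *ᵥ form k z z k) =
      pr k P (form k z z k) := by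
  have hsm : ∀ (c : ℂ) (Q : Fin (k + 1) → ℂ), pr k ((act k γ).map (algebraMap ℚ ℂ) *ᵥ P) (c • Q) =
      c * pr k ((act k γ).map (algebraMap ℚ ℂ) *ᵥ P) Q := by
    intro c Q
    unfold pr
    rw [Finset.mul_sum]
    refine Finset.sum_congr rfl fun a _ => ?_
    rw [Pi.smul_apply, smul_eq_mul]
    ring
  rw [d01_act_form k γ z hz, hsm, pr_form_self, pr_form_self]
  simp_rw [d01_act_apply]
  rw [d01_eval k _ (d01_deg k γ P), Polynomial.eval_finsetSum, Finset.mul_sum]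
  refine Finset.sum_congr rfl fun j _ => ?_
  have hj : (j : ℕ) ≤ k := Nat.lt_succ_iff.mp j.2
  set u : ℂ := (γ 1 0 : ℂ) * z + γ 1 1 with hu
  have hdet := d01_det γ
  simp only [eval_mul, eval_C, eval_pow, eval_sub, eval_X]
  have h1 : (γ 1 1 : ℂ) * (((γ 0 0 : ℂ) * z + γ 0 1) / u) - γ 0 1 = z / u := by
    field_simp
    rw [hu]
    linear_combination z * hdet
  have h2 : (γ 0 0 : ℂ) - γ 1 0 * (((γ 0 0 : ℂ) * z + γ 0 1) / u) = 1 / u := by
    field_simp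
    rw [hu]
    linear_combination hdet
  rw [h1, h2, div_pow, div_pow, one_pow]
  have h3 : u ^ k = u ^ (j : ℕ) * u ^ (k - (j : ℕ)) := by rw [← pow_add]; congr 1; omega
  rw [h3]
  field_simp

/-- Invariance of the pairing. -/
theorem pr_act {k : ℕ} (γ : SL(2, ℤ)) (P Q : Fin (k + 1) → ℂ) :
    pr k ((act k γ).map (algebraMap ℚ ℂ) *ᵥ P) ((act k γ).map (algebraMap ℚ ℂ) *ᵥ Q) =
      pr k P Q := by
  set A := (act k γ).map (algebraMap ℚ ℂ) with hA
  -- the difference as a linear functional of `Q`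
  set l : Fin (k + 1) → ℂ := fun j => pr k (A *ᵥ P) (A *ᵥ Pi.single j 1) - pr k P (Pi.single j 1) with hl
  have hlin : ∀ (R : Fin (k + 1) → ℂ) (B : Matrix (Fin (k + 1)) (Fin (k + 1)) ℂ) (Q : Fin (k + 1) → ℂ),
      pr k R (B *ᵥ Q) = ∑ j, Q j * pr k R (B *ᵥ Pi.single j 1) := by
    intro R B Q
    have hs : ∀ (j a : Fin (k + 1)), (B *ᵥ Pi.single j 1) a = B a j := by
      intro j a
      simp
    unfold pr
    simp_rw [hs, Finset.mul_sum]
    rw [Finset.sum_comm]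
    refine Finset.sum_congr rfl fun a _ => ?_
    simp only [Matrix.mulVec, dotProduct]
    rw [Finset.mul_sum]
    refine Finset.sum_congr rfl fun j _ => ?_
    ring
  have hdiff : ∀ Q : Fin (k + 1) → ℂ, pr k (A *ᵥ P) (A *ᵥ Q) - pr k P Q = ∑ j, Q j * l j := by
    intro Q
    have h1 := hlin (A *ᵥ P) A Q
    have h2 := hlin P 1 Q
    simp only [Matrix.one_mulVec] at h2
    rw [h1, h2, ← Finset.sum_sub_distrib]
    refine Finset.sum_congr rfl fun j _ => ?_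
    rw [hl]
    ring
  -- the polynomial `z ↦ L((X - zY)^k)`
  set R : ℂ[X] := ∑ j : Fin (k + 1), C (l j * (k.choose j : ℂ) * (-1) ^ (k - (j : ℕ))) * X ^ (k - (j : ℕ)) with hR
  have hRe : ∀ z : ℂ, R.eval z = ∑ j, form k z z k j * l j := by
    intro z
    rw [hR, Polynomial.eval_finsetSum]
    refine Finset.sum_congr rfl fun j _ => ?_
    rw [d01_form, neg_pow]
    simp only [eval_mul, eval_C, eval_pow, eval_X]
    ring
  have hR0 : R = 0 := by
    apply Polynomial.eq_zero_of_infinite_isRoot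
    have hsub : {z : ℂ | 0 < z.im} ⊆ {z : ℂ | R.IsRoot z} := by
      intro z hz
      have hz' : (0 : ℝ) < z.im := hz
      have hne : (γ 1 0 : ℂ) * z + γ 1 1 ≠ 0 := by
        intro h
        have h1 := congrArg Complex.im h
        simp at h1
        rcases h1 with h1 | h1
        · rw [h1] at h
          simp at h
          have := d01_det γ
          rw [h1, h] at this
          simp at this
        · linarith
      show R.eval z = 0
      rw [hRe, ← hdiff, d01_act_eval k γ P z hne, sub_self]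
    refine Set.Infinite.mono hsub ?_
    refine Set.infinite_of_injective_forall_mem (f := fun n : ℕ => ((n : ℂ) + I)) ?_ ?_
    · intro a b hab
      have := congrArg Complex.re hab
      simpa using this
    · intro n
      show 0 < ((n : ℂ) + I).im
      simp
  have hl0 : ∀ j, l j = 0 := by
    intro j
    have h1 : R.coeff (k - (j : ℕ)) = l j * (k.choose j : ℂ) * (-1) ^ (k - (j : ℕ)) := by
      rw [hR, Polynomial.finsetSum_coeff, Finset.sum_eq_single j]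
      · rw [coeff_C_mul, coeff_X_pow, if_pos rfl, mul_one]
      · intro i _ hi
        rw [coeff_C_mul, coeff_X_pow, if_neg, mul_zero]
        intro h
        apply hi
        have h2 := i.2
        have h3 := j.2
        apply Fin.ext
        omega
      · intro h
        exact absurd (Finset.mem_univ _) h
    rw [hR0, coeff_zero] at h1
    have h2 := d01_choose_ne k j
    have h3 : (-1 : ℂ) ^ (k - (j : ℕ)) ≠ 0 := pow_ne_zero _ (by norm_num)
    have h4 := h1.symm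
    simpa [h2, h3] using h4
  have := hdiff Q
  simp only [hl0, mul_zero, Finset.sum_const_zero] at this
  exact sub_eq_zero.mp this

end Pool.Agent.LibEis68
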