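import Pool.Agent.LibEis68.D01
import Pool.Agent.LibEis68.FormSmul

open Complex Polynomial Matrix
open scoped ComplexConjugate MatrixGroups UpperHalfPlane

namespace Pool.Agent.LibEis68

private lemma d02_pr_smul (k : ℕ) (P Q : Fin (k + 1) → ℂ) (r : ℂ) : pr k P (r • Q) = r * pr k P Q := by
  unfold pr
  rw [Finset.mul_sum]
  refine Finset.sum_congr rfl fun a _ => ?_
  simp only [Pi.smul_apply, smul_eq_mul]
  ring

private lemma d02_cast (k : ℕ) (γ : SL(2, ℤ)) (P : Fin (k + 1) → ℝ) :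
    (fun j => ((((act k γ).map (algebraMap ℚ ℝ) *ᵥ P) j : ℝ) : ℂ)) =
      (act k γ).map (algebraMap ℚ ℂ) *ᵥ (fun j => (P j : ℂ)) := by
  funext j
  simp only [Matrix.mulVec, dotProduct, Matrix.map_apply]
  push_cast
  refine Finset.sum_congr rfl fun i _ => ?_
  simp

/-- `uu` is invariant under `SL₂(ℤ)`. -/
theorem uu_smul {k : ℕ} (hk : Even k) {D : ℂ → Fin (k + 1) → ℝ} {f : ℂ → ℂ} (h : Cusp k D f)
    (γ : SL(2, ℤ)) (τ : ℍ) : uu k D ((γ • τ : ℍ) : ℂ) = uu k D τ := by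
  set q : ℂ := (γ 1 0 : ℂ) * (τ : ℂ) + γ 1 1 with hq
  have hqne : q ≠ 0 := by
    intro h0
    have h1 := congrArg Complex.im h0
    rw [hq] at h1
    simp at h1
    rcases h1 with h1 | h1
    · rw [hq, h1] at h0
      simp at h0
      have hdet := Matrix.SpecialLinearGroup.det_coe γ
      rw [Matrix.det_fin_two, h1, h0] at hdet
      simp at hdet
    · exact τ.im_ne_zero h1
  have hqc : (γ 1 0 : ℂ) * conj (τ : ℂ) + γ 1 1 = conj q := by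
    rw [hq]
    simp
  have hqcne : conj q ≠ 0 := by simpa using hqne
  have hcoe : ((γ • τ : ℍ) : ℂ) = ((γ 0 0 : ℂ) * τ + γ 0 1) / q := by
    rw [UpperHalfPlane.coe_specialLinearGroup_apply]
    simp [hq]
  have hcoec : conj ((γ • τ : ℍ) : ℂ) = ((γ 0 0 : ℂ) * conj (τ : ℂ) + γ 0 1) / conj q := by
    rw [hcoe]
    simp
  have him : ((γ • τ : ℍ) : ℂ).im = τ.im / ‖q‖ ^ 2 := by
    have hdet := Matrix.SpecialLinearGroup.det_coe γ
    rw [Matrix.det_fin_two] at hdet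
    have hdet' : (γ 0 0 : ℝ) * γ 1 1 - (γ 0 1 : ℝ) * γ 1 0 = 1 := by exact_mod_cast hdet
    rw [hcoe, Complex.div_im, ← Complex.normSq_eq_norm_sq]
    have hn : Complex.normSq q ≠ 0 := by simpa using hqne
    have hqre : q.re = (γ 1 0 : ℝ) * τ.re + γ 1 1 := by rw [hq]; simp
    have hqim : q.im = (γ 1 0 : ℝ) * τ.im := by rw [hq]; simp
    have e1 : ((γ 0 0 : ℂ) * (τ : ℂ) + γ 0 1).re = (γ 0 0 : ℝ) * τ.re + γ 0 1 := by simp
    have e2 : ((γ 0 0 : ℂ) * (τ : ℂ) + γ 0 1).im = (γ 0 0 : ℝ) * τ.im := by simp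
    rw [e1, e2, hqre, hqim]
    rw [← sub_div]
    congr 1
    linear_combination τ.im * hdet'
  obtain ⟨m, hm⟩ := hk
  have hk2 : k / 2 = m := by omega
  have hmlt : m < k + 1 := by omega
  have hact := act_mulVec_form k γ (τ : ℂ) (conj (τ : ℂ)) (by rwa [← hq]) (by rwa [hqc]) ⟨m, hmlt⟩
  rw [← hq, hqc, ← hcoe, ← hcoec] at hact
  simp only at hact
  have hkm : k - m = m := by omega
  rw [hkm, ← mul_pow, Complex.mul_conj, Complex.normSq_eq_norm_sq] at hact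
  have hN : (((‖q‖ ^ 2 : ℝ) : ℂ)) ^ m ≠ 0 := by
    have : ‖q‖ ≠ 0 := norm_ne_zero_iff.2 hqne
    exact pow_ne_zero _ (by exact_mod_cast pow_ne_zero 2 this)
  have hform : form k ((γ • τ : ℍ) : ℂ) (conj ((γ • τ : ℍ) : ℂ)) m =
      ((((‖q‖ ^ 2 : ℝ) : ℂ)) ^ m)⁻¹ • ((act k γ).map (algebraMap ℚ ℂ) *ᵥ form k τ (conj (τ : ℂ)) m) := by
    rw [hact, smul_smul, inv_mul_cancel₀ hN, one_smul]
  unfold uu
  rw [h.inv γ τ, d02_cast, hk2, hform, d02_pr_smul, pr_act, him]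
  have e3 : ((((‖q‖ ^ 2 : ℝ) : ℂ)) ^ m)⁻¹ = (((((‖q‖ ^ 2) ^ m)⁻¹ : ℝ)) : ℂ) := by push_cast; rfl
  rw [e3, Complex.re_ofReal_mul, div_pow, UpperHalfPlane.coe_im]
  have hq2 : (‖q‖ ^ 2) ^ m ≠ 0 := by
    have : ‖q‖ ≠ 0 := norm_ne_zero_iff.2 hqne
    positivity
  have hτ : (τ.im) ^ m ≠ 0 := pow_ne_zero _ τ.im_ne_zero
  field_simp

end Pool.Agent.LibEis68
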