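import Pool.Agent.LibEis68.DDefs

open Complex Polynomial Matrix
open scoped ComplexConjugate MatrixGroups UpperHalfPlane

namespace Pool.Agent.LibEis68

private theorem d03_norm_imMul (c : ℂ) : ‖imMul c‖ ≤ ‖c‖ := by
  apply ContinuousLinearMap.opNorm_le_bound _ (norm_nonneg c)
  intro x
  change ‖(c * x).im‖ ≤ ‖c‖ * ‖x‖
  rw [← norm_mul, Real.norm_eq_abs]
  exact Complex.abs_im_le_norm _

private theorem d03_form (k : ℕ) {τ : ℂ} (h1 : |τ.re| ≤ 1) (h2 : 1 ≤ τ.im) (j : Fin (k + 1)) :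
    ‖form k τ τ k j‖ ≤ 4 ^ k * τ.im ^ k := by
  have hn : ‖τ‖ ≤ 2 * τ.im := by
    refine (Complex.norm_le_abs_re_add_abs_im τ).trans ?_
    rw [abs_of_pos (by linarith : (0 : ℝ) < τ.im)]
    linarith
  have e : form k τ τ k j = (-τ) ^ (k - (j : ℕ)) * (k.choose j : ℂ) := by
    rw [form, Nat.sub_self, pow_zero, mul_one, sub_eq_add_neg, ← C_neg,
      Polynomial.coeff_X_add_C_pow]
  rw [e, norm_mul, norm_pow, norm_neg, RCLike.norm_natCast]
  have h3 : ((k.choose j : ℕ) : ℝ) ≤ 2 ^ k := by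
    exact_mod_cast Nat.choose_le_two_pow k j
  have h4 : ‖τ‖ ^ (k - (j : ℕ)) ≤ (2 * τ.im) ^ k :=
    (pow_le_pow_left₀ (norm_nonneg _) hn _).trans
      (pow_le_pow_right₀ (by linarith) (Nat.sub_le _ _))
  calc ‖τ‖ ^ (k - (j : ℕ)) * ((k.choose j : ℕ) : ℝ) ≤ (2 * τ.im) ^ k * 2 ^ k := by gcongr
    _ = 4 ^ k * τ.im ^ k := by rw [mul_pow, show (4 : ℝ) = 2 * 2 by norm_num, mul_pow]; ring

/-- `D` has a limit at the cusp, which is invariant under `τ ↦ τ + 1`. -/
theorem Cusp.limit {k : ℕ} {D : ℂ → Fin (k + 1) → ℝ} {f : ℂ → ℂ} (h : Cusp k D f) :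
    ∃ (w : Fin (k + 1) → ℝ) (C : ℝ), ∀ τ : ℂ, |τ.re| ≤ 1 → 1 ≤ τ.im → ∀ j,
      |D τ j - w j| ≤ C * Real.exp (-τ.im) := by
  obtain ⟨C0, hC0⟩ := h.small
  have hC0' : 0 ≤ C0 := by
    have h1 := hC0 Complex.I (by simp)
    have h2 : 0 ≤ C0 * Real.exp (-2 * Real.pi * Complex.I.im) := (norm_nonneg _).trans h1
    by_contra h3
    have := mul_neg_of_neg_of_pos (not_le.1 h3) (Real.exp_pos (-2 * Real.pi * Complex.I.im))
    linarith
  set K : ℝ := C0 * (4 ^ k * (k.factorial : ℝ)) with hK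
  have hK0 : 0 ≤ K := by positivity
  clear_value K
  -- the derivative is small
  have hd : ∀ τ : ℂ, |τ.re| ≤ 1 → 1 ≤ τ.im → ∀ j, ‖imMul (f τ * form k τ τ k j)‖ ≤
      K * Real.exp (-τ.im) := by
    intro τ h1 h2 j
    refine (d03_norm_imMul _).trans ?_
    rw [norm_mul]
    have h3 := hC0 τ h2
    have h4 := d03_form k h1 h2 j
    have h5 : τ.im ^ k ≤ k.factorial * Real.exp τ.im := by
      have := Real.pow_div_factorial_le_exp τ.im (by linarith) k
      rwa [div_le_iff₀ (by positivity), mul_comm] at this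
    have h6 : Real.exp (-2 * Real.pi * τ.im) * Real.exp τ.im ≤ Real.exp (-τ.im) := by
      rw [← Real.exp_add]
      apply Real.exp_le_exp.2
      have := Real.pi_gt_three
      nlinarith
    calc ‖f τ‖ * ‖form k τ τ k j‖ ≤
          (C0 * Real.exp (-2 * Real.pi * τ.im)) * (4 ^ k * τ.im ^ k) := by gcongr
      _ ≤ (C0 * Real.exp (-2 * Real.pi * τ.im)) * (4 ^ k * (k.factorial * Real.exp τ.im)) := by
          gcongr
      _ = K * (Real.exp (-2 * Real.pi * τ.im) * Real.exp τ.im) := by rw [hK]; ring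
      _ ≤ K * Real.exp (-τ.im) := by gcongr
  -- mean value
  have hm : ∀ z z' : ℂ, |z.re| ≤ 1 → |z'.re| ≤ 1 → 1 ≤ z.im → z.im ≤ z'.im → ∀ j,
      |D z' j - D z j| ≤ K * Real.exp (-z.im) * ‖z' - z‖ := by
    intro z z' h1 h1' h2 h2' j
    set s : Set ℂ := {u | |u.re| ≤ 1 ∧ z.im ≤ u.im} with hs
    have hconv : Convex ℝ s := by
      have e : s = (Complex.reLm ⁻¹' (Set.Icc (-1) 1)) ∩ (Complex.imLm ⁻¹' (Set.Ici z.im)) := by
        ext u
        simp only [hs, Set.mem_ofPred_eq, Set.mem_inter_iff, Set.mem_preimage, Set.mem_Icc,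
          Set.mem_Ici, Complex.reLm_coe, Complex.imLm_coe, abs_le]
      rw [e]
      exact ((convex_Icc _ _).linear_preimage _).inter ((convex_Ici _).linear_preimage _)
    have := hconv.norm_image_sub_le_of_norm_hasFDerivWithin_le (f := fun z => D z j)
      (f' := fun u => imMul (f u * form k u u k j)) (C := K * Real.exp (-z.im)) (x := z) (y := z')
      (fun u hu => ((h.deriv u (by linarith [hu.2]) j)).hasFDerivWithinAt)
      (fun u hu => (hd u hu.1 (by linarith [hu.2]) j).trans (by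
        have : Real.exp (-u.im) ≤ Real.exp (-z.im) := Real.exp_le_exp.2 (by linarith [hu.2])
        gcongr)) ⟨h1, le_refl _⟩ ⟨h1', h2'⟩
    simpa [Real.norm_eq_abs] using this
  -- the limit
  have hr : Real.exp (-1) < 1 := by
    rw [Real.exp_lt_one_iff]; norm_num
  have hlim : ∀ j, ∃ w : ℝ, ∀ n : ℕ, |D ((n + 1 : ℕ) * Complex.I) j - w| ≤
      K * Real.exp (-1) * Real.exp (-1) ^ n / (1 - Real.exp (-1)) := by
    intro j
    have hstep : ∀ n : ℕ, dist (D ((n + 1 : ℕ) * Complex.I) j)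
        (D ((n + 1 + 1 : ℕ) * Complex.I) j) ≤ K * Real.exp (-1) * Real.exp (-1) ^ n := by
      intro n
      rw [Real.dist_eq, abs_sub_comm]
      have := hm ((n + 1 : ℕ) * Complex.I) ((n + 1 + 1 : ℕ) * Complex.I) (by simp) (by simp)
        (by simp) (by simp) j
      refine this.trans (le_of_eq ?_)
      have e1 : ((n + 1 + 1 : ℕ) * Complex.I - (n + 1 : ℕ) * Complex.I : ℂ) = Complex.I := by
        push_cast; ring
      rw [e1, Complex.norm_I, mul_one, ← Real.exp_nat_mul, mul_assoc, ← Real.exp_add]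
      congr 2
      simp
    obtain ⟨w, hw⟩ := cauchySeq_tendsto_of_complete (cauchySeq_of_le_geometric
      (Real.exp (-1)) (K * Real.exp (-1)) hr hstep)
    refine ⟨w, fun n => ?_⟩
    have := dist_le_of_le_geometric_of_tendsto (Real.exp (-1)) (K * Real.exp (-1)) hr hstep hw n
    rwa [Real.dist_eq] at this
  choose w hw using hlim
  refine ⟨w, K * 2 + K / (1 - Real.exp (-1)), fun τ h1 h2 j => ?_⟩
  obtain ⟨n, hn1, hn2⟩ : ∃ n : ℕ, τ.im ≤ (n + 1 : ℕ) ∧ ((n + 1 : ℕ) : ℝ) ≤ τ.im + 1 := by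
    have h3 : 1 ≤ ⌈τ.im⌉₊ := Nat.one_le_ceil_iff.2 (by linarith)
    obtain ⟨n, hn⟩ := Nat.exists_eq_add_of_le h3
    refine ⟨n, ?_, ?_⟩
    · rw [show n + 1 = ⌈τ.im⌉₊ by omega]
      exact Nat.le_ceil _
    · rw [show n + 1 = ⌈τ.im⌉₊ by omega]
      exact (Nat.ceil_lt_add_one (by linarith)).le
  have h5 := hm τ ((n + 1 : ℕ) * Complex.I) h1 (by simp) h2 (by simpa using hn1) j
  have h6 := hw j n
  have h7 : ‖((n + 1 : ℕ) * Complex.I - τ : ℂ)‖ ≤ 2 := by
    refine (Complex.norm_le_abs_re_add_abs_im _).trans ?_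
    have e1 : ((n + 1 : ℕ) * Complex.I - τ : ℂ).re = -τ.re := by simp
    have e2 : ((n + 1 : ℕ) * Complex.I - τ : ℂ).im = (n + 1 : ℕ) - τ.im := by simp
    rw [e1, e2, abs_neg, abs_of_nonneg (show 0 ≤ ((n + 1 : ℕ) : ℝ) - τ.im by linarith)]
    linarith
  have h8 : Real.exp (-1) * Real.exp (-1) ^ n ≤ Real.exp (-τ.im) := by
    rw [← pow_succ', ← Real.exp_nat_mul]
    apply Real.exp_le_exp.2
    linarith
  have h9 : 0 < 1 - Real.exp (-1) := by linarith
  have h10 : |D τ j - D ((n + 1 : ℕ) * Complex.I) j| ≤ K * Real.exp (-τ.im) * 2 := by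
    rw [abs_sub_comm]
    refine h5.trans ?_
    gcongr
  have h11 : K * Real.exp (-1) * Real.exp (-1) ^ n / (1 - Real.exp (-1)) ≤
      K / (1 - Real.exp (-1)) * Real.exp (-τ.im) := by
    rw [mul_assoc, mul_div_right_comm]
    gcongr
  calc |D τ j - w j| ≤ |D τ j - D ((n + 1 : ℕ) * Complex.I) j| +
        |D ((n + 1 : ℕ) * Complex.I) j - w j| := abs_sub_le _ _ _
    _ ≤ K * Real.exp (-τ.im) * 2 + K / (1 - Real.exp (-1)) * Real.exp (-τ.im) :=
        add_le_add h10 (h6.trans h11)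
    _ = (K * 2 + K / (1 - Real.exp (-1))) * Real.exp (-τ.im) := by ring

end Pool.Agent.LibEis68
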