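import Pool.Agent.LibEis68.D03

open Complex Polynomial Matrix
open scoped ComplexConjugate MatrixGroups UpperHalfPlane

namespace Pool.Agent.LibEis68

/-- the matrix of the translation on coefficient vectors -/
private theorem d04_act (k : ℕ) (w : Fin (k + 1) → ℝ) (i : Fin (k + 1)) :
    ((act k ModularGroup.T).map (algebraMap ℚ ℝ) *ᵥ w) i =
      ((∑ j : Fin (k + 1), C (w j) * (X : ℝ[X]) ^ (j : ℕ)).comp (X - C 1)).coeff i := by
  rw [Matrix.mulVec, dotProduct, ← Polynomial.coe_compRingHom_apply, map_sum,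
    Polynomial.finsetSum_coeff]
  apply Finset.sum_congr rfl
  intro j _
  have e1 : (ModularGroup.T : SL(2, ℤ)) 1 1 = 1 := by simp [ModularGroup.T]
  have e2 : (ModularGroup.T : SL(2, ℤ)) 0 1 = 1 := by simp [ModularGroup.T]
  have e3 : (ModularGroup.T : SL(2, ℤ)) 0 0 = 1 := by simp [ModularGroup.T]
  have e4 : (ModularGroup.T : SL(2, ℤ)) 1 0 = 0 := by simp [ModularGroup.T]
  rw [Matrix.map_apply, act, Matrix.of_apply, e1, e2, e3, e4]
  have e5 : ((C ((1 : ℤ) : ℚ) * X - C ((1 : ℤ) : ℚ)) ^ (j : ℕ) *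
      (C ((1 : ℤ) : ℚ) - C ((0 : ℤ) : ℚ) * X) ^ (k - (j : ℕ))) = ((X : ℚ[X]) - C 1) ^ (j : ℕ) := by
    simp
  rw [e5, ← Polynomial.coeff_map, Polynomial.map_pow, Polynomial.map_sub, Polynomial.map_X,
    Polynomial.map_C, map_one]
  simp only [Polynomial.coe_compRingHom_apply, mul_comp, C_comp, pow_comp, X_comp, coeff_C_mul]
  ring

/-- the vector of the limits is invariant -/
private theorem d04_const {k : ℕ} {w : Fin (k + 1) → ℝ}
    (hw : (act k ModularGroup.T).map (algebraMap ℚ ℝ) *ᵥ w = w) (j : Fin (k + 1))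
    (hj : (j : ℕ) ≠ 0) : w j = 0 := by
  set W : ℝ[X] := ∑ j : Fin (k + 1), C (w j) * (X : ℝ[X]) ^ (j : ℕ) with hW
  have hcoeff : ∀ i : Fin (k + 1), W.coeff i = w i := by
    intro i
    rw [hW, Polynomial.finsetSum_coeff]
    simp only [coeff_C_mul, coeff_X_pow]
    rw [Finset.sum_eq_single i]
    · simp
    · intro b _ hb
      have : ¬ ((i : ℕ) = (b : ℕ)) := fun h => hb (Fin.ext h.symm)
      simp [this]
    · simp
  have hdeg : W.natDegree ≤ k := by
    rw [hW]
    apply Polynomial.natDegree_sum_le_of_forall_le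
    intro i _
    refine (Polynomial.natDegree_C_mul_X_pow_le _ _).trans ?_
    omega
  have hcomp : W.comp (X - C 1) = W := by
    ext n
    by_cases hn : n ≤ k
    · have := congrFun hw ⟨n, by omega⟩
      rw [d04_act] at this
      rw [← hW] at this
      rw [this]
      exact (hcoeff ⟨n, by omega⟩).symm
    · rw [Polynomial.coeff_eq_zero_of_natDegree_lt (p := W) (by omega),
        Polynomial.coeff_eq_zero_of_natDegree_lt]
      rw [Polynomial.natDegree_comp, Polynomial.natDegree_X_sub_C, mul_one]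
      omega
  have hval : ∀ n : ℕ, W.eval (-(n : ℝ)) = W.eval 0 := by
    intro n
    induction n with
    | zero => simp
    | succ n ih =>
      rw [← ih]
      conv_rhs => rw [← hcomp]
      rw [Polynomial.eval_comp]
      congr 1
      simp
      ring
  have hWc : W = C (W.eval 0) := by
    apply Polynomial.eq_of_infinite_eval_eq
    apply Set.Infinite.mono (s := Set.range fun n : ℕ => -(n : ℝ))
    · rintro _ ⟨n, rfl⟩
      simp [hval n]
    · apply Set.infinite_range_of_injective
      intro a b hab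
      simpa using hab
  rw [← hcoeff j, hWc, Polynomial.coeff_C, if_neg hj]

/-- The limit is a multiple of `Y^k`. -/
theorem Cusp.limit_eq {k : ℕ} {D : ℂ → Fin (k + 1) → ℝ} {f : ℂ → ℂ} (h : Cusp k D f) :
    ∃ (w C : ℝ), ∀ τ : ℂ, |τ.re| ≤ 1 / 2 → 1 ≤ τ.im → ∀ j : Fin (k + 1),
      |D τ j - (if (j : ℕ) = 0 then w else 0)| ≤ C * Real.exp (-τ.im) := by
  obtain ⟨w, C, hw⟩ := h.limit
  have hinv : (act k ModularGroup.T).map (algebraMap ℚ ℝ) *ᵥ w = w := by
    have hexp : Filter.Tendsto (fun y : ℝ => C * Real.exp (-y)) Filter.atTop (nhds 0) := by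
      have := (Real.tendsto_exp_neg_atTop_nhds_zero).const_mul C
      simpa using this
    have ht : ∀ x : ℝ, |x| ≤ 1 → Filter.Tendsto (fun y : ℝ => D (x + y * Complex.I))
        Filter.atTop (nhds w) := by
      intro x hx
      rw [tendsto_pi_nhds]
      intro j
      rw [tendsto_iff_dist_tendsto_zero]
      apply squeeze_zero' (Filter.Eventually.of_forall fun y => dist_nonneg) _ hexp
      filter_upwards [Filter.eventually_ge_atTop 1] with y hy
      have := hw (x + y * Complex.I) (by simpa using hx) (by simpa using hy) j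
      rw [Real.dist_eq]
      simpa using this
    have h0 := ht 0 (by simp)
    have h1 := ht 1 (by simp)
    have hcont : Continuous fun v : Fin (k + 1) → ℝ =>
        (act k ModularGroup.T).map (algebraMap ℚ ℝ) *ᵥ v := by
      fun_prop
    have h2 := (hcont.tendsto w).comp h0
    refine tendsto_nhds_unique h2 (h1.congr' ?_)
    filter_upwards [Filter.eventually_gt_atTop 0] with y hy
    have h3 := h.inv ModularGroup.T ⟨y * Complex.I, by simpa using hy⟩
    rw [UpperHalfPlane.modular_T_smul, UpperHalfPlane.coe_vadd] at h3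
    simpa using h3
  refine ⟨w 0, C, fun τ h1 h2 j => ?_⟩
  have h3 := hw τ (by linarith) h2 j
  split_ifs with hj
  · have : j = 0 := Fin.ext hj
    rw [this] at h3 ⊢
    exact h3
  · rwa [d04_const hinv j hj] at h3

end Pool.Agent.LibEis68
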