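import Pool.Agent.LibEis68.D04

open Complex Polynomial Matrix
open scoped ComplexConjugate MatrixGroups UpperHalfPlane

namespace Pool.Agent.LibEis68

private theorem d05_coeff (z : ℂ) (i a : ℕ) :
    ‖((X - C z) ^ i : ℂ[X]).coeff a‖ ≤ 2 ^ i * (1 + ‖z‖) ^ i := by
  rw [sub_eq_add_neg, ← C_neg, Polynomial.coeff_X_add_C_pow, norm_mul, norm_pow, norm_neg,
    RCLike.norm_natCast]
  have h1 : ((i.choose a : ℕ) : ℝ) ≤ 2 ^ i := by
    exact_mod_cast Nat.choose_le_two_pow i a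
  have h2 : ‖z‖ ^ (i - a) ≤ (1 + ‖z‖) ^ i :=
    (pow_le_pow_left₀ (norm_nonneg _) (by linarith) _).trans
      (pow_le_pow_right₀ (by linarith [norm_nonneg z]) (Nat.sub_le _ _))
  calc ‖z‖ ^ (i - a) * ((i.choose a : ℕ) : ℝ) ≤ (1 + ‖z‖) ^ i * 2 ^ i := by gcongr
    _ = _ := by ring

private theorem d05_form (k : ℕ) (τ : ℂ) {i : ℕ} (hi : i ≤ k) (j : Fin (k + 1)) :
    ‖form k τ (conj τ) i j‖ ≤ (k + 1) * (2 ^ k * (1 + ‖τ‖) ^ k) := by
  rw [form, Polynomial.coeff_mul]
  refine (norm_sum_le _ _).trans ?_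
  have h1 : ∀ x ∈ Finset.HasAntidiagonal.antidiagonal (j : ℕ),
      ‖((X - C τ) ^ i : ℂ[X]).coeff x.1 * ((X - C (conj τ)) ^ (k - i) : ℂ[X]).coeff x.2‖ ≤
      2 ^ k * (1 + ‖τ‖) ^ k := by
    intro x _
    rw [norm_mul]
    have h2 := d05_coeff τ i x.1
    have h3 := d05_coeff (conj τ) (k - i) x.2
    rw [RCLike.norm_conj] at h3
    calc _ ≤ (2 ^ i * (1 + ‖τ‖) ^ i) * (2 ^ (k - i) * (1 + ‖τ‖) ^ (k - i)) := by
          gcongr
      _ = (2 ^ i * 2 ^ (k - i)) * ((1 + ‖τ‖) ^ i * (1 + ‖τ‖) ^ (k - i)) := by ring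
      _ = 2 ^ k * (1 + ‖τ‖) ^ k := by
          rw [← pow_add, ← pow_add, Nat.add_sub_cancel' hi]
  refine (Finset.sum_le_sum h1).trans ?_
  rw [Finset.sum_const, Finset.Nat.card_antidiagonal, nsmul_eq_mul]
  have h4 : (((j : ℕ) + 1 : ℕ) : ℝ) ≤ (k : ℝ) + 1 := by
    have := j.2
    exact_mod_cast this
  have h5 := norm_nonneg τ
  gcongr

private theorem d05_top (k : ℕ) (z w : ℂ) {i : ℕ} (hi : i ≤ k) :
    form k z w i (Fin.last k) = 1 := by
  have h1 : ((X - C z) ^ i * (X - C w) ^ (k - i) : ℂ[X]).Monic :=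
    ((monic_X_sub_C z).pow i).mul ((monic_X_sub_C w).pow (k - i))
  have h2 : ((X - C z) ^ i * (X - C w) ^ (k - i) : ℂ[X]).natDegree = k := by
    rw [((monic_X_sub_C z).pow i).natDegree_mul ((monic_X_sub_C w).pow (k - i)),
      natDegree_pow, natDegree_pow, natDegree_X_sub_C, natDegree_X_sub_C]
    omega
  have h3 := h1.coeff_natDegree
  rw [h2] at h3
  exact h3

/-- `uu` tends to zero at the cusp. -/
theorem Cusp.uu_small {k : ℕ} (hk : Even k) (hk2 : 2 ≤ k) {D : ℂ → Fin (k + 1) → ℝ} {f : ℂ → ℂ}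
    (h : Cusp k D f) : ∀ ε > 0, ∃ B : ℝ, ∀ τ : ℂ, |τ.re| ≤ 1 / 2 → B ≤ τ.im → |uu k D τ| ≤ ε := by
  have _ := hk
  obtain ⟨w, C, hw⟩ := h.limit_eq
  have hC : 0 ≤ C := by
    have h1 := hw Complex.I (by simp) (by simp) 0
    have h2 := (abs_nonneg _).trans h1
    by_contra h3
    have := mul_neg_of_neg_of_pos (not_le.1 h3) (Real.exp_pos (-Complex.I.im))
    linarith
  intro ε hε
  set A : ℝ := (k + 1) * (C * ((k + 1) * (2 ^ k * 3 ^ k * k.factorial))) with hA
  have hA0 : 0 ≤ A := by positivity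
  refine ⟨max 1 ((|w| + A) / ε), fun τ h1 h2 => ?_⟩
  have hy1 : 1 ≤ τ.im := (le_max_left _ _).trans h2
  have hy2 : (|w| + A) / ε ≤ τ.im := (le_max_right _ _).trans h2
  have hy0 : 0 < τ.im := by linarith
  have hn : ‖τ‖ ≤ 2 * τ.im := by
    refine (Complex.norm_le_abs_re_add_abs_im τ).trans ?_
    rw [abs_of_pos hy0]
    linarith
  have hk2' : k / 2 ≤ k := Nat.div_le_self _ _
  -- the difference vector
  set v : Fin (k + 1) → ℝ := fun j => D τ j - (if (j : ℕ) = 0 then w else 0) with hv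
  have hvb : ∀ j, |v j| ≤ C * Real.exp (-τ.im) := hw τ h1 hy1
  have e1 : pr k (fun j => (D τ j : ℂ)) (form k τ (conj τ) (k / 2)) =
      w + pr k (fun j => (v j : ℂ)) (form k τ (conj τ) (k / 2)) := by
    have e2 : pr k (fun j : Fin (k + 1) => ((if (j : ℕ) = 0 then w else 0 : ℝ) : ℂ))
        (form k τ (conj τ) (k / 2)) = w := by
      rw [pr, Finset.sum_eq_single 0]
      · simp [d05_top k τ (conj τ) hk2']
      · intro b _ hb
        have : (b : ℕ) ≠ 0 := fun h => hb (Fin.ext h)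
        simp [this]
      · simp
    conv_rhs => rw [← e2]
    rw [pr, pr, pr, ← Finset.sum_add_distrib]
    apply Finset.sum_congr rfl
    intro a _
    simp only [hv]
    push_cast
    ring
  have e3 : ‖pr k (fun j => (v j : ℂ)) (form k τ (conj τ) (k / 2))‖ ≤ A := by
    rw [pr]
    refine (norm_sum_le _ _).trans ?_
    have h3 : ∀ a ∈ (Finset.univ : Finset (Fin (k + 1))),
        ‖(-1 : ℂ) ^ (a : ℕ) * ((k.choose a : ℂ))⁻¹ * (v a : ℂ) *
          form k τ (conj τ) (k / 2) (Fin.rev a)‖ ≤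
        C * ((k + 1) * (2 ^ k * 3 ^ k * k.factorial)) := by
      intro a _
      rw [norm_mul, norm_mul, norm_mul, norm_pow, norm_neg, norm_one, one_pow, one_mul, norm_inv,
        RCLike.norm_natCast, Complex.norm_real, Real.norm_eq_abs]
      have h4 : ((k.choose a : ℕ) : ℝ)⁻¹ ≤ 1 := by
        apply inv_le_one_of_one_le₀
        have : 1 ≤ k.choose a := Nat.choose_pos (by have := a.2; omega)
        exact_mod_cast this
      have h5 := hvb a
      have h6 := d05_form k τ hk2' (Fin.rev a)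
      have h7 : (1 + ‖τ‖) ^ k ≤ 3 ^ k * τ.im ^ k := by
        rw [← mul_pow]
        apply pow_le_pow_left₀ (by positivity)
        linarith
      have h8 : τ.im ^ k ≤ k.factorial * Real.exp τ.im := by
        have := Real.pow_div_factorial_le_exp τ.im (by linarith) k
        rwa [div_le_iff₀ (by positivity), mul_comm] at this
      calc _ ≤ 1 * (C * Real.exp (-τ.im)) * ((k + 1) * (2 ^ k * (1 + ‖τ‖) ^ k)) := by gcongr
        _ ≤ 1 * (C * Real.exp (-τ.im)) * ((k + 1) * (2 ^ k * (3 ^ k *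
              (k.factorial * Real.exp τ.im)))) := by
            gcongr
            exact h7.trans (by gcongr)
        _ = C * ((k + 1) * (2 ^ k * 3 ^ k * k.factorial)) *
              (Real.exp (-τ.im) * Real.exp τ.im) := by ring
        _ = C * ((k + 1) * (2 ^ k * 3 ^ k * k.factorial)) := by
            rw [← Real.exp_add, neg_add_cancel, Real.exp_zero, mul_one]
    refine (Finset.sum_le_sum h3).trans ?_
    rw [Finset.sum_const, Finset.card_univ, Fintype.card_fin, nsmul_eq_mul, hA]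
    push_cast
    exact le_refl _
  have e4 : |(pr k (fun j => (D τ j : ℂ)) (form k τ (conj τ) (k / 2))).re| ≤ |w| + A := by
    refine (Complex.abs_re_le_norm _).trans ?_
    rw [e1]
    refine (norm_add_le _ _).trans ?_
    rw [Complex.norm_real, Real.norm_eq_abs]
    gcongr
  have e5 : τ.im ≤ τ.im ^ (k / 2) := by
    have : 1 ≤ k / 2 := by omega
    calc τ.im = τ.im ^ 1 := (pow_one _).symm
      _ ≤ τ.im ^ (k / 2) := pow_le_pow_right₀ hy1 this
  rw [uu, abs_mul, abs_of_pos (inv_pos.2 (pow_pos hy0 _))]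
  calc (τ.im ^ (k / 2))⁻¹ * |(pr k (fun j => (D τ j : ℂ)) (form k τ (conj τ) (k / 2))).re| ≤
        (τ.im)⁻¹ * (|w| + A) := by
          gcongr
    _ ≤ ε := by
          rw [div_le_iff₀ hε] at hy2
          rw [inv_mul_le_iff₀ hy0]
          linarith

end Pool.Agent.LibEis68
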