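import Pool.Agent.LibEis68.D01

open Complex Polynomial Matrix
open scoped ComplexConjugate MatrixGroups UpperHalfPlane

namespace Pool.Agent.LibEis68

/-! ### Coefficientwise derivatives of polynomial valued functions -/

private def HD (F : ℝ → ℝ[X]) (F' : ℝ[X]) (t : ℝ) : Prop :=
  ∀ n, HasDerivAt (fun s => (F s).coeff n) (F'.coeff n) t

private lemma HD.const (p : ℝ[X]) (t : ℝ) : HD (fun _ => p) 0 t := by
  intro n
  simpa using hasDerivAt_const t (p.coeff n)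

private lemma HD.C {g : ℝ → ℝ} {g' t : ℝ} (h : HasDerivAt g g' t) :
    HD (fun s => C (g s)) (C g') t := by
  intro n
  simp only [coeff_C]
  split_ifs
  · exact h
  · exact hasDerivAt_const t 0

private lemma HD.add {F G : ℝ → ℝ[X]} {F' G' : ℝ[X]} {t : ℝ} (hF : HD F F' t) (hG : HD G G' t) :
    HD (fun s => F s + G s) (F' + G') t := by
  intro n
  simpa only [coeff_add] using (hF n).fun_add (hG n)

private lemma HD.sub {F G : ℝ → ℝ[X]} {F' G' : ℝ[X]} {t : ℝ} (hF : HD F F' t) (hG : HD G G' t) :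
    HD (fun s => F s - G s) (F' - G') t := by
  intro n
  simpa only [coeff_sub] using (hF n).fun_sub (hG n)

private lemma HD.mul {F G : ℝ → ℝ[X]} {F' G' : ℝ[X]} {t : ℝ} (hF : HD F F' t) (hG : HD G G' t) :
    HD (fun s => F s * G s) (F' * G t + F t * G') t := by
  intro n
  simp only [coeff_mul, coeff_add, ← Finset.sum_add_distrib]
  exact HasDerivAt.fun_sum fun x _ => (hF x.1).mul (hG x.2)

private lemma HD.pow {F : ℝ → ℝ[X]} {F' : ℝ[X]} {t : ℝ} (hF : HD F F' t) (n : ℕ) :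
    HD (fun s => F s ^ n) ((n : ℝ[X]) * F t ^ (n - 1) * F') t := by
  induction n with
  | zero => simpa using HD.const 1 t
  | succ n ih =>
    have h := ih.mul hF
    have e : ((n + 1 : ℕ) : ℝ[X]) * F t ^ (n + 1 - 1) * F' =
        (n : ℝ[X]) * F t ^ (n - 1) * F' * F t + F t ^ n * F' := by
      rcases n with _ | n
      · simp
      · simp only [Nat.add_sub_cancel]
        push_cast
        ring
    rw [e]
    simpa [pow_succ] using h

private lemma HD.congr {F : ℝ → ℝ[X]} {F' F'' : ℝ[X]} {t : ℝ} (hF : HD F F' t) (h : F' = F'') :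
    HD F F'' t := h ▸ hF

/-! ### The polynomial `((X - x)^2 + y^2) / y` -/

private noncomputable def RR (x y : ℝ) : ℝ[X] := C y⁻¹ * (X - C x) ^ 2 + C y
private noncomputable def Rx (x y : ℝ) : ℝ[X] := C (-2 * y⁻¹) * (X - C x)
private noncomputable def Ry (x y : ℝ) : ℝ[X] := C (-(y⁻¹ ^ 2)) * (X - C x) ^ 2 + 1
private noncomputable def Rxx (y : ℝ) : ℝ[X] := C (2 * y⁻¹)
private noncomputable def Ryy (x y : ℝ) : ℝ[X] := C (2 * y⁻¹ ^ 3) * (X - C x) ^ 2

private noncomputable def Fx (i : ℕ) (x y : ℝ) : ℝ[X] := ((i + 1 : ℕ) : ℝ[X]) * RR x y ^ i * Rx x y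
private noncomputable def Fy (i : ℕ) (x y : ℝ) : ℝ[X] := ((i + 1 : ℕ) : ℝ[X]) * RR x y ^ i * Ry x y
private noncomputable def Fxx (i : ℕ) (x y : ℝ) : ℝ[X] :=
  ((i + 1 : ℕ) : ℝ[X]) * ((i : ℝ[X]) * RR x y ^ (i - 1) * Rx x y ^ 2 + RR x y ^ i * Rxx y)
private noncomputable def Fyy (i : ℕ) (x y : ℝ) : ℝ[X] :=
  ((i + 1 : ℕ) : ℝ[X]) * ((i : ℝ[X]) * RR x y ^ (i - 1) * Ry x y ^ 2 + RR x y ^ i * Ryy x y)

private lemma hd_lin_x (x t : ℝ) : HD (fun s => X - C (x + s)) (-1) t := by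
  have h : HasDerivAt (fun s : ℝ => x + s) 1 t := (hasDerivAt_id t).const_add x
  refine ((HD.const X t).sub (HD.C h)).congr ?_
  simp

private lemma hd_sq (x t : ℝ) :
    HD (fun s => (X - C (x + s)) ^ 2) (C (-2) * (X - C (x + t))) t := by
  refine ((hd_lin_x x t).pow 2).congr ?_
  have : (C (-2) : ℝ[X]) = -2 := by rw [C_neg, map_ofNat C 2]
  rw [this]
  push_cast
  ring

private lemma RR_x (x y : ℝ) : HD (fun s => RR (x + s) y) (Rx x y) 0 := by
  unfold RR Rx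
  refine (((HD.const (C y⁻¹) 0).mul (hd_sq x 0)).add (HD.const (C y) 0)).congr ?_
  simp only [zero_mul, add_zero, zero_add, C_mul]
  ring

private lemma Rx_x (x y : ℝ) : HD (fun s => Rx (x + s) y) (Rxx y) 0 := by
  unfold Rx Rxx
  refine ((HD.const (C (-2 * y⁻¹)) 0).mul (hd_lin_x x 0)).congr ?_
  simp only [zero_mul, zero_add, C_mul, C_neg]
  ring

private lemma hasDerivAt_inv' {y : ℝ} (hy : y ≠ 0) :
    HasDerivAt (fun s : ℝ => (y + s)⁻¹) (-(y⁻¹ ^ 2)) 0 := by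
  have h : HasDerivAt (fun s : ℝ => y + s) 1 0 := (hasDerivAt_id (0:ℝ)).const_add y
  have := h.inv (by simpa using hy)
  refine this.congr_deriv ?_
  simp only [add_zero]
  field_simp

private lemma RR_y (x : ℝ) {y : ℝ} (hy : y ≠ 0) : HD (fun s => RR x (y + s)) (Ry x y) 0 := by
  unfold RR Ry
  have h : HasDerivAt (fun s : ℝ => y + s) 1 0 := (hasDerivAt_id (0:ℝ)).const_add y
  refine (((HD.C (hasDerivAt_inv' hy)).mul (HD.const ((X - C x) ^ 2) 0)).add (HD.C h)).congr ?_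
  simp

private lemma Ry_y (x : ℝ) {y : ℝ} (hy : y ≠ 0) : HD (fun s => Ry x (y + s)) (Ryy x y) 0 := by
  unfold Ry Ryy
  have h : HasDerivAt (fun s : ℝ => -((y + s)⁻¹ ^ 2)) (2 * y⁻¹ ^ 3) 0 := by
    refine ((hasDerivAt_inv' hy).pow 2).neg.congr_deriv ?_
    simp
    ring
  refine (((HD.C h).mul (HD.const ((X - C x) ^ 2) 0)).add (HD.const 1 0)).congr ?_
  simp

private lemma F_x (i : ℕ) (x y : ℝ) : HD (fun s => RR (x + s) y ^ (i + 1)) (Fx i x y) 0 := by
  refine ((RR_x x y).pow (i + 1)).congr ?_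
  simp [Fx]

private lemma F_y (i : ℕ) (x : ℝ) {y : ℝ} (hy : y ≠ 0) :
    HD (fun s => RR x (y + s) ^ (i + 1)) (Fy i x y) 0 := by
  refine ((RR_y x hy).pow (i + 1)).congr ?_
  simp [Fy]

private lemma F_xx (i : ℕ) (x y : ℝ) : HD (fun s => Fx i (x + s) y) (Fxx i x y) 0 := by
  unfold Fx
  refine (((HD.const ((i + 1 : ℕ) : ℝ[X]) 0).mul ((RR_x x y).pow i)).mul (Rx_x x y)).congr ?_
  simp only [add_zero, zero_mul, zero_add, Fxx]
  ring

private lemma F_yy (i : ℕ) (x : ℝ) {y : ℝ} (hy : y ≠ 0) :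
    HD (fun s => Fy i x (y + s)) (Fyy i x y) 0 := by
  unfold Fy
  refine (((HD.const ((i + 1 : ℕ) : ℝ[X]) 0).mul ((RR_y x hy).pow i)).mul (Ry_y x hy)).congr ?_
  simp only [add_zero, zero_mul, zero_add, Fyy]
  ring

private lemma RR_lap1 (x : ℝ) {y : ℝ} (hy : y ≠ 0) :
    C (y ^ 2) * (Rx x y ^ 2 + Ry x y ^ 2) = RR x y ^ 2 := by
  have h1 : (C y : ℝ[X]) * C y⁻¹ = 1 := by rw [← C_mul, mul_inv_cancel₀ hy, C_1]
  unfold Rx Ry RR
  simp only [C_mul, C_neg, C_pow]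
  have h2 : (C (2 : ℝ) : ℝ[X]) = 2 := map_ofNat C 2
  rw [h2]
  generalize (C y : ℝ[X]) = a at *
  generalize (C y⁻¹ : ℝ[X]) = b at *
  generalize (X - C x : ℝ[X]) = u
  linear_combination (4 * a * b * u ^ 2 + 4 * u ^ 2 + b ^ 4 * u ^ 4 * 0 +
    (a * b + 1) * b ^ 2 * u ^ 4 - 2 * (a * b + 1) * u ^ 2 - 2 * u ^ 2) * h1

private lemma RR_lap2 (x : ℝ) {y : ℝ} (hy : y ≠ 0) :
    C (y ^ 2) * (Rxx y + Ryy x y) = 2 * RR x y := by
  have h1 : (C y : ℝ[X]) * C y⁻¹ = 1 := by rw [← C_mul, mul_inv_cancel₀ hy, C_1]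
  unfold Rxx Ryy RR
  simp only [C_mul, C_pow]
  have h2 : (C (2 : ℝ) : ℝ[X]) = 2 := map_ofNat C 2
  rw [h2]
  generalize (C y : ℝ[X]) = a at *
  generalize (C y⁻¹ : ℝ[X]) = b at *
  generalize (X - C x : ℝ[X]) = u
  linear_combination (2 * a + 2 * (a * b + 1) * b * u ^ 2) * h1

private lemma F_lap (i : ℕ) (x : ℝ) {y : ℝ} (hy : y ≠ 0) :
    C (y ^ 2) * (Fxx i x y + Fyy i x y) =
      ((i + 1 : ℕ) : ℝ[X]) * ((i + 2 : ℕ) : ℝ[X]) * RR x y ^ (i + 1) := by
  have h1 := RR_lap1 x hy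
  have h2 := RR_lap2 x hy
  unfold Fxx Fyy
  rcases i with _ | i
  · simp only [Nat.cast_zero, zero_mul, zero_add, pow_zero, one_mul, pow_one]
    push_cast
    linear_combination h2
  · simp only [Nat.add_sub_cancel]
    push_cast
    linear_combination ((i : ℝ[X]) + 2) * ((i : ℝ[X]) + 1) * RR x y ^ i * h1 +
      ((i : ℝ[X]) + 2) * RR x y ^ (i + 1) * h2

/-! ### The real pairing -/

private noncomputable def prR (k : ℕ) (P Q : Fin (k + 1) → ℝ) : ℝ :=
  ∑ a : Fin (k + 1), (-1) ^ (a : ℕ) * ((k.choose a : ℝ))⁻¹ * P a * Q (Fin.rev a)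

private def cf (k : ℕ) (p : ℝ[X]) : Fin (k + 1) → ℝ := fun a => p.coeff a

private lemma pr_ofReal (k : ℕ) (P Q : Fin (k + 1) → ℝ) :
    pr k (fun a => (P a : ℂ)) (fun a => (Q a : ℂ)) = (prR k P Q : ℂ) := by
  simp [pr, prR]

private lemma prR_im (k : ℕ) (w : Fin (k + 1) → ℂ) (Q : Fin (k + 1) → ℝ) :
    prR k (fun a => (w a).im) Q = (pr k w (fun a => (Q a : ℂ))).im := by
  rw [pr, prR, Complex.im_sum]
  refine Finset.sum_congr rfl fun a _ => ?_
  have h : ((-1 : ℂ) ^ (a : ℕ) * ((k.choose a : ℂ))⁻¹ * w a * (Q (Fin.rev a) : ℂ)) =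
      (((-1 : ℝ) ^ (a : ℕ) * ((k.choose a : ℝ))⁻¹ * Q (Fin.rev a) : ℝ) : ℂ) * w a := by
    push_cast
    ring
  rw [h, Complex.im_ofReal_mul]
  ring

private lemma prR_hasDerivAt (k : ℕ) {Dt : ℝ → Fin (k + 1) → ℝ} {d : Fin (k + 1) → ℝ}
    {F : ℝ → ℝ[X]} {F' : ℝ[X]} {t : ℝ} (hD : ∀ a, HasDerivAt (fun s => Dt s a) (d a) t)
    (hF : HD F F' t) :
    HasDerivAt (fun s => prR k (Dt s) (cf k (F s)))
      (prR k d (cf k (F t)) + prR k (Dt t) (cf k F')) t := by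
  unfold prR cf
  rw [← Finset.sum_add_distrib]
  refine HasDerivAt.fun_sum fun a _ => ?_
  have h := ((hD a).const_mul ((-1) ^ (a : ℕ) * ((k.choose a : ℝ))⁻¹)).mul (hF (Fin.rev a))
  refine h.congr_deriv ?_
  ring

private lemma prR_form {k : ℕ} (hk : Even k) (f v τ : ℂ) {q : ℝ[X]} (hq : q.natDegree ≤ k) :
    prR k (fun a => (f * form k τ τ k a * v).im) (cf k q) = (f * v * aeval τ q).im := by
  rw [prR_im]
  congr 1
  have h1 : pr k (fun a => f * form k τ τ k a * v) (fun a => (cf k q a : ℂ)) =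
      f * v * pr k (form k τ τ k) (fun a => (cf k q a : ℂ)) := by
    unfold pr
    rw [Finset.mul_sum]
    exact Finset.sum_congr rfl fun a _ => by ring
  rw [h1, pr_comm hk, pr_form_self]
  congr 1
  rw [aeval_eq_sum_range' (Nat.lt_succ_of_le hq), Finset.sum_range]
  refine Finset.sum_congr rfl fun a _ => ?_
  simp [cf]

private lemma aeval_RR {τ : ℂ} (hτ : 0 < τ.im) : aeval τ (RR τ.re τ.im) = 0 := by
  have h : τ - (τ.re : ℂ) = τ.im * I := by
    apply Complex.ext <;> simp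
  have hy : (τ.im : ℂ) ≠ 0 := by exact_mod_cast hτ.ne'
  simp only [RR, map_add, map_mul, map_pow, map_sub, aeval_X, aeval_C, Complex.coe_algebraMap, h]
  push_cast
  rw [mul_pow, I_sq]
  field_simp
  ring

private lemma aeval_Rx {τ : ℂ} (hτ : 0 < τ.im) : aeval τ (Rx τ.re τ.im) = -2 * I := by
  have h : τ - (τ.re : ℂ) = τ.im * I := by
    apply Complex.ext <;> simp
  have hy : (τ.im : ℂ) ≠ 0 := by exact_mod_cast hτ.ne'
  simp only [Rx, map_mul, map_sub, aeval_X, aeval_C, Complex.coe_algebraMap, h]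
  push_cast
  field_simp

private lemma aeval_Ry {τ : ℂ} (hτ : 0 < τ.im) : aeval τ (Ry τ.re τ.im) = 2 := by
  have h : τ - (τ.re : ℂ) = τ.im * I := by
    apply Complex.ext <;> simp
  have hy : (τ.im : ℂ) ≠ 0 := by exact_mod_cast hτ.ne'
  simp only [Ry, map_add, map_mul, map_pow, map_sub, aeval_X, aeval_C, Complex.coe_algebraMap, h,
    map_one]
  push_cast
  rw [mul_pow, I_sq]
  field_simp
  ring

private lemma natDegree_RR (x y : ℝ) : (RR x y).natDegree ≤ 2 := by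
  unfold RR
  compute_degree

private lemma natDegree_Rx (x y : ℝ) : (Rx x y).natDegree ≤ 2 := by
  unfold Rx
  refine le_trans (b := 1) ?_ (by norm_num)
  compute_degree

private lemma natDegree_Ry (x y : ℝ) : (Ry x y).natDegree ≤ 2 := by
  unfold Ry
  compute_degree

private lemma natDegree_RR_pow (x y : ℝ) (i : ℕ) : (RR x y ^ i).natDegree ≤ 2 * i := by
  refine natDegree_pow_le.trans ?_
  have := natDegree_RR x y
  nlinarith

private lemma natDegree_F {p : ℝ[X]} (hp : p.natDegree ≤ 2) (x y : ℝ) (i : ℕ) :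
    (((i + 1 : ℕ) : ℝ[X]) * RR x y ^ i * p).natDegree ≤ 2 * (i + 1) := by
  have h1 := natDegree_RR_pow x y i
  have h2 : (((i + 1 : ℕ) : ℝ[X]) * RR x y ^ i).natDegree ≤ 2 * i := by
    refine natDegree_mul_le.trans ?_
    rw [natDegree_natCast, zero_add]
    exact h1
  refine natDegree_mul_le.trans ?_
  omega

private lemma uu_eq {k i : ℕ} (hk : k = 2 * (i + 1)) (D : ℂ → Fin (k + 1) → ℝ) {τ : ℂ}
    (hτ : 0 < τ.im) : uu k D τ = prR k (D τ) (cf k (RR τ.re τ.im ^ (i + 1))) := by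
  have h2 : k / 2 = i + 1 := by omega
  have h3 : k - (i + 1) = i + 1 := by omega
  have hy : (τ.im : ℂ) ≠ 0 := by exact_mod_cast hτ.ne'
  have hform : form k τ (conj τ) (k / 2) = fun a =>
      (τ.im : ℂ) ^ (i + 1) * ((cf k (RR τ.re τ.im ^ (i + 1)) a : ℝ) : ℂ) := by
    have hpoly : (X - C τ) * (X - C (conj τ)) =
        C (τ.im : ℂ) * (RR τ.re τ.im).map (algebraMap ℝ ℂ) := by
      have e1 : τ = τ.re + τ.im * I := (Complex.re_add_im τ).symm
      have e2 : conj τ = τ.re - τ.im * I := by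
        apply Complex.ext <;> simp
      have e3 : (C (τ.im : ℂ) : ℂ[X]) * C ((τ.im : ℂ)⁻¹) = 1 := by
        rw [← C_mul, mul_inv_cancel₀ hy, C_1]
      have e4 : (C I : ℂ[X]) ^ 2 = -1 := by
        rw [← C_pow, I_sq, C_neg, C_1]
      rw [e2]
      nth_rw 1 [e1]
      simp only [RR, Polynomial.map_add, Polynomial.map_mul, Polynomial.map_pow,
        Polynomial.map_sub, map_X, map_C, Complex.coe_algebraMap, C_add, C_sub, C_mul,
        Complex.ofReal_inv]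
      linear_combination (-(X - C (τ.re : ℂ)) ^ 2) * e3 - (C (τ.im : ℂ)) ^ 2 * e4
    funext a
    simp only [form, h2, h3, cf]
    rw [← mul_pow, hpoly, mul_pow, ← C_pow, coeff_C_mul, ← Polynomial.map_pow, coeff_map]
    rfl
  rw [uu, hform, h2]
  have h4 : pr k (fun j => (D τ j : ℂ)) (fun a =>
      (τ.im : ℂ) ^ (i + 1) * ((cf k (RR τ.re τ.im ^ (i + 1)) a : ℝ) : ℂ)) =
      ((τ.im ^ (i + 1) * prR k (D τ) (cf k (RR τ.re τ.im ^ (i + 1))) : ℝ) : ℂ) := by
    push_cast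
    rw [← pr_ofReal]
    unfold pr
    rw [Finset.mul_sum]
    exact Finset.sum_congr rfl fun a _ => by ring
  rw [h4, Complex.ofReal_re, inv_mul_cancel_left₀]
  exact pow_ne_zero _ hτ.ne'

/-- `uu` is an eigenfunction of the hyperbolic Laplacian with eigenvalue `(k/2) (k/2 + 1)`. -/
theorem Cusp.laplace {k : ℕ} (hk : Even k) (hk2 : 2 ≤ k) {D : ℂ → Fin (k + 1) → ℝ} {f : ℂ → ℂ}
    (h : Cusp k D f) : ∃ ux uy uxx uyy : ℂ → ℝ, ∀ τ : ℂ, 0 < τ.im →
      HasDerivAt (fun t : ℝ => uu k D (τ + t)) (ux τ) 0 ∧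
      HasDerivAt (fun t : ℝ => ux (τ + t)) (uxx τ) 0 ∧
      HasDerivAt (fun t : ℝ => uu k D (τ + t * I)) (uy τ) 0 ∧
      HasDerivAt (fun t : ℝ => uy (τ + t * I)) (uyy τ) 0 ∧
      τ.im ^ 2 * (uxx τ + uyy τ) = (k / 2 : ℕ) * ((k / 2 : ℕ) + 1) * uu k D τ := by
  obtain ⟨i, hi⟩ : ∃ i, k = 2 * (i + 1) := by
    obtain ⟨r, hr⟩ := hk
    exact ⟨r - 1, by omega⟩
  have hk2' : k / 2 = i + 1 := by omega
  -- derivatives of `D`
  have hD : ∀ (v τ : ℂ), 0 < τ.im → ∀ a, HasDerivAt (fun t : ℝ => D (τ + t * v) a)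
      ((f τ * form k τ τ k a * v).im) 0 := by
    intro v τ hτ a
    have h1 := h.deriv τ hτ a
    have h2 : HasDerivAt (fun t : ℝ => τ + t * v) v 0 := by
      have := ((Complex.ofRealCLM.hasDerivAt (x := (0 : ℝ))).mul_const v).const_add τ
      simpa using this
    have h3 : HasFDerivAt (fun z => D z a) (imMul (f τ * form k τ τ k a))
        ((fun t : ℝ => τ + t * v) 0) := by simpa using h1
    have h4 := h3.comp_hasDerivAt (0 : ℝ) h2
    simpa [imMul, Function.comp_def] using h4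
  refine ⟨fun τ => prR k (D τ) (cf k (Fx i τ.re τ.im)),
    fun τ => prR k (D τ) (cf k (Fy i τ.re τ.im)),
    fun τ => (f τ * 1 * aeval τ (Fx i τ.re τ.im)).im + prR k (D τ) (cf k (Fxx i τ.re τ.im)),
    fun τ => (f τ * I * aeval τ (Fy i τ.re τ.im)).im + prR k (D τ) (cf k (Fyy i τ.re τ.im)),
    fun τ hτ => ?_⟩
  have hDx : ∀ a, HasDerivAt (fun t : ℝ => D (τ + t) a) ((f τ * form k τ τ k a * 1).im) 0 := by
    intro a
    simpa using hD 1 τ hτ a
  have hDy := hD I τ hτ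
  have hyne : τ.im ≠ 0 := hτ.ne'
  have hev : ∀ᶠ t : ℝ in nhds (0 : ℝ), 0 < (τ + (t : ℂ) * I).im := by
    have : Filter.Tendsto (fun t : ℝ => τ.im + t) (nhds 0) (nhds (τ.im + 0)) :=
      tendsto_const_nhds.add Filter.tendsto_id
    rw [add_zero] at this
    filter_upwards [this.eventually (lt_mem_nhds hτ)] with t ht
    simpa using ht
  have hdeg0 : (RR τ.re τ.im ^ (i + 1)).natDegree ≤ k := by
    rw [hi]; exact natDegree_RR_pow _ _ _
  have hdegx : (Fx i τ.re τ.im).natDegree ≤ k := by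
    rw [hi]; exact natDegree_F (natDegree_Rx _ _) _ _ _
  have hdegy : (Fy i τ.re τ.im).natDegree ≤ k := by
    rw [hi]; exact natDegree_F (natDegree_Ry _ _) _ _ _
  have hz : ∀ v : ℂ, (f τ * v * aeval τ (RR τ.re τ.im ^ (i + 1))).im = 0 := by
    intro v
    rw [map_pow, aeval_RR hτ]
    simp
  refine ⟨?_, ?_, ?_, ?_, ?_⟩
  · have h1 := prR_hasDerivAt k hDx (F_x i τ.re τ.im)
    have h2 : (fun t : ℝ => uu k D (τ + t)) =
        fun t : ℝ => prR k (D (τ + t)) (cf k (RR (τ.re + t) τ.im ^ (i + 1))) := by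
      funext t
      rw [uu_eq hi D (by simpa using hτ)]
      simp
    rw [h2]
    refine h1.congr_deriv ?_
    simp only [add_zero, Complex.ofReal_zero]
    rw [prR_form hk _ _ _ hdeg0, hz]
    simp
  · have h1 := prR_hasDerivAt k hDx (F_xx i τ.re τ.im)
    have h2 : (fun t : ℝ => prR k (D (τ + t)) (cf k (Fx i (τ + t : ℂ).re (τ + t : ℂ).im))) =
        fun t : ℝ => prR k (D (τ + t)) (cf k (Fx i (τ.re + t) τ.im)) := by
      funext t
      simp
    rw [h2]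
    refine h1.congr_deriv ?_
    simp only [add_zero, Complex.ofReal_zero]
    rw [prR_form hk _ _ _ hdegx]
  · have h1 := prR_hasDerivAt k hDy (F_y i τ.re hyne)
    have h2 : (fun t : ℝ => uu k D (τ + t * I)) =ᶠ[nhds 0]
        fun t : ℝ => prR k (D (τ + t * I)) (cf k (RR τ.re (τ.im + t) ^ (i + 1))) := by
      filter_upwards [hev] with t ht
      rw [uu_eq hi D ht]
      simp
    refine (h1.congr_of_eventuallyEq h2).congr_deriv ?_
    simp only [add_zero, Complex.ofReal_zero, zero_mul]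
    rw [prR_form hk _ _ _ hdeg0, hz]
    simp
  · have h1 := prR_hasDerivAt k hDy (F_yy i τ.re hyne)
    have h2 : (fun t : ℝ => prR k (D (τ + t * I))
        (cf k (Fy i (τ + t * I : ℂ).re (τ + t * I : ℂ).im))) =
        fun t : ℝ => prR k (D (τ + t * I)) (cf k (Fy i τ.re (τ.im + t))) := by
      funext t
      simp
    rw [h2]
    refine h1.congr_deriv ?_
    simp only [add_zero, Complex.ofReal_zero, zero_mul]
    rw [prR_form hk _ _ _ hdegy]
  · have h1 : f τ * 1 * aeval τ (Fx i τ.re τ.im) + f τ * I * aeval τ (Fy i τ.re τ.im) = 0 := by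
      simp only [Fx, Fy, map_mul, aeval_Rx hτ, aeval_Ry hτ]
      ring
    have h1' : (f τ * 1 * aeval τ (Fx i τ.re τ.im)).im +
        (f τ * I * aeval τ (Fy i τ.re τ.im)).im = 0 := by
      rw [← Complex.add_im, h1, Complex.zero_im]
    have h2 : τ.im ^ 2 * (prR k (D τ) (cf k (Fxx i τ.re τ.im)) +
        prR k (D τ) (cf k (Fyy i τ.re τ.im))) =
        prR k (D τ) (cf k (C (τ.im ^ 2) * (Fxx i τ.re τ.im + Fyy i τ.re τ.im))) := by
      simp only [prR, cf, coeff_C_mul, coeff_add]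
      rw [← Finset.sum_add_distrib, Finset.mul_sum]
      exact Finset.sum_congr rfl fun a _ => by ring
    have h3 : prR k (D τ) (cf k (((i + 1 : ℕ) : ℝ[X]) * ((i + 2 : ℕ) : ℝ[X]) *
        RR τ.re τ.im ^ (i + 1))) =
        (i + 1 : ℝ) * (i + 2) * prR k (D τ) (cf k (RR τ.re τ.im ^ (i + 1))) := by
      have : ((i + 1 : ℕ) : ℝ[X]) * ((i + 2 : ℕ) : ℝ[X]) * RR τ.re τ.im ^ (i + 1) =
          C ((i + 1 : ℝ) * (i + 2)) * RR τ.re τ.im ^ (i + 1) := by
        have e2 : (C (2 : ℝ) : ℝ[X]) = 2 := map_ofNat C 2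
        simp [e2]
      rw [this]
      simp only [prR, cf, coeff_C_mul]
      rw [Finset.mul_sum]
      exact Finset.sum_congr rfl fun a _ => by ring
    have h4 := F_lap i τ.re hyne
    rw [h4, h3] at h2
    rw [uu_eq hi D hτ, hk2']
    push_cast
    have h5 : τ.im ^ 2 * ((f τ * 1 * aeval τ (Fx i τ.re τ.im)).im +
        prR k (D τ) (cf k (Fxx i τ.re τ.im)) + ((f τ * I * aeval τ (Fy i τ.re τ.im)).im +
        prR k (D τ) (cf k (Fyy i τ.re τ.im)))) = τ.im ^ 2 * (((f τ * 1 *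
        aeval τ (Fx i τ.re τ.im)).im + (f τ * I * aeval τ (Fy i τ.re τ.im)).im) +
        (prR k (D τ) (cf k (Fxx i τ.re τ.im)) + prR k (D τ) (cf k (Fyy i τ.re τ.im)))) := by
      ring
    rw [h5, h1', zero_add, h2]
    ring

end Pool.Agent.LibEis68
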