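import Pool.Agent.LibEis68.DDefs

open Complex Polynomial Matrix
open scoped ComplexConjugate MatrixGroups UpperHalfPlane

namespace Pool.Agent.LibEis68

private lemma second_deriv_le {g g' : ℝ → ℝ} {c : ℝ}
    (hg : ∀ᶠ t in nhds (0 : ℝ), HasDerivAt g (g' t) t) (hg' : HasDerivAt g' c 0)
    (hmax : IsLocalMax g 0) : c ≤ 0 := by
  by_contra hc
  push Not at hc
  have h1 : deriv g =ᶠ[nhds 0] g' := by
    filter_upwards [hg] with t ht using ht.deriv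
  have h2 : deriv (deriv g) 0 = c := by
    rw [h1.deriv_eq, hg'.deriv]
  have h0 : HasDerivAt g (g' 0) 0 := hg.self_of_nhds
  have h3 : deriv g 0 = 0 := by
    rw [h0.deriv]
    exact hmax.hasDerivAt_eq_zero h0
  have hmin : IsLocalMin g 0 :=
    isLocalMin_of_deriv_deriv_pos (by rw [h2]; exact hc) h3 h0.continuousAt
  have h4 : g =ᶠ[nhds 0] fun _ => g 0 := by
    filter_upwards [hmax, hmin] with t h1 h2 using le_antisymm h1 h2
  have h5 : deriv g =ᶠ[nhds 0] deriv (fun _ : ℝ => g 0) := h4.deriv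
  have h6 : deriv (deriv g) 0 = deriv (deriv (fun _ : ℝ => g 0)) 0 := h5.deriv_eq
  rw [h2] at h6
  simp at h6
  linarith

private lemma max_principle_aux (u ux uy uxx uyy : ℂ → ℝ) (m : ℝ) (hm : 0 < m)
    (hu : ∀ τ : ℂ, 0 < τ.im →
      HasDerivAt (fun t : ℝ => u (τ + t)) (ux τ) 0 ∧
      HasDerivAt (fun t : ℝ => ux (τ + t)) (uxx τ) 0 ∧
      HasDerivAt (fun t : ℝ => u (τ + t * I)) (uy τ) 0 ∧
      HasDerivAt (fun t : ℝ => uy (τ + t * I)) (uyy τ) 0 ∧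
      τ.im ^ 2 * (uxx τ + uyy τ) = m * u τ)
    (hc : ContinuousOn u {τ | 0 < τ.im})
    (hinv : ∀ (γ : SL(2, ℤ)) (τ : ℍ), u ((γ • τ : ℍ) : ℂ) = u τ)
    (hcusp : ∀ ε > 0, ∃ B : ℝ, ∀ τ : ℂ, |τ.re| ≤ 1 / 2 → B ≤ τ.im → |u τ| ≤ ε) :
    ∀ τ : ℂ, 0 < τ.im → u τ ≤ 0 := by
  intro τ₀ hτ₀
  by_contra hpos
  push Not at hpos
  obtain ⟨B, hB⟩ := hcusp (u τ₀ / 2) (by linarith)
  -- reduction to the fundamental domain
  have hfd : ∀ τ : ℂ, 0 < τ.im → ∃ τ' : ℂ, |τ'.re| ≤ 1 / 2 ∧ 1 / 2 ≤ τ'.im ∧ u τ' = u τ := by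
    intro τ hτ
    obtain ⟨g, hg⟩ := ModularGroup.exists_smul_mem_fd (⟨τ, hτ⟩ : ℍ)
    refine ⟨((g • (⟨τ, hτ⟩ : ℍ) : ℍ) : ℂ), hg.2, ?_, hinv g ⟨τ, hτ⟩⟩
    have h1 := ModularGroup.three_le_four_mul_im_sq_of_mem_fd hg
    have h2 := (g • (⟨τ, hτ⟩ : ℍ)).im_pos
    have h3 : (1 / 2 : ℝ) ≤ (g • (⟨τ, hτ⟩ : ℍ)).im := by nlinarith
    exact h3
  set K : Set ℂ := Set.Icc (-(1 / 2 : ℝ)) (1 / 2) ×ℂ Set.Icc (1 / 2 : ℝ) (max B 1) with hK
  have hKc : IsCompact K := isCompact_Icc.reProdIm isCompact_Icc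
  have hKmem : ∀ τ : ℂ, |τ.re| ≤ 1 / 2 → 1 / 2 ≤ τ.im → τ.im ≤ max B 1 → τ ∈ K := by
    intro τ h1 h2 h3
    rw [hK, Complex.mem_reProdIm]
    exact ⟨abs_le.mp h1 |>.imp (by intro h; linarith) id, h2, h3⟩
  have hKsub : K ⊆ {τ | 0 < τ.im} := by
    intro τ hτ
    rw [hK, Complex.mem_reProdIm] at hτ
    have := hτ.2.1
    simp only [Set.mem_ofPred_eq]
    linarith
  -- every value is either ≤ u τ₀ / 2 or attained on K
  have hval : ∀ τ : ℂ, 0 < τ.im → u τ ≤ u τ₀ / 2 ∨ ∃ τ' ∈ K, u τ' = u τ := by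
    intro τ hτ
    obtain ⟨τ', h1, h2, h3⟩ := hfd τ hτ
    by_cases hb : B ≤ τ'.im
    · left
      have := hB τ' h1 hb
      rw [h3] at this
      exact (le_abs_self _).trans this
    · right
      push Not at hb
      exact ⟨τ', hKmem τ' h1 h2 (hb.le.trans (le_max_left _ _)), h3⟩
  obtain ⟨τ₀', hτ₀K, hτ₀'⟩ : ∃ τ' ∈ K, u τ' = u τ₀ := by
    rcases hval τ₀ hτ₀ with h | h
    · linarith
    · exact h
  obtain ⟨τ₁, hτ₁K, hτ₁⟩ := hKc.exists_isMaxOn ⟨τ₀', hτ₀K⟩ (hc.mono hKsub)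
  have hτ₁im : 0 < τ₁.im := hKsub hτ₁K
  have h01 : u τ₀ ≤ u τ₁ := by
    rw [← hτ₀']
    exact hτ₁ hτ₀K
  have hglob : ∀ τ : ℂ, 0 < τ.im → u τ ≤ u τ₁ := by
    intro τ hτ
    rcases hval τ hτ with h | ⟨τ', h1, h2⟩
    · linarith
    · rw [← h2]
      exact hτ₁ h1
  obtain ⟨h1, h2, h3, h4, h5⟩ := hu τ₁ hτ₁im
  -- x direction
  have hx : uxx τ₁ ≤ 0 := by
    refine second_deriv_le (g := fun t : ℝ => u (τ₁ + t)) (g' := fun t : ℝ => ux (τ₁ + t))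
      ?_ h2 ?_
    · refine Filter.Eventually.of_forall fun t => ?_
      have h := (hu (τ₁ + t) (by simpa using hτ₁im)).1
      have h' : HasDerivAt (fun s : ℝ => u (τ₁ + t + ((s - t : ℝ) : ℂ))) (ux (τ₁ + t)) t := by
        have hh : HasDerivAt (fun t_1 : ℝ => u (τ₁ + t + t_1)) (ux (τ₁ + t)) (t - t) := by
          rw [sub_self]; exact h
        exact hh.comp_sub_const t t
      convert h' using 2 with s
      push_cast
      ring_nf
    · refine Filter.Eventually.of_forall fun t => ?_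
      have := hglob (τ₁ + t) (by simpa using hτ₁im)
      simpa using this
  have hy : uyy τ₁ ≤ 0 := by
    have hev : ∀ᶠ t : ℝ in nhds (0 : ℝ), 0 < (τ₁ + (t : ℂ) * I).im := by
      have : Filter.Tendsto (fun t : ℝ => τ₁.im + t) (nhds 0) (nhds (τ₁.im + 0)) :=
        tendsto_const_nhds.add Filter.tendsto_id
      rw [add_zero] at this
      filter_upwards [this.eventually (lt_mem_nhds hτ₁im)] with t ht
      simpa using ht
    refine second_deriv_le (g := fun t : ℝ => u (τ₁ + t * I)) (g' := fun t : ℝ => uy (τ₁ + t * I))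
      ?_ h4 ?_
    · filter_upwards [hev] with t ht
      have h := (hu (τ₁ + t * I) ht).2.2.1
      have h' : HasDerivAt (fun s : ℝ => u (τ₁ + t * I + ((s - t : ℝ) : ℂ) * I))
          (uy (τ₁ + t * I)) t := by
        have hh : HasDerivAt (fun t_1 : ℝ => u (τ₁ + t * I + t_1 * I)) (uy (τ₁ + t * I))
            (t - t) := by
          rw [sub_self]; exact h
        exact hh.comp_sub_const t t
      convert h' using 2 with s
      push_cast
      ring_nf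
    · filter_upwards [hev] with t ht
      have := hglob (τ₁ + t * I) ht
      simpa using this
  have h6 : 0 < m * u τ₁ := mul_pos hm (by linarith)
  have h7 : τ₁.im ^ 2 * (uxx τ₁ + uyy τ₁) ≤ 0 :=
    mul_nonpos_of_nonneg_of_nonpos (sq_nonneg _) (by linarith)
  linarith

/-- Maximum principle on `SL₂(ℤ) \ ℍ` for positive eigenvalues. -/
theorem max_principle (u ux uy uxx uyy : ℂ → ℝ) (m : ℝ) (hm : 0 < m)
    (hu : ∀ τ : ℂ, 0 < τ.im →
      HasDerivAt (fun t : ℝ => u (τ + t)) (ux τ) 0 ∧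
      HasDerivAt (fun t : ℝ => ux (τ + t)) (uxx τ) 0 ∧
      HasDerivAt (fun t : ℝ => u (τ + t * I)) (uy τ) 0 ∧
      HasDerivAt (fun t : ℝ => uy (τ + t * I)) (uyy τ) 0 ∧
      τ.im ^ 2 * (uxx τ + uyy τ) = m * u τ)
    (hc : ContinuousOn u {τ | 0 < τ.im})
    (hinv : ∀ (γ : SL(2, ℤ)) (τ : ℍ), u ((γ • τ : ℍ) : ℂ) = u τ)
    (hcusp : ∀ ε > 0, ∃ B : ℝ, ∀ τ : ℂ, |τ.re| ≤ 1 / 2 → B ≤ τ.im → |u τ| ≤ ε) :
    ∀ τ : ℂ, 0 < τ.im → u τ = 0 := by
  intro τ hτ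
  refine le_antisymm (max_principle_aux u ux uy uxx uyy m hm hu hc hinv hcusp τ hτ) ?_
  have := max_principle_aux (fun z => - u z) (fun z => - ux z) (fun z => - uy z)
    (fun z => - uxx z) (fun z => - uyy z) m hm (by
      intro z hz
      obtain ⟨h1, h2, h3, h4, h5⟩ := hu z hz
      exact ⟨h1.neg, h2.neg, h3.neg, h4.neg, by linarith⟩) hc.neg
    (by intro γ z; simp only [hinv γ z])
    (by
      intro ε hε
      obtain ⟨B, hB⟩ := hcusp ε hε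
      exact ⟨B, fun z h1 h2 => by simpa using hB z h1 h2⟩) τ hτ
  linarith

end Pool.Agent.LibEis68
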