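import Pool.Agent.LibEis68.D01
import Pool.Agent.LibEis68.B04

open Complex Polynomial Matrix
open scoped ComplexConjugate MatrixGroups UpperHalfPlane

namespace Pool.Agent.LibEis68

/-! ### Coefficientwise derivatives of polynomial valued functions -/

private def HDc (F : ℝ → ℂ[X]) (F' : ℂ[X]) (t : ℝ) : Prop :=
  ∀ n, HasDerivAt (fun s => (F s).coeff n) (F'.coeff n) t

private lemma HDc.const (p : ℂ[X]) (t : ℝ) : HDc (fun _ => p) 0 t := by
  intro n
  simpa using hasDerivAt_const t (p.coeff n)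

private lemma HDc.C {g : ℝ → ℂ} {g' : ℂ} {t : ℝ} (h : HasDerivAt g g' t) :
    HDc (fun s => C (g s)) (C g') t := by
  intro n
  simp only [coeff_C]
  split_ifs
  · exact h
  · exact hasDerivAt_const t 0

private lemma HDc.sub {F G : ℝ → ℂ[X]} {F' G' : ℂ[X]} {t : ℝ} (hF : HDc F F' t)
    (hG : HDc G G' t) : HDc (fun s => F s - G s) (F' - G') t := by
  intro n
  simpa only [coeff_sub] using (hF n).fun_sub (hG n)

private lemma HDc.mul {F G : ℝ → ℂ[X]} {F' G' : ℂ[X]} {t : ℝ} (hF : HDc F F' t)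
    (hG : HDc G G' t) : HDc (fun s => F s * G s) (F' * G t + F t * G') t := by
  intro n
  simp only [coeff_mul, coeff_add, ← Finset.sum_add_distrib]
  exact HasDerivAt.fun_sum fun x _ => (hF x.1).mul (hG x.2)

private lemma HDc.pow {F : ℝ → ℂ[X]} {F' : ℂ[X]} {t : ℝ} (hF : HDc F F' t) (n : ℕ) :
    HDc (fun s => F s ^ n) ((n : ℂ[X]) * F t ^ (n - 1) * F') t := by
  induction n with
  | zero => simpa using HDc.const 1 t
  | succ n ih =>
    have h := ih.mul hF
    have e : ((n + 1 : ℕ) : ℂ[X]) * F t ^ (n + 1 - 1) * F' =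
        (n : ℂ[X]) * F t ^ (n - 1) * F' * F t + F t ^ n * F' := by
      rcases n with _ | n
      · simp
      · simp only [Nat.add_sub_cancel]
        push_cast
        ring
    rw [e]
    simpa [pow_succ] using h

private lemma HDc.congr {F : ℝ → ℂ[X]} {F' F'' : ℂ[X]} {t : ℝ} (hF : HDc F F' t)
    (h : F' = F'') : HDc F F'' t := h ▸ hF

private lemma hasDerivAt_line (τ v : ℂ) : HasDerivAt (fun t : ℝ => τ + t * v) v 0 := by
  have := ((Complex.ofRealCLM.hasDerivAt (x := (0 : ℝ))).mul_const v).const_add τ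
  simpa using this

private lemma hdc_form (τ v : ℂ) (p q : ℕ) :
    HDc (fun t : ℝ => (X - C (τ + t * v)) ^ p * (X - C (conj (τ + t * v))) ^ q)
      (-(C v * (p : ℂ[X]) * ((X - C τ) ^ (p - 1) * (X - C (conj τ)) ^ q)) -
        C (conj v) * (q : ℂ[X]) * ((X - C τ) ^ p * (X - C (conj τ)) ^ (q - 1))) 0 := by
  have h1 : HDc (fun t : ℝ => X - C (τ + t * v)) (-C v) 0 := by
    refine ((HDc.const X 0).sub (HDc.C (hasDerivAt_line τ v))).congr ?_
    simp
  have h2 : HDc (fun t : ℝ => X - C (conj (τ + t * v))) (-C (conj v)) 0 := by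
    have h3 : HasDerivAt (fun t : ℝ => conj (τ + t * v)) (conj v) 0 := by
      have := hasDerivAt_line (conj τ) (conj v)
      refine this.congr_of_eventuallyEq (Filter.Eventually.of_forall fun t => ?_)
      simp
    refine ((HDc.const X 0).sub (HDc.C h3)).congr ?_
    simp
  refine ((h1.pow p).mul (h2.pow q)).congr ?_
  simp only [Complex.ofReal_zero, zero_mul, add_zero]
  ring

private def cfc (k : ℕ) (p : ℂ[X]) : Fin (k + 1) → ℂ := fun a => p.coeff a

private lemma pr_hasDerivAt (k : ℕ) {Dt : ℝ → Fin (k + 1) → ℂ} {d : Fin (k + 1) → ℂ}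
    {F : ℝ → ℂ[X]} {F' : ℂ[X]} {t : ℝ} (hD : ∀ a, HasDerivAt (fun s => Dt s a) (d a) t)
    (hF : HDc F F' t) :
    HasDerivAt (fun s => pr k (Dt s) (cfc k (F s)))
      (pr k d (cfc k (F t)) + pr k (Dt t) (cfc k F')) t := by
  unfold pr cfc
  rw [← Finset.sum_add_distrib]
  refine HasDerivAt.fun_sum fun a _ => ?_
  have h := ((hD a).const_mul ((-1) ^ (a : ℕ) * ((k.choose a : ℂ))⁻¹)).mul (hF (Fin.rev a))
  refine h.congr_deriv ?_
  ring

private lemma pr_C_mul (k : ℕ) (P : Fin (k + 1) → ℂ) (c : ℂ) (q : ℂ[X]) :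
    pr k P (cfc k (C c * q)) = c * pr k P (cfc k q) := by
  simp only [pr, cfc, coeff_C_mul]
  rw [Finset.mul_sum]
  exact Finset.sum_congr rfl fun a _ => by ring

private lemma pr_sub_right (k : ℕ) (P : Fin (k + 1) → ℂ) (q r : ℂ[X]) :
    pr k P (cfc k (q - r)) = pr k P (cfc k q) - pr k P (cfc k r) := by
  simp only [pr, cfc, coeff_sub]
  rw [← Finset.sum_sub_distrib]
  exact Finset.sum_congr rfl fun a _ => by ring

private lemma pr_comb_left (k : ℕ) (P P' : Fin (k + 1) → ℂ) (c : ℂ) (Q : Fin (k + 1) → ℂ) :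
    pr k P Q - c * pr k P' Q = pr k (fun a => P a - c * P' a) Q := by
  simp only [pr]
  rw [Finset.mul_sum, ← Finset.sum_sub_distrib]
  exact Finset.sum_congr rfl fun a _ => by ring

private lemma pr_smul_left (k : ℕ) (P : Fin (k + 1) → ℂ) (c : ℂ) (Q : Fin (k + 1) → ℂ) :
    pr k (fun a => c * P a) Q = c * pr k P Q := by
  simp only [pr]
  rw [Finset.mul_sum]
  exact Finset.sum_congr rfl fun a _ => by ring

private lemma form_eq (k : ℕ) (z w : ℂ) (i : ℕ) :
    form k z w i = cfc k ((X - C z) ^ i * (X - C w) ^ (k - i)) := rfl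

private lemma pr_conj (k : ℕ) (P : Fin (k + 1) → ℝ) (Q : Fin (k + 1) → ℂ) :
    conj (pr k (fun a => (P a : ℂ)) Q) = pr k (fun a => (P a : ℂ)) (fun a => conj (Q a)) := by
  simp [pr, map_sum]

private lemma form_conj (k : ℕ) (τ : ℂ) {i : ℕ} (hi : i ≤ k) :
    (fun a => conj (form k τ (conj τ) i a)) = form k τ (conj τ) (k - i) := by
  funext a
  have h : conj (((X - C τ) ^ i * (X - C (conj τ)) ^ (k - i)).coeff (a : ℕ)) =
      (((X - C τ) ^ i * (X - C (conj τ)) ^ (k - i)).map (starRingEnd ℂ)).coeff (a : ℕ) := by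
    rw [coeff_map]
  have h2 : k - (k - i) = i := by omega
  simp only [form, h, h2]
  congr 1
  simp only [Polynomial.map_mul, Polynomial.map_pow, Polynomial.map_sub, map_X, map_C,
    Complex.conj_conj]
  ring

/-- The step from `p` to `p - 1`. -/
private lemma step {k : ℕ} (hk : Even k) {D : ℂ → Fin (k + 1) → ℝ}
    {f : ℂ → ℂ} (h : Cusp k D f) {p : ℕ} (hp : 1 ≤ p) (hpk : p ≤ k)
    (hP : ∀ τ : ℂ, 0 < τ.im → pr k (fun a => (D τ a : ℂ)) (form k τ (conj τ) p) = 0)
    {τ : ℂ} (hτ : 0 < τ.im) :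
    pr k (fun a => (D τ a : ℂ)) (form k τ (conj τ) (p - 1)) = 0 := by
  -- derivatives of `D`
  have hD : ∀ (v : ℂ), ∀ a, HasDerivAt (fun t : ℝ => (D (τ + t * v) a : ℂ))
      (((f τ * form k τ τ k a * v).im : ℝ) : ℂ) 0 := by
    intro v a
    have h1 := h.deriv τ hτ a
    have h3 : HasFDerivAt (fun z => D z a) (imMul (f τ * form k τ τ k a))
        ((fun t : ℝ => τ + t * v) 0) := by simpa using h1
    have h4 := h3.comp_hasDerivAt (0 : ℝ) (hasDerivAt_line τ v)
    have h5 : HasDerivAt (fun t : ℝ => D (τ + t * v) a) ((f τ * form k τ τ k a * v).im) 0 := by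
      simpa [imMul, Function.comp_def] using h4
    exact h5.ofReal_comp
  have hev : ∀ v : ℂ, ∀ᶠ t : ℝ in nhds (0 : ℝ), 0 < (τ + (t : ℂ) * v).im := by
    intro v
    have : Filter.Tendsto (fun t : ℝ => (τ + (t : ℂ) * v).im) (nhds 0)
        (nhds ((τ + ((0 : ℝ) : ℂ) * v).im)) := by
      refine Continuous.tendsto ?_ 0
      fun_prop
    rw [Complex.ofReal_zero, zero_mul, add_zero] at this
    exact this.eventually (lt_mem_nhds hτ)
  have hE : ∀ v : ℂ, pr k (fun a => (((f τ * form k τ τ k a * v).im : ℝ) : ℂ))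
      (form k τ (conj τ) p) + pr k (fun a => (D τ a : ℂ)) (cfc k
        (-(C v * (p : ℂ[X]) * ((X - C τ) ^ (p - 1) * (X - C (conj τ)) ^ (k - p))) -
        C (conj v) * ((k - p : ℕ) : ℂ[X]) *
          ((X - C τ) ^ p * (X - C (conj τ)) ^ (k - p - 1)))) = 0 := by
    intro v
    have h1 := pr_hasDerivAt k (hD v) (hdc_form τ v p (k - p))
    have h2 : (fun t : ℝ => pr k (fun a => (D (τ + t * v) a : ℂ))
        (cfc k ((X - C (τ + t * v)) ^ p * (X - C (conj (τ + t * v))) ^ (k - p)))) =ᶠ[nhds 0]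
        fun _ => (0 : ℂ) := by
      filter_upwards [hev v] with t ht
      exact hP _ ht
    have h3 := (h1.congr_of_eventuallyEq h2.symm).unique (hasDerivAt_const (0 : ℝ) (0 : ℂ))
    simpa [form_eq] using h3
  have e1 := hE 1
  have e2 := hE I
  have e3 : pr k (fun a => (((f τ * form k τ τ k a * 1).im : ℝ) : ℂ) -
      I * (((f τ * form k τ τ k a * I).im : ℝ) : ℂ)) (form k τ (conj τ) p) = 0 := by
    have : (fun a => (((f τ * form k τ τ k a * 1).im : ℝ) : ℂ) -
      I * (((f τ * form k τ τ k a * I).im : ℝ) : ℂ)) = fun a => (-I * f τ) * form k τ τ k a := by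
      funext a
      rw [mul_assoc (-I)]
      generalize f τ * form k τ τ k a = w
      apply Complex.ext <;> simp
    rw [this, pr_smul_left, pr_form_form hk _ _ hp hpk, mul_zero]
  rw [← pr_comb_left] at e3
  set A : ℂ[X] := (X - C τ) ^ (p - 1) * (X - C (conj τ)) ^ (k - p) with hA
  set B : ℂ[X] := (X - C τ) ^ p * (X - C (conj τ)) ^ (k - p - 1) with hB
  have e4 : pr k (fun a => (D τ a : ℂ)) (cfc k
      (-(C 1 * (p : ℂ[X]) * A) - C (conj 1) * ((k - p : ℕ) : ℂ[X]) * B)) -
      I * pr k (fun a => (D τ a : ℂ)) (cfc k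
      (-(C I * (p : ℂ[X]) * A) - C (conj I) * ((k - p : ℕ) : ℂ[X]) * B)) = 0 := by
    linear_combination e1 - I * e2 - e3
  have e5 : pr k (fun a => (D τ a : ℂ)) (cfc k (C (-2 * (p : ℂ)) * A)) = 0 := by
    rw [← e4, ← pr_C_mul, ← pr_sub_right]
    congr 2
    have hI : (C I : ℂ[X]) * C I = -1 := by
      rw [← C_mul, I_mul_I, C_neg, C_1]
    have h2 : (C (2 : ℂ) : ℂ[X]) = 2 := map_ofNat C 2
    simp only [map_one, Complex.conj_I, C_neg, C_mul, h2, map_natCast]
    linear_combination (-(p : ℂ[X]) * A + ((k - p : ℕ) : ℂ[X]) * B) * hI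
  rw [pr_C_mul] at e5
  have hp0 : (-2 * (p : ℂ)) ≠ 0 := by
    have : (p : ℂ) ≠ 0 := by
      exact_mod_cast (by omega : p ≠ 0)
    simpa using this
  have e6 := (mul_eq_zero.mp e5).resolve_left hp0
  -- conclusion
  have e7 : form k τ (conj τ) (p - 1) =
      cfc k ((X - C τ) ^ p * (X - C (conj τ)) ^ (k - p) - C (conj τ - τ) * A) := by
    rw [form_eq]
    congr 1
    obtain ⟨q, rfl⟩ : ∃ q, p = q + 1 := ⟨p - 1, by omega⟩
    have h1 : k - (q + 1 - 1) = k - (q + 1) + 1 := by omega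
    rw [hA, h1, Nat.add_sub_cancel, C_sub]
    ring
  rw [e7, pr_sub_right, pr_C_mul, e6, mul_zero, sub_zero]
  exact hP τ hτ

/-- If `uu` vanishes identically, then `D` does. -/
theorem Cusp.eq_zero_of_uu {k : ℕ} (hk : Even k) (hk2 : 2 ≤ k) {D : ℂ → Fin (k + 1) → ℝ}
    {f : ℂ → ℂ} (h : Cusp k D f) (hu : ∀ τ : ℂ, 0 < τ.im → uu k D τ = 0) :
    ∀ τ : ℂ, 0 < τ.im → D τ = 0 := by
  -- the middle component
  have hmid : ∀ τ : ℂ, 0 < τ.im →
      pr k (fun a => (D τ a : ℂ)) (form k τ (conj τ) (k / 2)) = 0 := by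
    intro τ hτ
    have h1 := hu τ hτ
    rw [uu] at h1
    have h2 := (mul_eq_zero.mp h1).resolve_left
      (inv_ne_zero (pow_ne_zero _ hτ.ne'))
    have h3 : conj (pr k (fun a => (D τ a : ℂ)) (form k τ (conj τ) (k / 2))) =
        pr k (fun a => (D τ a : ℂ)) (form k τ (conj τ) (k / 2)) := by
      rw [pr_conj, form_conj k τ (by omega)]
      congr 2
      obtain ⟨r, hr⟩ := hk
      omega
    have h4 := Complex.conj_eq_iff_im.mp h3
    exact Complex.ext h2 h4
  -- lower components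
  have hlow : ∀ n, n ≤ k / 2 → ∀ τ : ℂ, 0 < τ.im →
      pr k (fun a => (D τ a : ℂ)) (form k τ (conj τ) (k / 2 - n)) = 0 := by
    intro n
    induction n with
    | zero => intro _; simpa using hmid
    | succ n ih =>
      intro hn τ hτ
      have := step hk h (p := k / 2 - n) (by omega) (by omega) (ih (by omega)) hτ
      have e : k / 2 - n - 1 = k / 2 - (n + 1) := by omega
      rwa [e] at this
  have hall : ∀ p, p ≤ k → ∀ τ : ℂ, 0 < τ.im →
      pr k (fun a => (D τ a : ℂ)) (form k τ (conj τ) p) = 0 := by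
    intro p hp τ hτ
    by_cases hpk : p ≤ k / 2
    · have := hlow (k / 2 - p) (by omega) τ hτ
      have e : k / 2 - (k / 2 - p) = p := by omega
      rwa [e] at this
    · have hr : k - p ≤ k / 2 := by
        obtain ⟨r, hr⟩ := hk
        omega
      have h1 := hlow (k / 2 - (k - p)) (by omega) τ hτ
      have e : k / 2 - (k / 2 - (k - p)) = k - p := by omega
      rw [e] at h1
      have h2 := congrArg conj h1
      rw [pr_conj, form_conj k τ (by omega), map_zero] at h2
      have e2 : k - (k - p) = p := by omega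
      rwa [e2] at h2
  intro τ hτ
  have hQ : ∀ Q, pr k (fun a => (D τ a : ℂ)) Q = 0 := by
    intro Q
    have hmem : Q ∈ Submodule.span ℂ (Set.range fun i : Fin (k + 1) => form k τ (conj τ) i) := by
      rw [form_span k hτ]; trivial
    induction hmem using Submodule.span_induction with
    | mem x hx =>
      obtain ⟨i, rfl⟩ := hx
      exact hall i (by omega) τ hτ
    | zero => simp [pr]
    | add x y _ _ hx hy =>
      have : pr k (fun a => (D τ a : ℂ)) (x + y) =
          pr k (fun a => (D τ a : ℂ)) x + pr k (fun a => (D τ a : ℂ)) y := by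
        simp only [pr, Pi.add_apply]
        rw [← Finset.sum_add_distrib]
        exact Finset.sum_congr rfl fun a _ => by ring
      rw [this, hx, hy, add_zero]
    | smul c x _ hx =>
      have : pr k (fun a => (D τ a : ℂ)) (c • x) = c * pr k (fun a => (D τ a : ℂ)) x := by
        simp only [pr, Pi.smul_apply, smul_eq_mul]
        rw [Finset.mul_sum]
        exact Finset.sum_congr rfl fun a _ => by ring
      rw [this, hx, mul_zero]
  have h0 := pr_nondeg _ hQ
  funext a
  have := congrFun h0 a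
  simpa using this

end Pool.Agent.LibEis68
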