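import Pool.Agent.LibEis68.D02
import Pool.Agent.LibEis68.D05
import Pool.Agent.LibEis68.D06
import Pool.Agent.LibEis68.D07
import Pool.Agent.LibEis68.D08

open Complex Polynomial Matrix
open scoped ComplexConjugate MatrixGroups UpperHalfPlane

namespace Pool.Agent.LibEis68

private lemma d09_coeff_cont (n j : ℕ) : Continuous fun z : ℂ => ((X - C z) ^ n : ℂ[X]).coeff j := by
  have e : ∀ z : ℂ, ((X - C z) ^ n : ℂ[X]).coeff j = (-z) ^ (n - j) * (n.choose j : ℂ) := by
    intro z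
    rw [sub_eq_add_neg, ← C_neg, coeff_X_add_C_pow]
  simp_rw [e]
  fun_prop

private lemma d09_form_cont (k i : ℕ) (j : Fin (k + 1)) : Continuous fun z : ℂ => form k z (conj z) i j := by
  unfold form
  simp_rw [coeff_mul]
  refine continuous_finsetSum _ fun p _ => ?_
  exact (d09_coeff_cont i p.1).mul ((d09_coeff_cont (k - i) p.2).comp continuous_conj)

/-- Uniqueness: there are no extensions of cuspidal type. -/
theorem Cusp.eq_zero {k : ℕ} (hk : Even k) (hk2 : 2 ≤ k) {D : ℂ → Fin (k + 1) → ℝ}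
    {f : ℂ → ℂ} (h : Cusp k D f) : ∀ τ : ℂ, 0 < τ.im → D τ = 0 := by
  obtain ⟨ux, uy, uxx, uyy, hl⟩ := h.laplace hk hk2
  have hk1 : 1 ≤ k / 2 := by omega
  have hm : (0:ℝ) < ((k / 2 : ℕ) : ℝ) * (((k / 2 : ℕ) : ℝ) + 1) := by
    have : (1:ℝ) ≤ ((k / 2 : ℕ) : ℝ) := by exact_mod_cast hk1
    positivity
  refine h.eq_zero_of_uu hk hk2 (max_principle (uu k D) ux uy uxx uyy _ hm hl ?_ (uu_smul hk h)
    (h.uu_small hk hk2))
  intro τ hτ
  have hτ' : 0 < τ.im := hτ
  refine ContinuousAt.continuousWithinAt ?_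
  unfold uu pr
  refine ContinuousAt.mul (ContinuousAt.inv₀ (by fun_prop) (pow_ne_zero _ hτ'.ne')) ?_
  refine Complex.continuous_re.continuousAt.comp ?_
  refine tendsto_finsetSum _ fun a _ => ?_
  refine Filter.Tendsto.mul (Filter.Tendsto.mul tendsto_const_nhds ?_) ?_
  · exact Complex.continuous_ofReal.continuousAt.comp (h.deriv τ hτ' a).continuousAt
  · exact (d09_form_cont k (k / 2) (Fin.rev a)).continuousAt

end Pool.Agent.LibEis68
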