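import Pool.Agent.LibEis68.CDefs

open Complex Polynomial Matrix
open scoped ComplexConjugate MatrixGroups UpperHalfPlane

namespace Pool.Agent.LibEis68

open Filter Function.Periodic Topology in
/-- A holomorphic function with `G(τ+1) = G(τ) + r` and polynomial growth has derivative
`r + O(exp(-2πy))`. -/
theorem deriv_decay (G g : ℂ → ℂ) (r : ℂ) (hG : ∀ τ : ℂ, 0 < τ.im → HasDerivAt G (g τ) τ)
    (hper : ∀ τ : ℂ, 0 < τ.im → G (τ + 1) = G τ + r)
    (hgr : ∃ (C : ℝ) (N : ℕ), ∀ τ : ℂ, |τ.re| ≤ 1 / 2 → 1 ≤ τ.im → ‖G τ‖ ≤ C * τ.im ^ N) :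
    ∃ C : ℝ, ∀ τ : ℂ, 1 ≤ τ.im → ‖g τ - r‖ ≤ C * Real.exp (-2 * Real.pi * τ.im) := by
  classical
  obtain ⟨C, N, hC⟩ := hgr
  set F : ℂ → ℂ := fun z => if 0 < z.im then G z - r * z else 0 with hF
  have hFper : Function.Periodic F ((1 : ℝ) : ℂ) := by
    intro z
    by_cases hz : 0 < z.im
    · have h1 : 0 < (z + ((1 : ℝ) : ℂ)).im := by simpa using hz
      simp only [hF, h1, hz, if_true]
      rw [ofReal_one, hper z hz]
      ring
    · have h1 : ¬ 0 < (z + ((1 : ℝ) : ℂ)).im := by simpa using hz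
      simp only [hF, h1, hz, if_false]
  have hFd : ∀ z : ℂ, 0 < z.im → HasDerivAt F (g z - r) z := by
    intro z hz
    have h1 : HasDerivAt (fun z => G z - r * z) (g z - r) z := by
      have := (hG z hz).sub ((hasDerivAt_id z).const_mul r)
      rw [mul_one] at this
      exact this
    refine h1.congr_of_eventuallyEq ?_
    have hopen : IsOpen {w : ℂ | 0 < w.im} := isOpen_lt continuous_const continuous_im
    filter_upwards [hopen.mem_nhds hz] with w hw
    simp only [hF]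
    rw [if_pos hw]
  -- growth of F in the strip
  have hFb : ∀ z : ℂ, |z.re| ≤ 1 / 2 → 1 ≤ z.im → ‖F z‖ ≤ (|C| + 2 * ‖r‖) * z.im ^ (N + 1) := by
    intro z hz hz1
    have h0 : 0 < z.im := by linarith
    simp only [hF, if_pos h0]
    have h1 : ‖z‖ ≤ 2 * z.im := by
      refine (Complex.norm_le_abs_re_add_abs_im z).trans ?_
      rw [abs_of_pos h0]; linarith
    have h2 : z.im ^ N ≤ z.im ^ (N + 1) := pow_le_pow_right₀ hz1 (Nat.le_succ N)
    have h3 : z.im ≤ z.im ^ (N + 1) := by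
      calc z.im = z.im ^ 1 := (pow_one _).symm
        _ ≤ z.im ^ (N + 1) := pow_le_pow_right₀ hz1 (by omega)
    calc ‖G z - r * z‖ ≤ ‖G z‖ + ‖r * z‖ := norm_sub_le _ _
      _ ≤ C * z.im ^ N + ‖r‖ * (2 * z.im) := by
          rw [norm_mul]
          exact add_le_add (hC z hz hz1) (mul_le_mul_of_nonneg_left h1 (norm_nonneg _))
      _ ≤ |C| * z.im ^ (N + 1) + ‖r‖ * (2 * z.im ^ (N + 1)) := by
          have h4 : C * z.im ^ N ≤ |C| * z.im ^ (N + 1) :=
            (mul_le_mul_of_nonneg_right (le_abs_self C) (by positivity)).trans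
              (mul_le_mul_of_nonneg_left h2 (abs_nonneg _))
          gcongr
      _ = (|C| + 2 * ‖r‖) * z.im ^ (N + 1) := by ring
  set Φ : ℂ → ℂ := cuspFunction 1 F with hΦ
  have hΦq : ∀ z : ℂ, Φ (qParam 1 z) = F z := fun z =>
    eq_cuspFunction one_ne_zero hFper z
  -- differentiability in the punctured disc
  have hdiff : ∀ q : ℂ, q ≠ 0 → ‖q‖ < 1 → DifferentiableAt ℂ Φ q := by
    intro q hq hq1
    have him : 0 < (invQParam 1 q).im := by
      rw [im_invQParam]
      have : Real.log ‖q‖ < 0 := Real.log_neg (norm_pos_iff.mpr hq) hq1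
      have h2 : -1 / (2 * Real.pi) < 0 := by
        apply div_neg_of_neg_of_pos (by norm_num) (by positivity)
      exact mul_pos_of_neg_of_neg h2 this
    have := differentiableAt_cuspFunction one_ne_zero hFper
      (hFd _ him).differentiableAt
    rwa [qParam_right_inv one_ne_zero hq] at this
  -- growth of Φ near 0
  have hΦb : ∀ q : ℂ, q ≠ 0 → ‖q‖ ≤ Real.exp (-2 * Real.pi) →
      ‖Φ q‖ ≤ (|C| + 2 * ‖r‖) * (-(Real.log ‖q‖) / (2 * Real.pi)) ^ (N + 1) := by
    intro q hq hq1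
    set z : ℂ := invQParam 1 q with hz
    have hzq : qParam 1 z = q := qParam_right_inv one_ne_zero hq
    have hzim : z.im = -(Real.log ‖q‖) / (2 * Real.pi) := by
      rw [hz, im_invQParam]; ring
    have hzim1 : 1 ≤ z.im := by
      rw [hzim, le_div_iff₀ (by positivity), one_mul]
      have := Real.log_le_log (norm_pos_iff.mpr hq) hq1
      rw [Real.log_exp] at this
      linarith
    have hzre : |z.re| ≤ 1 / 2 := by
      have h1 : z.re = Complex.arg q / (2 * Real.pi) := by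
        rw [hz, invQParam]
        have : ((1 : ℝ) : ℂ) / (2 * Real.pi * I) * Complex.log q
            = Complex.log q / ((2 * Real.pi : ℝ) : ℂ) * (-I) := by
          push_cast
          field_simp
          rw [Complex.I_sq]; ring
        rw [this, mul_neg, neg_re, mul_I_re, neg_neg, div_ofReal_im, log_im]
      rw [h1, abs_div, abs_of_pos (by positivity : (0:ℝ) < 2 * Real.pi),
        div_le_iff₀ (by positivity)]
      have := Complex.abs_arg_le_pi q
      linarith
    rw [← hzq, hΦq, hzq, ← hzim]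
    exact hFb z hzre hzim1
  have hball : Metric.ball (0 : ℂ) 1 ∈ 𝓝 (0 : ℂ) := Metric.ball_mem_nhds _ one_pos
  have hd : DifferentiableOn ℂ Φ (Metric.ball (0 : ℂ) 1 \ {0}) := by
    intro q hq
    exact (hdiff q hq.2 (by simpa using hq.1)).differentiableWithinAt
  have hlit : (fun q : ℂ => ‖q‖⁻¹) =O[𝓝[≠] (0 : ℂ)] fun q : ℂ => (q - 0)⁻¹ := by
    refine Asymptotics.IsBigO.of_bound 1 (Eventually.of_forall fun q => ?_)
    simp
  have htend : Tendsto (fun q : ℂ => ‖q‖⁻¹) (𝓝[≠] (0 : ℂ)) atTop :=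
    tendsto_inv_nhdsGT_zero.comp tendsto_norm_nhdsNE_zero
  have ho1 : Φ =o[𝓝[≠] (0 : ℂ)] fun q : ℂ => ‖q‖⁻¹ := by
    have hO : Φ =O[𝓝[≠] (0 : ℂ)] fun q : ℂ => Real.log (‖q‖⁻¹) ^ (N + 1) := by
      refine Asymptotics.IsBigO.of_bound ((|C| + 2 * ‖r‖) * ((2 * Real.pi)⁻¹) ^ (N + 1)) ?_
      have hev : ∀ᶠ q in 𝓝[≠] (0 : ℂ), ‖q‖ ≤ Real.exp (-2 * Real.pi) := by
        have : Metric.closedBall (0 : ℂ) (Real.exp (-2 * Real.pi)) ∈ 𝓝 (0 : ℂ) :=
          Metric.closedBall_mem_nhds _ (Real.exp_pos _)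
        filter_upwards [mem_nhdsWithin_of_mem_nhds this] with q hq
        simpa using hq
      filter_upwards [hev, self_mem_nhdsWithin] with q hq hq0
      refine (hΦb q hq0 hq).trans (le_of_eq ?_)
      have hl : 0 ≤ -Real.log ‖q‖ := by
        have := Real.log_le_log (norm_pos_iff.mpr hq0) hq
        rw [Real.log_exp] at this
        nlinarith [Real.pi_pos]
      rw [Real.log_inv, norm_pow, Real.norm_of_nonneg hl, div_eq_mul_inv, mul_pow]
      ring
    refine hO.trans_isLittleO ?_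
    have := (Real.isLittleO_pow_log_id_atTop (n := N + 1)).comp_tendsto htend
    simpa [Function.comp_def] using this
  have ho2 : (fun _ : ℂ => Φ 0) =o[𝓝[≠] (0 : ℂ)] fun q : ℂ => ‖q‖⁻¹ := by
    refine (Asymptotics.isLittleO_const_left).mpr (Or.inr ?_)
    refine htend.congr' (Eventually.of_forall fun q => ?_)
    simp
  have ho : (fun q => Φ q - Φ 0) =o[𝓝[≠] (0 : ℂ)] fun q : ℂ => (q - 0)⁻¹ :=
    (ho1.sub ho2).trans_isBigO hlit
  have hD : DifferentiableOn ℂ Φ (Metric.ball (0 : ℂ) 1) := by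
    have := differentiableOn_update_limUnder_of_isLittleO hball hd ho
    rwa [hΦ, ← cuspFunction_zero_eq_limUnder_nhds_ne, Function.update_eq_self, ← hΦ] at this
  have hD' : ContinuousOn (deriv Φ) (Metric.ball (0 : ℂ) 1) :=
    (hD.deriv Metric.isOpen_ball).continuousOn
  have hq0lt : Real.exp (-2 * Real.pi) < 1 := by
    rw [Real.exp_lt_one_iff]; nlinarith [Real.pi_pos]
  have hcomp : IsCompact (Metric.closedBall (0 : ℂ) (Real.exp (-2 * Real.pi))) :=
    isCompact_closedBall _ _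
  obtain ⟨K, hK⟩ := hcomp.exists_bound_of_continuousOn (f := deriv Φ)
    (hD'.mono (Metric.closedBall_subset_ball hq0lt))
  refine ⟨K * (2 * Real.pi), fun τ hτ => ?_⟩
  have hτ0 : 0 < τ.im := by linarith
  have hqn : ‖qParam 1 τ‖ = Real.exp (-2 * Real.pi * τ.im) := by
    rw [norm_qParam, div_one]
  have hqle : ‖qParam 1 τ‖ ≤ Real.exp (-2 * Real.pi) := by
    rw [hqn]
    apply Real.exp_le_exp.mpr
    nlinarith [Real.pi_pos]
  have hqd : HasDerivAt (qParam 1) (qParam 1 τ * (2 * Real.pi * I)) τ := by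
    have h1 : HasDerivAt (fun z : ℂ => 2 * Real.pi * I * z / ((1 : ℝ) : ℂ))
        (2 * Real.pi * I) τ := by
      have := ((hasDerivAt_id τ).const_mul (2 * Real.pi * I)).div_const ((1 : ℝ) : ℂ)
      simpa using this
    exact h1.cexp
  have hΦd : HasDerivAt Φ (deriv Φ (qParam 1 τ)) (qParam 1 τ) :=
    ((hD _ (by simpa using hqle.trans_lt hq0lt)).differentiableAt
      (Metric.isOpen_ball.mem_nhds (by simpa using hqle.trans_lt hq0lt))).hasDerivAt
  have hcomp2 : HasDerivAt (fun z => Φ (qParam 1 z))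
      (deriv Φ (qParam 1 τ) * (qParam 1 τ * (2 * Real.pi * I))) τ := hΦd.comp τ hqd
  have heq : (fun z => Φ (qParam 1 z)) = F := funext hΦq
  rw [heq] at hcomp2
  have hfin : g τ - r = deriv Φ (qParam 1 τ) * (qParam 1 τ * (2 * Real.pi * I)) :=
    (hFd τ hτ0).unique hcomp2
  rw [hfin, norm_mul, norm_mul, hqn]
  have h2 : ‖(2 * Real.pi * I : ℂ)‖ = 2 * Real.pi := by
    rw [norm_mul, norm_mul, Complex.norm_I, Complex.norm_real, Real.norm_of_nonneg Real.pi_pos.le]
    simp
  rw [h2]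
  have h3 : ‖deriv Φ (qParam 1 τ)‖ ≤ K := hK _ (by simpa using hqle)
  calc ‖deriv Φ (qParam 1 τ)‖ * (Real.exp (-2 * Real.pi * τ.im) * (2 * Real.pi))
      ≤ K * (Real.exp (-2 * Real.pi * τ.im) * (2 * Real.pi)) :=
        mul_le_mul_of_nonneg_right h3 (by positivity)
    _ = K * (2 * Real.pi) * Real.exp (-2 * Real.pi * τ.im) := by ring

end Pool.Agent.LibEis68
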