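import Pool.Agent.LibEis68.D10

open Complex Polynomial Matrix
open scoped ComplexConjugate MatrixGroups UpperHalfPlane

namespace Pool.Agent.LibEis68

/-- The derivative of an extension. -/
theorem IsExtension.exists_deriv {k : ℕ} {e : ℂ → Fin (k + 1) → ℂ} (he : IsExtension k e) :
    ∃ (g : ℂ → ℂ) (r : ℚ) (C : ℝ), (∀ τ : ℂ, 0 < τ.im → HasDerivAt e (g τ • form k τ τ k) τ) ∧
      ∀ τ : ℂ, 1 ≤ τ.im → ‖g τ - r‖ ≤ C * Real.exp (-2 * Real.pi * τ.im) := by
  classical
  -- choice of the derivative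
  have hg : ∃ g : ℂ → ℂ, ∀ τ : ℂ, 0 < τ.im → HasDerivAt e (g τ • form k τ τ k) τ := by
    choose! g hg using he.transversal
    exact ⟨g, hg⟩
  obtain ⟨g, hg⟩ := hg
  obtain ⟨r, hr⟩ := he.monodromy ModularGroup.T
  obtain ⟨C0, N, hC0⟩ := he.growth
  set l : Fin (k + 1) := Fin.last k with hl
  -- the top coefficient of the form
  have htop : ∀ τ : ℂ, form k τ τ k l = 1 := by
    intro τ
    have h1 : ((X - C τ) ^ k : ℂ[X]).coeff k = 1 := by
      have hm : ((X - C τ) ^ k : ℂ[X]).Monic := (monic_X_sub_C τ).pow k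
      have hd : ((X - C τ) ^ k : ℂ[X]).natDegree = k := by
        rw [natDegree_pow, natDegree_X_sub_C, mul_one]
      have := hm.coeff_natDegree
      rwa [hd] at this
    simp [form, hl, h1]
  have hact : ∀ j : Fin (k + 1), act k ModularGroup.T l j = if j = l then 1 else 0 := by
    intro j
    have e1 : ((C ((ModularGroup.T 1 1 : ℤ) : ℚ) * X - C ((ModularGroup.T 0 1 : ℤ) : ℚ)) ^ (j : ℕ) *
        (C ((ModularGroup.T 0 0 : ℤ) : ℚ) - C ((ModularGroup.T 1 0 : ℤ) : ℚ) * X) ^ (k - (j : ℕ)) : ℚ[X]) = (X - C 1) ^ (j : ℕ) := by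
      simp [ModularGroup.T]
    have e2 : act k ModularGroup.T l j = ((X - C 1) ^ (j : ℕ) : ℚ[X]).coeff k := by
      rw [← e1]; simp [act, hl]
    rw [e2]
    have hd : ((X - C (1:ℚ)) ^ (j : ℕ) : ℚ[X]).natDegree = j := by
      rw [natDegree_pow, natDegree_X_sub_C, mul_one]
    by_cases hj : j = l
    · rw [if_pos hj]
      have hjk : (j : ℕ) = k := by rw [hj, hl]; simp
      have hm : ((X - C (1:ℚ)) ^ (j : ℕ) : ℚ[X]).Monic := (monic_X_sub_C (1:ℚ)).pow j
      have := hm.coeff_natDegree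
      rw [hd] at this
      rwa [hjk] at this ⊢
    · rw [if_neg hj]
      refine coeff_eq_zero_of_natDegree_lt ?_
      rw [hd]
      have h1 : (j : ℕ) < k + 1 := j.2
      have h2 : (j : ℕ) ≠ k := fun h => hj (Fin.ext (by rw [h, hl]; simp))
      omega
  obtain ⟨C, hC⟩ := deriv_decay (fun τ => e τ l) g (r l) (fun τ hτ => by
      have := (hasDerivAt_pi.mp (hg τ hτ)) l
      simpa [htop τ] using this) (fun τ hτ => by
      have h1 := congrFun (hr ⟨τ, hτ⟩) l
      have h2 : (((ModularGroup.T • (⟨τ, hτ⟩ : ℍ)) : ℍ) : ℂ) = τ + 1 := by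
        rw [UpperHalfPlane.modular_T_smul, UpperHalfPlane.coe_vadd]
        simp [add_comm]
      rw [h2] at h1
      rw [h1]
      simp only [Pi.add_apply, Matrix.mulVec, dotProduct, Matrix.map_apply]
      congr 1
      rw [Finset.sum_eq_single l]
      · rw [hact l, if_pos rfl]; simp
      · intro b _ hb
        rw [hact b, if_neg hb]; simp
      · intro h; exact absurd (Finset.mem_univ _) h)
      ⟨C0, N, fun τ h1 h2 => (norm_le_pi_norm (e τ) l).trans (hC0 τ h1 h2)⟩
  exact ⟨g, r l, C, hg, fun τ hτ => by simpa using hC τ hτ⟩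

end Pool.Agent.LibEis68
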