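import Pool.Agent.LibEis68.CDefs

open Complex Polynomial Matrix
open scoped ComplexConjugate MatrixGroups UpperHalfPlane

namespace Pool.Agent.LibEis68

open EisensteinSeries ArithmeticFunction in
/-- The holomorphic Eisenstein series at the cusp. -/
theorem lat_decay {k : ℕ} (hk : Even k) (hk2 : 2 ≤ k) :
    ∃ C : ℝ, ∀ τ : ℂ, 1 ≤ τ.im →
      ‖lat (k + 2) 0 τ - 2 * riemannZeta (k + 2)‖ ≤ C * Real.exp (-2 * Real.pi * τ.im) := by
  have hk3 : 3 ≤ k + 2 := by omega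
  have hke : Even (k + 2) := hk.add (by decide)
  set q0 : ℝ := Real.exp (-2 * Real.pi) with hq0
  have hq0pos : 0 < q0 := Real.exp_pos _
  have hq0lt : q0 < 1 := by
    rw [hq0, Real.exp_lt_one_iff]
    nlinarith [Real.pi_pos]
  -- the majorant
  have hS : Summable fun n : ℕ => ((sigma (k + 2 - 1) (n + 1) : ℕ) : ℝ) * q0 ^ n := by
    have h0 : Summable fun n : ℕ => ‖((n : ℝ) ^ (k + 2) * q0 ^ n)‖ := by
      apply summable_norm_pow_mul_geometric_of_norm_lt_one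
      rwa [Real.norm_eq_abs, abs_of_pos hq0pos]
    have h1 : Summable fun n : ℕ => ((sigma (k + 2 - 1) n : ℕ) : ℝ) * q0 ^ n := by
      refine Summable.of_norm_bounded h0 fun n => ?_
      rw [norm_mul, norm_mul]
      refine mul_le_mul_of_nonneg_right ?_ (norm_nonneg _)
      rw [Real.norm_natCast, norm_pow, Real.norm_natCast]
      exact_mod_cast (ArithmeticFunction.sigma_le_pow_succ (k + 2 - 1) n).trans_eq
        (by congr 1)
    have h2 := (summable_nat_add_iff 1).mpr h1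
    refine (h2.mul_left q0⁻¹).congr fun n => ?_
    rw [pow_succ]
    field_simp
  set M : ℝ := ∑' n : ℕ, ((sigma (k + 2 - 1) (n + 1) : ℕ) : ℝ) * q0 ^ n with hM
  refine ⟨‖(2 : ℂ) * ((-2 * Real.pi * I) ^ (k + 2) / ((k + 2 - 1).factorial : ℂ))‖ * M,
    fun τ hτ => ?_⟩
  have hτ0 : 0 < τ.im := by linarith
  set z : ℍ := ⟨τ, hτ0⟩ with hz
  have hlat : lat (k + 2) 0 τ = ∑' v : Fin 2 → ℤ, eisSummand ((k + 2 : ℕ) : ℤ) v z := by
    unfold lat
    refine tsum_congr fun v => ?_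
    rw [pow_zero, mul_one, eisSummand, _root_.zpow_neg, zpow_natCast]
  rw [hlat, tsum_eisSummand_eq_tsum_sigma_mul_cexp_pow hk3 hke z]
  have hcast : riemannZeta ((k + 2 : ℕ) : ℂ) = riemannZeta ((k : ℂ) + 2) := by
    push_cast; rfl
  rw [hcast, add_sub_cancel_left, norm_mul]
  refine (mul_le_mul_of_nonneg_left ?_ (norm_nonneg _)).trans_eq (mul_assoc _ _ _).symm
  have hq : ‖Complex.exp (2 * Real.pi * I * z)‖ = Real.exp (-2 * Real.pi * τ.im) := by
    rw [Complex.norm_exp]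
    congr 1
    simp [hz]
  set q : ℂ := Complex.exp (2 * Real.pi * I * z) with hqdef
  have hqle : ‖q‖ ≤ q0 := by
    rw [hq, hq0]
    apply Real.exp_le_exp.mpr
    nlinarith [Real.pi_pos]
  rw [← hq, tsum_pnat_eq_tsum_succ (f := fun n : ℕ => ((sigma (k + 2 - 1) n : ℕ) : ℂ) * q ^ n)]
  have hb : ∀ n : ℕ, ‖((sigma (k + 2 - 1) (n + 1) : ℕ) : ℂ) * q ^ (n + 1)‖ ≤
      (((sigma (k + 2 - 1) (n + 1) : ℕ) : ℝ) * q0 ^ n) * ‖q‖ := by
    intro n
    rw [norm_mul, norm_pow, Complex.norm_natCast, pow_succ, ← mul_assoc]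
    gcongr
  rw [hM, ← tsum_mul_right]
  exact tsum_of_norm_bounded (hS.mul_right _).hasSum hb

end Pool.Agent.LibEis68
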