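import Pool.Agent.LibEis68.D09
import Pool.Agent.LibEis68.D11
import Pool.Agent.LibEis68.D12
import Pool.Agent.LibEis68.C01
import Pool.Agent.LibEis68.C02
import Pool.Agent.LibEis68.C05

open Complex Polynomial Matrix
open scoped ComplexConjugate MatrixGroups UpperHalfPlane

namespace Pool.Agent.LibEis68

private theorem d13_zeta {k : ℕ} : ∃ Z : ℝ, Z ≠ 0 ∧ riemannZeta ((k : ℂ) + 2) = Z := by
  have h1 : riemannZeta ((k : ℂ) + 2) = ((∑' n : ℕ, 1 / (n : ℝ) ^ (k + 2) : ℝ) : ℂ) := by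
    have h := zeta_nat_eq_tsum_of_gt_one (k := k + 2) (by omega)
    push_cast at h ⊢
    exact h
  refine ⟨_, ?_, h1⟩
  intro h2
  rw [h2, Complex.ofReal_zero] at h1
  refine riemannZeta_ne_zero_of_one_le_re ?_ h1
  simp
  have : (0 : ℝ) ≤ k := Nat.cast_nonneg k
  linarith

theorem IsExtension.im_eq_reg {k : ℕ} (hk : Even k) (hk2 : 2 ≤ k) {e : ℂ → Fin (k + 1) → ℂ}
    (he : IsExtension k e) :
    ∃ κ : ℝ, ∀ τ : ℂ, 0 < τ.im → ∀ j, ((e τ j).im : ℂ) = κ * reg k τ j := by
  obtain ⟨g, r, C, hg, hC⟩ := he.exists_deriv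
  obtain ⟨C', hC'⟩ := lat_decay hk hk2
  obtain ⟨Z, hZ0, hZ⟩ := d13_zeta (k := k)
  have hk1 : ((k : ℝ) + 1) ≠ 0 := by positivity
  set κ : ℝ := (r : ℝ) / (2 * ((k : ℝ) + 1) * Z) with hκ
  have hcusp : Cusp k (fun τ j => (e τ j).im - κ * (reg k τ j).re)
      (fun τ => g τ - (κ * ((k : ℝ) + 1) : ℝ) * lat (k + 2) 0 τ) := by
    refine ⟨?_, ?_, ?_⟩
    · intro τ hτ j
      have h1 : HasDerivAt (fun z => e z j) (g τ * form k τ τ k j) τ := by
        have := hasDerivAt_pi.1 (hg τ hτ) j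
        simpa using this
      have h2 : HasFDerivAt (fun z => (e z j).im) (imMul (g τ * form k τ τ k j)) τ := by
        have h3 := h1.hasFDerivAt.restrictScalars ℝ
        have h4 := imCLM.hasFDerivAt.comp τ h3
        refine h4.congr_fderiv ?_
        ext <;> simp [imMul, mul_comm]
      have h5 := (reg_hasFDerivAt k hk2 hτ j).const_mul κ
      have h6 := h2.sub h5
      refine h6.congr_fderiv ?_
      ext <;> simp [imMul] <;> ring
    · intro γ τ
      obtain ⟨r', hr'⟩ := he.monodromy γ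
      have h1 := hr' τ
      have h2 := reg_smul k γ τ
      ext j
      simp only [h1, h2]
      simp only [Matrix.mulVec, dotProduct, Pi.add_apply, Matrix.map_apply]
      have e1 : (∑ i, (algebraMap ℚ ℂ) (act k γ j i) * e (τ : ℂ) i + ((r' j : ℚ) : ℂ)).im =
          ∑ i, (algebraMap ℚ ℝ) (act k γ j i) * (e (τ : ℂ) i).im := by
        rw [Complex.add_im, Complex.im_sum]
        simp
      have e2 : (∑ i, (algebraMap ℚ ℂ) (act k γ j i) * reg k (τ : ℂ) i).re =
          ∑ i, (algebraMap ℚ ℝ) (act k γ j i) * (reg k (τ : ℂ) i).re := by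
        rw [Complex.re_sum]
        simp
      rw [e1, e2, Finset.mul_sum, ← Finset.sum_sub_distrib]
      apply Finset.sum_congr rfl
      intro i _
      ring
    · refine ⟨C + |κ * ((k : ℝ) + 1)| * C', fun τ hτ => ?_⟩
      have h1 := hC τ hτ
      have h2 := hC' τ hτ
      have e1 : ((κ * ((k : ℝ) + 1) : ℝ) : ℂ) * (2 * riemannZeta ((k : ℂ) + 2)) = (r : ℂ) := by
        rw [hZ]
        have : κ * ((k : ℝ) + 1) * (2 * Z) = r := by
          rw [hκ]; field_simp
        exact_mod_cast this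
      have e2 : g τ - ((κ * ((k : ℝ) + 1) : ℝ) : ℂ) * lat (k + 2) 0 τ =
          (g τ - r) - ((κ * ((k : ℝ) + 1) : ℝ) : ℂ) *
            (lat (k + 2) 0 τ - 2 * riemannZeta ((k : ℂ) + 2)) := by
        rw [mul_sub, e1]; ring
      rw [e2]
      refine (norm_sub_le _ _).trans ?_
      rw [norm_mul, Complex.norm_real, Real.norm_eq_abs]
      refine (add_le_add h1 (mul_le_mul_of_nonneg_left h2 (abs_nonneg _))).trans_eq ?_
      ring
  refine ⟨κ, fun τ hτ j => ?_⟩
  have h1 := congrFun (hcusp.eq_zero hk hk2 τ hτ) j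
  simp only [Pi.zero_apply] at h1
  have h2 : (e τ j).im = κ * (reg k τ j).re := by linarith
  rw [h2]
  have h3 : reg k τ j = ((reg k τ j).re : ℂ) := by
    apply Complex.ext
    · simp
    · simp [reg_im]
  rw [h3]
  push_cast
  simp

end Pool.Agent.LibEis68
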