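import Pool.Agent.LibEis68.CDefs

open Complex Polynomial Matrix
open scoped ComplexConjugate MatrixGroups UpperHalfPlane

namespace Pool.Agent.LibEis68

private theorem d14_deriv {f : ℂ → ℂ} {d τ : ℂ} (hτ : 0 < τ.im) (hf : HasDerivAt f d τ)
    (h : ∀ z : ℂ, 0 < z.im → (f z).im = 0) : d = 0 := by
  have h3 := hf.hasFDerivAt.restrictScalars ℝ
  have h4 := imCLM.hasFDerivAt.comp τ h3
  have h5 : HasFDerivAt (fun z => (f z).im) (0 : ℂ →L[ℝ] ℝ) τ := by
    have h6 : HasFDerivAt (fun _ : ℂ => (0 : ℝ)) (0 : ℂ →L[ℝ] ℝ) τ := hasFDerivAt_const _ _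
    refine h6.congr_of_eventuallyEq ?_
    have : {z : ℂ | 0 < z.im} ∈ nhds τ := (isOpen_lt continuous_const Complex.continuous_im).mem_nhds hτ
    filter_upwards [this] with z hz
    exact h z hz
  have h7 := h4.unique h5
  have h8 := DFunLike.congr_fun h7 1
  have h9 := DFunLike.congr_fun h7 I
  simp at h8 h9
  exact Complex.ext h9 h8

private theorem d14_const {k : ℕ} {e : ℂ → Fin (k + 1) → ℂ}
    (he : IsExtension k e) (h : ∀ τ : ℂ, 0 < τ.im → ∀ j, (e τ j).im = 0) :
    ∀ τ : ℂ, 0 < τ.im → ∀ j, e τ j = e I j := by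
  intro τ hτ j
  have hopen : IsOpen {z : ℂ | 0 < z.im} := isOpen_lt continuous_const Complex.continuous_im
  have hconv : Convex ℝ {z : ℂ | 0 < z.im} := convex_halfSpace_im_gt 0
  have hd : ∀ z : ℂ, 0 < z.im → HasDerivAt (fun w => e w j) 0 z := by
    intro z hz
    obtain ⟨g, hg⟩ := he.transversal z hz
    have h1 := hasDerivAt_pi.1 hg j
    have h2 := d14_deriv hz h1 (fun w hw => h w hw j)
    rw [h2] at h1
    exact h1
  exact hopen.is_const_of_deriv_eq_zero hconv.isPreconnected
    (fun z hz => (hd z hz).differentiableAt.differentiableWithinAt)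
    (fun z hz => (hd z hz).deriv) hτ (by simp : (0 : ℝ) < I.im)

private theorem d14_T {k : ℕ} {c : Fin (k + 1) → ℂ} {r : Fin (k + 1) → ℚ}
    (h : c = (act k ModularGroup.T).map (algebraMap ℚ ℂ) *ᵥ c + fun j => (r j : ℂ)) :
    ∀ m : ℕ, m < k → ∃ q : ℚ, ∀ hm : k - m < k + 1, c ⟨k - m, hm⟩ = q := by
  have hact : ∀ i j : Fin (k + 1), act k ModularGroup.T i j =
      (-1) ^ ((j : ℕ) - (i : ℕ)) * ((j : ℕ).choose i : ℚ) := by
    intro i j
    unfold act
    have e1 : ((C ((ModularGroup.T 1 1 : ℤ) : ℚ) * X - C ((ModularGroup.T 0 1 : ℤ) : ℚ)) ^ (j : ℕ) *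
      (C ((ModularGroup.T 0 0 : ℤ) : ℚ) - C ((ModularGroup.T 1 0 : ℤ) : ℚ) * X) ^ (k - (j : ℕ)) : ℚ[X]) =
      (X - C 1) ^ (j : ℕ) := by
      simp [ModularGroup.T]
    rw [Matrix.of_apply, e1, sub_eq_add_neg, ← C_neg, Polynomial.coeff_X_add_C_pow]
  intro m
  induction m using Nat.strong_induction_on with
  | _ m ih =>
    intro hm
    -- the row `k - m - 1`
    have hi : k - m - 1 < k + 1 := by omega
    have hrow := congrFun h ⟨k - m - 1, hi⟩
    simp only [Pi.add_apply, Matrix.mulVec, dotProduct, Matrix.map_apply] at hrow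
    -- split the sum
    choose! q hq using fun m' (hm' : m' < m) => ih m' hm' (lt_trans hm' hm)
    have hsum : ∑ j : Fin (k + 1), (algebraMap ℚ ℂ) (act k ModularGroup.T ⟨k - m - 1, hi⟩ j) * c j =
        c ⟨k - m - 1, hi⟩ - ((k - m : ℕ) : ℂ) * c ⟨k - m, by omega⟩ +
          ((∑ j : Fin (k + 1), if k - m < (j : ℕ) then
            act k ModularGroup.T ⟨k - m - 1, hi⟩ j * q (k - j) else 0 : ℚ) : ℂ) := by
      have e1 : ∀ j : Fin (k + 1), (algebraMap ℚ ℂ) (act k ModularGroup.T ⟨k - m - 1, hi⟩ j) * c j =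
          (if j = ⟨k - m - 1, hi⟩ then c ⟨k - m - 1, hi⟩ else 0) +
          (if j = ⟨k - m, by omega⟩ then -(((k - m : ℕ) : ℂ) * c ⟨k - m, by omega⟩) else 0) +
          (((if k - m < (j : ℕ) then
            act k ModularGroup.T ⟨k - m - 1, hi⟩ j * q (k - j) else 0 : ℚ)) : ℂ) := by
        intro j
        by_cases h1 : (j : ℕ) < k - m - 1
        · have n1 : j ≠ ⟨k - m - 1, hi⟩ := by rintro rfl; simp at h1
          have n2 : j ≠ ⟨k - m, by omega⟩ := by
            intro h'
            rw [h'] at h1; simp at h1; omega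
          rw [if_neg n1, if_neg n2, if_neg (by omega), hact, Nat.choose_eq_zero_of_lt (by simpa using h1)]
          simp
        by_cases h2 : (j : ℕ) = k - m - 1
        · have n1 : j = ⟨k - m - 1, hi⟩ := Fin.ext h2
          have n2 : j ≠ ⟨k - m, by omega⟩ := by
            intro h3
            rw [h3] at h2; simp at h2; omega
          rw [if_pos n1, if_neg n2, if_neg (by omega), hact, n1]
          simp
        by_cases h3 : (j : ℕ) = k - m
        · have n1 : j ≠ ⟨k - m - 1, hi⟩ := by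
            intro h4
            rw [h4] at h3; simp at h3; omega
          have n2 : j = ⟨k - m, by omega⟩ := Fin.ext h3
          rw [if_neg n1, if_pos n2, if_neg (by omega), hact, n2]
          have e2 : k - m - (k - m - 1) = 1 := by omega
          have e3 : (k - m).choose (k - m - 1) = k - m := by
            obtain ⟨n, hn⟩ : ∃ n, k - m = n + 1 := ⟨k - m - 1, by omega⟩
            rw [hn]; simp
          simp only [e2, e3]
          push_cast
          ring
        · have h4 : k - m < (j : ℕ) := by omega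
          have n1 : j ≠ ⟨k - m - 1, hi⟩ := by
            rintro rfl
            simp at h4; omega
          have n2 : j ≠ ⟨k - m, by omega⟩ := by
            intro h'
            exact h3 (by rw [h'])
          rw [if_neg n1, if_neg n2, if_pos h4]
          have hj : (j : ℕ) ≤ k := by omega
          have h5 := hq (k - j) (by omega) (by omega)
          have h6 : (⟨k - (k - (j : ℕ)), by omega⟩ : Fin (k + 1)) = j := by
            apply Fin.ext; simp; omega
          rw [h6] at h5
          rw [h5]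
          simp
      rw [Finset.sum_congr rfl fun j _ => e1 j, Finset.sum_add_distrib, Finset.sum_add_distrib]
      simp
      ring
    rw [hsum] at hrow
    have hkm : ((k - m : ℕ) : ℂ) ≠ 0 := by
      have : k - m ≠ 0 := by omega
      exact_mod_cast this
    refine ⟨((∑ j : Fin (k + 1), if k - m < (j : ℕ) then
            act k ModularGroup.T ⟨k - m - 1, hi⟩ j * q (k - j) else 0) + r ⟨k - m - 1, hi⟩) /
            ((k - m : ℕ) : ℚ), fun hm' => ?_⟩
    have h7 : ((k - m : ℕ) : ℂ) * c ⟨k - m, hm'⟩ =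
        ((∑ j : Fin (k + 1), if k - m < (j : ℕ) then
            act k ModularGroup.T ⟨k - m - 1, hi⟩ j * q (k - j) else 0 : ℚ) : ℂ) +
          (r ⟨k - m - 1, hi⟩ : ℂ) := by
      linear_combination hrow
    rw [Rat.cast_div, Rat.cast_add, ← h7, Rat.cast_natCast]
    field_simp

/-- A real extension is split. -/
theorem IsExtension.split_of_real {k : ℕ} (hk2 : 2 ≤ k) {e : ℂ → Fin (k + 1) → ℂ}
    (he : IsExtension k e) (h : ∀ τ : ℂ, 0 < τ.im → ∀ j, (e τ j).im = 0) : IsSplit k e := by
  have hc := d14_const he h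
  set c : Fin (k + 1) → ℂ := e I with hcd
  have hmon : ∀ γ : SL(2, ℤ), ∃ r : Fin (k + 1) → ℚ,
      c = (act k γ).map (algebraMap ℚ ℂ) *ᵥ c + fun j => (r j : ℂ) := by
    intro γ
    obtain ⟨r, hr⟩ := he.monodromy γ
    refine ⟨r, ?_⟩
    have h1 := hr UpperHalfPlane.I
    have h2 : e ((γ • UpperHalfPlane.I : ℍ) : ℂ) = c :=
      funext fun j => hc _ (γ • UpperHalfPlane.I : ℍ).im_pos j
    have h3 : e ((UpperHalfPlane.I : ℍ) : ℂ) = c := rfl
    rw [h2, h3] at h1
    exact h1
  obtain ⟨r, hr⟩ := hmon ModularGroup.T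
  have hT := d14_T hr
  have hrat : ∀ j : Fin (k + 1), (j : ℕ) ≠ 0 → ∃ q : ℚ, c j = q := by
    intro j hj
    obtain ⟨q, hq⟩ := hT (k - j) (by omega)
    refine ⟨q, ?_⟩
    have h1 := hq (by omega)
    have h2 : (⟨k - (k - (j : ℕ)), by omega⟩ : Fin (k + 1)) = j := by
      apply Fin.ext; simp; omega
    rw [h2] at h1
    exact h1
  have hrat0 : ∃ q : ℚ, c 0 = q := by
    obtain ⟨r', hr'⟩ := hmon ModularGroup.S
    have h1 := congrFun hr' (Fin.last k)
    simp only [Pi.add_apply, Matrix.mulVec, dotProduct, Matrix.map_apply] at h1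
    have hact : ∀ j : Fin (k + 1), act k ModularGroup.S (Fin.last k) j =
        if j = 0 then (-1) ^ k else 0 := by
      intro j
      unfold act
      have e1 : ((C ((ModularGroup.S 1 1 : ℤ) : ℚ) * X - C ((ModularGroup.S 0 1 : ℤ) : ℚ)) ^ (j : ℕ) *
        (C ((ModularGroup.S 0 0 : ℤ) : ℚ) - C ((ModularGroup.S 1 0 : ℤ) : ℚ) * X) ^ (k - (j : ℕ)) : ℚ[X]) =
        C ((-1) ^ (k - (j : ℕ))) * X ^ (k - (j : ℕ)) := by
        simp [ModularGroup.S]
        rw [neg_pow]
      rw [Matrix.of_apply, e1, Polynomial.coeff_C_mul, Polynomial.coeff_X_pow]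
      by_cases hj : j = 0
      · subst hj; simp
      · rw [if_neg hj, if_neg]
        · simp
        · intro h2
          apply hj
          apply Fin.ext
          have h3 : (j : ℕ) < k + 1 := j.2
          rw [Fin.val_last] at h2
          rw [Fin.val_zero]
          omega
    simp only [hact] at h1
    have e2 : ∑ x : Fin (k + 1), (algebraMap ℚ ℂ) (if x = 0 then (-1) ^ k else 0) * c x =
        (-1) ^ k * c 0 := by
      rw [Finset.sum_eq_single 0]
      · simp
      · intro b _ hb
        rw [if_neg hb]; simp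
      · simp
    rw [e2] at h1
    obtain ⟨q, hq⟩ := hrat (Fin.last k) (by simp; omega)
    rw [hq] at h1
    refine ⟨(-1) ^ k * (q - r' (Fin.last k)), ?_⟩
    push_cast
    have h4 : ((-1 : ℂ) ^ k) * (-1) ^ k = 1 := by
      rw [← mul_pow]; norm_num
    linear_combination -(-1 : ℂ) ^ k * h1 - c 0 * h4
  have hall : ∀ j : Fin (k + 1), ∃ q : ℚ, c j = q := by
    intro j
    by_cases hj : (j : ℕ) = 0
    · have : j = 0 := Fin.ext hj
      rw [this]; exact hrat0
    · exact hrat j hj
  choose q hq using hall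
  exact ⟨q, fun τ hτ j => by rw [hc τ hτ j, hq j]⟩

end Pool.Agent.LibEis68
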