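import Pool.Agent.LibEis68.CDefs

open Complex Polynomial Matrix
open scoped ComplexConjugate MatrixGroups UpperHalfPlane

namespace Pool.Agent.LibEis68

/-- The `SL₂`-invariant pairing on binary forms of degree `k`:
`⟨X^a Y^(k-a), X^(k-a) Y^a⟩ = (-1)^a / binom(k, a)`. -/
noncomputable def pr (k : ℕ) (P Q : Fin (k + 1) → ℂ) : ℂ :=
  ∑ a : Fin (k + 1), (-1) ^ (a : ℕ) * ((k.choose a : ℂ))⁻¹ * P a * Q (Fin.rev a)

/-- The standing assumptions of the uniqueness theorem: a real vector valued function, equivariant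
under `SL₂(ℤ)`, with derivative `Im (f (X - τY)^k dτ)`, `f` exponentially small at the cusp. -/
structure Cusp (k : ℕ) (D : ℂ → Fin (k + 1) → ℝ) (f : ℂ → ℂ) : Prop where
  deriv : ∀ τ : ℂ, 0 < τ.im → ∀ j,
    HasFDerivAt (fun z => D z j) (imMul (f τ * form k τ τ k j)) τ
  inv : ∀ (γ : SL(2, ℤ)) (τ : ℍ), D ((γ • τ : ℍ) : ℂ) = (act k γ).map (algebraMap ℚ ℝ) *ᵥ D τ
  small : ∃ C : ℝ, ∀ τ : ℂ, 1 ≤ τ.im → ‖f τ‖ ≤ C * Real.exp (-2 * Real.pi * τ.im)

/-- The invariant function attached to `D` (the component of type `(-k/2-1, -k/2-1)`). -/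
noncomputable def uu (k : ℕ) (D : ℂ → Fin (k + 1) → ℝ) (τ : ℂ) : ℝ :=
  (τ.im ^ (k / 2))⁻¹ * (pr k (fun j => (D τ j : ℂ)) (form k τ (conj τ) (k / 2))).re

end Pool.Agent.LibEis68
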