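import Pool.Agent.LibEis68.D13
import Pool.Agent.LibEis68.D14

open Complex Polynomial Matrix
open scoped ComplexConjugate MatrixGroups UpperHalfPlane

namespace Pool.Agent.LibEis68

theorem IsExtension.im_formula {k : ℕ} (hk : Even k) (hk2 : 2 ≤ k) {e : ℂ → Fin (k + 1) → ℂ}
    (he : IsExtension k e) (hs : ¬ IsSplit k e) :
    ∃ κ : ℝ, κ ≠ 0 ∧ ∀ τ : ℂ, 0 < τ.im → ∀ j, ((e τ j).im : ℂ) = κ * reg k τ j := by
  obtain ⟨κ, h⟩ := he.im_eq_reg hk hk2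
  refine ⟨κ, ?_, h⟩
  rintro rfl
  refine hs (he.split_of_real hk2 fun τ hτ j => ?_)
  simpa using h τ hτ j

end Pool.Agent.LibEis68
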