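import Mathlib

/-!
# Extensions of `ℚ(0)` by `Sym^k H¹(k+1)` over the modular curve `Y(1)`

All definitions used by the statement on the Hodge locus and the atypical locus.

`H¹(E_τ, ℚ)` is `ℚX ⊕ ℚY` with `H^{1,0}` spanned by `X - τY`, so `Sym^k H¹(E_τ, ℚ)` is the space of
binary forms of degree `k` in `X, Y`, and after the twist by `ℚ(k+1)` the form
`(X - τY)^i (X - τ̄Y)^(k-i)` has type `(i-k-1, -i-1)`. A form is written as the vector of its
coefficients: entry `j` is the coefficient of `X^j Y^(k-j)`.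
-/

open Complex Polynomial Matrix
open scoped ComplexConjugate MatrixGroups UpperHalfPlane

namespace Pool.Agent.LibEis68

/-- The coefficient vector of the binary form `(X - zY)^i (X - wY)^(k-i)`. -/
noncomputable def form (k : ℕ) (z w : ℂ) (i : ℕ) : Fin (k + 1) → ℂ :=
  fun j => ((X - C z) ^ i * (X - C w) ^ (k - i)).coeff j

/-- The matrix of `γ = (a, b; c, d)` on binary forms of degree `k`:
`(γP)(X, Y) = P(dX - bY, -cX + aY)`. Column `j` is the image of `X^j Y^(k-j)`. -/
noncomputable def act (k : ℕ) (γ : SL(2, ℤ)) : Matrix (Fin (k + 1)) (Fin (k + 1)) ℚ :=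
  Matrix.of fun i j => ((C (γ 1 1 : ℚ) * X - C (γ 0 1 : ℚ)) ^ (j : ℕ) *
    (C (γ 0 0 : ℚ) - C (γ 1 0 : ℚ) * X) ^ (k - (j : ℕ))).coeff i

/-- `e` defines an admissible variation of mixed Hodge structure over `Y(1)` which is an extension
of `ℚ(0)` by `Sym^k H¹(k+1)`: the underlying rational local system is `ℚ ⊕ Sym^k ℚ²` and `F⁰` at
`τ` is spanned by `(1, e(τ))`.
* `transversal`: `e` is holomorphic on the upper half plane and its derivative lies in `F^{-1}`
  (Griffiths transversality), that is, it is a multiple of `(X - τY)^k`.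
* `monodromy`: `F⁰` is invariant under a rational action of `SL₂(ℤ)` extending the one on
  `Sym^k ℚ²` and inducing the trivial one on the quotient `ℚ`.
* `growth`: the Hodge filtration has moderate growth at the cusp (admissibility). -/
structure IsExtension (k : ℕ) (e : ℂ → Fin (k + 1) → ℂ) : Prop where
  transversal : ∀ τ : ℂ, 0 < τ.im → ∃ g : ℂ, HasDerivAt e (g • form k τ τ k) τ
  monodromy : ∀ γ : SL(2, ℤ), ∃ r : Fin (k + 1) → ℚ, ∀ τ : ℍ,
    e ((γ • τ : ℍ) : ℂ) = (act k γ).map (algebraMap ℚ ℂ) *ᵥ e τ + fun j => (r j : ℂ)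
  growth : ∃ (C : ℝ) (N : ℕ), ∀ τ : ℂ, |τ.re| ≤ 1 / 2 → 1 ≤ τ.im → ‖e τ‖ ≤ C * τ.im ^ N

/-- The extension splits: `F⁰` is spanned by a flat rational section. -/
def IsSplit (k : ℕ) (e : ℂ → Fin (k + 1) → ℂ) : Prop :=
  ∃ r : Fin (k + 1) → ℚ, ∀ τ : ℂ, 0 < τ.im → ∀ j, e τ j = r j

/-- The basis of the Deligne splitting at `τ` (columns), written in the flat rational basis:
`(1, e(τ))` of type `(0, 0)` and the forms `(X - τY)^i (X - τ̄Y)^(k-i)`, `i = 0, …, k`. -/
noncomputable def frame {k : ℕ} (e : ℂ → Fin (k + 1) → ℂ) (τ : ℂ) :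
    Matrix (Unit ⊕ Fin (k + 1)) (Unit ⊕ Fin (k + 1)) ℂ :=
  Matrix.fromBlocks 1 0 (Matrix.of fun j _ => e τ j)
    (Matrix.of fun j (i : Fin (k + 1)) => form k τ (conj τ) i j)

/-- The first Hodge number `p` of the basis vectors of `frame`. -/
def hodgeP (k : ℕ) : Unit ⊕ Fin (k + 1) → ℤ := Sum.elim (fun _ => 0) (fun i => (i : ℤ) - k - 1)

/-- The second Hodge number `q` of the basis vectors of `frame`. -/
def hodgeQ (k : ℕ) : Unit ⊕ Fin (k + 1) → ℤ := Sum.elim (fun _ => 0) (fun i => -(i : ℤ) - 1)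

/-- The operator which is multiplication by `p` on the part of type `(p, q)`. -/
noncomputable def opP {k : ℕ} (e : ℂ → Fin (k + 1) → ℂ) (τ : ℂ) :
    Matrix (Unit ⊕ Fin (k + 1)) (Unit ⊕ Fin (k + 1)) ℂ :=
  frame e τ * Matrix.diagonal (fun x => (hodgeP k x : ℂ)) * (frame e τ)⁻¹

/-- The operator which is multiplication by `q` on the part of type `(p, q)`. -/
noncomputable def opQ {k : ℕ} (e : ℂ → Fin (k + 1) → ℂ) (τ : ℂ) :
    Matrix (Unit ⊕ Fin (k + 1)) (Unit ⊕ Fin (k + 1)) ℂ :=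
  frame e τ * Matrix.diagonal (fun x => (hodgeQ k x : ℂ)) * (frame e τ)⁻¹

/-- The complexification of a rational space of matrices. -/
def cx {n : Type*} (L : Submodule ℚ (Matrix n n ℚ)) : Submodule ℂ (Matrix n n ℂ) :=
  Submodule.span ℂ ((fun M : Matrix n n ℚ => M.map (algebraMap ℚ ℂ)) '' (L : Set _))

/-- The Lie algebra of the Mumford-Tate group of the fibre at `τ`: the smallest rational space of
matrices closed under the commutator whose complexification contains the two derivatives of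
the Deligne cocharacter `𝕊_ℂ → GL(V_ℂ)`. -/
noncomputable def mtLie {k : ℕ} (e : ℂ → Fin (k + 1) → ℂ) (τ : ℂ) :
    Submodule ℚ (Matrix (Unit ⊕ Fin (k + 1)) (Unit ⊕ Fin (k + 1)) ℚ) :=
  sInf {L | (∀ A ∈ L, ∀ B ∈ L, A * B - B * A ∈ L) ∧ opP e τ ∈ cx L ∧ opQ e τ ∈ cx L}

/-- The dimension of the Mumford-Tate group of the fibre at `τ`. -/
noncomputable def mtDim {k : ℕ} (e : ℂ → Fin (k + 1) → ℂ) (τ : ℂ) : ℕ :=
  Module.finrank ℚ (mtLie e τ)

/-- `F⁰ End(V_ℂ)` at `τ`: the endomorphisms which respect the Hodge filtration. -/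
noncomputable def F0 {k : ℕ} (e : ℂ → Fin (k + 1) → ℂ) (τ : ℂ) :
    Submodule ℂ (Matrix (Unit ⊕ Fin (k + 1)) (Unit ⊕ Fin (k + 1)) ℂ) where
  carrier := {M | ∀ x y, hodgeP k x < hodgeP k y → ((frame e τ)⁻¹ * M * frame e τ) x y = 0}
  add_mem' := by
    intro A B hA hB x y h
    simp [Matrix.mul_add, Matrix.add_mul, hA x y h, hB x y h]
  zero_mem' := by intro x y _; simp
  smul_mem' := by
    intro c A hA x y h
    simp [hA x y h]

/-- The dimension of the Mumford-Tate domain of the fibre at `τ`: its tangent space is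
`𝔪_ℂ / F⁰𝔪_ℂ`, `𝔪` the Lie algebra of the Mumford-Tate group. -/
noncomputable def domainDim {k : ℕ} (e : ℂ → Fin (k + 1) → ℂ) (τ : ℂ) : ℕ :=
  Module.finrank ℂ ((cx (mtLie e τ)).map (F0 e τ).mkQ)

/-- The dimension of the generic Mumford-Tate group. -/
noncomputable def genericMtDim {k : ℕ} (e : ℂ → Fin (k + 1) → ℂ) : ℕ := ⨆ τ : ℍ, mtDim e τ

/-- The dimension of the generic Mumford-Tate domain. -/
noncomputable def genericDomainDim {k : ℕ} (e : ℂ → Fin (k + 1) → ℂ) : ℕ :=
  ⨆ τ : ℍ, domainDim e τ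

/-- The Hodge locus (in the upper half plane): the points whose Mumford-Tate group is smaller than
the generic one. -/
def hodgeLocus {k : ℕ} (e : ℂ → Fin (k + 1) → ℂ) : Set ℍ := {τ | mtDim e τ < genericMtDim e}

/-- The atypical locus (in the upper half plane). A special point is typical when the codimension
of its Mumford-Tate domain in the generic one is `1`, the codimension of the point in the
image of the period map, and atypical otherwise. -/
def atypicalLocus {k : ℕ} (e : ℂ → Fin (k + 1) → ℂ) : Set ℍ :=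
  {τ | τ ∈ hodgeLocus e ∧ genericDomainDim e - domainDim e τ ≠ 1}

/-- The point `exp(iπ/3)` of the upper half plane. -/
noncomputable def rho : ℍ := ⟨⟨1 / 2, √3 / 2⟩, by positivity⟩

end Pool.Agent.LibEis68
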