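import Pool.Agent.LibEis68.EDefs

open Complex Polynomial Matrix
open scoped ComplexConjugate MatrixGroups UpperHalfPlane

namespace Pool.Agent.LibEis68

private theorem e01_norm (k m : ℕ) (p : ℕ × ℕ) (τ : ℂ) :
    ‖(((p.1 : ℂ) + 1) ^ (k + 1))⁻¹ *
      (2 * Real.pi * I * ((p.1 : ℂ) + 1) * ((p.2 : ℂ) + 1)) ^ m *
      Complex.exp (2 * Real.pi * I * ((p.1 : ℂ) + 1) * ((p.2 : ℂ) + 1) * τ)‖ =
    (((p.1 : ℝ) + 1) ^ (k + 1))⁻¹ * (2 * Real.pi * ((p.1 : ℝ) + 1) * ((p.2 : ℝ) + 1)) ^ m *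
      Real.exp (-(2 * Real.pi * ((p.1 : ℝ) + 1) * ((p.2 : ℝ) + 1) * τ.im)) := by
  have h1 : ‖((p.1 : ℂ) + 1)‖ = (p.1 : ℝ) + 1 := by
    have : ((p.1 : ℂ) + 1) = (((p.1 : ℝ) + 1 : ℝ) : ℂ) := by push_cast; ring
    rw [this, Complex.norm_real, Real.norm_of_nonneg (by positivity)]
  have h2 : ‖((p.2 : ℂ) + 1)‖ = (p.2 : ℝ) + 1 := by
    have : ((p.2 : ℂ) + 1) = (((p.2 : ℝ) + 1 : ℝ) : ℂ) := by push_cast; ring
    rw [this, Complex.norm_real, Real.norm_of_nonneg (by positivity)]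
  have h3 : ‖(Real.pi : ℂ)‖ = Real.pi := by
    rw [Complex.norm_real, Real.norm_of_nonneg Real.pi_pos.le]
  rw [norm_mul, norm_mul, norm_inv, norm_pow, norm_pow, norm_mul, norm_mul, norm_mul, norm_mul,
    h1, h2, h3, Complex.norm_I, Complex.norm_exp, Complex.norm_two, mul_one]
  congr 2
  have : (2 * Real.pi * I * ((p.1 : ℂ) + 1) * ((p.2 : ℂ) + 1) * τ) =
      ((2 * Real.pi * ((p.1 : ℝ) + 1) * ((p.2 : ℝ) + 1) : ℝ) : ℂ) * (I * τ) := by
    push_cast; ring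
  rw [this, Complex.re_ofReal_mul]
  simp

private theorem e01_bound {r : ℝ} (hr0 : 0 ≤ r) (hr1 : r < 1) (m : ℕ) :
    Summable fun p : ℕ × ℕ => (((p.1 : ℝ) + 1) * ((p.2 : ℝ) + 1)) ^ m *
      r ^ ((p.1 + 1) * (p.2 + 1)) := by
  obtain ⟨s, hrs, hs1⟩ := exists_between hr1
  have hs0 : 0 < s := lt_of_le_of_lt hr0 hrs
  -- N^m (r/s)^N is bounded
  have ht := tendsto_pow_const_mul_const_pow_of_abs_lt_one m (r := r / s) (by
    rw [abs_of_nonneg (by positivity)]; rw [div_lt_one hs0]; exact hrs)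
  obtain ⟨C, hC⟩ := ht.bddAbove_range
  have hC' : ∀ N : ℕ, (N : ℝ) ^ m * (r / s) ^ N ≤ C := fun N => hC ⟨N, rfl⟩
  have hC0 : 0 ≤ C := le_trans (by positivity) (hC' 0)
  have hsum : Summable fun p : ℕ × ℕ => C * (s ^ p.1 * s ^ p.2) := by
    apply Summable.mul_left
    exact (summable_geometric_of_lt_one hs0.le hs1).mul_of_nonneg
      (summable_geometric_of_lt_one hs0.le hs1) (fun _ => by positivity) (fun _ => by positivity)
  refine Summable.of_nonneg_of_le (fun p => by positivity) (fun p => ?_) hsum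
  have h1 := hC' ((p.1 + 1) * (p.2 + 1))
  have h2 : (((p.1 : ℝ) + 1) * ((p.2 : ℝ) + 1)) ^ m * r ^ ((p.1 + 1) * (p.2 + 1)) ≤
      C * s ^ ((p.1 + 1) * (p.2 + 1)) := by
    rw [div_pow] at h1
    have : (((p.1 : ℝ) + 1) * ((p.2 : ℝ) + 1)) ^ m * r ^ ((p.1 + 1) * (p.2 + 1)) =
      ((((p.1 + 1) * (p.2 + 1) : ℕ) : ℝ) ^ m * (r ^ ((p.1 + 1) * (p.2 + 1)) /
        s ^ ((p.1 + 1) * (p.2 + 1)))) * s ^ ((p.1 + 1) * (p.2 + 1)) := by
      have : s ^ ((p.1 + 1) * (p.2 + 1)) ≠ 0 := by positivity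
      push_cast
      field_simp
    rw [this]
    exact mul_le_mul_of_nonneg_right h1 (by positivity)
  refine h2.trans (mul_le_mul_of_nonneg_left ?_ hC0)
  rw [← pow_add]
  exact pow_le_pow_of_le_one hs0.le hs1.le (by nlinarith)

theorem hh_summable (k m : ℕ) {τ : ℂ} (hτ : 0 < τ.im) :
    Summable fun p : ℕ × ℕ => (((p.1 : ℂ) + 1) ^ (k + 1))⁻¹ *
      (2 * Real.pi * I * ((p.1 : ℂ) + 1) * ((p.2 : ℂ) + 1)) ^ m *
      Complex.exp (2 * Real.pi * I * ((p.1 : ℂ) + 1) * ((p.2 : ℂ) + 1) * τ) := by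
  have hπ := Real.pi_pos
  have hb := (e01_bound (r := Real.exp (-(2 * Real.pi * τ.im))) (Real.exp_pos _).le
    (by rw [Real.exp_lt_one_iff]; nlinarith [mul_pos hπ hτ]) m).mul_left ((2 * Real.pi) ^ m)
  refine Summable.of_norm_bounded hb (fun p => ?_)
  rw [e01_norm]
  have h1 : (((p.1 : ℝ) + 1) ^ (k + 1))⁻¹ ≤ 1 := by
    apply inv_le_one_of_one_le₀
    exact one_le_pow₀ (by linarith [(Nat.cast_nonneg p.1 : (0 : ℝ) ≤ p.1)])
  have h2 : Real.exp (-(2 * Real.pi * ((p.1 : ℝ) + 1) * ((p.2 : ℝ) + 1) * τ.im)) =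
      Real.exp (-(2 * Real.pi * τ.im)) ^ ((p.1 + 1) * (p.2 + 1)) := by
    rw [← Real.exp_nat_mul]
    congr 1
    push_cast
    ring
  rw [h2]
  have h3 : (2 * Real.pi * ((p.1 : ℝ) + 1) * ((p.2 : ℝ) + 1)) ^ m =
      (2 * Real.pi) ^ m * (((p.1 : ℝ) + 1) * ((p.2 : ℝ) + 1)) ^ m := by
    rw [← mul_pow]; ring
  rw [h3]
  have h4 : 0 ≤ (2 * Real.pi) ^ m * (((p.1 : ℝ) + 1) * ((p.2 : ℝ) + 1)) ^ m *
    Real.exp (-(2 * Real.pi * τ.im)) ^ ((p.1 + 1) * (p.2 + 1)) := by positivity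
  calc _ = (((p.1 : ℝ) + 1) ^ (k + 1))⁻¹ * ((2 * Real.pi) ^ m *
        (((p.1 : ℝ) + 1) * ((p.2 : ℝ) + 1)) ^ m *
        Real.exp (-(2 * Real.pi * τ.im)) ^ ((p.1 + 1) * (p.2 + 1))) := by ring
    _ ≤ 1 * _ := mul_le_mul_of_nonneg_right h1 h4
    _ = _ := by ring

private noncomputable def e01_term (k m : ℕ) (p : ℕ × ℕ) (z : ℂ) : ℂ :=
  (((p.1 : ℂ) + 1) ^ (k + 1))⁻¹ *
      (2 * Real.pi * I * ((p.1 : ℂ) + 1) * ((p.2 : ℂ) + 1)) ^ m *
      Complex.exp (2 * Real.pi * I * ((p.1 : ℂ) + 1) * ((p.2 : ℂ) + 1) * z)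

private theorem e01_term_deriv (k m : ℕ) (p : ℕ × ℕ) (z : ℂ) :
    HasDerivAt (e01_term k m p) (e01_term k (m + 1) p z) z := by
  have h1 : HasDerivAt (fun z : ℂ => 2 * Real.pi * I * ((p.1 : ℂ) + 1) * ((p.2 : ℂ) + 1) * z)
      (2 * Real.pi * I * ((p.1 : ℂ) + 1) * ((p.2 : ℂ) + 1)) z := by
    simpa using (hasDerivAt_id z).const_mul
      (2 * Real.pi * I * ((p.1 : ℂ) + 1) * ((p.2 : ℂ) + 1))
  have h2 := (h1.cexp).const_mul ((((p.1 : ℂ) + 1) ^ (k + 1))⁻¹ *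
    (2 * Real.pi * I * ((p.1 : ℂ) + 1) * ((p.2 : ℂ) + 1)) ^ m)
  have h3 : e01_term k (m + 1) p z = (((p.1 : ℂ) + 1) ^ (k + 1))⁻¹ *
      (2 * Real.pi * I * ((p.1 : ℂ) + 1) * ((p.2 : ℂ) + 1)) ^ m *
      (Complex.exp (2 * Real.pi * I * ((p.1 : ℂ) + 1) * ((p.2 : ℂ) + 1) * z) *
        (2 * Real.pi * I * ((p.1 : ℂ) + 1) * ((p.2 : ℂ) + 1))) := by
    unfold e01_term
    rw [pow_succ]
    ring
  rw [h3]
  exact h2

private theorem e01_term_norm (k m : ℕ) (p : ℕ × ℕ) {z w : ℂ} (h : w.im ≤ z.im) :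
    ‖e01_term k m p z‖ ≤ ‖e01_term k m p w‖ := by
  have hπ := Real.pi_pos
  unfold e01_term
  rw [e01_norm, e01_norm]
  apply mul_le_mul_of_nonneg_left _ (by positivity)
  apply Real.exp_le_exp.mpr
  apply neg_le_neg
  exact mul_le_mul_of_nonneg_left h (by positivity)

private theorem e01_term_summable (k m : ℕ) {z : ℂ} (hz : 0 < z.im) :
    Summable fun p => e01_term k m p z := hh_summable k m hz

private theorem e01_tsum_deriv (k m : ℕ) {τ : ℂ} (hτ : 0 < τ.im) :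
    HasDerivAt (fun z => ∑' p, e01_term k m p z) (∑' p, e01_term k (m + 1) p τ) τ := by
  have hτ2 : 0 < ((((τ.im / 2 : ℝ) : ℂ)) * I).im := by simp; linarith
  have hu := (e01_term_summable k (m + 1) hτ2).norm
  have hopen : IsOpen {z : ℂ | τ.im / 2 < z.im} := isOpen_lt continuous_const Complex.continuous_im
  have hconn : IsPreconnected {z : ℂ | τ.im / 2 < z.im} :=
    (convex_halfSpace_im_gt (τ.im / 2)).isPreconnected
  have hmem : τ ∈ {z : ℂ | τ.im / 2 < z.im} := by simp; linarith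
  exact hasDerivAt_tsum_of_isPreconnected hu hopen hconn
    (g := e01_term k m) (g' := e01_term k (m + 1))
    (fun p z _ => e01_term_deriv k m p z)
    (fun p z hz => e01_term_norm k (m + 1) p (by
      have h5 : ((((τ.im / 2 : ℝ) : ℂ)) * I).im = τ.im / 2 := by simp
      rw [h5]; exact le_of_lt hz))
    hmem (e01_term_summable k m hτ) hmem

theorem hh_hasDerivAt {k m : ℕ} (hm : m ≤ k) {τ : ℂ} (hτ : 0 < τ.im) :
    HasDerivAt (hh k m) (hh k (m + 1) τ) τ := by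
  have hpol : HasDerivAt (fun z : ℂ => riemannZeta ((k : ℂ) + 2) *
      ((k + 1).descFactorial m : ℂ) * z ^ (k + 1 - m))
      (riemannZeta ((k : ℂ) + 2) * ((k + 1).descFactorial (m + 1) : ℂ) *
        τ ^ (k + 1 - (m + 1))) τ := by
    have h1 := (hasDerivAt_pow (k + 1 - m) τ).const_mul (riemannZeta ((k : ℂ) + 2) *
      ((k + 1).descFactorial m : ℂ))
    have h2 : riemannZeta ((k : ℂ) + 2) * ((k + 1).descFactorial (m + 1) : ℂ) *
        τ ^ (k + 1 - (m + 1)) = riemannZeta ((k : ℂ) + 2) * ((k + 1).descFactorial m : ℂ) *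
        (((k + 1 - m : ℕ) : ℂ) * τ ^ (k + 1 - m - 1)) := by
      rw [Nat.descFactorial_succ]
      have : k + 1 - (m + 1) = k + 1 - m - 1 := by omega
      rw [this, Nat.cast_mul]
      ring
    rw [h2]
    exact h1
  have hall := (hpol.add_const (if m = 0 then Real.pi * I * riemannZeta ((k : ℂ) + 1) else 0)).add
    ((e01_tsum_deriv k m hτ).const_mul (2 * Real.pi * I))
  have e1 : hh k (m + 1) τ = riemannZeta ((k : ℂ) + 2) * ((k + 1).descFactorial (m + 1) : ℂ) *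
        τ ^ (k + 1 - (m + 1)) + 2 * Real.pi * I * ∑' p, e01_term k (m + 1) p τ := by
    simp [hh, e01_term]
  rw [e1]
  exact hall

end Pool.Agent.LibEis68
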