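import Pool.Agent.LibEis68.EDefs
import Pool.Agent.LibEis68.E01

open Complex Polynomial Matrix
open scoped ComplexConjugate MatrixGroups UpperHalfPlane

namespace Pool.Agent.LibEis68

private theorem e02_double (k : ℕ) {τ : ℂ} (hτ : 0 < τ.im) :
    ∑' p : ℕ × ℕ, (((p.1 : ℂ) + 1) ^ (k + 1))⁻¹ *
      (2 * Real.pi * I * ((p.1 : ℂ) + 1) * ((p.2 : ℂ) + 1)) ^ (k + 1) *
      Complex.exp (2 * Real.pi * I * ((p.1 : ℂ) + 1) * ((p.2 : ℂ) + 1) * τ) =
    (2 * Real.pi * I) ^ (k + 1) * ∑' (n : ℕ+), (ArithmeticFunction.sigma (k + 1) n : ℂ) *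
      Complex.exp (2 * Real.pi * I * τ) ^ (n : ℕ) := by
  have hq : ‖Complex.exp (2 * Real.pi * I * τ)‖ < 1 :=
    UpperHalfPlane.norm_exp_two_pi_I_lt_one ⟨τ, hτ⟩
  rw [← tsum_prod_pow_eq_tsum_sigma (k + 1) hq, ← (summable_prod_mul_pow (k + 1) hq).tsum_prod,
    ← tsum_mul_left, ← (Equiv.pnatEquivNat.prodCongr Equiv.pnatEquivNat).tsum_eq]
  refine tsum_congr fun c => ?_
  obtain ⟨a, b⟩ := c
  have ha : ((Equiv.pnatEquivNat a : ℕ) : ℂ) + 1 = (a : ℕ) := by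
    have := PNat.natPred_add_one a
    simp only [Equiv.pnatEquivNat_apply]
    exact_mod_cast this
  have hb : ((Equiv.pnatEquivNat b : ℕ) : ℂ) + 1 = (b : ℕ) := by
    have := PNat.natPred_add_one b
    simp only [Equiv.pnatEquivNat_apply]
    exact_mod_cast this
  simp only [Equiv.prodCongr_apply, Prod.map_apply, ha, hb]
  have ha0 : ((a : ℕ) : ℂ) ≠ 0 := by exact_mod_cast a.ne_zero
  rw [← Complex.exp_nat_mul]
  have e1 : 2 * Real.pi * I * ((a : ℕ) : ℂ) * ((b : ℕ) : ℂ) * τ =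
    (((a : ℕ) * (b : ℕ) : ℕ) : ℂ) * (2 * Real.pi * I * τ) := by push_cast; ring
  rw [e1]
  have e2 : (2 * Real.pi * I * ((a : ℕ) : ℂ) * ((b : ℕ) : ℂ)) ^ (k + 1) =
    ((a : ℕ) : ℂ) ^ (k + 1) * ((2 * Real.pi * I) ^ (k + 1) * ((b : ℕ) : ℂ) ^ (k + 1)) := by
    rw [← mul_pow, ← mul_pow]; ring
  rw [e2, ← mul_assoc, inv_mul_cancel₀ (pow_ne_zero _ ha0)]
  ring

/-- The last derivative is the holomorphic Eisenstein series. -/
theorem hh_last {k : ℕ} (hk : Even k) (hk2 : 2 ≤ k) {τ : ℂ} (hτ : 0 < τ.im) :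
    hh k (k + 1) τ = ((k + 1).factorial : ℂ) / 2 * lat (k + 2) 0 τ := by
  have h1 := tsum_eisSummand_eq_tsum_sigma_mul_cexp_pow (k := k + 2) (by omega)
    (hk.add even_two) ⟨τ, hτ⟩
  have h2 : lat (k + 2) 0 τ = ∑' v, EisensteinSeries.eisSummand ((k + 2 : ℕ) : ℤ) v ⟨τ, hτ⟩ := by
    unfold lat
    refine tsum_congr fun v => ?_
    simp only [EisensteinSeries.eisSummand, pow_zero, mul_one]
    rw [_root_.zpow_neg, zpow_natCast]
  rw [h2, h1]
  unfold hh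
  rw [e02_double k hτ]
  have e3 : k + 2 - 1 = k + 1 := by omega
  have e4 : k + 1 - (k + 1) = 0 := by omega
  rw [e3, e4, Nat.descFactorial_self, if_neg (by omega)]
  have hf : ((k + 1).factorial : ℂ) ≠ 0 := by exact_mod_cast (Nat.factorial_ne_zero _)
  have e5 : (-2 * (Real.pi : ℂ) * I) ^ (k + 2) = (2 * (Real.pi : ℂ) * I) ^ (k + 2) := by
    have : (-2 * (Real.pi : ℂ) * I) = -(2 * (Real.pi : ℂ) * I) := by ring
    rw [this, (hk.add even_two).neg_pow]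
  rw [e5]
  push_cast
  field_simp
  ring

end Pool.Agent.LibEis68
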