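import Pool.Agent.LibEis68.EDefs

open Complex Polynomial Matrix
open scoped ComplexConjugate MatrixGroups UpperHalfPlane

namespace Pool.Agent.LibEis68

theorem hh_add_one (k : ℕ) (τ : ℂ) : hh k 0 (τ + 1) =
    hh k 0 τ + riemannZeta ((k : ℂ) + 2) * ((τ + 1) ^ (k + 1) - τ ^ (k + 1)) := by
  unfold hh
  have h : ∀ p : ℕ × ℕ, Complex.exp (2 * Real.pi * I * ((p.1 : ℂ) + 1) * ((p.2 : ℂ) + 1) * (τ + 1)) =
      Complex.exp (2 * Real.pi * I * ((p.1 : ℂ) + 1) * ((p.2 : ℂ) + 1) * τ) := by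
    intro p
    have : 2 * Real.pi * I * ((p.1 : ℂ) + 1) * ((p.2 : ℂ) + 1) * (τ + 1) =
        2 * Real.pi * I * ((p.1 : ℂ) + 1) * ((p.2 : ℂ) + 1) * τ +
          (((p.1 + 1) * (p.2 + 1) : ℕ) : ℂ) * (2 * Real.pi * I) := by
      push_cast; ring
    rw [this, Complex.exp_add, Complex.exp_nat_mul_two_pi_mul_I, mul_one]
  simp only [h]
  simp
  ring

end Pool.Agent.LibEis68
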