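import Pool.Agent.LibEis68.EDefs
import Pool.Agent.LibEis68.E01

open Complex Polynomial Matrix
open scoped ComplexConjugate MatrixGroups UpperHalfPlane

namespace Pool.Agent.LibEis68

theorem hh_cot_aux_q (d : ℕ) {τ : ℂ} (hτ : 0 < τ.im) :
    ‖Complex.exp (2 * Real.pi * I * (((d : ℂ) + 1) * τ))‖ < 1 := by
  have him : 0 < (((d : ℂ) + 1) * τ).im := by
    have : ((d : ℂ) + 1) = (((d : ℝ) + 1 : ℝ) : ℂ) := by push_cast; ring
    rw [this, Complex.im_ofReal_mul]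
    positivity
  exact UpperHalfPlane.norm_exp_two_pi_I_lt_one ⟨((d : ℂ) + 1) * τ, him⟩

theorem hh_cot_aux_cot (d : ℕ) {τ : ℂ} (hτ : 0 < τ.im) :
    (Real.pi : ℂ) * Complex.cot (Real.pi * (((d : ℂ) + 1) * τ)) =
      -(Real.pi * I) - 2 * Real.pi * I *
        (∑' n : ℕ, Complex.exp (2 * Real.pi * I * (((d : ℂ) + 1) * τ)) ^ (n + 1)) := by
  have him : 0 < (((d : ℂ) + 1) * τ).im := by
    have : ((d : ℂ) + 1) = (((d : ℝ) + 1 : ℝ) : ℂ) := by push_cast; ring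
    rw [this, Complex.im_ofReal_mul]
    positivity
  have h := pi_mul_cot_pi_q_exp ⟨((d : ℂ) + 1) * τ, him⟩
  have hq := hh_cot_aux_q d hτ
  change (Real.pi : ℂ) * Complex.cot (Real.pi * (((d : ℂ) + 1) * τ)) =
    Real.pi * I - 2 * Real.pi * I * ∑' n : ℕ, Complex.exp (2 * Real.pi * I * (((d : ℂ) + 1) * τ)) ^ n at h
  rw [h]
  have hs := summable_geometric_of_norm_lt_one hq
  rw [hs.tsum_eq_zero_add]
  ring

theorem hh_cot_aux_zeta {k : ℕ} (hk2 : 2 ≤ k) :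
    HasSum (fun d : ℕ => (((d : ℂ) + 1) ^ (k + 1))⁻¹) (riemannZeta ((k : ℂ) + 1)) := by
  have h1 : riemannZeta ((k : ℂ) + 1) = ∑' n : ℕ, 1 / (n : ℂ) ^ (k + 1) := by
    have := zeta_nat_eq_tsum_of_gt_one (k := k + 1) (by omega)
    push_cast at this
    exact this
  have hs : Summable fun n : ℕ => 1 / (n : ℂ) ^ (k + 1) := by
    rw [← summable_norm_iff]
    have hr : Summable fun n : ℕ => 1 / (n : ℝ) ^ (k + 1) :=
      Real.summable_one_div_nat_pow.mpr (by omega)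
    refine hr.congr ?_
    intro n
    simp
  have hs' : Summable fun n : ℕ => (((n : ℂ) + 1) ^ (k + 1))⁻¹ := by
    have := (summable_nat_add_iff 1).mpr hs
    refine this.congr ?_
    intro n
    push_cast
    rw [one_div]
  rw [h1, hs.tsum_eq_zero_add]
  have h0 : (1 : ℂ) / ((0 : ℕ) : ℂ) ^ (k + 1) = 0 := by simp
  rw [h0, zero_add]
  have h2 : (fun n : ℕ => (1 : ℂ) / ((n + 1 : ℕ) : ℂ) ^ (k + 1)) =
      fun n : ℕ => (((n : ℂ) + 1) ^ (k + 1))⁻¹ := by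
    funext n
    push_cast
    rw [one_div]
  rw [h2]
  exact hs'.hasSum

/-- The Eichler integral as a sum of cotangents. -/
theorem hh_cot {k : ℕ} (hk2 : 2 ≤ k) {τ : ℂ} (hτ : 0 < τ.im) :
    HasSum (fun d : ℕ => (((d : ℂ) + 1) ^ (k + 1))⁻¹ *
      (Real.pi * Complex.cot (Real.pi * ((d : ℂ) + 1) * τ)))
      (riemannZeta ((k : ℂ) + 2) * τ ^ (k + 1) - hh k 0 τ) := by
  have hsum := hh_summable k 0 hτ
  have hh0 : hh k 0 τ = riemannZeta ((k : ℂ) + 2) * τ ^ (k + 1) +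
      Real.pi * I * riemannZeta ((k : ℂ) + 1) + 2 * Real.pi * I *
        ∑' p : ℕ × ℕ, (((p.1 : ℂ) + 1) ^ (k + 1))⁻¹ *
      (2 * Real.pi * I * ((p.1 : ℂ) + 1) * ((p.2 : ℂ) + 1)) ^ 0 *
      Complex.exp (2 * Real.pi * I * ((p.1 : ℂ) + 1) * ((p.2 : ℂ) + 1) * τ) := by
    unfold hh
    simp
  have htarget : riemannZeta ((k : ℂ) + 2) * τ ^ (k + 1) - hh k 0 τ =
      riemannZeta ((k : ℂ) + 1) * (-(Real.pi * I)) + (-(2 * Real.pi * I)) *
        ∑' p : ℕ × ℕ, (((p.1 : ℂ) + 1) ^ (k + 1))⁻¹ *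
      (2 * Real.pi * I * ((p.1 : ℂ) + 1) * ((p.2 : ℂ) + 1)) ^ 0 *
      Complex.exp (2 * Real.pi * I * ((p.1 : ℂ) + 1) * ((p.2 : ℂ) + 1) * τ) := by
    rw [hh0]; ring
  rw [htarget]
  have hq : ∀ d n : ℕ, Complex.exp (2 * Real.pi * I * ((d : ℂ) + 1) * ((n : ℂ) + 1) * τ) =
      Complex.exp (2 * Real.pi * I * (((d : ℂ) + 1) * τ)) ^ (n + 1) := by
    intro d n
    rw [← Complex.exp_nat_mul]
    congr 1
    push_cast
    ring
  have hinner : ∀ d : ℕ, HasSum (fun n : ℕ => (((d : ℂ) + 1) ^ (k + 1))⁻¹ *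
      (2 * Real.pi * I * ((d : ℂ) + 1) * ((n : ℂ) + 1)) ^ 0 *
      Complex.exp (2 * Real.pi * I * ((d : ℂ) + 1) * ((n : ℂ) + 1) * τ))
      ((((d : ℂ) + 1) ^ (k + 1))⁻¹ *
        ∑' n : ℕ, Complex.exp (2 * Real.pi * I * (((d : ℂ) + 1) * τ)) ^ (n + 1)) := by
    intro d
    have hs : Summable fun n : ℕ =>
        Complex.exp (2 * Real.pi * I * (((d : ℂ) + 1) * τ)) ^ (n + 1) :=
      (summable_nat_add_iff 1).mpr (summable_geometric_of_norm_lt_one (hh_cot_aux_q d hτ))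
    have := hs.hasSum.mul_left ((((d : ℂ) + 1) ^ (k + 1))⁻¹)
    have heq : (fun n : ℕ => (((d : ℂ) + 1) ^ (k + 1))⁻¹ *
      (2 * Real.pi * I * ((d : ℂ) + 1) * ((n : ℂ) + 1)) ^ 0 *
      Complex.exp (2 * Real.pi * I * ((d : ℂ) + 1) * ((n : ℂ) + 1) * τ)) =
      fun n : ℕ => (((d : ℂ) + 1) ^ (k + 1))⁻¹ *
        Complex.exp (2 * Real.pi * I * (((d : ℂ) + 1) * τ)) ^ (n + 1) := by
      funext n
      rw [hq d n, pow_zero, mul_one]
    rw [heq]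
    exact this
  have hprod := hsum.hasSum.prod_fiberwise hinner
  have hz := (hh_cot_aux_zeta hk2).mul_right (-((Real.pi : ℂ) * I))
  have htot := hz.add (hprod.mul_left (-(2 * (Real.pi : ℂ) * I)))
  have heq : (fun d : ℕ => (((d : ℂ) + 1) ^ (k + 1))⁻¹ *
      (Real.pi * Complex.cot (Real.pi * ((d : ℂ) + 1) * τ))) =
      fun d : ℕ => (((d : ℂ) + 1) ^ (k + 1))⁻¹ * (-((Real.pi : ℂ) * I)) +
        -(2 * (Real.pi : ℂ) * I) * ((((d : ℂ) + 1) ^ (k + 1))⁻¹ *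
        ∑' n : ℕ, Complex.exp (2 * Real.pi * I * (((d : ℂ) + 1) * τ)) ^ (n + 1)) := by
    funext d
    have h := hh_cot_aux_cot d hτ
    rw [← mul_assoc] at h
    rw [h]
    ring
  rw [heq]
  exact htot

end Pool.Agent.LibEis68
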