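import Pool.Agent.LibEis68.EDefs

open Complex Polynomial Matrix
open scoped ComplexConjugate MatrixGroups UpperHalfPlane

namespace Pool.Agent.LibEis68

/-- The double series is dominated by `∑ (d+1)^(-k) (n+1)^(-2)`. -/
private theorem cot_double_summable {k : ℕ} (hk2 : 2 ≤ k) {τ : ℂ} (hτ : 0 < τ.im) :
    Summable (fun p : ℕ × ℕ => 2 * τ / (((p.1 : ℂ) + 1) ^ k *
      ((((p.1 : ℂ) + 1) * τ) ^ 2 - ((p.2 : ℂ) + 1) ^ 2))) := by
  set z : ℍ := ⟨τ, hτ⟩ with hz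
  set r : ℝ := EisensteinSeries.r z with hr
  have hrpos : 0 < r := EisensteinSeries.r_pos z
  have hs1 : Summable fun n : ℕ => (((n : ℝ) + 1) ^ k)⁻¹ := by
    have := (summable_nat_add_iff 1).mpr (Real.summable_nat_pow_inv.mpr (by omega : 1 < k))
    simpa using this
  have hs2 : Summable fun n : ℕ => (((n : ℝ) + 1) ^ 2)⁻¹ := by
    have := (summable_nat_add_iff 1).mpr (Real.summable_nat_pow_inv.mpr (by omega : 1 < 2))
    simpa using this
  have hs : Summable fun p : ℕ × ℕ => (((p.1 : ℝ) + 1) ^ k)⁻¹ * (((p.2 : ℝ) + 1) ^ 2)⁻¹ :=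
    hs1.mul_of_nonneg hs2 (fun n => by positivity) (fun n => by positivity)
  refine Summable.of_norm_bounded (hs.mul_left (2 * ‖τ‖ / r ^ 2)) fun p => ?_
  obtain ⟨d, n⟩ := p
  have hb : ∀ s : ℤ, (s = 1 ∨ s = -1) → r * ((n : ℝ) + 1) ≤
      ‖((d : ℂ) + 1) * τ + s * ((n : ℂ) + 1)‖ := by
    intro s hs
    have hx : (![((d : ℤ) + 1), s * ((n : ℤ) + 1)] : Fin 2 → ℤ) ≠ 0 := by
      intro h
      have := congrFun h 0
      simp at this
      omega
    have h1 := EisensteinSeries.r_mul_max_le z hx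
    have h2 : ((n : ℝ) + 1) ≤ ‖(![((d : ℤ) + 1), s * ((n : ℤ) + 1)] : Fin 2 → ℤ)‖ := by
      refine le_trans ?_ (norm_le_pi_norm _ (1 : Fin 2))
      simp only [Matrix.cons_val_one, Matrix.cons_val_fin_one]
      rw [Int.norm_eq_abs]
      push_cast
      rw [abs_mul]
      have : |(s : ℝ)| = 1 := by
        rcases hs with h | h <;> simp [h]
      rw [this, one_mul]
      exact le_abs_self _
    calc r * ((n : ℝ) + 1) ≤ r * ‖(![((d : ℤ) + 1), s * ((n : ℤ) + 1)] : Fin 2 → ℤ)‖ :=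
          mul_le_mul_of_nonneg_left h2 hrpos.le
      _ ≤ _ := h1
      _ = _ := by
          simp [hz]
  have e : (((d : ℂ) + 1) * τ) ^ 2 - ((n : ℂ) + 1) ^ 2 =
      (((d : ℂ) + 1) * τ + ((1 : ℤ) : ℂ) * ((n : ℂ) + 1)) *
      (((d : ℂ) + 1) * τ + ((-1 : ℤ) : ℂ) * ((n : ℂ) + 1)) := by
    push_cast; ring
  have h3 : r ^ 2 * ((n : ℝ) + 1) ^ 2 ≤ ‖(((d : ℂ) + 1) * τ) ^ 2 - ((n : ℂ) + 1) ^ 2‖ := by
    rw [e, norm_mul]
    calc r ^ 2 * ((n : ℝ) + 1) ^ 2 = (r * ((n : ℝ) + 1)) * (r * ((n : ℝ) + 1)) := by ring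
      _ ≤ _ := mul_le_mul (hb 1 (Or.inl rfl)) (hb (-1) (Or.inr rfl)) (by positivity)
          (norm_nonneg _)
  have h4 : ‖((d : ℂ) + 1) ^ k‖ = ((d : ℝ) + 1) ^ k := by
    rw [norm_pow]
    congr 1
    have : ((d : ℂ) + 1) = ((d + 1 : ℕ) : ℂ) := by push_cast; ring
    rw [this, Complex.norm_natCast]
    push_cast; ring
  simp only
  rw [norm_div, norm_mul, norm_mul, h4, Complex.norm_ofNat]
  have hpos1 : 0 < ((d : ℝ) + 1) ^ k := by positivity
  have hpos2 : 0 < r ^ 2 * ((n : ℝ) + 1) ^ 2 := by positivity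
  calc 2 * ‖τ‖ / (((d : ℝ) + 1) ^ k * ‖(((d : ℂ) + 1) * τ) ^ 2 - ((n : ℂ) + 1) ^ 2‖)
      ≤ 2 * ‖τ‖ / (((d : ℝ) + 1) ^ k * (r ^ 2 * ((n : ℝ) + 1) ^ 2)) := by gcongr
    _ = 2 * ‖τ‖ / r ^ 2 * ((((d : ℝ) + 1) ^ k)⁻¹ * (((n : ℝ) + 1) ^ 2)⁻¹) := by
        field_simp

/-- Partial fractions of the cotangent sum: an absolutely convergent double series. -/
theorem cot_double {k : ℕ} (hk2 : 2 ≤ k) {τ : ℂ} (hτ : 0 < τ.im) {S : ℂ}
    (hS : HasSum (fun d : ℕ => (((d : ℂ) + 1) ^ (k + 1))⁻¹ *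
      (Real.pi * Complex.cot (Real.pi * ((d : ℂ) + 1) * τ))) S) :
    HasSum (fun p : ℕ × ℕ => 2 * τ / (((p.1 : ℂ) + 1) ^ k *
      ((((p.1 : ℂ) + 1) * τ) ^ 2 - ((p.2 : ℂ) + 1) ^ 2)))
      (S - riemannZeta ((k : ℂ) + 2) / τ) := by
  have hsum := cot_double_summable hk2 hτ
  have hτ0 : τ ≠ 0 := by
    intro h; rw [h] at hτ; simp at hτ
  -- the inner sums
  have hin : ∀ d : ℕ, ∑' n : ℕ, 2 * τ / (((d : ℂ) + 1) ^ k *
      ((((d : ℂ) + 1) * τ) ^ 2 - ((n : ℂ) + 1) ^ 2)) =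
      (((d : ℂ) + 1) ^ (k + 1))⁻¹ * (Real.pi * Complex.cot (Real.pi * ((d : ℂ) + 1) * τ)) -
      (((d : ℂ) + 1) ^ (k + 2))⁻¹ / τ := by
    intro d
    have hd : ((d : ℂ) + 1) ≠ 0 := by exact_mod_cast Nat.succ_ne_zero d
    have him : 0 < (((d : ℂ) + 1) * τ).im := by
      have : (((d : ℂ) + 1) * τ).im = ((d : ℝ) + 1) * τ.im := by
        simp [Complex.mul_im]
      rw [this]; positivity
    have hcot := cot_series_rep' (x := ((d : ℂ) + 1) * τ)
      (UpperHalfPlane.coe_mem_integerComplement ⟨((d : ℂ) + 1) * τ, him⟩)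
    have hterm : ∀ n : ℕ, 2 * τ / (((d : ℂ) + 1) ^ k *
        ((((d : ℂ) + 1) * τ) ^ 2 - ((n : ℂ) + 1) ^ 2)) = (((d : ℂ) + 1) ^ (k + 1))⁻¹ *
        (1 / (((d : ℂ) + 1) * τ - ((n : ℂ) + 1)) + 1 / (((d : ℂ) + 1) * τ + ((n : ℂ) + 1))) := by
      intro n
      have h1 : ((d : ℂ) + 1) * τ - ((n : ℂ) + 1) ≠ 0 := by
        intro h
        have := congrArg Complex.im h
        have h2 : (((d : ℂ) + 1) * τ - ((n : ℂ) + 1)).im = (((d : ℂ) + 1) * τ).im := by simp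
        rw [h2] at this
        simp only [Complex.zero_im] at this
        linarith
      have h1' : ((d : ℂ) + 1) * τ + ((n : ℂ) + 1) ≠ 0 := by
        intro h
        have := congrArg Complex.im h
        have h2 : (((d : ℂ) + 1) * τ + ((n : ℂ) + 1)).im = (((d : ℂ) + 1) * τ).im := by simp
        rw [h2] at this
        simp only [Complex.zero_im] at this
        linarith
      have e : (((d : ℂ) + 1) * τ) ^ 2 - ((n : ℂ) + 1) ^ 2 =
          (((d : ℂ) + 1) * τ - ((n : ℂ) + 1)) * (((d : ℂ) + 1) * τ + ((n : ℂ) + 1)) := by ring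
      rw [e, pow_succ, div_add_div _ _ h1 h1']
      have e2 : 1 * (((d : ℂ) + 1) * τ + ((n : ℂ) + 1)) + (((d : ℂ) + 1) * τ - ((n : ℂ) + 1)) * 1 =
        2 * τ * ((d : ℂ) + 1) := by ring
      rw [e2]
      generalize ((d : ℂ) + 1) * τ - ((n : ℂ) + 1) = P at h1 ⊢
      generalize ((d : ℂ) + 1) * τ + ((n : ℂ) + 1) = Q at h1' ⊢
      generalize ((d : ℂ) + 1) = D at hd ⊢
      field_simp
    rw [tsum_congr hterm, tsum_mul_left, ← hcot, mul_sub]
    congr 1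
    · rw [mul_assoc]
    · rw [one_div, mul_inv, ← mul_assoc, ← mul_inv, ← pow_succ, div_eq_mul_inv]
  have hzeta : HasSum (fun d : ℕ => (((d : ℂ) + 1) ^ (k + 2))⁻¹ / τ)
      (riemannZeta ((k : ℂ) + 2) / τ) := by
    apply HasSum.div_const
    have hsm : Summable fun n : ℕ => (((n : ℂ) + 1) ^ (k + 2))⁻¹ := by
      have h0 : Summable fun n : ℕ => ((n : ℂ) ^ (k + 2))⁻¹ := by
        refine Summable.of_norm ?_
        simp only [norm_inv, norm_pow, Complex.norm_natCast]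
        exact Real.summable_nat_pow_inv.mpr (by omega)
      have := (summable_nat_add_iff 1).mpr h0
      simpa using this
    have h1 : riemannZeta ((k : ℂ) + 2) = ∑' n : ℕ, (((n : ℂ) + 1) ^ (k + 2))⁻¹ := by
      have hre : 1 < ((k : ℂ) + 2).re := by
        have : (0 : ℝ) ≤ k := Nat.cast_nonneg k
        simp only [add_re, natCast_re, re_ofNat]
        linarith
      rw [zeta_eq_tsum_one_div_nat_add_one_cpow hre]
      refine tsum_congr fun n => ?_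
      have : ((k : ℂ) + 2) = ((k + 2 : ℕ) : ℂ) := by push_cast; rfl
      rw [this, Complex.cpow_natCast, one_div]
    rw [h1]
    exact hsm.hasSum
  have hout := hS.sub hzeta
  have := hsum.hasSum.prod_fiberwise (fun d => (hsum.prod_factor d).hasSum)
  simp only [hin] at this
  rw [← this.unique hout]
  exact hsum.hasSum

end Pool.Agent.LibEis68
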