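import Pool.Agent.LibEis68.E04
import Pool.Agent.LibEis68.E05

open Complex Polynomial Matrix
open scoped ComplexConjugate MatrixGroups UpperHalfPlane

namespace Pool.Agent.LibEis68

private theorem e06_norm (n : ℕ) : ‖((n : ℂ) + 1)‖ = (n : ℝ) + 1 := by
  have : ((n : ℂ) + 1) = (((n : ℝ) + 1 : ℝ) : ℂ) := by push_cast; ring
  rw [this, Complex.norm_real, Real.norm_of_nonneg (by positivity)]

private theorem e06_summable {a : ℕ} (ha : 2 ≤ a) :
    Summable fun n : ℕ => ‖(((n : ℂ) + 1) ^ a)⁻¹‖ := by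
  have h := (summable_nat_add_iff 1).mpr (Real.summable_nat_pow_inv.mpr (show 1 < a by omega))
  refine h.congr fun n => ?_
  rw [norm_inv, norm_pow, e06_norm]
  push_cast
  rfl

private theorem e06_zeta {a : ℕ} (ha : 2 ≤ a) :
    HasSum (fun n : ℕ => (((n : ℂ) + 1) ^ a)⁻¹) (riemannZeta a) := by
  have h1 : riemannZeta a = ∑' n : ℕ, (((n : ℂ) + 1) ^ a)⁻¹ := by
    rw [zeta_nat_eq_tsum_of_gt_one (show 1 < a by omega)]
    have hs : Summable fun n : ℕ => 1 / (n : ℂ) ^ a := by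
      apply (summable_nat_add_iff 1).mp
      refine (e06_summable ha).of_norm.congr fun n => ?_
      push_cast
      rw [one_div]
    rw [hs.tsum_eq_zero_add]
    simp only [Nat.cast_zero, Nat.cast_add, Nat.cast_one, one_div]
    rw [zero_pow (by omega), _root_.inv_zero, zero_add]
  rw [h1]
  exact (e06_summable ha).of_norm.hasSum

private theorem e06_zeta_mul {a b : ℕ} (ha : 2 ≤ a) (hb : 2 ≤ b) :
    HasSum (fun p : ℕ × ℕ => (((p.1 : ℂ) + 1) ^ a)⁻¹ * (((p.2 : ℂ) + 1) ^ b)⁻¹)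
      (riemannZeta a * riemannZeta b) := by
  have hs : Summable fun p : ℕ × ℕ => (((p.1 : ℂ) + 1) ^ a)⁻¹ * (((p.2 : ℂ) + 1) ^ b)⁻¹ :=
    summable_mul_of_summable_norm (f := fun n : ℕ => (((n : ℂ) + 1) ^ a)⁻¹)
      (g := fun n : ℕ => (((n : ℂ) + 1) ^ b)⁻¹) (e06_summable ha) (e06_summable hb)
  have h := tsum_mul_tsum_of_summable_norm (f := fun n : ℕ => (((n : ℂ) + 1) ^ a)⁻¹)
      (g := fun n : ℕ => (((n : ℂ) + 1) ^ b)⁻¹) (e06_summable ha) (e06_summable hb)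
  rw [(e06_zeta ha).tsum_eq, (e06_zeta hb).tsum_eq] at h
  rw [h]
  exact hs.hasSum

private theorem e06_point {m : ℕ} {d n τ : ℂ} (hd : d ≠ 0) (hn : n ≠ 0) (hτ : τ ≠ 0)
    (hD : (d * τ) ^ 2 - n ^ 2 ≠ 0) :
    2 * τ / (d ^ (2 * m) * ((d * τ) ^ 2 - n ^ 2)) -
      τ ^ (2 * m) * (2 * (-1 / τ) / (n ^ (2 * m) * ((n * (-1 / τ)) ^ 2 - d ^ 2))) =
    ∑ j ∈ Finset.range m, -2 * τ ^ (2 * j + 1) *
      ((d ^ (2 * m - 2 * j))⁻¹ * (n ^ (2 * j + 2))⁻¹) := by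
  have hD' : (n * (-1 / τ)) ^ 2 - d ^ 2 = -((d * τ) ^ 2 - n ^ 2) / τ ^ 2 := by
    field_simp
    ring
  have hg := geom_sum₂_mul ((d * τ) ^ 2) (n ^ 2) m
  have h1 : 2 * τ / (d ^ (2 * m) * ((d * τ) ^ 2 - n ^ 2)) -
      τ ^ (2 * m) * (2 * (-1 / τ) / (n ^ (2 * m) * ((n * (-1 / τ)) ^ 2 - d ^ 2))) =
      -2 * τ * ((((d * τ) ^ 2) ^ m - (n ^ 2) ^ m) / ((d * τ) ^ 2 - n ^ 2)) /
        (d ^ (2 * m) * n ^ (2 * m)) := by
    rw [hD']
    have e1 : ((d * τ) ^ 2) ^ m = d ^ (2 * m) * τ ^ (2 * m) := by rw [← pow_mul, mul_pow]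
    have e2 : (n ^ 2) ^ m = n ^ (2 * m) := by rw [← pow_mul]
    rw [e1, e2]
    have h3 : d ^ (2 * m) ≠ 0 := pow_ne_zero _ hd
    have h4 : n ^ (2 * m) ≠ 0 := pow_ne_zero _ hn
    generalize (d * τ) ^ 2 - n ^ 2 = D at *
    generalize d ^ (2 * m) = A at *
    generalize n ^ (2 * m) = B at *
    generalize τ ^ (2 * m) = C at *
    field_simp
    ring
  rw [h1, ← hg, mul_div_cancel_right₀ _ hD, Finset.mul_sum, Finset.sum_div]
  refine Finset.sum_congr rfl fun j hj => ?_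
  have hj' : j < m := Finset.mem_range.mp hj
  have e3 : d ^ (2 * m) = d ^ (2 * m - 2 * j) * d ^ (2 * j) := by
    rw [← pow_add]; congr 1; omega
  have e4 : n ^ (2 * m) = n ^ (2 * (m - 1 - j)) * n ^ (2 * j + 2) := by
    rw [← pow_add]; congr 1; omega
  rw [e3, e4, ← pow_mul, ← pow_mul, mul_pow, pow_succ τ (2 * j)]
  have h5 : d ^ (2 * j) ≠ 0 := pow_ne_zero _ hd
  have h6 : n ^ (2 * (m - 1 - j)) ≠ 0 := pow_ne_zero _ hn
  have h7 : n ^ (2 * j + 2) ≠ 0 := pow_ne_zero _ hn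
  have h8 : d ^ (2 * m - 2 * j) ≠ 0 := pow_ne_zero _ hd
  generalize d ^ (2 * j) = A at *
  generalize n ^ (2 * (m - 1 - j)) = B at *
  generalize n ^ (2 * j + 2) = C at *
  generalize d ^ (2 * m - 2 * j) = D at *
  field_simp

/-- Ramanujan's formula. -/
theorem hh_inv {k : ℕ} (hk : Even k) (hk2 : 2 ≤ k) {τ : ℂ} (hτ : 0 < τ.im) :
    hh k 0 τ - τ ^ k * hh k 0 (-1 / τ) =
      2 * ∑ j ∈ Finset.range (k / 2), riemannZeta (2 * (j : ℂ) + 2) *
        riemannZeta ((k : ℂ) - 2 * j) * τ ^ (2 * j + 1) := by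
  have hτ0 : τ ≠ 0 := by rintro rfl; simp at hτ
  have hτ' : 0 < (-1 / τ).im := by
    rw [neg_div, one_div, neg_im, inv_im, neg_div, neg_neg]
    exact div_pos hτ (Complex.normSq_pos.mpr hτ0)
  have hA := cot_double hk2 hτ (hh_cot hk2 hτ)
  have hB := cot_double hk2 hτ' (hh_cot hk2 hτ')
  have hB' := (Equiv.prodComm ℕ ℕ).hasSum_iff.mpr (hB.mul_left (τ ^ k))
  have hAB := hA.sub hB'
  obtain ⟨m, hm⟩ := hk
  have hkm : k = 2 * m := by omega
  have hm2 : k / 2 = m := by omega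
  rw [hm2]
  -- the right-hand side
  have hR : HasSum (fun p : ℕ × ℕ => ∑ j ∈ Finset.range m, -2 * τ ^ (2 * j + 1) *
      ((((p.1 : ℂ) + 1) ^ (2 * m - 2 * j))⁻¹ * (((p.2 : ℂ) + 1) ^ (2 * j + 2))⁻¹))
      (∑ j ∈ Finset.range m, -2 * τ ^ (2 * j + 1) *
        (riemannZeta ((2 * m - 2 * j : ℕ) : ℂ) * riemannZeta ((2 * j + 2 : ℕ) : ℂ))) := by
    refine hasSum_sum fun j hj => ?_
    have hj' : j < m := Finset.mem_range.mp hj
    exact (e06_zeta_mul (a := 2 * m - 2 * j) (b := 2 * j + 2) (by omega) (by omega)).mul_left _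
  have hAB' : HasSum (fun p : ℕ × ℕ => ∑ j ∈ Finset.range m, -2 * τ ^ (2 * j + 1) *
      ((((p.1 : ℂ) + 1) ^ (2 * m - 2 * j))⁻¹ * (((p.2 : ℂ) + 1) ^ (2 * j + 2))⁻¹))
      (riemannZeta ((k : ℂ) + 2) * τ ^ (k + 1) - hh k 0 τ - riemannZeta ((k : ℂ) + 2) / τ -
        τ ^ k * (riemannZeta ((k : ℂ) + 2) * (-1 / τ) ^ (k + 1) - hh k 0 (-1 / τ) -
          riemannZeta ((k : ℂ) + 2) / (-1 / τ))) := by
    refine HasSum.congr_fun hAB fun p => ?_
    have hd : ((p.1 : ℂ) + 1) ≠ 0 := Nat.cast_add_one_ne_zero p.1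
    have hn : ((p.2 : ℂ) + 1) ≠ 0 := Nat.cast_add_one_ne_zero p.2
    have hD : (((p.1 : ℂ) + 1) * τ) ^ 2 - ((p.2 : ℂ) + 1) ^ 2 ≠ 0 := by
      rw [sq_sub_sq]
      have him : (((p.1 : ℂ) + 1) * τ).im = ((p.1 : ℝ) + 1) * τ.im := by
        simp [Complex.mul_im]
      have hpos : 0 < ((p.1 : ℝ) + 1) * τ.im := by positivity
      refine mul_ne_zero ?_ ?_
      · intro h
        have := congrArg Complex.im h
        rw [Complex.add_im, him] at this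
        simp at this
        rcases this with h1 | h1
        · norm_cast at h1
        · exact hτ.ne' h1
      · intro h
        have := congrArg Complex.im h
        rw [Complex.sub_im, him] at this
        simp at this
        rcases this with h1 | h1
        · norm_cast at h1
        · exact hτ.ne' h1
    have := e06_point (m := m) hd hn hτ0 hD
    rw [hkm]
    simp only [Function.comp_apply, Equiv.prodComm_apply, Prod.fst_swap, Prod.snd_swap]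
    exact this.symm
  have huniq := hAB'.unique hR
  have hsum : ∑ j ∈ Finset.range m, -2 * τ ^ (2 * j + 1) *
        (riemannZeta ((2 * m - 2 * j : ℕ) : ℂ) * riemannZeta ((2 * j + 2 : ℕ) : ℂ)) =
      -(2 * ∑ j ∈ Finset.range m, riemannZeta (2 * (j : ℂ) + 2) *
        riemannZeta ((k : ℂ) - 2 * j) * τ ^ (2 * j + 1)) := by
    rw [Finset.mul_sum, ← Finset.sum_neg_distrib]
    refine Finset.sum_congr rfl fun j hj => ?_
    have hj' : j < m := Finset.mem_range.mp hj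
    have e1 : ((2 * m - 2 * j : ℕ) : ℂ) = (k : ℂ) - 2 * j := by
      rw [Nat.cast_sub (by omega), hkm]; push_cast; ring
    have e2 : ((2 * j + 2 : ℕ) : ℂ) = 2 * (j : ℂ) + 2 := by push_cast; ring
    rw [e1, e2]
    ring
  rw [hsum] at huniq
  have hp : (-1 / τ) ^ (k + 1) = -(τ ^ (k + 1))⁻¹ := by
    rw [div_pow, hkm, pow_succ (-1 : ℂ) (2 * m), pow_mul]
    simp [neg_div, one_div]
  rw [hp] at huniq
  have e3 : τ ^ k * (τ ^ (k + 1))⁻¹ = τ⁻¹ := by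
    rw [pow_succ]
    have := pow_ne_zero k hτ0
    field_simp
  have e4 : τ ^ k * (riemannZeta ((k : ℂ) + 2) / (-1 / τ)) =
      -(riemannZeta ((k : ℂ) + 2) * τ ^ (k + 1)) := by
    rw [pow_succ]
    field_simp
  have e5 : τ ^ k * (riemannZeta ((k : ℂ) + 2) * -(τ ^ (k + 1))⁻¹ - hh k 0 (-1 / τ) -
          riemannZeta ((k : ℂ) + 2) / (-1 / τ)) = -(riemannZeta ((k : ℂ) + 2) * τ⁻¹) -
          τ ^ k * hh k 0 (-1 / τ) + riemannZeta ((k : ℂ) + 2) * τ ^ (k + 1) := by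
    have : τ ^ k * (riemannZeta ((k : ℂ) + 2) * -(τ ^ (k + 1))⁻¹ - hh k 0 (-1 / τ) -
          riemannZeta ((k : ℂ) + 2) / (-1 / τ)) = -(riemannZeta ((k : ℂ) + 2) *
          (τ ^ k * (τ ^ (k + 1))⁻¹)) - τ ^ k * hh k 0 (-1 / τ) -
          τ ^ k * (riemannZeta ((k : ℂ) + 2) / (-1 / τ)) := by ring
    rw [this, e3, e4]
    ring
  rw [e5, div_eq_mul_inv] at huniq
  linear_combination (-1 : ℂ) * huniq

end Pool.Agent.LibEis68
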