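import Pool.Agent.LibEis68.EDefs

open Complex Polynomial Matrix
open scoped ComplexConjugate MatrixGroups UpperHalfPlane

namespace Pool.Agent.LibEis68

theorem zeta_rational {n : ℕ} (hn : Even n) (hn2 : 2 ≤ n) :
    ∃ q : ℚ, riemannZeta n = (Real.pi : ℂ) ^ n * q := by
  obtain ⟨m, hm⟩ := hn
  have hm0 : m ≠ 0 := by omega
  refine ⟨(-1) ^ (m + 1) * 2 ^ (2 * m - 1) * _root_.bernoulli (2 * m) / (2 * m).factorial, ?_⟩
  have h := riemannZeta_two_mul_nat hm0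
  have hn' : n = 2 * m := by omega
  subst hn'
  push_cast at h ⊢
  rw [h]
  ring

theorem zeta_prod_rational {k : ℕ} (hk : Even k) (hk2 : 2 ≤ k) {j : ℕ} (hj : j < k / 2) :
    ∃ q : ℚ, riemannZeta (2 * (j : ℂ) + 2) * riemannZeta ((k : ℂ) - 2 * j) =
      (Real.pi : ℂ) ^ (k + 2) * q := by
  obtain ⟨m, hm⟩ := hk
  obtain ⟨q1, h1⟩ := zeta_rational (n := 2 * j + 2) ⟨j + 1, by ring⟩ (by omega)
  obtain ⟨q2, h2⟩ := zeta_rational (n := k - 2 * j) ⟨m - j, by omega⟩ (by omega)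
  refine ⟨q1 * q2, ?_⟩
  have e1 : (2 * (j : ℂ) + 2) = ((2 * j + 2 : ℕ) : ℂ) := by push_cast; ring
  have e2 : ((k : ℂ) - 2 * j) = ((k - 2 * j : ℕ) : ℂ) := by
    rw [Nat.cast_sub (by omega)]; push_cast; ring
  rw [e1, e2, h1, h2]
  have e3 : k + 2 = (2 * j + 2) + (k - 2 * j) := by omega
  rw [e3, pow_add]
  push_cast
  ring

end Pool.Agent.LibEis68
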