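import Pool.Agent.LibEis68.E01
import Pool.Agent.LibEis68.E02

open Complex Polynomial Matrix
open scoped ComplexConjugate MatrixGroups UpperHalfPlane

namespace Pool.Agent.LibEis68

private theorem E08_coeff0 (m j : ℕ) (z : ℂ) :
    ((X - C z) ^ m).coeff j = (-z) ^ (m - j) * (m.choose j : ℂ) := by
  rw [sub_eq_add_neg, ← C_neg, coeff_X_add_C_pow]

private theorem E08_coeff (m j : ℕ) (τ : ℂ) :
    HasDerivAt (fun z : ℂ => ((X - C z) ^ m).coeff j)
      (-(m : ℂ) * ((X - C τ) ^ (m - 1)).coeff j) τ := by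
  have h1 : (fun z : ℂ => ((X - C z) ^ m).coeff j) =
      fun z : ℂ => (-z) ^ (m - j) * (m.choose j : ℂ) := by
    funext z
    exact E08_coeff0 m j z
  rw [h1, E08_coeff0]
  have h2 : HasDerivAt (fun z : ℂ => (-z) ^ (m - j) * (m.choose j : ℂ))
      (((m - j : ℕ) : ℂ) * (-τ) ^ (m - j - 1) * (-1) * (m.choose j : ℂ)) τ :=
    (((hasDerivAt_id τ).neg).pow (m - j)).mul_const _
  convert h2 using 1
  rcases Nat.eq_zero_or_pos m with rfl | hm
  · simp
  · obtain ⟨n, rfl⟩ : ∃ n, m = n + 1 := ⟨m - 1, by omega⟩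
    have h3 : (n + 1 - j) - 1 = n - j := by omega
    have h4 : ((n + 1 - j : ℕ) : ℂ) * ((n + 1).choose j : ℂ) = ((n : ℂ) + 1) * (n.choose j : ℂ) := by
      have := Nat.choose_mul_succ_eq n j
      have h5 : ((n.choose j * (n + 1) : ℕ) : ℂ) = (((n + 1).choose j * (n + 1 - j) : ℕ) : ℂ) := by
        rw [this]
      push_cast at h5 ⊢
      linear_combination -h5
    rw [h3, Nat.add_sub_cancel]
    push_cast
    linear_combination (-(-τ) ^ (n - j)) * -h4

theorem ee_hasDerivAt {k : ℕ} (hk : Even k) (hk2 : 2 ≤ k) {τ : ℂ} (hτ : 0 < τ.im) :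
    HasDerivAt (ee k) (((((Real.pi : ℂ) ^ (k + 2))⁻¹ * (((k : ℂ) + 1) / 2 * lat (k + 2) 0 τ))) •
      form k τ τ k) τ := by
  rw [hasDerivAt_pi]
  intro j
  have h1 : ∀ m ∈ Finset.range (k + 1), HasDerivAt
      (fun z : ℂ => hh k m z / (m.factorial : ℂ) * ((X - C z) ^ m).coeff j)
      (hh k (m + 1) τ / (m.factorial : ℂ) * ((X - C τ) ^ m).coeff j -
        hh k m τ / (m.factorial : ℂ) * ((m : ℂ) * ((X - C τ) ^ (m - 1)).coeff j)) τ := by
    intro m hm
    have hm' : m ≤ k := by simpa [Nat.lt_succ_iff] using hm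
    have := ((hh_hasDerivAt hm' hτ).div_const (m.factorial : ℂ)).fun_mul (E08_coeff m j τ)
    refine this.congr_deriv ?_
    ring
  have h2 := (HasDerivAt.fun_sum h1).const_mul (((Real.pi : ℂ) ^ (k + 2))⁻¹)
  have h3 : ∀ n : ℕ, ∑ m ∈ Finset.range (n + 1),
      (hh k (m + 1) τ / (m.factorial : ℂ) * ((X - C τ) ^ m).coeff (j : ℕ) -
        hh k m τ / (m.factorial : ℂ) * ((m : ℂ) * ((X - C τ) ^ (m - 1)).coeff (j : ℕ))) =
      hh k (n + 1) τ / (n.factorial : ℂ) * ((X - C τ) ^ n).coeff (j : ℕ) := by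
    intro n
    induction n with
    | zero => simp
    | succ n ih =>
      rw [Finset.sum_range_succ, ih]
      have hf : ((n + 1).factorial : ℂ) = ((n : ℂ) + 1) * (n.factorial : ℂ) := by
        rw [Nat.factorial_succ]; push_cast; ring
      have hn : (n.factorial : ℂ) ≠ 0 := by exact_mod_cast n.factorial_ne_zero
      have hn1 : ((n : ℂ) + 1) ≠ 0 := by exact_mod_cast n.succ_ne_zero
      rw [hf, Nat.add_sub_cancel]
      push_cast
      field_simp
      ring
  rw [h3 k, hh_last hk hk2 hτ] at h2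
  refine h2.congr_deriv ?_
  have hf : ((k + 1).factorial : ℂ) = ((k : ℂ) + 1) * (k.factorial : ℂ) := by
    rw [Nat.factorial_succ]; push_cast; ring
  have hn : (k.factorial : ℂ) ≠ 0 := by exact_mod_cast k.factorial_ne_zero
  rw [hf]
  simp only [Pi.smul_apply, smul_eq_mul, form, Nat.sub_self, pow_zero, mul_one]
  field_simp

theorem ee_eval (k : ℕ) (τ : ℂ) :
    ∑ j : Fin (k + 1), ee k τ j * τ ^ (j : ℕ) = ((Real.pi : ℂ) ^ (k + 2))⁻¹ * hh k 0 τ := by
  have h1 : ∀ m ∈ Finset.range (k + 1),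
      ∑ j : Fin (k + 1), ((X - C τ) ^ m).coeff (j : ℕ) * τ ^ (j : ℕ) = (0 : ℂ) ^ m := by
    intro m hm
    have hm' : m < k + 1 := by simpa using hm
    have h0 := Fin.sum_univ_eq_sum_range (fun j => ((X - C τ) ^ m).coeff j * τ ^ j) (k + 1)
    rw [h0]
    have hd : ((X - C τ) ^ m).natDegree < k + 1 := by
      rw [Polynomial.natDegree_pow, Polynomial.natDegree_X_sub_C]; omega
    rw [← Polynomial.eval_eq_sum_range' hd]
    simp
  have h2 : ∑ j : Fin (k + 1), ee k τ j * τ ^ (j : ℕ) = ((Real.pi : ℂ) ^ (k + 2))⁻¹ *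
      ∑ m ∈ Finset.range (k + 1), hh k m τ / (m.factorial : ℂ) *
        ∑ j : Fin (k + 1), ((X - C τ) ^ m).coeff (j : ℕ) * τ ^ (j : ℕ) := by
    simp only [ee, Finset.mul_sum, Finset.sum_mul]
    rw [Finset.sum_comm]
    refine Finset.sum_congr rfl fun m _ => Finset.sum_congr rfl fun j _ => ?_
    ring
  rw [h2, Finset.sum_congr rfl fun m hm => by rw [h1 m hm]]
  rw [Finset.sum_eq_single_of_mem 0 (by simp)]
  · simp
  · intro m _ hm
    simp [hm]

end Pool.Agent.LibEis68
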