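import Pool.Agent.LibEis68.E08
import Pool.Agent.LibEis68.A02
import Pool.Agent.LibEis68.FormSmul

open Complex Polynomial Matrix
open scoped ComplexConjugate MatrixGroups UpperHalfPlane

namespace Pool.Agent.LibEis68

private theorem E09_det (γ : SL(2, ℤ)) :
    (γ 0 0 : ℂ) * γ 1 1 - (γ 0 1 : ℂ) * γ 1 0 = 1 := by
  have h := γ.det_coe
  rw [Matrix.det_fin_two] at h
  exact_mod_cast h

private theorem E09_den (γ : SL(2, ℤ)) {z : ℂ} (hz : 0 < z.im) :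
    (γ 1 0 : ℂ) * z + γ 1 1 ≠ 0 := by
  intro h
  have h1 := congrArg Complex.im h
  simp only [Complex.add_im, Complex.mul_im, Complex.intCast_re, Complex.intCast_im, zero_mul,
    add_zero, Complex.zero_im] at h1
  have h2 : (γ 1 0 : ℝ) = 0 := by
    rcases mul_eq_zero.mp h1 with h | h
    · exact h
    · exact absurd h hz.ne'
  have h3 : (γ 1 0 : ℂ) = 0 := by exact_mod_cast h2
  have h4 : (γ 1 1 : ℂ) = 0 := by rw [h3] at h; simpa using h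
  have h5 := E09_det γ
  rw [h3, h4] at h5
  simp at h5

private theorem E09_mob (γ : SL(2, ℤ)) (τ : ℍ) :
    ((γ • τ : ℍ) : ℂ) = ((γ 0 0 : ℂ) * τ + γ 0 1) / ((γ 1 0 : ℂ) * τ + γ 1 1) := by
  rw [UpperHalfPlane.coe_specialLinearGroup_apply]
  simp

/-- The cocycle of the Eisenstein extension is constant. -/
theorem ee_cocycle {k : ℕ} (hk : Even k) (hk2 : 2 ≤ k) (γ : SL(2, ℤ)) :
    ∃ Z : Fin (k + 1) → ℂ, ∀ τ : ℍ,
      ee k ((γ • τ : ℍ) : ℂ) = (act k γ).map (algebraMap ℚ ℂ) *ᵥ ee k τ + Z := by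
  set A := (act k γ).map (algebraMap ℚ ℂ) with hA
  set μ : ℂ → ℂ := fun z => ((γ 0 0 : ℂ) * z + γ 0 1) / ((γ 1 0 : ℂ) * z + γ 1 1) with hμ
  have hmob : ∀ τ : ℍ, ((γ • τ : ℍ) : ℂ) = μ τ := E09_mob γ
  have hμd : ∀ z : ℂ, 0 < z.im → HasDerivAt μ (((γ 1 0 : ℂ) * z + γ 1 1) ^ 2)⁻¹ z := by
    intro z hz
    have hd := E09_den γ hz
    have h1 : HasDerivAt (fun z : ℂ => (γ 0 0 : ℂ) * z + γ 0 1) (γ 0 0 : ℂ) z := by
      simpa using ((hasDerivAt_id z).const_mul (γ 0 0 : ℂ)).add_const (γ 0 1 : ℂ)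
    have h2 : HasDerivAt (fun z : ℂ => (γ 1 0 : ℂ) * z + γ 1 1) (γ 1 0 : ℂ) z := by
      simpa using ((hasDerivAt_id z).const_mul (γ 1 0 : ℂ)).add_const (γ 1 1 : ℂ)
    refine (h1.fun_div h2 hd).congr_deriv ?_
    have hdet := E09_det γ
    rw [div_eq_iff (pow_ne_zero 2 hd), inv_mul_cancel₀ (pow_ne_zero 2 hd)]
    linear_combination hdet
  have hμim : ∀ z : ℂ, 0 < z.im → 0 < (μ z).im := by
    intro z hz
    have := hmob ⟨z, hz⟩
    have h2 := (γ • (⟨z, hz⟩ : ℍ)).im_pos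
    have h3 : ((γ • (⟨z, hz⟩ : ℍ) : ℍ) : ℂ).im = (γ • (⟨z, hz⟩ : ℍ)).im := rfl
    rw [← h3, this] at h2
    exact h2
  have hopen : IsOpen {z : ℂ | 0 < z.im} := isOpen_lt continuous_const Complex.continuous_im
  have hconn : IsPreconnected {z : ℂ | 0 < z.im} := (convex_halfSpace_im_gt 0).isPreconnected
  have hF : ∀ z : ℂ, 0 < z.im → HasDerivAt (fun w => ee k (μ w))
      ((((γ 1 0 : ℂ) * z + γ 1 1) ^ 2)⁻¹ •
        ((((Real.pi : ℂ) ^ (k + 2))⁻¹ * (((k : ℂ) + 1) / 2 * lat (k + 2) 0 (μ z))) •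
          form k (μ z) (μ z) k)) z := by
    intro z hz
    exact HasDerivAt.scomp z (ee_hasDerivAt hk hk2 (hμim z hz)) (hμd z hz)
  have hG : ∀ z : ℂ, 0 < z.im → HasDerivAt (fun w => A *ᵥ ee k w)
      (A *ᵥ ((((Real.pi : ℂ) ^ (k + 2))⁻¹ * (((k : ℂ) + 1) / 2 * lat (k + 2) 0 z)) •
        form k z z k)) z := by
    intro z hz
    have h1 := (LinearMap.toContinuousLinearMap (Matrix.mulVecLin A)).hasFDerivAt.comp_hasDerivAt z
      (ee_hasDerivAt hk hk2 hz)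
    exact h1
  have hd : ∀ z : ℂ, 0 < z.im → HasDerivAt (fun w => ee k (μ w) - A *ᵥ ee k w) 0 z := by
    intro z hz
    have h1 := (hF z hz).fun_sub (hG z hz)
    refine h1.congr_deriv ?_
    have hden := E09_den γ hz
    have h2 := act_mulVec_form k γ z z hden hden (Fin.last k)
    have h3 := lat_smul (k + 2) 0 γ ⟨z, hz⟩
    rw [hmob] at h3
    simp only [pow_zero, mul_one] at h3
    have h3' : lat (k + 2) 0 (μ z) = ((γ 1 0 : ℂ) * z + γ 1 1) ^ (k + 2) * lat (k + 2) 0 z := h3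
    simp only [Fin.val_last, Nat.sub_self, pow_zero, mul_one] at h2
    rw [Matrix.mulVec_smul, h2, h3', smul_smul, smul_smul, ← sub_smul]
    have h4 : (((γ 1 0 : ℂ) * z + γ 1 1) ^ 2)⁻¹ * (((Real.pi : ℂ) ^ (k + 2))⁻¹ *
        (((k : ℂ) + 1) / 2 * (((γ 1 0 : ℂ) * z + γ 1 1) ^ (k + 2) * lat (k + 2) 0 z))) -
        ((Real.pi : ℂ) ^ (k + 2))⁻¹ * (((k : ℂ) + 1) / 2 * lat (k + 2) 0 z) *
        ((γ 1 0 : ℂ) * z + γ 1 1) ^ k = 0 := by
      have h5 : (((γ 1 0 : ℂ) * z + γ 1 1) ^ 2)⁻¹ * ((γ 1 0 : ℂ) * z + γ 1 1) ^ (k + 2) =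
          ((γ 1 0 : ℂ) * z + γ 1 1) ^ k := by
        rw [pow_add, mul_comm (((γ 1 0 : ℂ) * z + γ 1 1) ^ k), ← mul_assoc,
          inv_mul_cancel₀ (pow_ne_zero 2 hden), one_mul]
      linear_combination ((Real.pi : ℂ) ^ (k + 2))⁻¹ * (((k : ℂ) + 1) / 2 * lat (k + 2) 0 z) * h5
    rw [h4, zero_smul]
  refine ⟨ee k (μ I) - A *ᵥ ee k I, fun τ => ?_⟩
  have h := hopen.is_const_of_deriv_eq_zero (f := fun w => ee k (μ w) - A *ᵥ ee k w) hconn
    (fun z hz => (hd z hz).differentiableAt.differentiableWithinAt)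
    (fun z hz => (hd z hz).deriv) (x := (τ : ℂ)) (y := I) τ.im_pos (by simp)
  rw [hmob, ← h]
  abel

end Pool.Agent.LibEis68
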