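import Pool.Agent.LibEis68.FormSmul

open Complex Polynomial Matrix
open scoped ComplexConjugate MatrixGroups UpperHalfPlane

namespace Pool.Agent.LibEis68

/-- Evaluation of `γP` at `γτ`. -/
theorem eval_act (k : ℕ) (γ : SL(2, ℤ)) (P : Fin (k + 1) → ℂ) (τ : ℂ)
    (h : (γ 1 0 : ℂ) * τ + γ 1 1 ≠ 0) :
    ∑ j : Fin (k + 1), ((act k γ).map (algebraMap ℚ ℂ) *ᵥ P) j *
      (((γ 0 0 : ℂ) * τ + γ 0 1) / ((γ 1 0 : ℂ) * τ + γ 1 1)) ^ (j : ℕ) =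
      (((γ 1 0 : ℂ) * τ + γ 1 1) ^ k)⁻¹ * ∑ j : Fin (k + 1), P j * τ ^ (j : ℕ) := by
  set t : ℂ := ((γ 0 0 : ℂ) * τ + γ 0 1) / ((γ 1 0 : ℂ) * τ + γ 1 1) with ht
  have hdet : (γ 0 0 : ℂ) * γ 1 1 - γ 0 1 * γ 1 0 = 1 := by
    have := Matrix.det_fin_two (γ : Matrix (Fin 2) (Fin 2) ℤ)
    rw [γ.det_coe] at this
    exact_mod_cast this.symm
  have hA : (γ 1 1 : ℂ) * t + -(γ 0 1 : ℂ) = τ / ((γ 1 0 : ℂ) * τ + γ 1 1) := by
    rw [ht, eq_div_iff h, add_mul, mul_assoc, div_mul_cancel₀ _ h]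
    linear_combination τ * hdet
  have hB : -(γ 1 0 : ℂ) * t + (γ 0 0 : ℂ) = 1 / ((γ 1 0 : ℂ) * τ + γ 1 1) := by
    rw [ht, eq_div_iff h, add_mul, mul_assoc, div_mul_cancel₀ _ h]
    linear_combination hdet
  have hentry : ∀ j : Fin (k + 1), ((act k γ).map (algebraMap ℚ ℂ) *ᵥ P) j * t ^ (j : ℕ) =
      ∑ l : Fin (k + 1), P l * (((C (γ 1 1 : ℂ) * X + C (-(γ 0 1 : ℂ))) ^ (l : ℕ) *
        (C (-(γ 1 0 : ℂ)) * X + C (γ 0 0 : ℂ)) ^ (k - (l : ℕ)) : ℂ[X]).coeff j * t ^ (j : ℕ)) := by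
    intro j
    rw [Matrix.mulVec, dotProduct, Finset.sum_mul]
    refine Finset.sum_congr rfl fun l _ => ?_
    rw [Matrix.map_apply, act, Matrix.of_apply]
    have h1 : (C (γ 1 1 : ℂ) * X + C (-(γ 0 1 : ℂ)) : ℂ[X]) =
        (C (γ 1 1 : ℚ) * X - C (γ 0 1 : ℚ)).map (algebraMap ℚ ℂ) := by
      simp [sub_eq_add_neg]
    have h2 : (C (-(γ 1 0 : ℂ)) * X + C (γ 0 0 : ℂ) : ℂ[X]) =
        (C (γ 0 0 : ℚ) - C (γ 1 0 : ℚ) * X).map (algebraMap ℚ ℂ) := by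
      simp [sub_eq_add_neg, add_comm]
    rw [h1, h2, ← Polynomial.map_pow, ← Polynomial.map_pow, ← Polynomial.map_mul,
      Polynomial.coeff_map]
    ring
  rw [Finset.sum_congr rfl (fun j _ => hentry j), Finset.sum_comm, Finset.mul_sum]
  refine Finset.sum_congr rfl fun l _ => ?_
  rw [← Finset.mul_sum]
  have hdeg : ((C (γ 1 1 : ℂ) * X + C (-(γ 0 1 : ℂ))) ^ (l : ℕ) *
        (C (-(γ 1 0 : ℂ)) * X + C (γ 0 0 : ℂ)) ^ (k - (l : ℕ)) : ℂ[X]).natDegree < k + 1 := by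
    have h1 := natDegree_lin_pow (γ 1 1 : ℂ) (-(γ 0 1 : ℂ)) (l : ℕ)
    have h2 := natDegree_lin_pow (-(γ 1 0 : ℂ)) (γ 0 0 : ℂ) (k - (l : ℕ))
    have h3 := natDegree_mul_le (p := (C (γ 1 1 : ℂ) * X + C (-(γ 0 1 : ℂ))) ^ (l : ℕ))
      (q := (C (-(γ 1 0 : ℂ)) * X + C (γ 0 0 : ℂ)) ^ (k - (l : ℕ)))
    have := l.2
    omega
  have heval := Polynomial.eval_eq_sum_range' hdeg t
  rw [Finset.sum_range] at heval
  rw [← heval]
  simp only [eval_mul, eval_pow, eval_add, eval_C, eval_X]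
  rw [hA, hB, div_pow, one_div, inv_pow]
  have hl : (l : ℕ) + (k - (l : ℕ)) = k := by have := l.2; omega
  have : ((γ 1 0 : ℂ) * τ + γ 1 1) ^ k = ((γ 1 0 : ℂ) * τ + γ 1 1) ^ (l : ℕ) *
      ((γ 1 0 : ℂ) * τ + γ 1 1) ^ (k - (l : ℕ)) := by
    rw [← pow_add, hl]
  rw [this, mul_inv]
  ring

/-- Two polynomial expressions which agree on the upper half plane. -/
theorem coeff_unique {k : ℕ} (P Q : Fin (k + 1) → ℂ)
    (h : ∀ τ : ℍ, ∑ j : Fin (k + 1), P j * (τ : ℂ) ^ (j : ℕ) =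
      ∑ j : Fin (k + 1), Q j * (τ : ℂ) ^ (j : ℕ)) : P = Q := by
  let p : (Fin (k + 1) → ℂ) → ℂ[X] := fun P => ∑ j : Fin (k + 1), C (P j) * X ^ (j : ℕ)
  have hcoeff : ∀ (P : Fin (k + 1) → ℂ) (i : Fin (k + 1)), (p P).coeff i = P i := by
    intro P i
    simp only [p, finsetSum_coeff, coeff_C_mul, coeff_X_pow]
    rw [Finset.sum_eq_single i]
    · simp
    · intro j _ hj
      have : (i : ℕ) ≠ j := fun h' => hj (Fin.ext h'.symm)
      simp [this]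
    · simp
  have heq : p P = p Q := by
    apply Polynomial.eq_of_infinite_eval_eq
    refine Set.Infinite.mono (s := Set.range (fun n : ℕ => (((n : ℝ) + 1 : ℝ) : ℂ) * I)) ?_ ?_
    · rintro _ ⟨n, rfl⟩
      have hτ : 0 < ((((n : ℝ) + 1 : ℝ) : ℂ) * I).im := by
        simp
        positivity
      have := h ⟨(((n : ℝ) + 1 : ℝ) : ℂ) * I, hτ⟩
      simpa [p, eval_finsetSum] using this
    · apply Set.infinite_range_of_injective
      intro m n hmn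
      have h1 := mul_right_cancel₀ I_ne_zero hmn
      have h2 : (m : ℝ) + 1 = (n : ℝ) + 1 := by exact_mod_cast h1
      have h3 : (m : ℝ) = n := by linarith
      exact_mod_cast h3
  funext i
  rw [← hcoeff P i, heq, hcoeff]

end Pool.Agent.LibEis68
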