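import Pool.Agent.LibEis68.E03
import Pool.Agent.LibEis68.E06
import Pool.Agent.LibEis68.E07
import Pool.Agent.LibEis68.E09
import Pool.Agent.LibEis68.E10

open Complex Polynomial Matrix
open scoped ComplexConjugate MatrixGroups UpperHalfPlane

namespace Pool.Agent.LibEis68

private theorem E11_sub (k n : ℕ) (hn : n < k + 1) (c x : ℂ) :
    c * x ^ n = ∑ j : Fin (k + 1), (if (j : ℕ) = n then c else 0) * x ^ (j : ℕ) := by
  rw [Finset.sum_eq_single (⟨n, hn⟩ : Fin (k + 1))]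
  · simp
  · intro b _ hb
    have : (b : ℕ) ≠ n := fun h => hb (Fin.ext h)
    simp [this]
  · simp

theorem ee_T {k : ℕ} (hk : Even k) (hk2 : 2 ≤ k) : ∃ r : Fin (k + 1) → ℚ, ∀ τ : ℍ,
    ee k ((ModularGroup.T • τ : ℍ) : ℂ) =
      (act k ModularGroup.T).map (algebraMap ℚ ℂ) *ᵥ ee k τ + fun j => (r j : ℂ) := by
  obtain ⟨Z, hZ⟩ := ee_cocycle hk hk2 ModularGroup.T
  obtain ⟨q, hq⟩ := zeta_rational (n := k + 2) (by exact hk.add (by decide)) (by omega)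
  have hpi : ((Real.pi : ℂ) ^ (k + 2)) ≠ 0 :=
    pow_ne_zero _ (by exact_mod_cast Real.pi_ne_zero)
  have h00 : ((ModularGroup.T 0 0 : ℤ) : ℂ) = 1 := by simp [ModularGroup.T]
  have h01 : ((ModularGroup.T 0 1 : ℤ) : ℂ) = 1 := by simp [ModularGroup.T]
  have h10 : ((ModularGroup.T 1 0 : ℤ) : ℂ) = 0 := by simp [ModularGroup.T]
  have h11 : ((ModularGroup.T 1 1 : ℤ) : ℂ) = 1 := by simp [ModularGroup.T]
  have hT : ∀ τ : ℍ, ((ModularGroup.T • τ : ℍ) : ℂ) = τ + 1 := by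
    intro τ
    rw [UpperHalfPlane.coe_specialLinearGroup_apply]
    simp only [algebraMap_int_eq, eq_intCast, Complex.ofReal_intCast, h00, h01, h10, h11]
    simp
  -- value of `Z` at `τ + 1`
  have hval : ∀ τ : ℍ, ∑ j : Fin (k + 1), Z j * ((τ : ℂ) + 1) ^ (j : ℕ) =
      (q : ℂ) * (((τ : ℂ) + 1) ^ (k + 1) - (τ : ℂ) ^ (k + 1)) := by
    intro τ
    have h1 := hZ τ
    have h2 : ∑ j : Fin (k + 1), Z j * ((τ : ℂ) + 1) ^ (j : ℕ) =
        ∑ j : Fin (k + 1), ee k ((τ : ℂ) + 1) j * ((τ : ℂ) + 1) ^ (j : ℕ) -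
        ∑ j : Fin (k + 1), ((act k ModularGroup.T).map (algebraMap ℚ ℂ) *ᵥ ee k τ) j *
          ((τ : ℂ) + 1) ^ (j : ℕ) := by
      rw [← Finset.sum_sub_distrib]
      refine Finset.sum_congr rfl fun j _ => ?_
      rw [hT] at h1
      rw [h1, Pi.add_apply]
      ring
    have h3 := eval_act k ModularGroup.T (ee k τ) τ (by rw [h10, h11]; simp)
    rw [h00, h01, h10, h11] at h3
    simp only [one_mul, zero_mul, zero_add, div_one, one_pow, inv_one] at h3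
    rw [h2, h3, ee_eval, ee_eval, hh_add_one]
    have hq' : riemannZeta ((k : ℂ) + 2) = (Real.pi : ℂ) ^ (k + 2) * q := by
      rw [← hq]; push_cast; ring_nf
    rw [hq']
    field_simp
    ring
  have hshift : ∀ τ : ℍ, ∃ σ : ℍ, (τ : ℂ) = σ + 1 := by
    intro τ
    refine ⟨⟨(τ : ℂ) - 1, by simpa using τ.im_pos⟩, ?_⟩
    show (τ : ℂ) = ((τ : ℂ) - 1) + 1
    ring
  refine ⟨fun j => -(q * ((k + 1).choose j) * (-1) ^ (k + 1 - j)), fun τ => ?_⟩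
  rw [hZ τ]
  congr 1
  refine coeff_unique _ _ fun τ => ?_
  obtain ⟨σ, hσ⟩ := hshift τ
  have h4 := hval σ
  rw [← hσ] at h4
  rw [h4]
  have h5 : (σ : ℂ) = τ + (-1) := by rw [hσ]; ring
  rw [h5, add_pow, Finset.sum_range_succ,
    Fin.sum_univ_eq_sum_range (fun j => (((-(q * ((k + 1).choose j) * (-1) ^ (k + 1 - j)) : ℚ)) : ℂ) *
      (τ : ℂ) ^ j) (k + 1)]
  simp only [Nat.sub_self, pow_zero, mul_one, Nat.choose_self, Nat.cast_one]
  rw [sub_add_cancel_right, mul_neg, Finset.mul_sum, ← Finset.sum_neg_distrib]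
  refine Finset.sum_congr rfl fun j _ => ?_
  push_cast
  ring

theorem ee_S {k : ℕ} (hk : Even k) (hk2 : 2 ≤ k) : ∃ r : Fin (k + 1) → ℚ, ∀ τ : ℍ,
    ee k ((ModularGroup.S • τ : ℍ) : ℂ) =
      (act k ModularGroup.S).map (algebraMap ℚ ℂ) *ᵥ ee k τ + fun j => (r j : ℂ) := by
  obtain ⟨Z, hZ⟩ := ee_cocycle hk hk2 ModularGroup.S
  have hq : ∀ j : ℕ, ∃ q : ℚ, j < k / 2 → riemannZeta (2 * (j : ℂ) + 2) *
      riemannZeta ((k : ℂ) - 2 * j) = (Real.pi : ℂ) ^ (k + 2) * q := by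
    intro j
    by_cases hj : j < k / 2
    · obtain ⟨q, h⟩ := zeta_prod_rational hk hk2 hj
      exact ⟨q, fun _ => h⟩
    · exact ⟨0, fun h => absurd h hj⟩
  choose q hq using hq
  have hpi : ((Real.pi : ℂ) ^ (k + 2)) ≠ 0 :=
    pow_ne_zero _ (by exact_mod_cast Real.pi_ne_zero)
  have h00 : ((ModularGroup.S 0 0 : ℤ) : ℂ) = 0 := by simp [ModularGroup.S]
  have h01 : ((ModularGroup.S 0 1 : ℤ) : ℂ) = -1 := by simp [ModularGroup.S]
  have h10 : ((ModularGroup.S 1 0 : ℤ) : ℂ) = 1 := by simp [ModularGroup.S]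
  have h11 : ((ModularGroup.S 1 1 : ℤ) : ℂ) = 0 := by simp [ModularGroup.S]
  have hS : ∀ τ : ℍ, ((ModularGroup.S • τ : ℍ) : ℂ) = -1 / τ := by
    intro τ
    rw [UpperHalfPlane.coe_specialLinearGroup_apply]
    simp only [algebraMap_int_eq, eq_intCast, Complex.ofReal_intCast, h00, h01, h10, h11]
    simp
  have hne : ∀ τ : ℍ, (τ : ℂ) ≠ 0 := fun τ => τ.ne_zero
  have hval : ∀ τ : ℍ, ∑ j : Fin (k + 1), Z j * (-1 / (τ : ℂ)) ^ (j : ℕ) =
      -((τ : ℂ) ^ k)⁻¹ * (2 * ∑ j ∈ Finset.range (k / 2), (q j : ℂ) * (τ : ℂ) ^ (2 * j + 1)) := by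
    intro τ
    have h1 := hZ τ
    have h2 : ∑ j : Fin (k + 1), Z j * (-1 / (τ : ℂ)) ^ (j : ℕ) =
        ∑ j : Fin (k + 1), ee k (-1 / (τ : ℂ)) j * (-1 / (τ : ℂ)) ^ (j : ℕ) -
        ∑ j : Fin (k + 1), ((act k ModularGroup.S).map (algebraMap ℚ ℂ) *ᵥ ee k τ) j *
          (-1 / (τ : ℂ)) ^ (j : ℕ) := by
      rw [← Finset.sum_sub_distrib]
      refine Finset.sum_congr rfl fun j _ => ?_
      rw [hS] at h1
      rw [h1, Pi.add_apply]
      ring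
    have h3 := eval_act k ModularGroup.S (ee k τ) τ (by rw [h10, h11]; simpa using hne τ)
    rw [h00, h01, h10, h11] at h3
    simp only [one_mul, zero_mul, zero_add, add_zero] at h3
    have h4 := hh_inv hk hk2 (τ := (τ : ℂ)) τ.im_pos
    have h5 : ∑ j ∈ Finset.range (k / 2), riemannZeta (2 * (j : ℂ) + 2) *
        riemannZeta ((k : ℂ) - 2 * j) * (τ : ℂ) ^ (2 * j + 1) =
        (Real.pi : ℂ) ^ (k + 2) * ∑ j ∈ Finset.range (k / 2), (q j : ℂ) * (τ : ℂ) ^ (2 * j + 1) := by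
      rw [Finset.mul_sum]
      refine Finset.sum_congr rfl fun j hj => ?_
      rw [hq j (by simpa using hj)]
      ring
    rw [h5] at h4
    have hτk : ((τ : ℂ) ^ k) ≠ 0 := pow_ne_zero _ (hne τ)
    rw [h2, h3, ee_eval, ee_eval]
    have h6 : hh k 0 (-1 / (τ : ℂ)) = ((τ : ℂ) ^ k)⁻¹ * (hh k 0 τ -
        2 * ((Real.pi : ℂ) ^ (k + 2) *
          ∑ j ∈ Finset.range (k / 2), (q j : ℂ) * (τ : ℂ) ^ (2 * j + 1))) := by
      rw [← h4]
      field_simp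
      ring
    rw [h6]
    field_simp
    ring
  refine ⟨fun i => ∑ j ∈ Finset.range (k / 2), (if (i : ℕ) = k - 2 * j - 1 then 2 * q j else 0),
    fun τ => ?_⟩
  rw [hZ τ]
  congr 1
  refine coeff_unique _ _ fun τ => ?_
  have h4 := hval (ModularGroup.S • τ)
  rw [hS] at h4
  have hτ := hne τ
  have h5 : -1 / (-1 / (τ : ℂ)) = τ := by field_simp
  rw [h5] at h4
  rw [h4]
  push_cast
  simp_rw [Finset.sum_mul]
  rw [Finset.sum_comm, Finset.mul_sum, Finset.mul_sum]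
  refine Finset.sum_congr rfl fun j hj => ?_
  have hj' : 2 * j + 2 ≤ k := by
    have : j < k / 2 := by simpa using hj
    omega
  have h6 := E11_sub k (k - 2 * j - 1) (by omega) (2 * (q j : ℂ)) τ
  have h7 : ∑ i : Fin (k + 1), (((if (i : ℕ) = k - 2 * j - 1 then 2 * q j else 0 : ℚ)) : ℂ) *
      (τ : ℂ) ^ (i : ℕ) = ∑ i : Fin (k + 1),
      ((if (i : ℕ) = k - 2 * j - 1 then 2 * (q j : ℂ) else 0)) * (τ : ℂ) ^ (i : ℕ) := by
    refine Finset.sum_congr rfl fun i _ => ?_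
    split_ifs <;> push_cast <;> ring
  rw [h7, ← h6]
  obtain ⟨m, rfl⟩ := hk
  have h8 : m + m - 2 * j - 1 + (2 * j + 1) = m + m := by omega
  have h9 : (-1 / (τ : ℂ)) ^ (m + m) = ((τ : ℂ) ^ (m + m))⁻¹ := by
    rw [div_pow, ← two_mul, pow_mul (-1 : ℂ)]
    simp
  have h10' : (-1 / (τ : ℂ)) ^ (2 * j + 1) = -((τ : ℂ) ^ (2 * j + 1))⁻¹ := by
    rw [div_pow, pow_succ (-1 : ℂ), pow_mul (-1 : ℂ)]
    simp [neg_div]
  rw [h9, h10', inv_inv]
  have h11' : (τ : ℂ) ^ (m + m) = (τ : ℂ) ^ (m + m - 2 * j - 1) * (τ : ℂ) ^ (2 * j + 1) := by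
    rw [← pow_add, h8]
  rw [h11']
  have h12 : ((τ : ℂ) ^ (2 * j + 1)) ≠ 0 := pow_ne_zero _ hτ
  field_simp

end Pool.Agent.LibEis68
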