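import Pool.Agent.LibEis68.E11

open Complex Polynomial Matrix
open scoped ComplexConjugate MatrixGroups UpperHalfPlane

namespace Pool.Agent.LibEis68

theorem ee_monodromy {k : ℕ} (hk : Even k) (hk2 : 2 ≤ k) (γ : SL(2, ℤ)) :
    ∃ r : Fin (k + 1) → ℚ, ∀ τ : ℍ, ee k ((γ • τ : ℍ) : ℂ) =
      (act k γ).map (algebraMap ℚ ℂ) *ᵥ ee k τ + fun j => (r j : ℂ) := by
  have hcast : ∀ (A : Matrix (Fin (k + 1)) (Fin (k + 1)) ℚ) (r : Fin (k + 1) → ℚ),
      (A.map (algebraMap ℚ ℂ)) *ᵥ (fun j => (r j : ℂ)) = fun j => ((A *ᵥ r) j : ℂ) := by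
    intro A r
    funext j
    simp [Matrix.mulVec, dotProduct]
  have hγ : γ ∈ Subgroup.closure {ModularGroup.S, ModularGroup.T} := by
    simp [SpecialLinearGroup.SL2Z_generators]
  induction hγ using Subgroup.closure_induction with
  | one =>
    refine ⟨0, fun τ => ?_⟩
    rw [one_smul, act_one, Matrix.map_one _ (map_zero _) (map_one _), Matrix.one_mulVec]
    funext j
    simp
  | mem g hg =>
    simp only [Set.mem_insert_iff, Set.mem_singleton_iff] at hg
    rcases hg with rfl | rfl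
    · exact ee_S hk hk2
    · exact ee_T hk hk2
  | mul g h _ _ ig ih =>
    obtain ⟨r, hr⟩ := ig
    obtain ⟨s, hs⟩ := ih
    refine ⟨act k g *ᵥ s + r, fun τ => ?_⟩
    rw [mul_smul, hr, hs, act_mul, Matrix.map_mul, Matrix.mulVec_add, Matrix.mulVec_mulVec, hcast]
    funext j
    simp only [Pi.add_apply, Rat.cast_add]
    ring
  | inv g _ ig =>
    obtain ⟨r, hr⟩ := ig
    refine ⟨-(act k g⁻¹ *ᵥ r), fun τ => ?_⟩
    have h1 := hr (g⁻¹ • τ)
    rw [smul_inv_smul] at h1
    have h2 : (act k g⁻¹).map (algebraMap ℚ ℂ) * (act k g).map (algebraMap ℚ ℂ) = 1 := by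
      rw [← Matrix.map_mul, ← act_mul, inv_mul_cancel, act_one,
        Matrix.map_one _ (map_zero _) (map_one _)]
    rw [h1, Matrix.mulVec_add, Matrix.mulVec_mulVec, h2, Matrix.one_mulVec, hcast]
    funext j
    simp

end Pool.Agent.LibEis68
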