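import Pool.Agent.LibEis68.E01

open Complex Polynomial Matrix
open scoped ComplexConjugate MatrixGroups UpperHalfPlane

namespace Pool.Agent.LibEis68

/-- polynomial growth at the cusp -/
private def Gr (f : ℂ → ℂ) : Prop :=
  ∃ (C : ℝ) (N : ℕ), 0 ≤ C ∧ ∀ τ : ℂ, |τ.re| ≤ 1 / 2 → 1 ≤ τ.im → ‖f τ‖ ≤ C * τ.im ^ N

private theorem gr_const (c : ℂ) : Gr fun _ => c :=
  ⟨‖c‖, 0, norm_nonneg _, fun τ _ _ => by simp⟩

private theorem gr_id : Gr fun τ => τ := by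
  refine ⟨2, 1, by norm_num, fun τ h1 h2 => ?_⟩
  have := Complex.norm_le_abs_re_add_abs_im τ
  rw [abs_of_pos (lt_of_lt_of_le one_pos h2)] at this
  rw [pow_one]
  linarith

private theorem gr_add {f g : ℂ → ℂ} (hf : Gr f) (hg : Gr g) : Gr fun τ => f τ + g τ := by
  obtain ⟨C, N, hC, h⟩ := hf
  obtain ⟨C', N', hC', h'⟩ := hg
  refine ⟨C + C', max N N', by positivity, fun τ h1 h2 => ?_⟩
  have h3 := h τ h1 h2
  have h4 := h' τ h1 h2
  have h5 : τ.im ^ N ≤ τ.im ^ max N N' := pow_le_pow_right₀ h2 (le_max_left _ _)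
  have h6 : τ.im ^ N' ≤ τ.im ^ max N N' := pow_le_pow_right₀ h2 (le_max_right _ _)
  have h7 := mul_le_mul_of_nonneg_left h5 hC
  have h8 := mul_le_mul_of_nonneg_left h6 hC'
  have h9 := norm_add_le (f τ) (g τ)
  rw [add_mul]
  linarith

private theorem gr_mul {f g : ℂ → ℂ} (hf : Gr f) (hg : Gr g) : Gr fun τ => f τ * g τ := by
  obtain ⟨C, N, hC, h⟩ := hf
  obtain ⟨C', N', hC', h'⟩ := hg
  refine ⟨C * C', N + N', by positivity, fun τ h1 h2 => ?_⟩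
  have h3 := h τ h1 h2
  have h4 := h' τ h1 h2
  have hp : 0 < τ.im := lt_of_lt_of_le one_pos h2
  rw [norm_mul]
  calc ‖f τ‖ * ‖g τ‖ ≤ (C * τ.im ^ N) * (C' * τ.im ^ N') :=
        mul_le_mul h3 h4 (norm_nonneg _) (by positivity)
    _ = C * C' * τ.im ^ (N + N') := by rw [pow_add]; ring

private theorem gr_pow {f : ℂ → ℂ} (hf : Gr f) (n : ℕ) : Gr fun τ => f τ ^ n := by
  induction n with
  | zero => simpa using gr_const 1
  | succ n ih =>
    simp_rw [pow_succ]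
    exact gr_mul ih hf

private theorem gr_sum {ι : Type*} (s : Finset ι) {f : ι → ℂ → ℂ} (hf : ∀ i ∈ s, Gr (f i)) :
    Gr fun τ => ∑ i ∈ s, f i τ := by
  classical
  induction s using Finset.induction_on with
  | empty => simpa using gr_const 0
  | insert a s ha ih =>
    simp_rw [Finset.sum_insert ha]
    exact gr_add (hf a (Finset.mem_insert_self _ _))
      (ih fun i hi => hf i (Finset.mem_insert_of_mem hi))

private theorem gr_bounded {f : ℂ → ℂ} (M : ℝ) (hM : 0 ≤ M) (h : ∀ τ : ℂ, 1 ≤ τ.im → ‖f τ‖ ≤ M) :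
    Gr f := ⟨M, 0, hM, fun τ _ h2 => by simpa using h τ h2⟩

private theorem gr_re_aux (a b : ℝ) (z : ℂ) :
    (2 * Real.pi * I * ((a : ℂ) + 1) * ((b : ℂ) + 1) * z).re =
      -(2 * Real.pi * (a + 1) * (b + 1)) * z.im := by
  have h : (2 * Real.pi * I * ((a : ℂ) + 1) * ((b : ℂ) + 1) * z) =
      ((2 * Real.pi * (a + 1) * (b + 1) : ℝ) : ℂ) * (I * z) := by
    push_cast
    ring
  rw [h, Complex.re_ofReal_mul, Complex.I_mul_re]
  ring

private theorem gr_exp_le (a b : ℕ) {z : ℂ} (hz : 1 ≤ z.im) :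
    ‖Complex.exp (2 * Real.pi * I * ((a : ℂ) + 1) * ((b : ℂ) + 1) * z)‖ ≤
      ‖Complex.exp (2 * Real.pi * I * ((a : ℂ) + 1) * ((b : ℂ) + 1) * I)‖ := by
  rw [Complex.norm_exp, Complex.norm_exp]
  apply Real.exp_le_exp.2
  have h1 := gr_re_aux a b z
  have h2 := gr_re_aux a b I
  rw [Complex.ofReal_natCast, Complex.ofReal_natCast] at h1 h2
  rw [h1, h2, Complex.I_im]
  have h3 : 0 ≤ 2 * Real.pi * ((a : ℝ) + 1) * ((b : ℝ) + 1) := by
    have := Real.pi_pos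
    positivity
  nlinarith

private noncomputable def gr_term (k m : ℕ) (p : ℕ × ℕ) (τ : ℂ) : ℂ :=
  (((p.1 : ℂ) + 1) ^ (k + 1))⁻¹ *
      (2 * Real.pi * I * ((p.1 : ℂ) + 1) * ((p.2 : ℂ) + 1)) ^ m *
      Complex.exp (2 * Real.pi * I * ((p.1 : ℂ) + 1) * ((p.2 : ℂ) + 1) * τ)

private theorem gr_term_le (k m : ℕ) (p : ℕ × ℕ) {τ : ℂ} (hτ : 1 ≤ τ.im) :
    ‖gr_term k m p τ‖ ≤ ‖gr_term k m p I‖ := by
  have h1 : ‖gr_term k m p τ‖ = ‖(((p.1 : ℂ) + 1) ^ (k + 1))⁻¹ *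
      (2 * Real.pi * I * ((p.1 : ℂ) + 1) * ((p.2 : ℂ) + 1)) ^ m‖ *
      ‖Complex.exp (2 * Real.pi * I * ((p.1 : ℂ) + 1) * ((p.2 : ℂ) + 1) * τ)‖ := norm_mul _ _
  have h2 : ‖gr_term k m p I‖ = ‖(((p.1 : ℂ) + 1) ^ (k + 1))⁻¹ *
      (2 * Real.pi * I * ((p.1 : ℂ) + 1) * ((p.2 : ℂ) + 1)) ^ m‖ *
      ‖Complex.exp (2 * Real.pi * I * ((p.1 : ℂ) + 1) * ((p.2 : ℂ) + 1) * I)‖ := norm_mul _ _
  rw [h1, h2]
  exact mul_le_mul_of_nonneg_left (gr_exp_le p.1 p.2 hτ) (norm_nonneg _)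

private theorem gr_sum_exp (k m : ℕ) : Gr fun τ => ∑' p : ℕ × ℕ, gr_term k m p τ := by
  have hI : 0 < (I : ℂ).im := by simp
  have hs0 : Summable fun p : ℕ × ℕ => gr_term k m p I := hh_summable k m hI
  have hs := hs0.norm
  refine gr_bounded (∑' p : ℕ × ℕ, ‖gr_term k m p I‖) (tsum_nonneg fun p => norm_nonneg _) ?_
  intro τ hτ
  exact tsum_of_norm_bounded hs.hasSum fun p => gr_term_le k m p hτ

private theorem gr_hh (k m : ℕ) : Gr (hh k m) := by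
  have h : hh k m = fun τ => riemannZeta ((k : ℂ) + 2) * ((k + 1).descFactorial m : ℂ) *
      τ ^ (k + 1 - m) + (if m = 0 then Real.pi * I * riemannZeta ((k : ℂ) + 1) else 0) +
      2 * Real.pi * I * ∑' p : ℕ × ℕ, gr_term k m p τ := rfl
  rw [h]
  exact gr_add (gr_add (gr_mul (gr_const _) (gr_pow gr_id _)) (gr_const _))
    (gr_mul (gr_const _) (gr_sum_exp k m))

private theorem gr_coeff (m j : ℕ) : Gr fun τ => ((X - C τ) ^ m).coeff j := by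
  have h : (fun τ : ℂ => ((X - C τ) ^ m).coeff j) =
      fun τ : ℂ => ((-1) * τ) ^ (m - j) * (m.choose j : ℂ) := by
    funext τ
    rw [sub_eq_add_neg, ← Polynomial.C_neg, Polynomial.coeff_X_add_C_pow]
    ring
  rw [h]
  exact gr_mul (gr_pow (gr_mul (gr_const _) gr_id) _) (gr_const _)

private theorem gr_ee (k : ℕ) (j : Fin (k + 1)) : Gr fun τ => ee k τ j := by
  unfold ee
  refine gr_mul (gr_const _) (gr_sum _ fun m _ => ?_)
  simp_rw [div_eq_mul_inv]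
  exact gr_mul (gr_mul (gr_hh k m) (gr_const _)) (gr_coeff m j)

theorem ee_growth (k : ℕ) : ∃ (C : ℝ) (N : ℕ), ∀ τ : ℂ, |τ.re| ≤ 1 / 2 → 1 ≤ τ.im →
    ‖ee k τ‖ ≤ C * τ.im ^ N := by
  choose C N hC h using fun j => gr_ee k j
  refine ⟨∑ j, C j, ∑ j, N j, fun τ h1 h2 => ?_⟩
  have hp : 0 < τ.im := lt_of_lt_of_le one_pos h2
  have hS : 0 ≤ ∑ j, C j := Finset.sum_nonneg fun j _ => hC j
  rw [pi_norm_le_iff_of_nonneg (by positivity)]
  intro j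
  refine le_trans (h j τ h1 h2) ?_
  have h3 : C j ≤ ∑ j, C j := Finset.single_le_sum (fun i _ => hC i) (Finset.mem_univ j)
  have h4 : τ.im ^ N j ≤ τ.im ^ ∑ j, N j :=
    pow_le_pow_right₀ h2 (Finset.single_le_sum (fun i _ => Nat.zero_le _) (Finset.mem_univ j))
  exact mul_le_mul h3 h4 (by positivity) hS

end Pool.Agent.LibEis68
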