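import Pool.Agent.LibEis68.E12
import Pool.Agent.LibEis68.E13
import Pool.Agent.LibEis68.D12

open Complex Polynomial Matrix
open scoped ComplexConjugate MatrixGroups UpperHalfPlane

namespace Pool.Agent.LibEis68

theorem ee_isExtension {k : ℕ} (hk : Even k) (hk2 : 2 ≤ k) : IsExtension k (ee k) where
  transversal := fun _ hτ => ⟨_, ee_hasDerivAt hk hk2 hτ⟩
  monodromy := ee_monodromy hk hk2
  growth := ee_growth k

theorem ee_not_split {k : ℕ} (hk : Even k) (hk2 : 2 ≤ k) : ¬ IsSplit k (ee k) := by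
  rintro ⟨r, hr⟩
  have hlat : ∀ τ : ℂ, 0 < τ.im → lat (k + 2) 0 τ = 0 := by
    intro τ hτ
    have h1 := ee_hasDerivAt hk hk2 hτ
    have h2 : HasDerivAt (ee k) 0 τ := by
      have h3 : HasDerivAt (fun _ : ℂ => fun j => (r j : ℂ)) (0 : Fin (k + 1) → ℂ) τ :=
        hasDerivAt_const _ _
      refine h3.congr_of_eventuallyEq ?_
      have h4 : {z : ℂ | 0 < z.im} ∈ nhds τ :=
        (isOpen_lt continuous_const Complex.continuous_im).mem_nhds hτ
      filter_upwards [h4] with z hz
      funext j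
      exact hr z hz j
    have h5 := h1.unique h2
    have h6 := congr_fun h5 (Fin.last k)
    have h7 : form k τ τ k (Fin.last k) = 1 := by
      unfold form
      rw [Nat.sub_self, pow_zero, mul_one, Fin.val_last, sub_eq_add_neg, ← Polynomial.C_neg,
        Polynomial.coeff_X_add_C_pow]
      simp
    rw [Pi.smul_apply, h7, smul_eq_mul, mul_one, Pi.zero_apply] at h6
    have hpi : ((Real.pi : ℂ) ^ (k + 2))⁻¹ ≠ 0 :=
      inv_ne_zero (pow_ne_zero _ (by exact_mod_cast Real.pi_ne_zero))
    have hk1 : ((k : ℂ) + 1) / 2 ≠ 0 := by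
      refine div_ne_zero ?_ two_ne_zero
      exact_mod_cast Nat.succ_ne_zero k
    rcases mul_eq_zero.1 h6 with h | h
    · exact absurd h hpi
    · rcases mul_eq_zero.1 h with h | h
      · exact absurd h hk1
      · exact h
  obtain ⟨C, hC⟩ := lat_decay hk hk2
  have h8 : ∀ y : ℝ, 1 ≤ y → ‖2 * riemannZeta (k + 2)‖ ≤ C * Real.exp (-2 * Real.pi * y) := by
    intro y hy
    have h9 := hC ((y : ℂ) * I) (by simpa using hy)
    rw [hlat _ (by simpa using lt_of_lt_of_le one_pos hy), zero_sub, norm_neg] at h9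
    simpa using h9
  have h9 : Filter.Tendsto (fun y : ℝ => C * Real.exp (-2 * Real.pi * y)) Filter.atTop
      (nhds (C * 0)) := by
    refine Filter.Tendsto.const_mul _ ?_
    refine Real.tendsto_exp_atBot.comp ?_
    refine (Filter.tendsto_const_mul_atBot_of_neg ?_).2 Filter.tendsto_id
    have := Real.pi_pos
    linarith
  have h10 : ‖2 * riemannZeta (k + 2)‖ ≤ C * 0 := by
    refine ge_of_tendsto h9 ?_
    filter_upwards [Filter.eventually_ge_atTop (1 : ℝ)] with y hy
    exact h8 y hy
  rw [mul_zero] at h10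
  have h11 : 2 * riemannZeta (k + 2) = 0 := norm_le_zero_iff.1 h10
  have h12 : riemannZeta (k + 2) ≠ 0 := by
    apply riemannZeta_ne_zero_of_one_lt_re
    simp
    have : (0 : ℝ) ≤ k := Nat.cast_nonneg k
    linarith
  rcases mul_eq_zero.1 h11 with h | h
  · exact two_ne_zero h
  · exact h12 h

end Pool.Agent.LibEis68
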