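import Pool.Agent.LibEis68.CDefs

open Complex Polynomial Matrix
open scoped ComplexConjugate MatrixGroups UpperHalfPlane

namespace Pool.Agent.LibEis68

/-- The `m`-th derivative of the Eichler integral
`h(τ) = ζ(k+2) τ^(k+1) + πi ζ(k+1) + 2πi ∑_{d,n ≥ 1} d^(-k-1) exp(2πi d n τ)`. -/
noncomputable def hh (k m : ℕ) (τ : ℂ) : ℂ :=
  riemannZeta ((k : ℂ) + 2) * ((k + 1).descFactorial m : ℂ) * τ ^ (k + 1 - m) +
    (if m = 0 then Real.pi * I * riemannZeta ((k : ℂ) + 1) else 0) +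
    2 * Real.pi * I * ∑' p : ℕ × ℕ, (((p.1 : ℂ) + 1) ^ (k + 1))⁻¹ *
      (2 * Real.pi * I * ((p.1 : ℂ) + 1) * ((p.2 : ℂ) + 1)) ^ m *
      Complex.exp (2 * Real.pi * I * ((p.1 : ℂ) + 1) * ((p.2 : ℂ) + 1) * τ)

/-- The Eisenstein extension: the `k`-th Taylor polynomial of `h` at `τ`, divided by `π^(k+2)`. -/
noncomputable def ee (k : ℕ) (τ : ℂ) : Fin (k + 1) → ℂ := fun j =>
  ((Real.pi : ℂ) ^ (k + 2))⁻¹ *
    ∑ m ∈ Finset.range (k + 1), hh k m τ / (m.factorial : ℂ) * ((X - C τ) ^ m).coeff j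

end Pool.Agent.LibEis68
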