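import Pool.Agent.LibEis68.G03
import Pool.Agent.LibEis68.AMain

open Complex Polynomial Matrix
open scoped ComplexConjugate MatrixGroups UpperHalfPlane

namespace Pool.Agent.LibEis68

/-- For `k = 2` the zeros are `i` and `exp(iπ/3)`. -/
theorem arcZeros_two {z : ℍ} (hz : z ∈ arcZeros 2) : z = UpperHalfPlane.I ∨ z = rho := by
  obtain ⟨⟨hn, h0, h1⟩, i, hi⟩ := hz
  have h31 : lat 3 1 z = 0 := by
    fin_cases i
    · have : lat 1 3 z = 0 := by simpa using hi
      rw [lat_conj 1 3, this, map_zero]
    · exact absurd (by simpa using hi) (lat_self_ne_zero (s := 2) le_rfl z.im_pos)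
    · simpa using hi
  have hsq : z.re ^ 2 + z.im ^ 2 = 1 := by
    have := Complex.sq_norm (z : ℂ)
    rw [hn, Complex.normSq_apply] at this
    have h2 : (z : ℂ).re = z.re := rfl
    have h3 : (z : ℂ).im = z.im := rfl
    rw [h2, h3] at this
    linarith
  have hy : √3 / 2 ≤ z.im := by
    have h3 : √3 ^ 2 = 3 := Real.sq_sqrt (by norm_num)
    have h4 : 0 ≤ √3 := Real.sqrt_nonneg _
    by_contra hlt
    push Not at hlt
    have := z.im_pos
    nlinarith
  rcases h0.eq_or_lt with h0 | h0
  · left
    apply UpperHalfPlane.ext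
    apply Complex.ext
    · change z.re = UpperHalfPlane.I.re
      rw [← h0]
      simp
    · change z.im = UpperHalfPlane.I.im
      rw [← h0] at hsq
      have : z.im = 1 := by nlinarith [z.im_pos]
      rw [this]
      simp
  rcases h1.eq_or_lt with h1 | h1
  · right
    apply UpperHalfPlane.ext
    apply Complex.ext
    · exact h1
    · change z.im = √3 / 2
      have h3 : √3 ^ 2 = 3 := Real.sq_sqrt (by norm_num)
      have h4 : 0 ≤ √3 := Real.sqrt_nonneg _
      rw [h1] at hsq
      nlinarith [z.im_pos]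
  · exact absurd (by rw [h31]; simp) (lat31_im_ne_zero hy h0 h1)

end Pool.Agent.LibEis68
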