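import Pool.Agent.LibEis68.AMain
import Pool.Agent.LibEis68.B20
import Pool.Agent.LibEis68.B21
import Pool.Agent.LibEis68.B23
import Pool.Agent.LibEis68.B24
import Pool.Agent.LibEis68.DMain
import Pool.Agent.LibEis68.E14
import Pool.Agent.LibEis68.G04

open Complex Polynomial Matrix
open scoped ComplexConjugate MatrixGroups UpperHalfPlane

namespace Pool.Agent.LibEis68

/-- The main theorem. -/
theorem main (k : ℕ) (hk : Even k) (hk2 : 2 ≤ k) :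
    (∃ e : ℂ → Fin (k + 1) → ℂ, IsExtension k e ∧ ¬ IsSplit k e) ∧
    ∀ e : ℂ → Fin (k + 1) → ℂ, IsExtension k e → ¬ IsSplit k e →
      genericMtDim e = k + 5 ∧ genericDomainDim e = k + 2 ∧
      hodgeLocus e = {τ : ℍ | ∃ a b c : ℤ, a ≠ 0 ∧ (a : ℂ) * (τ : ℂ) ^ 2 + b * τ + c = 0} ∧
      ∃ F : Finset ℍ, UpperHalfPlane.I ∈ F ∧ rho ∈ F ∧
        (∀ z ∈ F, ‖(z : ℂ)‖ = 1 ∧ 0 ≤ z.re ∧ z.re ≤ 1 / 2) ∧
        atypicalLocus e = {τ : ℍ | ∃ γ : SL(2, ℤ), γ • τ ∈ F} ∧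
        (k = 2 → (F : Set ℍ) = {UpperHalfPlane.I, rho}) := by
  classical
  refine ⟨⟨ee k, ee_isExtension hk hk2, ee_not_split hk hk2⟩, fun e he hs => ?_⟩
  obtain ⟨κ, hκ, him⟩ := he.im_formula hk hk2 hs
  have hd : ∀ τ : ℍ, (¬ IsCM τ → mtDim e τ = k + 5 ∧ domainDim e τ = k + 2) ∧
      (IsCM τ → mtDim e τ ≤ k + 3 ∧ domainDim e τ ≤ k + 1) ∧
      (IsCM τ → (∀ i : Fin (k + 1), lat (i + 1) (k - i + 1) τ ≠ 0) → domainDim e τ = k + 1) :=
    fun τ => dims hk hk2 τ.im_pos hκ (him τ τ.im_pos)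
  obtain ⟨τ₀, hτ₀⟩ := exists_not_cm
  have hm : ∀ τ : ℍ, mtDim e τ ≤ k + 5 := fun τ => by
    by_cases h : IsCM (τ : ℂ)
    · exact ((hd τ).2.1 h).1.trans (by omega)
    · exact ((hd τ).1 h).1.le
  have hD : ∀ τ : ℍ, domainDim e τ ≤ k + 2 := fun τ => by
    by_cases h : IsCM (τ : ℂ)
    · exact ((hd τ).2.1 h).2.trans (by omega)
    · exact ((hd τ).1 h).2.le
  have hgm : genericMtDim e = k + 5 := by
    refine le_antisymm (ciSup_le hm) ?_
    rw [← ((hd τ₀).1 hτ₀).1]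
    exact le_ciSup (f := fun τ : ℍ => mtDim e τ) ⟨k + 5, by rintro _ ⟨τ, rfl⟩; exact hm τ⟩ τ₀
  have hgD : genericDomainDim e = k + 2 := by
    refine le_antisymm (ciSup_le hD) ?_
    rw [← ((hd τ₀).1 hτ₀).2]
    exact le_ciSup (f := fun τ : ℍ => domainDim e τ) ⟨k + 2, by rintro _ ⟨τ, rfl⟩; exact hD τ⟩ τ₀
  have hH : hodgeLocus e =
      {τ : ℍ | ∃ a b c : ℤ, a ≠ 0 ∧ (a : ℂ) * (τ : ℂ) ^ 2 + b * τ + c = 0} := by
    ext τ
    change mtDim e τ < genericMtDim e ↔ IsCM τ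
    rw [hgm]
    by_cases h : IsCM (τ : ℂ)
    · exact ⟨fun _ => h, fun _ => ((hd τ).2.1 h).1.trans_lt (by omega)⟩
    · simp [((hd τ).1 h).1, h]
  have hA : ∀ τ : ℍ, τ ∈ atypicalLocus e ↔ IsCM τ ∧ domainDim e τ ≤ k := by
    intro τ
    change τ ∈ hodgeLocus e ∧ genericDomainDim e - domainDim e τ ≠ 1 ↔ _
    rw [hH, hgD]
    constructor
    · rintro ⟨h1, h2⟩
      have := ((hd τ).2.1 h1).2
      exact ⟨h1, by omega⟩
    · rintro ⟨h1, h2⟩
      exact ⟨h1, by omega⟩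
  have hinv : ∀ (γ : SL(2, ℤ)) (τ : ℍ), γ • τ ∈ atypicalLocus e ↔ τ ∈ atypicalLocus e := by
    intro γ τ
    obtain ⟨h1, h2⟩ := dims_smul hk he γ τ
    change (mtDim e ((γ • τ : ℍ) : ℂ) < genericMtDim e ∧
      genericDomainDim e - domainDim e ((γ • τ : ℍ) : ℂ) ≠ 1) ↔
      (mtDim e τ < genericMtDim e ∧ genericDomainDim e - domainDim e τ ≠ 1)
    rw [h1, h2]
  have hzero : ∀ τ : ℍ, τ ∈ atypicalLocus e →
      ∃ i : Fin (k + 1), lat (i + 1) (k - i + 1) τ = 0 := by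
    intro τ hτ
    rw [hA] at hτ
    by_contra hne
    push Not at hne
    have := (hd τ).2.2 hτ.1 hne
    omega
  have hfin : (arcZeros k ∩ atypicalLocus e).Finite :=
    (arcZeros_finite hk hk2).subset Set.inter_subset_left
  have hmemI : UpperHalfPlane.I ∈ arcZeros k ∩ atypicalLocus e := by
    have h : UpperHalfPlane.I ∈ atypicalLocus e := (hA _).2 ⟨isCM_I, domainDim_I hk hk2 he⟩
    refine ⟨⟨⟨?_, ?_, ?_⟩, hzero _ h⟩, h⟩ <;> simp
  have hmemrho : rho ∈ arcZeros k ∩ atypicalLocus e := by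
    have h : rho ∈ atypicalLocus e := (hA _).2 ⟨isCM_rho, domainDim_rho hk hk2 he⟩
    refine ⟨⟨⟨?_, ?_, ?_⟩, hzero _ h⟩, h⟩
    · have h3 : √3 ^ 2 = 3 := Real.sq_sqrt (by norm_num)
      have : ‖(rho : ℂ)‖ ^ 2 = 1 := by
        rw [← Complex.normSq_eq_norm_sq, Complex.normSq_apply]
        change (1 / 2 : ℝ) * (1 / 2) + √3 / 2 * (√3 / 2) = 1
        nlinarith
      nlinarith [norm_nonneg (rho : ℂ)]
    · change (0 : ℝ) ≤ 1 / 2
      norm_num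
    · exact le_refl (1 / 2 : ℝ)
  refine ⟨hgm, hgD, hH, hfin.toFinset, ?_, ?_, ?_, ?_, ?_⟩
  · simpa using hmemI
  · simpa using hmemrho
  · intro z hz
    simp only [Set.Finite.mem_toFinset, Set.mem_inter_iff] at hz
    exact hz.1.1
  · ext τ
    simp only [Set.mem_setOf_eq, Set.Finite.mem_toFinset, Set.mem_inter_iff]
    constructor
    · intro h
      obtain ⟨γ, hγ⟩ := exists_smul_arc hk hk2 (hzero τ h)
      exact ⟨γ, hγ, (hinv γ τ).2 h⟩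
    · rintro ⟨γ, -, h⟩
      exact (hinv γ τ).1 h
  · rintro rfl
    rw [Set.Finite.coe_toFinset]
    apply Set.Subset.antisymm
    · intro z hz
      exact arcZeros_two hz.1
    · rintro z (rfl | rfl)
      · exact hmemI
      · exact hmemrho

end Pool.Agent.LibEis68
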