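import Pool.Agent.LibEis68.A01
import Mathlib.NumberTheory.ModularForms.EisensteinSeries.QExpansion

open Complex Polynomial Matrix
open scoped ComplexConjugate MatrixGroups UpperHalfPlane

namespace Pool.Agent.LibEis68

/-- Partial fractions. -/
theorem pf31 {a b : ℂ} (ha : a ≠ 0) (hb : b ≠ 0) (hw : a - b ≠ 0) :
    (a ^ 3 * b ^ 1)⁻¹ = -(a - b)⁻¹ * (1 / a ^ 3) - ((a - b) ^ 2)⁻¹ * (1 / a ^ 2) +
      ((a - b) ^ 2)⁻¹ * (a * b)⁻¹ := by
  field_simp
  ring

theorem summable_int_pow (k : ℕ) (hk : 2 ≤ k) (z : ℍ) :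
    Summable fun n : ℤ => 1 / ((z : ℂ) + n) ^ k := by
  have := EisensteinSeries.linear_right_summable (z : ℂ) 1 (k := k) (by exact_mod_cast hk)
  simpa using this

theorem inner_im (z : ℍ) :
    (∑' n : ℤ, (((z : ℂ) + n) ^ 3 * (conj (z : ℂ) + n) ^ 1)⁻¹).im =
      -∑' d : ℕ, Real.exp (-2 * Real.pi * d * z.im) * Real.sin (2 * Real.pi * d * z.re) *
        (2 * Real.pi ^ 3 * d ^ 2 / z.im + Real.pi ^ 2 * d / z.im ^ 2) := by
  have hy : 0 < z.im := z.im_pos
  have ha : ∀ n : ℤ, (z : ℂ) + n ≠ 0 := fun n h => by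
    have := congrArg Complex.im h
    simp at this
    exact hy.ne' this
  have hb : ∀ n : ℤ, conj (z : ℂ) + n ≠ 0 := fun n h => by
    have := congrArg Complex.im h
    simp at this
    exact hy.ne' this
  have hw : (z : ℂ) - conj (z : ℂ) = 2 * z.im * I := by
    apply Complex.ext <;> simp <;> ring
  have hsub : ∀ n : ℤ, (z : ℂ) + n - (conj (z : ℂ) + n) = 2 * z.im * I := fun n => by
    rw [← hw]; ring
  have hw0 : (2 * z.im * I : ℂ) ≠ 0 := by
    have : (z.im : ℂ) ≠ 0 := by exact_mod_cast hy.ne'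
    simp [this]
  have hs4 : Summable fun n : ℤ => (((z : ℂ) + n) ^ 3 * (conj (z : ℂ) + n) ^ 1)⁻¹ := by
    have h4 := (summable_int_pow 4 (by norm_num) z).norm
    refine Summable.of_norm (h4.congr fun n => ?_)
    have : ‖conj (z : ℂ) + n‖ = ‖(z : ℂ) + n‖ := by
      rw [← Complex.norm_conj]
      simp
    simp only [one_div, norm_inv, norm_pow, norm_mul, this]
    ring
  have hs3 := summable_int_pow 3 (by norm_num) z
  have hs2 := summable_int_pow 2 (by norm_num) z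
  have him : ∀ n : ℤ, ((((z : ℂ) + n) ^ 3 * (conj (z : ℂ) + n) ^ 1)⁻¹).im =
      (-(2 * z.im * I : ℂ)⁻¹ * (1 / ((z : ℂ) + n) ^ 3) -
        ((2 * z.im * I : ℂ) ^ 2)⁻¹ * (1 / ((z : ℂ) + n) ^ 2)).im := by
    intro n
    rw [pf31 (ha n) (hb n) (by rw [hsub]; exact hw0), hsub, Complex.add_im]
    have : ((((2 * z.im * I : ℂ) ^ 2)⁻¹ * (((z : ℂ) + n) * (conj (z : ℂ) + n))⁻¹)).im = 0 := by
      have h1 : ((z : ℂ) + n) * (conj (z : ℂ) + n) = (normSq ((z : ℂ) + n) : ℝ) := by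
        rw [← Complex.mul_conj]
        simp
      have h2 : (2 * z.im * I : ℂ) ^ 2 = ((-(4 * z.im ^ 2) : ℝ) : ℂ) := by
        push_cast
        rw [mul_pow, I_sq]
        ring
      rw [h1, h2, ← Complex.ofReal_inv, ← Complex.ofReal_inv, ← Complex.ofReal_mul,
        Complex.ofReal_im]
    rw [this, add_zero]
  rw [Complex.im_tsum hs4, tsum_congr him, ← Complex.im_tsum
    ((hs3.mul_left _).sub (hs2.mul_left _)), (hs3.mul_left _).tsum_sub (hs2.mul_left _),
    tsum_mul_left, tsum_mul_left, EisensteinSeries.qExpansion_identity (k := 2) (by norm_num) z,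
    EisensteinSeries.qExpansion_identity (k := 1) (by norm_num) z]
  have hq : ∀ k : ℕ, Summable fun d : ℕ => (d : ℂ) ^ k * cexp (2 * Real.pi * I * z) ^ d := by
    intro k
    simpa using summable_pow_mul_cexp k 1 z
  rw [← tsum_mul_left, ← tsum_mul_left, ← tsum_mul_left, ← tsum_mul_left,
    ← Summable.tsum_sub (((hq 2).mul_left _).mul_left _) (((hq 1).mul_left _).mul_left _),
    Complex.im_tsum ((((hq 2).mul_left _).mul_left _).sub (((hq 1).mul_left _).mul_left _)),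
    ← tsum_neg]
  refine tsum_congr fun d => ?_
  have hexp : cexp (2 * Real.pi * I * z) ^ d =
      ((Real.exp (-2 * Real.pi * d * z.im) : ℝ) : ℂ) *
        (Real.cos (2 * Real.pi * d * z.re) + Real.sin (2 * Real.pi * d * z.re) * I) := by
    rw [← Complex.exp_nat_mul]
    have : (d : ℂ) * (2 * Real.pi * I * z) =
        ((-2 * Real.pi * d * z.im : ℝ) : ℂ) + ((2 * Real.pi * d * z.re : ℝ) : ℂ) * I := by
      apply Complex.ext
      · simp
        ring
      · simp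
        ring
    rw [this, Complex.exp_add, Complex.exp_mul_I, Complex.ofReal_exp, Complex.ofReal_cos,
      Complex.ofReal_sin]
  have h3 : -(2 * z.im * I : ℂ)⁻¹ * ((-2 * Real.pi * I) ^ (2 + 1) / (Nat.factorial 2 : ℂ)) =
      ((-(2 * Real.pi ^ 3 / z.im) : ℝ) : ℂ) := by
    have hyc : (z.im : ℂ) ≠ 0 := by exact_mod_cast hy.ne'
    push_cast
    have hI : (I : ℂ) ≠ 0 := I_ne_zero
    field_simp
    simp [Nat.factorial]
  have h2 : ((2 * z.im * I : ℂ) ^ 2)⁻¹ * ((-2 * Real.pi * I) ^ (1 + 1) / (Nat.factorial 1 : ℂ)) =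
      ((Real.pi ^ 2 / z.im ^ 2 : ℝ) : ℂ) := by
    have hyc : (z.im : ℂ) ≠ 0 := by exact_mod_cast hy.ne'
    push_cast
    have hI : (I : ℂ) ≠ 0 := I_ne_zero
    field_simp
    simp [Nat.factorial]
  rw [← mul_assoc (-(2 * z.im * I : ℂ)⁻¹), ← mul_assoc (((2 * z.im * I : ℂ) ^ 2)⁻¹), h3, h2, hexp]
  simp only [Complex.sub_im, ← Complex.ofReal_natCast, ← Complex.ofReal_pow,
    Complex.add_im, Complex.mul_im, Complex.ofReal_re, Complex.ofReal_im, Complex.I_re,
    Complex.I_im]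
  ring

end Pool.Agent.LibEis68
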