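import Pool.Agent.LibEis68.G01

open Complex Polynomial Matrix
open scoped ComplexConjugate MatrixGroups UpperHalfPlane

namespace Pool.Agent.LibEis68

/-- The inner sums. -/
noncomputable def sS (x y : ℝ) (m : ℕ) : ℝ :=
  ∑' d : ℕ, Real.exp (-2 * Real.pi * d * (m * y)) * Real.sin (2 * Real.pi * d * (m * x)) *
        (2 * Real.pi ^ 3 * d ^ 2 / (m * y) + Real.pi ^ 2 * d / (m * y) ^ 2)

theorem lat31_im_eq (τ : ℍ) :
    Summable (fun m : ℕ+ => sS τ.re τ.im m) ∧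
      (lat 3 1 τ).im = -2 * ∑' m : ℕ+, sS τ.re τ.im m := by
  have hsum : Summable fun v : ℤ × ℤ =>
      (((v.1 : ℂ) * (τ : ℂ) + v.2) ^ 3 * ((v.1 : ℂ) * conj (τ : ℂ) + v.2) ^ 1)⁻¹ := by
    refine (finTwoArrowEquiv ℤ).summable_iff.mp <|
      (lat_summable (a := 3) (b := 1) (by norm_num) τ.im_pos).congr fun v => ?_
    simp
  have hF : ∀ m : ℕ+, (∑' n : ℤ, ((((m : ℤ) : ℂ) * (τ : ℂ) + n) ^ 3 *
      (((m : ℤ) : ℂ) * conj (τ : ℂ) + n) ^ 1)⁻¹).im = -sS τ.re τ.im m := by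
    intro m
    have hm : (0 : ℝ) < (m : ℕ) := by exact_mod_cast m.pos
    have him : 0 < (((m : ℕ) : ℂ) * (τ : ℂ)).im := by
      simpa using mul_pos hm τ.im_pos
    have := inner_im ⟨((m : ℕ) : ℂ) * (τ : ℂ), him⟩
    have h1 : (⟨((m : ℕ) : ℂ) * (τ : ℂ), him⟩ : ℍ).im = (m : ℕ) * τ.im := by
      change (((m : ℕ) : ℂ) * (τ : ℂ)).im = _
      simp
    have h2 : (⟨((m : ℕ) : ℂ) * (τ : ℂ), him⟩ : ℍ).re = (m : ℕ) * τ.re := by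
      change (((m : ℕ) : ℂ) * (τ : ℂ)).re = _
      simp
    rw [h1, h2] at this
    rw [sS, ← this]
    congr 1
    refine tsum_congr fun n => ?_
    simp
  have hdiv : Summable fun m : ℤ => ∑' n : ℤ, (((m : ℂ) * (τ : ℂ) + n) ^ 3 *
      ((m : ℂ) * conj (τ : ℂ) + n) ^ 1)⁻¹ := by
    simpa using hsum.prod
  have heven : ∀ m : ℤ, (∑' n : ℤ, ((((-m : ℤ) : ℂ) * (τ : ℂ) + n) ^ 3 *
      (((-m : ℤ) : ℂ) * conj (τ : ℂ) + n) ^ 1)⁻¹) = ∑' n : ℤ, (((m : ℂ) * (τ : ℂ) + n) ^ 3 *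
      ((m : ℂ) * conj (τ : ℂ) + n) ^ 1)⁻¹ := by
    intro m
    rw [← tsum_comp_neg]
    refine tsum_congr fun n => ?_
    congr 1
    push_cast
    ring
  have hpn : Summable fun m : ℕ+ => ∑' n : ℤ, ((((m : ℤ) : ℂ) * (τ : ℂ) + n) ^ 3 *
      (((m : ℤ) : ℂ) * conj (τ : ℂ) + n) ^ 1)⁻¹ :=
    hdiv.comp_injective (i := fun m : ℕ+ => ((m : ℕ) : ℤ)) fun a b h => by
      simpa using h
  have hmain : lat 3 1 τ = (∑' n : ℤ, ((((0 : ℤ) : ℂ) * (τ : ℂ) + n) ^ 3 *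
      (((0 : ℤ) : ℂ) * conj (τ : ℂ) + n) ^ 1)⁻¹) + 2 * ∑' m : ℕ+, ∑' n : ℤ,
        ((((m : ℤ) : ℂ) * (τ : ℂ) + n) ^ 3 * (((m : ℤ) : ℂ) * conj (τ : ℂ) + n) ^ 1)⁻¹ := by
    have h1 : lat 3 1 τ = ∑' v : ℤ × ℤ, (((v.1 : ℂ) * (τ : ℂ) + v.2) ^ 3 *
        ((v.1 : ℂ) * conj (τ : ℂ) + v.2) ^ 1)⁻¹ := by
      rw [lat, ← (finTwoArrowEquiv ℤ).symm.tsum_eq]
      refine tsum_congr fun v => ?_
      simp
    rw [h1, Summable.tsum_prod hsum,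
      tsum_int_eq_zero_add_two_mul_tsum_pnat (fun m => (heven m)) hdiv]
    simp
  constructor
  · have := (Complex.hasSum_im hpn.hasSum).summable
    refine (this.neg).congr fun m => ?_
    rw [hF m, neg_neg]
  · have h0 : (∑' n : ℤ, ((((0 : ℤ) : ℂ) * (τ : ℂ) + n) ^ 3 *
        (((0 : ℤ) : ℂ) * conj (τ : ℂ) + n) ^ 1)⁻¹).im = 0 := by
      have : (∑' n : ℤ, ((((0 : ℤ) : ℂ) * (τ : ℂ) + n) ^ 3 *
        (((0 : ℤ) : ℂ) * conj (τ : ℂ) + n) ^ 1)⁻¹) = ((∑' n : ℤ, ((n : ℝ) ^ 4)⁻¹ : ℝ) : ℂ) := by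
        rw [Complex.ofReal_tsum]
        refine tsum_congr fun n => ?_
        push_cast
        congr 1
        ring
      rw [this, Complex.ofReal_im]
    have h2 : (2 * ∑' m : ℕ+, ∑' n : ℤ, ((((m : ℤ) : ℂ) * (τ : ℂ) + n) ^ 3 *
        (((m : ℤ) : ℂ) * conj (τ : ℂ) + n) ^ 1)⁻¹).im = -2 * ∑' m : ℕ+, sS τ.re τ.im m := by
      have e2 : (2 : ℂ) = ((2 : ℝ) : ℂ) := by norm_num
      rw [e2, Complex.im_ofReal_mul, Complex.im_tsum hpn, tsum_congr hF, tsum_neg]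
      ring
    rw [hmain, Complex.add_im, h0, h2, zero_add]

end Pool.Agent.LibEis68
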