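import Pool.Agent.LibEis68.G02

open Complex Polynomial Matrix
open scoped ComplexConjugate MatrixGroups UpperHalfPlane

namespace Pool.Agent.LibEis68

theorem abs_sin_nat_mul_le (θ : ℝ) (n : ℕ) : |Real.sin (n * θ)| ≤ n * |Real.sin θ| := by
  induction n with
  | zero => simp
  | succ n ih =>
    have h : ((n + 1 : ℕ) : ℝ) * θ = n * θ + θ := by push_cast; ring
    rw [h, Real.sin_add]
    calc |Real.sin (n * θ) * Real.cos θ + Real.cos (n * θ) * Real.sin θ|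
        ≤ |Real.sin (n * θ) * Real.cos θ| + |Real.cos (n * θ) * Real.sin θ| := abs_add_le _ _
      _ ≤ |Real.sin (n * θ)| * 1 + 1 * |Real.sin θ| := by
          rw [abs_mul, abs_mul]
          gcongr
          · exact Real.abs_cos_le_one _
          · exact Real.abs_cos_le_one _
      _ ≤ ((n + 1 : ℕ) : ℝ) * |Real.sin θ| := by
          push_cast
          linarith

theorem cube_le_pow (d : ℕ) : ((d : ℝ) + 1) ^ 3 ≤ 8 ^ d := by
  induction d with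
  | zero => norm_num
  | succ d ih =>
    push_cast
    have hd : (0 : ℝ) ≤ d := Nat.cast_nonneg d
    have : ((d : ℝ) + 1 + 1) ^ 3 ≤ 8 * ((d : ℝ) + 1) ^ 3 := by
      have h2 : (d : ℝ) + 1 + 1 ≤ 2 * ((d : ℝ) + 1) := by linarith
      calc ((d : ℝ) + 1 + 1) ^ 3 ≤ (2 * ((d : ℝ) + 1)) ^ 3 := by gcongr
        _ = 8 * ((d : ℝ) + 1) ^ 3 := by ring
    calc ((d : ℝ) + 1 + 1) ^ 3 ≤ 8 * ((d : ℝ) + 1) ^ 3 := this
      _ ≤ 8 * 8 ^ d := by gcongr
      _ = 8 ^ (d + 1) := by ring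

/-- One term. -/
noncomputable def sT (x y : ℝ) (m d : ℕ) : ℝ :=
  Real.exp (-2 * Real.pi * d * (m * y)) * Real.sin (2 * Real.pi * d * (m * x)) *
        (2 * Real.pi ^ 3 * d ^ 2 / (m * y) + Real.pi ^ 2 * d / (m * y) ^ 2)

theorem sT_le {x y : ℝ} (hy : 0 < y) {m : ℕ} (hm : 1 ≤ m) (d : ℕ) :
    |sT x y m (d + 1)| ≤ |Real.sin (2 * Real.pi * x)| *
      (2 * Real.pi ^ 3 / y + Real.pi ^ 2 / y ^ 2) * (Real.exp (-2 * Real.pi * y) ^ m *
        (8 * Real.exp (-2 * Real.pi * y) ^ m) ^ d) := by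
  have hm0 : (0 : ℝ) < m := by exact_mod_cast hm
  have hm1 : (1 : ℝ) ≤ m := by exact_mod_cast hm
  have hd0 : (0 : ℝ) ≤ d := Nat.cast_nonneg d
  have hpi := Real.pi_pos
  have h1 : Real.exp (-2 * Real.pi * ((d + 1 : ℕ) : ℝ) * (m * y)) =
      Real.exp (-2 * Real.pi * y) ^ m * (Real.exp (-2 * Real.pi * y) ^ m) ^ d := by
    rw [← pow_mul, ← pow_add, ← Real.exp_nat_mul]
    congr 1
    push_cast
    ring
  have h2 : |Real.sin (2 * Real.pi * ((d + 1 : ℕ) : ℝ) * (m * x))| ≤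
      (((d : ℝ) + 1) * m) * |Real.sin (2 * Real.pi * x)| := by
    have := abs_sin_nat_mul_le (2 * Real.pi * x) ((d + 1) * m)
    have e : (((d + 1) * m : ℕ) : ℝ) * (2 * Real.pi * x) =
        2 * Real.pi * ((d + 1 : ℕ) : ℝ) * (m * x) := by push_cast; ring
    rw [e] at this
    push_cast at this ⊢
    exact this
  have h3 : 0 ≤ 2 * Real.pi ^ 3 * ((d + 1 : ℕ) : ℝ) ^ 2 / (m * y) +
      Real.pi ^ 2 * ((d + 1 : ℕ) : ℝ) / (m * y) ^ 2 := by positivity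
  have h4 : (((d : ℝ) + 1) * m) * (2 * Real.pi ^ 3 * ((d + 1 : ℕ) : ℝ) ^ 2 / (m * y) +
      Real.pi ^ 2 * ((d + 1 : ℕ) : ℝ) / (m * y) ^ 2) ≤
      ((d : ℝ) + 1) ^ 3 * (2 * Real.pi ^ 3 / y + Real.pi ^ 2 / y ^ 2) := by
    have e1 : (((d : ℝ) + 1) * m) * (2 * Real.pi ^ 3 * ((d + 1 : ℕ) : ℝ) ^ 2 / (m * y)) =
        ((d : ℝ) + 1) ^ 3 * (2 * Real.pi ^ 3 / y) := by
      push_cast
      field_simp
    have e2 : (((d : ℝ) + 1) * m) * (Real.pi ^ 2 * ((d + 1 : ℕ) : ℝ) / (m * y) ^ 2) ≤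
        ((d : ℝ) + 1) ^ 3 * (Real.pi ^ 2 / y ^ 2) := by
      have : (((d : ℝ) + 1) * m) * (Real.pi ^ 2 * ((d + 1 : ℕ) : ℝ) / (m * y) ^ 2) =
          (((d : ℝ) + 1) ^ 2 / m) * (Real.pi ^ 2 / y ^ 2) := by
        push_cast
        field_simp
      rw [this]
      gcongr
      rw [div_le_iff₀ hm0]
      nlinarith [sq_nonneg ((d : ℝ) + 1), mul_nonneg hd0 (sq_nonneg ((d : ℝ) + 1)),
        mul_nonneg (pow_nonneg (by linarith : (0 : ℝ) ≤ (d : ℝ) + 1) 3) (by linarith : (0:ℝ) ≤ m - 1)]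
    rw [mul_add, mul_add, e1]
    linarith
  rw [sT, abs_mul, abs_mul, abs_of_nonneg h3, abs_of_pos (Real.exp_pos _), h1]
  calc Real.exp (-2 * Real.pi * y) ^ m * (Real.exp (-2 * Real.pi * y) ^ m) ^ d *
        |Real.sin (2 * Real.pi * ((d + 1 : ℕ) : ℝ) * (m * x))| *
        (2 * Real.pi ^ 3 * ((d + 1 : ℕ) : ℝ) ^ 2 / (m * y) +
          Real.pi ^ 2 * ((d + 1 : ℕ) : ℝ) / (m * y) ^ 2)
      ≤ Real.exp (-2 * Real.pi * y) ^ m * (Real.exp (-2 * Real.pi * y) ^ m) ^ d *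
        ((((d : ℝ) + 1) * m) * |Real.sin (2 * Real.pi * x)|) *
        (2 * Real.pi ^ 3 * ((d + 1 : ℕ) : ℝ) ^ 2 / (m * y) +
          Real.pi ^ 2 * ((d + 1 : ℕ) : ℝ) / (m * y) ^ 2) := by gcongr
    _ = Real.exp (-2 * Real.pi * y) ^ m * (Real.exp (-2 * Real.pi * y) ^ m) ^ d *
        |Real.sin (2 * Real.pi * x)| * ((((d : ℝ) + 1) * m) *
        (2 * Real.pi ^ 3 * ((d + 1 : ℕ) : ℝ) ^ 2 / (m * y) +
          Real.pi ^ 2 * ((d + 1 : ℕ) : ℝ) / (m * y) ^ 2)) := by ring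
    _ ≤ Real.exp (-2 * Real.pi * y) ^ m * (Real.exp (-2 * Real.pi * y) ^ m) ^ d *
        |Real.sin (2 * Real.pi * x)| *
        (8 ^ d * (2 * Real.pi ^ 3 / y + Real.pi ^ 2 / y ^ 2)) := by
          refine mul_le_mul_of_nonneg_left (h4.trans ?_) (by positivity)
          refine mul_le_mul_of_nonneg_right (cube_le_pow d) (by positivity)
    _ = _ := by rw [mul_pow]; ring

theorem sS_bounds {x y : ℝ} (hy : 0 < y) (hQ : Real.exp (-2 * Real.pi * y) ≤ 1 / 100)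
    {m : ℕ} (hm : 1 ≤ m) :
    |sS x y m - sT x y m 1| ≤ |Real.sin (2 * Real.pi * x)| *
      (2 * Real.pi ^ 3 / y + Real.pi ^ 2 / y ^ 2) * (Real.exp (-2 * Real.pi * y) ^ m *
        (8 * Real.exp (-2 * Real.pi * y) ^ m / (1 - 8 * Real.exp (-2 * Real.pi * y) ^ m))) ∧
    |sS x y m| ≤ |Real.sin (2 * Real.pi * x)| *
      (2 * Real.pi ^ 3 / y + Real.pi ^ 2 / y ^ 2) * (Real.exp (-2 * Real.pi * y) ^ m *
        (1 / (1 - 8 * Real.exp (-2 * Real.pi * y) ^ m))) := by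
  set Q := Real.exp (-2 * Real.pi * y) with hQd
  set c := |Real.sin (2 * Real.pi * x)| * (2 * Real.pi ^ 3 / y + Real.pi ^ 2 / y ^ 2) with hc
  have hc0 : 0 ≤ c := by positivity
  have hQ0 : 0 < Q := Real.exp_pos _
  have hQm : Q ^ m ≤ 1 / 100 := (pow_le_of_le_one hQ0.le (by linarith) (by omega)).trans hQ
  have hQm0 : 0 < Q ^ m := pow_pos hQ0 m
  have hb : ∀ d, |sT x y m (d + 1)| ≤ c * (Q ^ m * (8 * Q ^ m) ^ d) := fun d => sT_le hy hm d
  have hg : HasSum (fun d : ℕ => c * (Q ^ m * (8 * Q ^ m) ^ d)) (c * (Q ^ m * (1 - 8 * Q ^ m)⁻¹)) :=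
    ((hasSum_geometric_of_lt_one (by positivity) (by linarith)).mul_left _).mul_left _
  have hs : Summable fun d => sT x y m (d + 1) :=
    Summable.of_norm_bounded hg.summable (fun d => by simpa using hb d)
  have h0 : sT x y m 0 = 0 := by simp [sT]
  have hS : sS x y m = ∑' d, sT x y m (d + 1) := by
    have : sS x y m = ∑' d, sT x y m d := rfl
    rw [this, ((summable_nat_add_iff 1).1 hs).tsum_eq_zero_add, h0, zero_add]
  have hS1 : sS x y m - sT x y m 1 = ∑' d, sT x y m (d + 1 + 1) := by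
    rw [hS, hs.tsum_eq_zero_add]
    simp
  constructor
  · rw [hS1, ← Real.norm_eq_abs]
    have hg1 : HasSum (fun d : ℕ => c * (Q ^ m * (8 * Q ^ m) ^ (d + 1)))
        (c * (Q ^ m * (8 * Q ^ m / (1 - 8 * Q ^ m)))) := by
      have := (((hasSum_geometric_of_lt_one (by positivity : (0:ℝ) ≤ 8 * Q ^ m)
        (by linarith)).mul_left (8 * Q ^ m)).mul_left (Q ^ m)).mul_left c
      have e : (fun d : ℕ => c * (Q ^ m * (8 * Q ^ m) ^ (d + 1))) =
          fun i : ℕ => c * (Q ^ m * (8 * Q ^ m * (8 * Q ^ m) ^ i)) := by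
        funext d
        ring
      rw [e, div_eq_mul_inv]
      exact this
    exact tsum_of_norm_bounded hg1 fun d => by simpa using hb (d + 1)
  · rw [hS, ← Real.norm_eq_abs]
    have := tsum_of_norm_bounded hg fun d => (by simpa using hb d : ‖sT x y m (d + 1)‖ ≤ _)
    simpa [one_div] using this

theorem lat31_im_ne_zero {τ : ℍ} (hy : √3 / 2 ≤ τ.im) (h0 : 0 < τ.re) (h1 : τ.re < 1 / 2) :
    (lat 3 1 τ).im ≠ 0 := by
  have hpi := Real.pi_gt_three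
  have hy0 : 0 < τ.im := τ.im_pos
  have hs3 : (1.7 : ℝ) ≤ √3 := by
    rw [Real.le_sqrt (by norm_num) (by norm_num)]
    norm_num
  obtain ⟨hsum, hlat⟩ := lat31_im_eq τ
  set Q := Real.exp (-2 * Real.pi * τ.im) with hQd
  have hQ0 : 0 < Q := Real.exp_pos _
  have hQ : Q ≤ 1 / 100 := by
    have h5 : (5 : ℝ) ≤ 2 * Real.pi * τ.im := by nlinarith
    have : Q ≤ Real.exp (-5) := by
      rw [hQd]
      apply Real.exp_le_exp.2
      linarith
    refine this.trans ?_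
    rw [Real.exp_neg, inv_eq_one_div]
    apply one_div_le_one_div_of_le (by norm_num)
    have h2 : (2.7 : ℝ) ≤ Real.exp 1 := by
      have := Real.exp_one_gt_d9
      linarith
    calc (100 : ℝ) ≤ 2.7 ^ 5 := by norm_num
      _ ≤ Real.exp 1 ^ 5 := by gcongr
      _ = Real.exp 5 := by rw [← Real.exp_nat_mul]; norm_num
  have hsin : 0 < Real.sin (2 * Real.pi * τ.re) := by
    apply Real.sin_pos_of_pos_of_lt_pi
    · positivity
    · nlinarith
  set c := |Real.sin (2 * Real.pi * τ.re)| *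
    (2 * Real.pi ^ 3 / τ.im + Real.pi ^ 2 / τ.im ^ 2) with hc
  have hc0 : 0 < c := by
    rw [hc, abs_of_pos hsin]
    positivity
  have hb := fun (m : ℕ) (hm : 1 ≤ m) => sS_bounds (x := τ.re) hy0 hQ hm
  have hT1 : sT τ.re τ.im 1 1 = c * Q := by
    rw [sT, hc, abs_of_pos hsin, hQd]
    simp
    ring_nf
  have h11 : c * Q * (1 - 1 / 10) ≤ sS τ.re τ.im 1 := by
    have := (hb 1 le_rfl).1
    rw [hT1, ← hc, ← hQd, pow_one] at this
    have h8 : 8 * Q / (1 - 8 * Q) ≤ 1 / 10 := by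
      rw [div_le_div_iff₀ (by linarith) (by norm_num)]
      linarith
    have h9 : c * (Q * (8 * Q / (1 - 8 * Q))) ≤ c * Q * (1 / 10) := by
      have : c * (Q * (8 * Q / (1 - 8 * Q))) = c * Q * (8 * Q / (1 - 8 * Q)) := by ring
      rw [this]
      gcongr
    have := (abs_le.1 this).1
    linarith
  have htail : ∀ n : ℕ, ‖sS τ.re τ.im (n + 1 + 1)‖ ≤ c * (2 * Q) * Q * Q ^ n := by
    intro n
    have := (hb (n + 1 + 1) (by omega)).2
    rw [← hc, ← hQd] at this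
    rw [Real.norm_eq_abs]
    refine this.trans ?_
    have hQn : Q ^ (n + 1 + 1) ≤ 1 / 100 :=
      (pow_le_of_le_one hQ0.le (by linarith) (by omega)).trans hQ
    have h8 : 1 / (1 - 8 * Q ^ (n + 1 + 1)) ≤ 2 := by
      rw [div_le_iff₀ (by linarith)]
      linarith
    calc c * (Q ^ (n + 1 + 1) * (1 / (1 - 8 * Q ^ (n + 1 + 1)))) ≤ c * (Q ^ (n + 1 + 1) * 2) := by
          gcongr
      _ = c * (2 * Q) * Q * Q ^ n := by ring
  have hgeo : HasSum (fun n : ℕ => c * (2 * Q) * Q * Q ^ n) (c * (2 * Q) * Q * (1 - Q)⁻¹) :=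
    (hasSum_geometric_of_lt_one hQ0.le (by linarith)).mul_left _
  have hsum' : Summable fun n : ℕ => sS τ.re τ.im (n + 1) :=
    summable_pnat_iff_summable_succ.1 hsum
  have htot : ∑' m : ℕ+, sS τ.re τ.im m = sS τ.re τ.im 1 + ∑' n : ℕ, sS τ.re τ.im (n + 1 + 1) := by
    rw [tsum_pnat_eq_tsum_succ (f := fun n => sS τ.re τ.im n), hsum'.tsum_eq_zero_add]
  have hrest : ‖∑' n : ℕ, sS τ.re τ.im (n + 1 + 1)‖ ≤ c * (2 * Q) * Q * (1 - Q)⁻¹ :=
    tsum_of_norm_bounded hgeo htail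
  have hrest2 : c * (2 * Q) * Q * (1 - Q)⁻¹ ≤ c * Q * (1 / 10) := by
    have : (1 - Q)⁻¹ ≤ 2 := by
      rw [inv_le_comm₀ (by linarith) (by norm_num)]
      linarith
    calc c * (2 * Q) * Q * (1 - Q)⁻¹ ≤ c * (2 * Q) * Q * 2 := by gcongr
      _ = c * Q * (4 * Q) := by ring
      _ ≤ c * Q * (1 / 10) := by gcongr; linarith
  have hpos : 0 < ∑' m : ℕ+, sS τ.re τ.im m := by
    rw [htot]
    have := (abs_le.1 (hrest.trans hrest2)).1
    have hcQ : 0 < c * Q := mul_pos hc0 hQ0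
    nlinarith
  rw [hlat]
  linarith

end Pool.Agent.LibEis68
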